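import Pool.Agent.MP_a2558b_lc.Meas

namespace Pool.Agent.MP_a2558b_lc

open Cardinal hiding univ
open Set Base

universe u

variable {κ : Cardinal.{u}} {α τ Q : Type u} {C : Crd α τ Q} {Lo : Set Q} {R : Q → Q → Prop}
  {o : τ} {tp : Q}

/-- An ultrafilter that is closed under intersections of size `c` is closed under intersections
of size `2 ^ c`. -/
theorem Crd.Comp.pow (h : C.Basic Lo R o) {c : Cardinal.{u}} (h' : C.Comp c) :
    C.Comp (2 ^ c) := by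
  classical
  intro ι E hι hE
  have h1 : #ι ≤ #(c.out → Bool) := by simpa using hι
  obtain ⟨g⟩ := (Cardinal.le_def _ _).1 h1
  have h2 : ∀ a : α, ∃ w : c.out → Bool, a ∈ ⋃ i, E i → ∃ i, a ∈ E i ∧ g i = w := by
    intro a
    by_cases ha : a ∈ ⋃ i, E i
    · obtain ⟨i, hi⟩ := mem_iUnion.1 ha
      exact ⟨g i, fun _ => ⟨i, hi, rfl⟩⟩
    · exact ⟨fun _ => false, fun h => absurd h ha⟩
  choose w hw using h2
  have h3 : ∀ k : c.out, ∃ b : Bool, C.null {a ∈ C.Pt | w a k ≠ b} := by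
    intro k
    rcases h.ultra {a | w a k = true} with h4 | h4
    · refine ⟨false, h.null_mono _ _ ?_ h4⟩
      intro a ha
      simpa using ha.2
    · refine ⟨true, h.null_mono _ _ ?_ h4⟩
      intro a ha
      exact ⟨ha.1, ha.2⟩
  choose b hb using h3
  have h4 := h' c.out _ (mk_out c).le hb
  have h5 : ∃ F, C.null F ∧ ∀ i, g i = b → E i ⊆ F := by
    by_cases hi : ∃ i, g i = b
    · obtain ⟨i, hi⟩ := hi
      refine ⟨E i, hE i, fun j hj => ?_⟩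
      rw [g.injective (hj.trans hi.symm)]
    · exact ⟨∅, h.null_empty, fun i hi' => absurd ⟨i, hi'⟩ hi⟩
  obtain ⟨F, hF, hF'⟩ := h5
  refine h.null_pt _ (h.null_mono _ _ ?_ (h.null_union _ _ h4 hF))
  rintro a ⟨ha, ha'⟩
  obtain ⟨i, hi, hi'⟩ := hw a ha
  by_cases hab : w a = b
  · exact Or.inr (hF' i (hi'.trans hab) hi)
  · obtain ⟨k, hk⟩ := Function.ne_iff.1 hab
    exact Or.inl (mem_iUnion.2 ⟨k, ha', hk⟩)

theorem mk_small_subsets (hi : κ.IsInaccessible) {T : Set τ} (hT : #T = κ) :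
    #{a : Set τ | a ⊆ T ∧ #a < κ} ≤ κ := by
  have h1 := mk_subset_mk_lt_cof (α := T) (by rw [hT]; exact hi.isStrongPrelimit)
  rw [hT, hi.isRegular.cof_ord] at h1
  refine le_of_le_of_eq ?_ h1
  refine mk_le_of_injective (f := fun a => ⟨Subtype.val ⁻¹' a.1,
    (mk_preimage_of_injective _ _ Subtype.val_injective).trans_lt a.2.2⟩) ?_
  rintro ⟨a, ha⟩ ⟨a', ha'⟩ e
  have e' : (Subtype.val ⁻¹' a : Set T) = Subtype.val ⁻¹' a' := congrArg Subtype.val e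
  refine Subtype.ext (Set.ext fun t => ⟨fun ht => ?_, fun ht => ?_⟩)
  · exact (Set.ext_iff.1 e' ⟨t, ha.1 ht⟩).1 ht
  · exact (Set.ext_iff.1 e' ⟨t, ha'.1 ht⟩).2 ht

/-- The coordinate given by a supercompactness measure on a closed term order. -/
theorem exists_top (hκ : Supercompact κ) (hi : κ.IsInaccessible) {T : Set τ}
    {le : τ → τ → Q → Prop} (h₁ : o ∈ T) (h₂ : ∀ t ∈ T, ∀ q ∈ Lo, le t t q)
    (h₃ : ∀ a b c, ∀ q ∈ Lo, le a b q → le b c q → le a c q)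
    (h₄ : ∀ a b, ∀ q ∈ Lo, ∀ q' ∈ Lo, R q' q → le a b q → le a b q')
    (h₅ : ∀ t ∈ T, ∀ q ∈ Lo, le t o q) {c : Cardinal.{u}} (hc : c < κ)
    (h₆ : NDCOn le Lo R tp T c) (hLo : #Lo < κ) (hT : #T = κ) :
    ∃ C : Crd (Set τ) τ Q, C.T = T ∧ C.le = le ∧ C.Basic Lo R o ∧ C.Act ∧
      (∀ c' < κ, C.Comp c') ∧ C.NDC Lo R tp c ∧ #C.Pt ≤ κ := by
  obtain ⟨S⟩ := hκ.scm τ
  obtain ⟨Z, hZT, hZ⟩ := le_mk_iff_exists_subset.1 (hc.le.trans hT.ge)
  have hsm : ∀ᶠ x in (S.U : Filter (Set τ)), #(x ∩ T : Set τ) < κ :=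
    S.small.mono fun x hx => (mk_le_mk_of_subset inter_subset_left).trans_lt hx
  have hpt : ∀ᶠ x in (S.U : Filter (Set τ)),
      x ∩ T ∈ {a : Set τ | a ⊆ T ∧ #a < κ ∧ NDCOn le Lo R tp a c} := by
    have h1 := S.ndc (it := id) Function.injective_id (e := id) Function.injective_id hLo
      (T := T) (Z := Z) (le := le) (R := R) (tp := tp) (by rw [hZ]; exact h₆)
    have h2 := S.sub_small id (A := Z) (by rw [hZ]; exact hc)
    filter_upwards [h1, h2, hsm] with x hx1 hx2 hx3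
    have e1 : cut id x Z = Z := Set.ext fun a => ⟨fun ha => ha.1, fun ha => ⟨ha, hx2 a ha⟩⟩
    have e2 : cut id x T = x ∩ T := Set.ext fun a => ⟨fun ha => ⟨ha.2, ha.1⟩, fun ha => ⟨ha.2, ha.1⟩⟩
    rw [e1, e2, hZ] at hx1
    exact ⟨inter_subset_right, hx3, hx1⟩
  have hnot : ∀ E : Set (Set τ), (¬ ∀ᶠ x in (S.U : Filter (Set τ)), x ∩ T ∉ E) ↔
      ∀ᶠ x in (S.U : Filter (Set τ)), x ∩ T ∈ E := by
    intro E
    rw [Ultrafilter.eventually_not, not_not]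
  refine ⟨⟨{a | a ⊆ T ∧ #a < κ ∧ NDCOn le Lo R tp a c}, T,
    fun E => ∀ᶠ x in (S.U : Filter (Set τ)), x ∩ T ∉ E, id, le⟩, rfl, rfl,
    ⟨h₁, fun a ha => ha.1, h₂, h₃, h₄, h₅, ?_, ?_, ?_, ?_, ?_, ?_, ?_⟩, ⟨?_, ?_⟩, ?_,
    ⟨h₆, fun a ha => ha.2.2⟩, ?_⟩
  · exact Filter.Eventually.of_forall fun x => notMem_empty _
  · exact fun E E' hE h => h.mono fun x hx hx' => hx (hE hx')
  · intro E E' h h'
    filter_upwards [h, h'] with x hx hx' hx''
    exact hx''.elim hx hx'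
  · intro E h
    filter_upwards [h, hpt] with x hx hx' hx''
    exact hx ⟨hx'', hx'⟩
  · intro E
    by_cases h : ∀ᶠ x in (S.U : Filter (Set τ)), x ∩ T ∉ E
    · exact Or.inl h
    · exact Or.inr (((hnot E).1 h).mono fun x hx hx' => hx'.2 hx)
  · intro t ht
    exact (S.fine t).mono fun x hx hx' => hx'.2 ⟨hx, ht⟩
  · intro A f _ hA hf
    have hA' := (hnot A).1 hA
    obtain ⟨t, ht⟩ := S.normal (fun x => f (x ∩ T)) (hA'.mono fun x hx => (hf _ hx).1)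
    refine ⟨t, (hnot _).2 ?_⟩
    filter_upwards [hA', ht] with x hx hx'
    exact ⟨hx, hx'⟩
  · exact (hnot _).2 hpt
  · intro a
    by_cases ha : T ⊆ a
    · refine hsm.mono fun x hx hx' => ?_
      rw [mem_singleton_iff.1 hx'] at hx
      exact absurd ((mk_le_mk_of_subset ha).trans_lt hx) (by rw [hT]; exact lt_irrefl _)
    · obtain ⟨t, ht, ht'⟩ := not_subset.1 ha
      refine (S.fine t).mono fun x hx hx' => ht' ?_
      rw [← mem_singleton_iff.1 hx']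
      exact ⟨hx, ht⟩
  · intro c' hc' ι E hι hE
    refine (S.all (hι.trans_lt hc') hE).mono fun x hx hx' => ?_
    obtain ⟨i, hi'⟩ := mem_iUnion.1 hx'
    exact hx i hi'
  · refine le_trans (mk_le_mk_of_subset ?_) (mk_small_subsets hi hT)
    intro a ha
    exact ⟨ha.1, ha.2.1⟩

end Pool.Agent.MP_a2558b_lc
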