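import Pool.Agent.MP_a2558b_lc.Lev
import Pool.Agent.MP_a2558b_lc.Top

namespace Pool.Agent.MP_a2558b_lc

open Cardinal hiding univ
open Set Base

universe u

set_option linter.unusedSectionVars false

variable {Θ Ω : Type u} [LinearOrder Θ] [WellFoundedLT Θ] [LinearOrder Ω] [WellFoundedLT Ω]
  [Inhabited Ω] {X : Ctx Θ Ω} {D : Sys (JJ Θ) Ω} {β : Θ} {k : Θ → Cardinal.{u}}

theorem comp_pt (hk : NOK X D β k) (i : Θ) : (D (pt β i)).Comp (2 ^ clo X D β k i) :=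
  (hk.comp i).pow (hk.basic i)

namespace Ar

section

variable {J Ω : Type u} [Inhabited Ω] {D : Sys J Ω} {c d : Set J}

theorem mk_le_split {ι : Type u} (e : ι → J) (hc : c ⊆ d) (he : ∀ j ∈ d, j ∈ c ∨ ∃ i, j = e i)
    {S : Set (Cnd J Ω)} (hS : S ⊆ Low D d) (V : ι → Set (Vl Ω))
    (hV : ∀ p ∈ S, ∀ i, p (e i) ∈ V i) : #S ≤ #(Low D c) * prod fun i => #(V i) := by
  rw [← mk_pi, mul_def]
  refine mk_le_of_injective (f := fun p : S => ((⟨res c p.1, res_mem (hS p.2) hc⟩ : Low D c),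
    fun i => (⟨p.1 (e i), hV _ p.2 i⟩ : V i))) fun p q h => Subtype.ext (funext fun j => ?_)
  have h₁ : res c p.1 = res c q.1 := congrArg (fun x => x.1.1) h
  by_cases hj : j ∈ d
  · rcases he j hj with h' | ⟨i, rfl⟩
    · rw [← res_of_mem (p := p.1) h', h₁, res_of_mem h']
    · exact congrArg (fun x => (x.2 i).1) h
  · rw [(hS p.2).2.1 j hj, (hS q.2).2.1 j hj]

omit [Inhabited Ω] in
theorem mk_vl (P T : Set Ω) (W : Set (Set Ω)) :
    #{v : Vl Ω | (∀ a, v.s = some a → a ∈ P) ∧ v.E ∈ W ∧ v.t ∈ T} ≤ (#P + 1) * #W * #T := by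
  rw [← mk_option, mul_def, mul_def]
  refine mk_le_of_surjective (β := {v : Vl Ω | (∀ a, v.s = some a → a ∈ P) ∧ v.E ∈ W ∧ v.t ∈ T})
    (f := fun x : (Option P × W) × T => ⟨⟨x.1.1.map Subtype.val, x.1.2, x.2⟩, fun a ha => ?_,
      x.1.2.2, x.2.2⟩) ?_
  · obtain ⟨b, -, rfl⟩ := Option.map_eq_some_iff.1 ha
    exact b.2
  · rintro ⟨⟨_ | a, E, t⟩, h₁, h₂, h₃⟩
    · exact ⟨((none, ⟨E, h₂⟩), ⟨t, h₃⟩), rfl⟩
    · exact ⟨((some ⟨a, h₁ a rfl⟩, ⟨E, h₂⟩), ⟨t, h₃⟩), rfl⟩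

omit [Inhabited Ω] in
theorem mk_ok {j : J} {Lo : Set (Cnd J Ω)} {R : Cnd J Ω → Cnd J Ω → Prop} {o : Ω}
    (hB : (D j).Basic Lo R o) :
    #{v | OkAt D j v} ≤ (#(D j).Pt + 1) * 2 ^ #(D j).Pt * #(D j).T := by
  rw [← mk_powerset]
  refine le_trans (mk_le_mk_of_subset ?_) (mk_vl _ _ _)
  exact fun v hv => ⟨hv.1, hv.2.1, hB.car_sub hv.1 hv.2.2.2⟩

end

omit [WellFoundedLT Θ] [WellFoundedLT Ω]

theorem k_inf (hk : NOK X D β k) (i : Θ) : ℵ₀ ≤ k i :=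
  (X.aleph0_le_lb β).trans ((Order.le_succ _).trans (hk.kmu i))

theorem mk_ok_pt (hk : NOK X D β k) (i : Θ) : #{v | OkAt D (pt β i) v} ≤ 2 ^ k i := by
  have h₀ := k_inf hk i
  have h₁ := (cantor (k i)).le
  have h₂ := h₀.trans h₁
  refine (mk_ok (hk.basic i)).trans (mul_le_of_le h₂ (mul_le_of_le h₂ (add_le_of_le h₂
    ((hk.size i).1.trans h₁) (one_le_aleph0.trans h₂)) ?_) ((hk.size i).2.trans h₁))
  exact power_le_power_left two_ne_zero (hk.size i).1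

theorem mk_ok_cc (hk : LevelOK X D β k) : #{v | OkAt D (cc β) v} ≤ X.κ β := by
  refine (mk_ok hk.2.basic).trans ?_
  rw [hk.2.pt_eq]
  simpa using hk.2.size

theorem pow_lt {c : Cardinal.{u}} (h : c < X.κ β) : 2 ^ c < X.κ β :=
  (X.inacc β).isStrongLimit.isStrongPrelimit h

theorem sum_lt (hk : NOK X D β k) : sum k < X.κ β :=
  sum_lt_of_isRegular (X.inacc β).isRegular
    (X.mk_Θ ▸ (X.aleph1_le_lb β).trans_lt (X.lb_lt' β)) hk.klt

theorem prod_ok_lt (hk : NOK X D β k) : (prod fun i => #{v | OkAt D (pt β i) v}) < X.κ β := by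
  refine (prod_le_prod _ _ (mk_ok_pt hk)).trans_lt ?_
  rw [← power_sum]
  exact pow_lt (sum_lt hk)

theorem clo_congr {D' : Sys (JJ Θ) Ω} (h : ∀ j ∈ levC β, D j = D' j) :
    clo X D β k = clo X D' β k := by
  funext i
  rw [clo, clo, Low_congr fun j hj => h j (levIio_sub_levC β hj)]

end Ar

theorem sum_k_lt (hk : NOK X D β k) : sum k < X.κ β := Ar.sum_lt hk

theorem mk_low_Iio_pt (hk : NOK X D β k) (i : Θ) :
    #(Low D (Iio (pt β i))) ≤ 2 ^ clo X D β k i := by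
  have h₀ : ℵ₀ ≤ clo X D β k i := (X.aleph0_le_lb β).trans ((Order.le_succ _).trans (mu_le_clo i))
  have h₁ := (cantor (clo X D β k i)).le
  refine (Ar.mk_le_split (fun i' : Iio i => pt β i') (levIio_sub_Iio β i) (fun j hj => ?_)
    Subset.rfl (fun i' => {v | OkAt D (pt β i') v}) fun p hp i' =>
      hp.1 _ (pt_lt_pt.2 (Or.inr ⟨rfl, i'.2⟩))).trans ?_
  · rcases mem_levC.1 (Iic_pt_sub_levC β i (Iio_subset_Iic_self hj)) with h | ⟨i', rfl⟩
    · exact Or.inl h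
    · exact Or.inr ⟨⟨i', ((pt_lt_pt.1 hj).resolve_left (lt_irrefl _)).2⟩, rfl⟩
  · refine mul_le_of_le (h₀.trans h₁) ((low_le_clo i).trans h₁)
      ((prod_le_prod _ _ fun i' : Iio i => Ar.mk_ok_pt hk i').trans ?_)
    rw [← power_sum]
    exact power_le_power_left two_ne_zero le_add_self

theorem mk_keys_pt (hV : Valid X D (Iio β)) (hk : NOK X D β k) (i : Θ) :
    #(Keys D (Iic (pt β i))) ≤ k i := by
  have _ := hV
  have h₀ := Ar.k_inf hk i
  refine (Ar.mk_le_split (fun i' : Iic i => pt β i')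
    ((levIio_sub_Iio β i).trans Iio_subset_Iic_self) (fun j hj => ?_) (fun p hp => hp.1)
    (fun i' => {v : Vl Ω | (∀ a, v.s = some a → a ∈ (D (pt β i')).Pt) ∧ v.E ∈ ({∅} : Set (Set Ω)) ∧
      v.t ∈ (D (pt β i')).T}) fun p hp i' => ?_).trans ?_
  · rcases mem_levC.1 (Iic_pt_sub_levC β i hj) with h | ⟨i', rfl⟩
    · exact Or.inl h
    · exact Or.inr ⟨⟨i', ((pt_le_pt.1 hj).resolve_left (lt_irrefl _)).2⟩, rfl⟩
  · have h := hp.1.1 (pt β i') (pt_le_pt.2 (Or.inr ⟨rfl, i'.2⟩))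
    exact ⟨h.1, hp.2 _, (hk.basic i').car_sub h.1 h.2.2.2⟩
  · refine mul_le_of_le h₀ (hk.klow i) ((prod_le_prod _ (fun _ => k i) fun i' => ?_).trans ?_)
    · have h := hk.kmono i'.2
      refine (Ar.mk_vl _ _ _).trans (mul_le_of_le h₀ ?_ ((hk.size i').2.trans h))
      rw [mk_singleton, mul_one]
      exact add_le_of_le h₀ ((hk.size i').1.trans h) (one_le_aleph0.trans h₀)
    · rw [prod_const']
      refine (power_le_power_left (aleph0_pos.trans_le h₀).ne' ?_).trans (hk.kpow i)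
      exact le_aleph0_iff_set_countable.2 (((X.ct i).insert i).mono fun x hx => hx.eq_or_lt)

theorem mk_low_levC (hk : NOK X D β k) : #(Low D (levC β)) < X.κ β :=
  (Ar.mk_le_split (fun i => pt β i) (levIio_sub_levC β) (fun _ hj => mem_levC.1 hj)
    Subset.rfl (fun i => {v | OkAt D (pt β i) v}) fun _ hp _ =>
      hp.1 _ (pt_mem_levC.2 le_rfl)).trans_lt
    (mul_lt_of_lt (X.aleph0_lt_κ β).le ((hk.klow β).trans_lt (hk.klt β)) (Ar.prod_ok_lt hk))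

theorem mk_low_Iic (hk : LevelOK X D β k) : #(Low D (lev (Iic β))) ≤ X.κ β := by
  refine (Ar.mk_le_split (fun _ : PUnit.{u + 1} => cc β) (levC_sub_levIic β)
    (fun _ hj => (mem_levIic.1 hj).imp_right fun h => ⟨⟨⟩, h⟩)
    Subset.rfl (fun _ => {v | OkAt D (cc β) v}) fun _ hp _ =>
      hp.1 _ (cc_mem_lev.2 le_rfl)).trans
    (mul_le_of_le (X.aleph0_lt_κ β).le (mk_low_levC hk.1).le ?_)
  rw [prod_const', mk_punit, power_one]
  exact Ar.mk_ok_cc hk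

theorem mk_low_Iio (hV : Valid X D (Iio β)) : #(Low D (lev (Iio β))) < X.κ β := by
  have h₁ : #(Low D (lev (Iio β))) ≤ prod fun γ : Iio β => #(Low D (lev (Iic γ.1))) := by
    rw [← mk_pi]
    refine mk_le_of_injective (f := fun (p : Low D (lev (Iio β))) (γ : Iio β) =>
      (⟨res _ p.1, res_mem p.2 (levIic_sub_levIio γ.2)⟩ : Low D (lev (Iic γ.1))))
      fun p q h => Subtype.ext (funext fun j => ?_)
    by_cases hj : j ∈ lev (Iio β)
    · have e : res (lev (Iic (ofLex j).1)) p.1 = res (lev (Iic (ofLex j).1)) q.1 :=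
        congrArg Subtype.val (congrFun h ⟨(ofLex j).1, hj⟩)
      have m : j ∈ lev (Iic (ofLex j).1) := le_refl (ofLex j).1
      rw [← res_of_mem (p := p.1) m, e, res_of_mem m]
    · rw [p.2.2.1 j hj, q.2.2.1 j hj]
  refine (h₁.trans ((prod_le_prod _ (fun _ => X.lb β) fun γ => ?_).trans ?_)).trans_lt
    (Ar.pow_lt (X.lb_lt' β))
  · obtain ⟨k, hk⟩ := hV γ γ.2
    exact (mk_low_Iic hk).trans (X.κ_le_lb γ.2)
  · rw [prod_const', ← power_self_eq (X.aleph0_le_lb β)]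
    exact power_le_power_left (aleph0_pos.trans_le (X.aleph0_le_lb β)).ne'
      ((le_aleph0_iff_set_countable.2 (X.ct β)).trans (X.aleph0_le_lb β))

theorem mixCut_lev (hV : Valid X D univ) {A : Set Θ} (hA : IsLowerSet A) :
    MixCut D (lev A) univ := by
  intro j _ hj
  have h : lev A ⊆ lev (Iio (ofLex j).1) :=
    lev_mono fun x hx => lt_of_not_ge fun h => hj (hA h hx)
  refine ⟨h.trans levIio_sub_bs, ?_⟩
  rcases JJ_cases j with ⟨γ, i, rfl⟩ | ⟨γ, rfl⟩ <;> obtain ⟨k, hk⟩ := hV γ trivial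
  · exact Or.inl ((cl_pt hk.1 i).anti ((mk_le_mk_of_subset fun p hp =>
      Low_mono ((basicOn_univ hV).anti (subset_univ _)) h hp).trans (low_le_clo i)))
  · rw [bs_cc]
    exact Or.inr ⟨hk.2.pt_eq, hk.2.mix⟩

theorem mixCut_levC (hV : Valid X D univ) (β : Θ) : MixCut D (levC β) univ := by
  intro j _ hj
  rcases JJ_cases j with ⟨γ, i, rfl⟩ | ⟨γ, rfl⟩ <;> obtain ⟨k, hk⟩ := hV γ trivial
  · have h : levC β ⊆ lev (Iio γ) :=
      (levC_sub_levIic β).trans (levIic_sub_levIio (by simpa using hj))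
    exact ⟨bs_pt γ i ▸ h, Or.inl ((cl_pt hk.1 i).anti ((mk_le_mk_of_subset fun p hp =>
      Low_mono ((basicOn_univ hV).anti (subset_univ _)) h hp).trans (low_le_clo i)))⟩
  · rw [bs_cc]
    exact ⟨Iio_subset_Iio (not_lt.1 hj), Or.inr ⟨hk.2.pt_eq, hk.2.mix⟩⟩

/-- The set of direct extensions of `p` on one level is small. -/
theorem mk_level (hk : LevelOK X D β k) (p : Cnd (JJ Θ) Ω) :
    #{v : WithTop Θ → Vl Ω | ∀ i, OkAt D (toLex (β, i)) (v i) ∧ (v i).s = (p (toLex (β, i))).s} ≤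
      X.κ β := by
  refine le_trans ?_ (mul_le_of_le (X.aleph0_lt_κ β).le (Ar.prod_ok_lt hk.1).le (Ar.mk_ok_cc hk))
  rw [← mk_pi, mul_def]
  refine mk_le_of_injective (f := fun v => (fun i : Θ => ⟨v.1 i, (v.2 i).1⟩, ⟨v.1 ⊤, (v.2 ⊤).1⟩))
    fun v w h => Subtype.ext (funext fun i => ?_)
  induction i using WithTop.recTopCoe with
  | top => exact congrArg (fun x => x.2.1) h
  | coe i => exact congrArg (fun x => (x.1 i).1) h

theorem NOK_congr {D' : Sys (JJ Θ) Ω} (h : ∀ j ∈ levC β, D j = D' j) (hk : NOK X D β k) :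
    NOK X D' β k := by
  have h₁ := Low_congr fun j hj => h j (levIio_sub_levC β hj)
  have h₂ := Le_congr fun j hj => h j (levIio_sub_levC β hj)
  have h₃ : ∀ i, D (pt β i) = D' (pt β i) := fun i => h _ (pt_mem_levC.2 le_rfl)
  have h₄ := Ar.clo_congr (X := X) (k := k) h
  obtain ⟨a₁, a₂, a₃, a₄, a₅, a₆, a₇, a₈, a₉, a₀⟩ := hk
  rw [h₄] at a₈ a₉
  rw [h₁] at a₁ a₄ a₉
  rw [h₂] at a₁ a₉
  simp only [h₃] at a₁ a₇ a₈ a₉ a₀
  exact ⟨a₁, a₂, a₃, a₄, a₅, a₆, a₇, a₈, a₉, a₀⟩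

theorem LevelOK_congr {D' : Sys (JJ Θ) Ω} (h : ∀ j ∈ lev (Iic β), D j = D' j)
    (hk : LevelOK X D β k) : LevelOK X D' β k := by
  have h' : ∀ j ∈ levC β, D j = D' j := fun j hj => h j (levC_sub_levIic β hj)
  refine ⟨NOK_congr h' hk.1, ?_⟩
  rw [← Low_congr h', ← Le_congr h', ← h _ (cc_mem_lev.2 le_rfl)]
  exact hk.2

end Pool.Agent.MP_a2558b_lc
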