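import Pool.Agent.MP_a2558b_lc.Sys

namespace Pool.Agent.MP_a2558b_lc

open Cardinal hiding univ
open Set Base

universe u

/-! ### Coordinates -/

theorem NDCOn.anti {τ Q : Type u} {le : τ → τ → Q → Prop} {Lo : Set Q} {R : Q → Q → Prop}
    {tp : Q} {S : Set τ} {c c' : Cardinal.{u}} (h : NDCOn le Lo R tp S c) (hc : c' ≤ c) :
    NDCOn le Lo R tp S c' := fun ι t M t0 hι => h ι t M t0 (hι.trans hc)

namespace Crd

variable {α τ Q : Type u} {C : Crd α τ Q} {Lo : Set Q} {R : Q → Q → Prop} {o : τ} {tp : Q}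
  {c c' : Cardinal.{u}}

theorem Comp.anti (h : C.Comp c) (hc : c' ≤ c) : C.Comp c' :=
  fun ι E hι => h ι E (hι.trans hc)

theorem NDC.anti (h : C.NDC Lo R tp c) (hc : c' ≤ c) : C.NDC Lo R tp c' :=
  ⟨h.1.anti hc, fun a ha => (h.2 a ha).anti hc⟩

theorem NDC.car (h : C.NDC Lo R tp c) {s : Option α} (hs : ∀ a, s = some a → a ∈ C.Pt) :
    NDCOn C.le Lo R tp (C.car s) c := by
  cases s with
  | none => exact h.1
  | some a => exact h.2 a (hs a rfl)

theorem Basic.car_sub (h : C.Basic Lo R o) {s : Option α} (hs : ∀ a, s = some a → a ∈ C.Pt) :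
    C.car s ⊆ C.T := by
  cases s with
  | none => exact Subset.rfl
  | some a => exact h.y_sub a (hs a rfl)

/-- A positive set of points contains a point outside a null set that allows a given term. -/
theorem Basic.exists_pt (h : C.Basic Lo R o) {A E : Set α} (hA : A ⊆ C.Pt) (hn : ¬ C.null A)
    (hE : C.null E) {t : τ} (ht : t ∈ C.T) : ∃ a ∈ A, a ∉ E ∧ t ∈ C.y a := by
  by_contra H
  push Not at H
  refine hn (h.null_mono _ _ (fun a ha => ?_) (h.null_union _ _ hE (h.fine t ht)))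
  by_cases e : a ∈ E
  exacts [Or.inl e, Or.inr ⟨hA ha, H a ha e⟩]

theorem Basic.null_diff (h : C.Basic Lo R o) {A : Set α} (hn : ¬ C.null A) :
    C.null (C.Pt \ A) := (h.ultra A).resolve_left hn

/-- A positive set split into few pieces has a positive piece. -/
theorem Comp.exists_pos (h : C.Comp c) (hb : C.Basic Lo R o) {ι : Type u} (hι : #ι ≤ c)
    {A : Set α} (hn : ¬ C.null A) (B : ι → Set α) (hB : ∀ a ∈ A, ∃ i, a ∈ B i) :
    ∃ i, ¬ C.null (B i) := by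
  by_contra H
  push Not at H
  exact hn (hb.null_mono _ _ (fun a ha => mem_iUnion.2 (hB a ha)) (h ι B hι H))

theorem Comp.null_small (h : C.Comp c) (hb : C.Basic Lo R o) (ha : C.Act) {A : Set α}
    (hA : #A ≤ c) : C.null A :=
  hb.null_mono _ _ (fun a ha => mem_iUnion.2 ⟨⟨a, ha⟩, rfl⟩)
    (h A (fun a => {a.1}) hA fun a => ha.2 a.1)

end Crd

/-! ### Names -/

section Names

variable {Q X : Type u} {L : Set Q} {R : Q → Q → Prop}

theorem IsNm.eq_of_le {dec : Q → X → Prop} (h : IsNm L R dec) {p q r : Q} (hp : p ∈ L)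
    (hq : q ∈ L) (hr : r ∈ L) (h₁ : R r p) (h₂ : R r q) {x y : X} (hx : dec p x) (hy : dec q y) :
    x = y := h.func r hr x y (h.mono p hp r hr h₁ x hx) (h.mono q hq r hr h₂ y hy)

/-- Maximum principle: a name for a witness of an open property that is dense below `l0`. -/
theorem exists_nm [Nonempty X] (hr : ∀ p ∈ L, R p p)
    (ht : ∀ p ∈ L, ∀ q ∈ L, ∀ r ∈ L, R r q → R q p → R r p) (Φ : Q → X → Prop)
    (mono : ∀ p ∈ L, ∀ q ∈ L, R q p → ∀ x, Φ p x → Φ q x) (l0 : Q) (hl0 : l0 ∈ L)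
    (dense : ∀ p ∈ L, R p l0 → ∃ q ∈ L, R q p ∧ ∃ x, Φ q x) :
    ∃ dec : Q → X → Prop, IsNm L R dec ∧ ∀ q ∈ L, R q l0 → ∀ x, dec q x →
      ∀ q' ∈ L, R q' q → ∃ r ∈ L, R r q' ∧ Φ r x := by
  classical
  obtain ⟨x0⟩ := ‹Nonempty X›
  let lt : X → X → Prop := WellOrderingRel
  have wf : WellFounded lt := (inferInstance : IsWellOrder X WellOrderingRel).wf
  let d0 : Q → X → Prop := fun q x =>
    (R q l0 ∧ Φ q x ∧ ∀ y, lt y x → ∀ r ∈ L, R r q → ¬ Φ r y) ∨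
      ((∀ r ∈ L, R r q → ¬ R r l0) ∧ x = x0)
  have m0 : ∀ p ∈ L, ∀ q ∈ L, R q p → ∀ x, d0 p x → d0 q x := by
    rintro p hp q hq h x (⟨h₁, h₂, h₃⟩ | ⟨h₁, h₂⟩)
    · exact Or.inl ⟨ht _ hl0 _ hp _ hq h h₁, mono _ hp _ hq h _ h₂,
        fun y hy r hr' h' => h₃ y hy r hr' (ht _ hp _ hq _ hr' h' h)⟩
    · exact Or.inr ⟨fun r hr' h' => h₁ r hr' (ht _ hp _ hq _ hr' h' h), h₂⟩
  have f0 : ∀ p ∈ L, ∀ x y, d0 p x → d0 p y → x = y := by
    rintro p hp x y (⟨h₁, h₂, h₃⟩ | ⟨h₁, h₂⟩) (⟨h₄, h₅, h₆⟩ | ⟨h₄, h₅⟩)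
    · rcases trichotomous_of lt x y with h | h | h
      exacts [absurd h₂ (h₆ x h p hp (hr p hp)), h, absurd h₅ (h₃ y h p hp (hr p hp))]
    · exact absurd h₁ (h₄ p hp (hr p hp))
    · exact absurd h₄ (h₁ p hp (hr p hp))
    · rw [h₂, h₅]
  have e0 : ∀ p ∈ L, ∃ q ∈ L, R q p ∧ ∃ x, d0 q x := by
    intro p hp
    by_cases h : ∀ r ∈ L, R r p → ¬ R r l0
    · exact ⟨p, hp, hr p hp, x0, Or.inr ⟨h, rfl⟩⟩
    push Not at h
    obtain ⟨r, hr', h₁, h₂⟩ := h
    obtain ⟨x, ⟨q, hq, h₃, h₄⟩, hmin⟩ := wf.has_min {x | ∃ q ∈ L, R q r ∧ Φ q x}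
      (by obtain ⟨q, hq, h, x, hx⟩ := dense r hr' h₂; exact ⟨x, q, hq, h, hx⟩)
    exact ⟨q, hq, ht _ hp _ hr' _ hq h₃ h₁, x, Or.inl ⟨ht _ hl0 _ hr' _ hq h₃ h₂, h₄,
      fun y hy s hs h h' => hmin y ⟨s, hs, ht _ hr' _ hq _ hs h h₃, h'⟩ hy⟩⟩
  refine ⟨fun q x => ∀ q' ∈ L, R q' q → ∃ r ∈ L, R r q' ∧ d0 r x, ⟨?_, ?_, ?_, ?_⟩, ?_⟩
  · exact fun p hp q hq h x H q' hq' h' => H q' hq' (ht _ hp _ hq _ hq' h' h)
  · intro p hp
    obtain ⟨q, hq, h, x, hx⟩ := e0 p hp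
    exact ⟨q, hq, h, x, fun q' hq' h' => ⟨q', hq', hr _ hq', m0 _ hq _ hq' h' _ hx⟩⟩
  · intro p hp x y hx hy
    obtain ⟨q, hq, h, hx⟩ := hx p hp (hr p hp)
    obtain ⟨r, hr', h', hy⟩ := hy q hq h
    exact f0 r hr' x y (m0 _ hq _ hr' h' _ hx) hy
  · intro p hp x H q hq h
    obtain ⟨r, hr', h', H'⟩ := H q hq h
    obtain ⟨s, hs, h'', H''⟩ := H' r hr' (hr r hr')
    exact ⟨s, hs, ht _ hq _ hr' _ hs h'' h', H''⟩
  · intro q hq h x H q' hq' h'
    obtain ⟨r, hr', h'', ⟨-, h₂, -⟩ | ⟨h₁, -⟩⟩ := H q' hq' h'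
    · exact ⟨r, hr', h'', h₂⟩
    · exact absurd (ht _ hl0 _ hq _ hr' (ht _ hq _ hq' _ hr' h'' h') h) (h₁ r hr' (hr r hr'))

/-- The name of the truth value of an open set. -/
def tvN (L : Set Q) (R : Q → Q → Prop) (H : Set Q) (q : Q) (b : ULift.{u} Bool) : Prop :=
  (b.down = true ∧ ∀ r ∈ L, R r q → ∃ s ∈ L, R s r ∧ s ∈ H) ∨
    (b.down = false ∧ ∀ r ∈ L, R r q → r ∉ H)

theorem isNm_tvN (hr : ∀ p ∈ L, R p p)
    (ht : ∀ p ∈ L, ∀ q ∈ L, ∀ r ∈ L, R r q → R q p → R r p) {H : Set Q}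
    (hH : ∀ p ∈ L, ∀ q ∈ L, R q p → p ∈ H → q ∈ H) : IsNm L R (tvN L R H) := by
  refine ⟨?_, ?_, ?_, ?_⟩
  · rintro p hp q hq h x (⟨h₁, h₂⟩ | ⟨h₁, h₂⟩)
    · exact Or.inl ⟨h₁, fun r hr' h' => h₂ r hr' (ht _ hp _ hq _ hr' h' h)⟩
    · exact Or.inr ⟨h₁, fun r hr' h' => h₂ r hr' (ht _ hp _ hq _ hr' h' h)⟩
  · intro p hp
    by_cases h : ∀ r ∈ L, R r p → r ∉ H
    · exact ⟨p, hp, hr p hp, ⟨false⟩, Or.inr ⟨rfl, h⟩⟩
    push Not at h
    obtain ⟨r, hr', h₁, h₂⟩ := h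
    exact ⟨r, hr', h₁, ⟨true⟩, Or.inl ⟨rfl, fun s hs h => ⟨s, hs, hr s hs, hH _ hr' _ hs h h₂⟩⟩⟩
  · rintro p hp ⟨x⟩ ⟨y⟩ (⟨h₁, h₂⟩ | ⟨h₁, h₂⟩) (⟨h₃, h₄⟩ | ⟨h₃, h₄⟩)
    · simp_all
    · obtain ⟨s, hs, h, h'⟩ := h₂ p hp (hr p hp)
      exact absurd h' (h₄ s hs h)
    · obtain ⟨s, hs, h, h'⟩ := h₄ p hp (hr p hp)
      exact absurd h' (h₂ s hs h)
    · simp_all
  · rintro p hp ⟨x⟩ h
    cases x
    · refine Or.inr ⟨rfl, fun q hq h' hH' => ?_⟩
      obtain ⟨r, hr', h'', ⟨h₁, -⟩ | ⟨-, h₂⟩⟩ := h q hq h'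
      · simp at h₁
      · exact h₂ r hr' (hr r hr') (hH _ hq _ hr' h'' hH')
    · refine Or.inl ⟨rfl, fun q hq h' => ?_⟩
      obtain ⟨r, hr', h'', ⟨-, h₂⟩ | ⟨h₁, -⟩⟩ := h q hq h'
      · obtain ⟨s, hs, h₃, h₄⟩ := h₂ r hr' (hr r hr')
        exact ⟨s, hs, ht _ hq _ hr' _ hs h₃ h'', h₄⟩
      · simp at h₁

end Names

/-! ### Conditions -/

variable {J Ω : Type u} [Inhabited Ω]

section

variable {b c d : Set J} {l p q : Cnd J Ω} {j : J}

omit [Inhabited Ω] in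
theorem glue_of_mem (h : j ∈ c) : glue c l p j = l j := if_pos h

omit [Inhabited Ω] in
theorem glue_of_notMem (h : j ∉ c) : glue c l p j = p j := if_neg h

theorem res_of_mem (h : j ∈ c) : res c p j = p j := if_pos h

theorem res_of_notMem (h : j ∉ c) : res c p j = vtop := if_neg h

theorem res_congr (h : ∀ j ∈ c, p j = q j) : res c p = res c q := by
  funext j
  by_cases e : j ∈ c
  · rw [res_of_mem e, res_of_mem e, h j e]
  · rw [res_of_notMem e, res_of_notMem e]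

theorem res_glue (h : b ⊆ c) : res b (glue c l p) = res b l :=
  res_congr fun _ hj => glue_of_mem (h hj)

theorem res_res (h : b ⊆ c) : res b (res c p) = res b p := res_glue h

theorem res_ctop : res c (ctop : Cnd J Ω) = ctop := by
  funext j
  by_cases e : j ∈ c
  exacts [res_of_mem e, res_of_notMem e]

omit [Inhabited Ω] in
theorem glue_self : glue c p p = p := by
  funext j
  by_cases e : j ∈ c
  exacts [glue_of_mem e, glue_of_notMem e]

omit [Inhabited Ω] in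
theorem glue_congr {l' p' : Cnd J Ω} (h : ∀ j ∈ c, l j = l' j) (h' : ∀ j, j ∉ c → p j = p' j) :
    glue c l p = glue c l' p' := by
  funext j
  by_cases e : j ∈ c
  · rw [glue_of_mem e, glue_of_mem e, h j e]
  · rw [glue_of_notMem e, glue_of_notMem e, h' j e]

theorem glue_res : glue c (res c l) p = glue c l p :=
  glue_congr (fun _ h => res_of_mem h) fun _ _ => rfl

theorem glue_res_self : glue c (res c p) p = p := glue_res.trans glue_self

variable {D : Sys J Ω}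

theorem res_eq_self (h : p ∈ Low D c) : res c p = p := by
  funext j
  by_cases e : j ∈ c
  exacts [res_of_mem e, (res_of_notMem e).trans (h.2.1 j e).symm]

theorem res_mem (h : p ∈ Low D d) (hc : c ⊆ d) : res c p ∈ Low D c := by
  refine ⟨fun j hj => ?_, fun j hj => res_of_notMem hj, h.2.2.subset fun j hj => ?_⟩
  · rw [res_of_mem hj]; exact h.1 j (hc hj)
  · by_cases e : j ∈ c
    · simpa [res_of_mem e] using hj
    · simp [res_of_notMem e, vtop] at hj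

theorem glue_mem (hl : l ∈ Low D d) (hp : p ∈ Low D d) : glue c l p ∈ Low D d := by
  refine ⟨fun j hj => ?_, fun j hj => ?_, (hl.2.2.union hp.2.2).subset fun j hj => ?_⟩
  · by_cases e : j ∈ c
    · rw [glue_of_mem e]; exact hl.1 j hj
    · rw [glue_of_notMem e]; exact hp.1 j hj
  · by_cases e : j ∈ c
    · rw [glue_of_mem e]; exact hl.2.1 j hj
    · rw [glue_of_notMem e]; exact hp.2.1 j hj
  · by_cases e : j ∈ c
    · exact Or.inl (by simpa [glue_of_mem e] using hj)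
    · exact Or.inr (by simpa [glue_of_notMem e] using hj)

theorem glue_mem' (hl : l ∈ Low D c) (hc : c ⊆ d) (hp : p ∈ Low D d) : glue c l p ∈ Low D d := by
  refine ⟨fun j hj => ?_, fun j hj => ?_, (hl.2.2.union hp.2.2).subset fun j hj => ?_⟩
  · by_cases e : j ∈ c
    · rw [glue_of_mem e]; exact hl.1 j e
    · rw [glue_of_notMem e]; exact hp.1 j hj
  · rw [glue_of_notMem fun e => hj (hc e)]; exact hp.2.1 j hj
  · by_cases e : j ∈ c
    · exact Or.inl (by simpa [glue_of_mem e] using hj)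
    · exact Or.inr (by simpa [glue_of_notMem e] using hj)

theorem Low_congr {D' : Sys J Ω} (h : ∀ j ∈ c, D j = D' j) : Low D c = Low D' c := by
  ext p
  refine and_congr_left fun _ => forall₂_congr fun j hj => ?_
  simp only [OkAt, h j hj]

theorem Low_empty : Low D (∅ : Set J) = {ctop} := by
  ext p
  refine ⟨fun h => funext fun j => h.2.1 j (notMem_empty j), ?_⟩
  rintro rfl
  exact ⟨fun j hj => hj.elim, fun _ _ => rfl, by simp [ctop, vtop]⟩

end

variable [LinearOrder J] [Base J] {D : Sys J Ω} {b c d e : Set J} {l p q r : Cnd J Ω} {j : J}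

theorem bs_sub (hd : IsLowerSet d) (hj : j ∈ d) : bs j ⊆ d :=
  fun _ hi => hd (le_of_lt (sub j hi)) hj

theorem Le_congr {D' : Sys J Ω} (h : ∀ j ∈ c, D j = D' j) : Le D c = Le D' c := by
  funext q p
  refine propext (forall₂_congr fun j hj => ?_)
  simp only [LeAt, h j hj]

theorem BasicOn.anti (hB : BasicOn D d) (h : c ⊆ d) : BasicOn D c := fun j hj => hB j (h hj)

theorem Le.anti (h : Le D d q p) (hc : c ⊆ d) : Le D c q p := fun j hj => h j (hc hj)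

theorem Cl.anti {x y : Cardinal.{u}} (h : Cl D j x) (hy : y ≤ x) : Cl D j y :=
  ⟨h.1.anti hy, h.2.anti hy⟩

theorem okAt_top (hB : BasicOn D d) (hj : j ∈ d) : OkAt D j vtop :=
  ⟨fun _ h => by simp [vtop] at h, empty_subset _, (hB j hj).null_empty, (hB j hj).o_mem⟩

theorem ctop_mem (hB : BasicOn D d) : ctop ∈ Low D d :=
  ⟨fun _ hj => okAt_top hB hj, fun _ _ => rfl, by simp [ctop, vtop]⟩

theorem Low_mono (hB : BasicOn D d) (hc : c ⊆ d) (h : p ∈ Low D c) : p ∈ Low D d := by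
  refine ⟨fun j hj => ?_, fun j hj => h.2.1 j fun e => hj (hc e), h.2.2⟩
  by_cases e : j ∈ c
  · exact h.1 j e
  · rw [h.2.1 j e]; exact okAt_top hB hj

theorem t_mem (hB : BasicOn D d) (hp : p ∈ Low D d) (hj : j ∈ d) : (p j).t ∈ (D j).T :=
  (hB j hj).car_sub (hp.1 j hj).1 (hp.1 j hj).2.2.2

theorem res_bs_mem (hd : IsLowerSet d) (hp : p ∈ Low D d) (hj : j ∈ d) :
    res (bs j) p ∈ Low D (bs j) := res_mem hp (bs_sub hd hj)

theorem leAt_congr {q' p' : Cnd J Ω} (h₁ : q j = q' j) (h₂ : ∀ i ∈ bs j, q i = q' i)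
    (h₃ : p j = p' j) : LeAt D j q p ↔ LeAt D j q' p' := by
  simp only [LeAt, h₁, h₃, res_congr h₂]

theorem le_congr (hc : IsLowerSet c) {q' p' : Cnd J Ω} (h₁ : ∀ j ∈ c, q j = q' j)
    (h₂ : ∀ j ∈ c, p j = p' j) : Le D c q p ↔ Le D c q' p' :=
  forall₂_congr fun j hj => leAt_congr (h₁ j hj) (fun i hi => h₁ i (bs_sub hc hj hi)) (h₂ j hj)

theorem le_res_left (hc : IsLowerSet c) (hb : c ⊆ b) : Le D c (res b q) p ↔ Le D c q p :=
  le_congr hc (fun _ hj => res_of_mem (hb hj)) fun _ _ => rfl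

theorem le_res_right (hc : IsLowerSet c) (hb : c ⊆ b) : Le D c q (res b p) ↔ Le D c q p :=
  le_congr hc (fun _ _ => rfl) fun _ hj => res_of_mem (hb hj)

theorem le_glue_left (hc : IsLowerSet c) (hb : c ⊆ b) : Le D c (glue b l q) p ↔ Le D c l p :=
  le_congr hc (fun _ hj => glue_of_mem (hb hj)) fun _ _ => rfl

theorem le_glue_right (hc : IsLowerSet c) (hb : c ⊆ b) : Le D c q (glue b l p) ↔ Le D c q l :=
  le_congr hc (fun _ _ => rfl) fun _ hj => glue_of_mem (hb hj)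

/-- Monotonicity of the term order in the forcing condition. -/
theorem tle_mono (hd : IsLowerSet d) (hB : BasicOn D d) (hj : j ∈ d) (hq : q ∈ Low D d)
    (hr : r ∈ Low D d) (h : Le D (bs j) r q) {a a' : Ω} (H : (D j).le a a' (res (bs j) q)) :
    (D j).le a a' (res (bs j) r) :=
  (hB j hj).mono _ _ _ (res_bs_mem hd hq hj) _ (res_bs_mem hd hr hj)
    ((le_res_left (low j) Subset.rfl).2 ((le_res_right (low j) Subset.rfl).2 h)) H

theorem leAt_refl (hd : IsLowerSet d) (hB : BasicOn D d) (hj : j ∈ d) (hq : q ∈ Low D d)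
    (h : q j = p j) : LeAt D j q p := by
  refine ⟨fun a ha => h ▸ ha, fun a h₁ h₂ => ?_, h ▸ Subset.rfl, ?_⟩
  · rw [h, h₁] at h₂; simp at h₂
  · rw [← h]; exact (hB j hj).refl _ (t_mem hB hq hj) _ (res_bs_mem hd hq hj)

theorem Le.refl (hd : IsLowerSet d) (hB : BasicOn D d) (hp : p ∈ Low D d) : Le D d p p :=
  fun _ hj => leAt_refl hd hB hj hp rfl

theorem LeAt.trans (hd : IsLowerSet d) (hB : BasicOn D d) (hj : j ∈ d) (hq : q ∈ Low D d)
    (hr : r ∈ Low D d) (h : Le D (bs j) r q) (h₁ : LeAt D j r q) (h₂ : LeAt D j q p) :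
    LeAt D j r p := by
  refine ⟨fun a ha => h₁.1 a (h₂.1 a ha), fun a ha hr' => ?_, h₂.2.2.1.trans h₁.2.2.1,
    (hB j hj).trans _ _ _ _ (res_bs_mem hd hr hj) h₁.2.2.2 (tle_mono hd hB hj hq hr h h₂.2.2.2)⟩
  cases e : (q j).s with
  | none => exact fun h' => h₁.2.1 a e hr' (h₂.2.2.1 h')
  | some a' =>
    have := h₁.1 a' e
    rw [hr'] at this
    exact h₂.2.1 a ha (e.trans this.symm)

theorem Le.trans (hd : IsLowerSet d) (hB : BasicOn D d) (hq : q ∈ Low D d) (hr : r ∈ Low D d)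
    (h₁ : Le D d r q) (h₂ : Le D d q p) : Le D d r p :=
  fun j hj => LeAt.trans hd hB hj hq hr (h₁.anti (bs_sub hd hj)) (h₁ j hj) (h₂ j hj)

/-- Transitivity on a smaller lower set. -/
theorem Le.trans' (hd : IsLowerSet d) (hB : BasicOn D d) (hc : IsLowerSet c) (hcd : c ⊆ d)
    (hq : q ∈ Low D d) (hr : r ∈ Low D d) (h₁ : Le D c r q) (h₂ : Le D c q p) : Le D c r p :=
  fun j hj => LeAt.trans hd hB (hcd hj) hq hr (h₁.anti (bs_sub hc hj)) (h₁ j hj) (h₂ j hj)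

theorem refl_on (hd : IsLowerSet d) (hB : BasicOn D d) : ∀ p ∈ Low D d, Le D d p p :=
  fun _ hp => Le.refl hd hB hp

theorem trans_on (hd : IsLowerSet d) (hB : BasicOn D d) : ∀ p ∈ Low D d, ∀ q ∈ Low D d,
    ∀ r ∈ Low D d, Le D d r q → Le D d q p → Le D d r p :=
  fun _ _ _ hq _ hr h₁ h₂ => Le.trans hd hB hq hr h₁ h₂

theorem leAt_top (hd : IsLowerSet d) (hB : BasicOn D d) (hj : j ∈ d) (hq : q ∈ Low D d)
    (h : p j = vtop) : LeAt D j q p := by
  unfold LeAt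
  rw [h]
  exact ⟨fun a ha => by simp [vtop] at ha, fun a _ _ => notMem_empty a, empty_subset _,
    (hB j hj).top _ (t_mem hB hq hj) _ (res_bs_mem hd hq hj)⟩

theorem le_ctop (hd : IsLowerSet d) (hB : BasicOn D d) (hq : q ∈ Low D d) : Le D d q ctop :=
  fun _ hj => leAt_top hd hB hj hq rfl

/-- To be below a condition supported on `c` it suffices to be below it on `c`. -/
theorem le_of_low (hd : IsLowerSet d) (hB : BasicOn D d) (hq : q ∈ Low D d) (hl : l ∈ Low D c)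
    (h : Le D c q l) : Le D d q l := by
  intro j hj
  by_cases e : j ∈ c
  exacts [h j e, leAt_top hd hB hj hq (hl.2.1 j e)]

theorem le_res (hd : IsLowerSet d) (hB : BasicOn D d) (hq : q ∈ Low D d) : Le D d q (res c q) := by
  intro j hj
  by_cases e : j ∈ c
  exacts [leAt_refl hd hB hj hq (res_of_mem e).symm, leAt_top hd hB hj hq (res_of_notMem e)]

theorem tle_of_top (hd : IsLowerSet d) (hB : BasicOn D d) (hj : j ∈ d) (hq : q ∈ Low D (bs j))
    {a a' : Ω} (H : (D j).le a a' ctop) : (D j).le a a' q :=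
  (hB j hj).mono _ _ _ (ctop_mem (hB.anti (bs_sub hd hj))) _ hq
    (le_ctop (low j) (hB.anti (bs_sub hd hj)) hq) H

theorem TDir.refl (hd : IsLowerSet d) (hB : BasicOn D d) (hj : j ∈ d) (hq : q ∈ Low D d)
    (h : q j = p j) : TDir D j q p :=
  ⟨by rw [h], by rw [h], by
    rw [← h]; exact (hB j hj).refl _ (t_mem hB hq hj) _ (ctop_mem (hB.anti (bs_sub hd hj)))⟩

theorem TDir.trans (hd : IsLowerSet d) (hB : BasicOn D d) (hj : j ∈ d) (h₁ : TDir D j r q)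
    (h₂ : TDir D j q p) : TDir D j r p :=
  ⟨h₁.1.trans h₂.1, h₂.2.1.trans h₁.2.1,
    (hB j hj).trans _ _ _ _ (ctop_mem (hB.anti (bs_sub hd hj))) h₁.2.2 h₂.2.2⟩

omit [LinearOrder J] [Base J] in
theorem tdir_congr {q' p' : Cnd J Ω} (h₁ : q j = q' j) (h₂ : p j = p' j) :
    TDir D j q p ↔ TDir D j q' p' := by
  simp only [TDir, h₁, h₂]

theorem dirAt_congr {q' p' : Cnd J Ω} (h₁ : q j = q' j) (h₂ : ∀ i ∈ bs j, q i = q' i)
    (h₃ : p j = p' j) : DirAt D j q p ↔ DirAt D j q' p' := by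
  rw [DirAt, DirAt, leAt_congr h₁ h₂ h₃, h₁, h₃]

theorem dirAt_of {q p : Cnd J Ω} (h₁ : (q j).s = (p j).s) (h₂ : (p j).E ⊆ (q j).E)
    (h₃ : (D j).le (q j).t (p j).t (res (bs j) q)) : DirAt D j q p :=
  ⟨h₁, fun a ha => h₁.trans ha, fun a h h' => by rw [h₁, h] at h'; simp at h', h₂, h₃⟩

theorem TDir.dirAt (hd : IsLowerSet d) (hB : BasicOn D d) (hj : j ∈ d) (hq : q ∈ Low D d)
    (h : TDir D j q p) : DirAt D j q p :=
  dirAt_of h.1 h.2.1 (tle_of_top hd hB hj (res_bs_mem hd hq hj) h.2.2)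

/-- An extension at `j` followed by a trivially forced direct extension. -/
theorem LeAt.trans_tdir (hd : IsLowerSet d) (hB : BasicOn D d) (hj : j ∈ d) (hr : r ∈ Low D d)
    (h₁ : LeAt D j r q) (h₂ : TDir D j q p) : LeAt D j r p :=
  ⟨fun a ha => h₁.1 a (h₂.1.trans ha), fun a ha hr' h' => h₁.2.1 a (h₂.1.trans ha) hr' (h₂.2.1 h'),
    h₂.2.1.trans h₁.2.2.1, (hB j hj).trans _ _ _ _ (res_bs_mem hd hr hj) h₁.2.2.2
      (tle_of_top hd hB hj (res_bs_mem hd hr hj) h₂.2.2)⟩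

theorem DirAt.trans_tdir (hd : IsLowerSet d) (hB : BasicOn D d) (hj : j ∈ d) (hr : r ∈ Low D d)
    (h₁ : DirAt D j r q) (h₂ : TDir D j q p) : DirAt D j r p :=
  ⟨h₁.1.trans h₂.1, h₁.2.trans_tdir hd hB hj hr h₂⟩

theorem TExt.refl (hd : IsLowerSet d) (hB : BasicOn D d) (hp : p ∈ Low D d) : TExt D c d p p :=
  ⟨fun _ _ => rfl, fun _ hj _ => TDir.refl hd hB hj hp rfl⟩

theorem TExt.trans (hd : IsLowerSet d) (hB : BasicOn D d) (h₁ : TExt D c d r q)
    (h₂ : TExt D c d q p) : TExt D c d r p :=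
  ⟨fun j hj => (h₁.1 j hj).trans (h₂.1 j hj),
    fun j hj hc => (h₁.2 j hj hc).trans hd hB hj (h₂.2 j hj hc)⟩

theorem TExt.tdir (hd : IsLowerSet d) (hB : BasicOn D d) (hq : q ∈ Low D d) (h : TExt D c d q p)
    (hj : j ∈ d) : TDir D j q p := by
  by_cases e : j ∈ c
  exacts [TDir.refl hd hB hj hq (h.1 j e), h.2 j hj e]

theorem TExt.anti (hd : IsLowerSet d) (hB : BasicOn D d) (hq : q ∈ Low D d) (h : TExt D c d q p)
    (hb : b ⊆ c) : TExt D b d q p :=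
  ⟨fun j hj => h.1 j (hb hj), fun _ hj _ => h.tdir hd hB hq hj⟩

theorem TExt.le (hd : IsLowerSet d) (hB : BasicOn D d) (hq : q ∈ Low D d) (h : TExt D c d q p) :
    Le D d q p := fun _ hj => ((h.tdir hd hB hq hj).dirAt hd hB hj hq).2

/-- Gluing a stronger lower part. -/
theorem glue_le (hd : IsLowerSet d) (hB : BasicOn D d) (hc : IsLowerSet c)
    (hm : glue c l p ∈ Low D d) (h : Le D c l p) : Le D d (glue c l p) p := by
  intro j hj
  by_cases e : j ∈ c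
  · exact (le_glue_left hc Subset.rfl).2 h j e
  · exact leAt_refl hd hB hj hm (glue_of_notMem e)

theorem glue_le_low (hd : IsLowerSet d) (hB : BasicOn D d) (hc : IsLowerSet c) (hcd : c ⊆ d)
    (hl : l ∈ Low D c) (hp : p ∈ Low D d) : Le D d (glue c l p) l :=
  le_of_low hd hB (glue_mem' hl hcd hp) hl
    ((le_glue_left hc Subset.rfl).2 (Le.refl hc (hB.anti hcd) hl))

theorem le_glue (h₁ : ∀ j ∈ d, j ∈ c → LeAt D j r l) (h₂ : ∀ j ∈ d, j ∉ c → LeAt D j r p) :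
    Le D d r (glue c l p) := by
  intro j hj
  by_cases e : j ∈ c
  · exact (leAt_congr rfl (fun _ _ => rfl) (glue_of_mem e)).2 (h₁ j hj e)
  · exact (leAt_congr rfl (fun _ _ => rfl) (glue_of_notMem e)).2 (h₂ j hj e)

theorem glue_le_glue (hd : IsLowerSet d) (hB : BasicOn D d) (hc : IsLowerSet c)
    {l' u u' : Cnd J Ω} (hm : glue c l' u' ∈ Low D d) (h₁ : Le D c l' l)
    (h₂ : ∀ j ∈ d, j ∉ c → TDir D j u' u) : Le D d (glue c l' u') (glue c l u) :=
  le_glue (fun j _ e => (le_glue_left hc Subset.rfl).2 h₁ j e) fun j hj e =>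
    (((tdir_congr (glue_of_notMem e) rfl).2 (h₂ j hj e)).dirAt hd hB hj hm).2

/-- If `r ≤ u` and `l ≤ r` on `c`, then `glue c l r ≤ glue c l u`. -/
theorem glue_le_glue' (hd : IsLowerSet d) (hB : BasicOn D d) (hc : IsLowerSet c) (hcd : c ⊆ d)
    {u : Cnd J Ω} (hl : l ∈ Low D c) (hr : r ∈ Low D d) (h₁ : Le D c l r)
    (h₂ : ∀ j ∈ d, j ∉ c → LeAt D j r u) : Le D d (glue c l r) (glue c l u) := by
  have hm := glue_mem' hl hcd hr
  have h := glue_le hd hB hc hm h₁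
  exact le_glue (fun j hj _ => glue_le_low hd hB hc hcd hl hr j hj) fun j hj e =>
    LeAt.trans hd hB hj hr hm (h.anti (bs_sub hd hj)) (h j hj) (h₂ j hj e)

/-- The induction behind half mixing. -/
theorem le_of_mix [WellFoundedLT J] (hd : IsLowerSet d) {r' : Cnd J Ω} (hr' : r' ∈ Low D d)
    (h₁ : ∀ j ∈ d, j ∈ e → LeAt D j r' r)
    (h₂ : ∀ j ∈ d, j ∉ e → (r' j).s = (r j).s ∧ (r j).E ⊆ (r' j).E ∧
      ∀ q ∈ Low D (bs j), Le D (bs j) q r → (D j).le (r' j).t (r j).t q) : Le D d r' r := by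
  intro j
  induction j using WellFoundedLT.induction with
  | _ j ih =>
  intro hj
  by_cases h : j ∈ e
  · exact h₁ j hj h
  · obtain ⟨a, b, c⟩ := h₂ j hj h
    refine (dirAt_of a b (c _ (res_bs_mem hd hr' hj) ?_)).2
    exact (le_res_left (low j) Subset.rfl).2 fun i hi => ih i (sub j hi) (bs_sub hd hj hi)

theorem addE_mem (hB : BasicOn D d) (hq : q ∈ Low D d) (hp : p ∈ Low D d) :
    addE q p ∈ Low D d := by
  refine ⟨fun j hj => ⟨(hq.1 j hj).1, union_subset (hq.1 j hj).2.1 (hp.1 j hj).2.1,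
    (hB j hj).null_union _ _ (hq.1 j hj).2.2.1 (hp.1 j hj).2.2.1, (hq.1 j hj).2.2.2⟩,
    fun j hj => ?_, hq.2.2⟩
  simp [addE, hq.2.1 j hj, hp.2.1 j hj, vtop]

theorem dirAt_addE (hd : IsLowerSet d) (hB : BasicOn D d) (hq : q ∈ Low D d) (hp : p ∈ Low D d)
    (hj : j ∈ d) {r : Cnd J Ω} (hs : (q j).s = (r j).s) (ht : (q j).t = (r j).t)
    (hE : (r j).E ⊆ (q j).E ∪ (p j).E) : DirAt D j (addE q p) r :=
  dirAt_of hs hE (by
    have := (hB j hj).refl _ (t_mem hB hq hj) _ (res_bs_mem hd (addE_mem hB hq hp) hj)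
    rw [← ht]; exact this)

theorem addE_le (hd : IsLowerSet d) (hB : BasicOn D d) (hq : q ∈ Low D d) (hp : p ∈ Low D d) :
    Le D d (addE q p) q :=
  fun _ hj => (dirAt_addE hd hB hq hp hj rfl rfl subset_union_left).2

theorem strip_mem (hB : BasicOn D d) (hp : p ∈ Low D d) : strip p ∈ Keys D d :=
  ⟨⟨fun j hj => ⟨(hp.1 j hj).1, empty_subset _, (hB j hj).null_empty, (hp.1 j hj).2.2.2⟩,
    fun j hj => by simp [strip, hp.2.1 j hj, vtop], hp.2.2⟩, fun _ => rfl⟩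

omit [Inhabited Ω] [LinearOrder J] [Base J] in
theorem strip_eq_iff : strip p = strip q ↔ ∀ j, (p j).s = (q j).s ∧ (p j).t = (q j).t := by
  simp only [funext_iff, strip, Vl.mk.injEq, true_and]

open Classical in
theorem update_mem (hp : p ∈ Low D d) (hj : j ∈ d) {v : Vl Ω} (hv : OkAt D j v) :
    Function.update p j v ∈ Low D d := by
  refine ⟨fun i hi => ?_, fun i hi => ?_, (hp.2.2.insert j).subset fun i hi => ?_⟩
  · by_cases e : i = j
    · subst e; rwa [Function.update_self]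
    · rw [Function.update_of_ne e]; exact hp.1 i hi
  · rw [Function.update_of_ne fun e => hi (by rw [e]; exact hj)]; exact hp.2.1 i hi
  · by_cases e : i = j
    · exact Or.inl e
    · exact Or.inr (by simpa [Function.update_of_ne e] using hi)

open Classical in
theorem res_bs_update (v : Vl Ω) : res (bs j) (Function.update p j v) = res (bs j) p :=
  res_congr fun _ hi => Function.update_of_ne (ne_of_lt (sub j hi)) _ _

open Classical in
theorem update_le (hd : IsLowerSet d) (hB : BasicOn D d) (hp : p ∈ Low D d) (hj : j ∈ d)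
    {v : Vl Ω} (hv : OkAt D j v) (h₁ : ∀ a, (p j).s = some a → v.s = some a)
    (h₂ : ∀ a, (p j).s = none → v.s = some a → a ∉ (p j).E) (h₃ : (p j).E ⊆ v.E)
    (h₄ : (D j).le v.t (p j).t (res (bs j) p)) : Le D d (Function.update p j v) p := by
  intro i hi
  by_cases e : i = j
  · subst e
    unfold LeAt
    rw [res_bs_update, Function.update_self]
    exact ⟨h₁, h₂, h₃, h₄⟩
  · exact leAt_refl hd hB hi (update_mem hp hj hv) (Function.update_of_ne e _ _)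

open Classical in
/-- Adding a point. -/
theorem add_pt (hd : IsLowerSet d) (hB : BasicOn D d) (hp : p ∈ Low D d) (hj : j ∈ d)
    (hs : (p j).s = none) {a : Ω} (ha : a ∈ (D j).Pt) (hE : a ∉ (p j).E)
    (ht : (p j).t ∈ (D j).y a) :
    Function.update p j ⟨some a, (p j).E, (p j).t⟩ ∈ Low D d ∧
      Le D d (Function.update p j ⟨some a, (p j).E, (p j).t⟩) p := by
  have hv : OkAt D j ⟨some a, (p j).E, (p j).t⟩ :=
    ⟨fun b hb => Option.some.inj hb ▸ ha, (hp.1 j hj).2.1, (hp.1 j hj).2.2.1, ht⟩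
  refine ⟨update_mem hp hj hv, update_le hd hB hp hj hv (fun b hb => ?_) (fun b _ hb => ?_)
    Subset.rfl ((hB j hj).refl _ (t_mem hB hp hj) _ (res_bs_mem hd hp hj))⟩
  · rw [hs] at hb; simp at hb
  · exact Option.some.inj hb ▸ hE

theorem openIn_le (hd : IsLowerSet d) (hB : BasicOn D d) (r : Cnd J Ω) :
    OpenIn (Low D d) (Le D d) {q | q ∈ Low D d ∧ Le D d q r} :=
  ⟨fun _ h => h.1, fun _ hq _ hq' h => ⟨hq', Le.trans hd hB hq.1 hq' h hq.2⟩⟩

end Pool.Agent.MP_a2558b_lc
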