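import Pool.Agent.MP_a2558b_lc.Reduce
import Pool.Agent.MP_a2558b_lc.Arith

namespace Pool.Agent.MP_a2558b_lc

open Cardinal hiding univ
open Set Base

universe u

theorem cov_sum_le {S T : Type u} {f : S → Cardinal.{u}} {g : T → Cardinal.{u}} (φ : S → T)
    (hφ : Function.Injective φ) (h : ∀ a, f a ≤ g (φ a)) : sum f ≤ sum g := by
  refine (sum_le_sum f (fun a => g (φ a)) h).trans ?_
  have e₁ : sum (fun a => g (φ a)) = #(Σ a, (g (φ a)).out) := by simp [mk_sigma]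
  have e₂ : sum g = #(Σ t, (g t).out) := by simp [mk_sigma]
  rw [e₁, e₂]
  refine mk_le_of_injective (f := fun x => ⟨φ x.1, x.2⟩) ?_
  rintro ⟨a, x⟩ ⟨b, y⟩ h
  obtain rfl := hφ (Sigma.mk.inj h).1
  obtain rfl := eq_of_heq (Sigma.mk.inj h).2
  rfl

theorem cov_tasks_le {A B ι T : Type u} (P : A → Prop) (K : A → Set B) (R : ι → A → Prop)
    {g : T → Cardinal.{u}} (φ : {a // P a} → T) (hφ : Function.Injective φ)
    (h : ∀ a, #(K a.1) * #{i | R i a.1} ≤ g (φ a)) :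
    #{w : A × B × ι | P w.1 ∧ w.2.1 ∈ K w.1 ∧ R w.2.2 w.1} ≤ sum g := by
  refine le_trans ?_ (cov_sum_le φ hφ h)
  have e : sum (fun a : {a // P a} => #(K a.1) * #{i | R i a.1}) =
      #(Σ a : {a // P a}, K a.1 × {i | R i a.1}) := by simp [mk_sigma]
  rw [e]
  refine mk_le_of_injective
    (f := fun w => ⟨⟨w.1.1, w.2.1⟩, ⟨w.1.2.1, w.2.2.1⟩, ⟨w.1.2.2, w.2.2.2⟩⟩) ?_
  rintro ⟨⟨a, b, i⟩, h₁⟩ ⟨⟨a', b', i'⟩, h₂⟩ h
  obtain rfl : a = a' := congrArg (fun x => x.1.1) h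
  obtain rfl : b = b' := congrArg (fun x => x.2.1.1) h
  obtain rfl : i = i' := congrArg (fun x => x.2.2.1) h
  rfl

theorem cov_mul_le {a b c : Cardinal.{u}} (hc : ℵ₀ ≤ c) (ha : a ≤ c) (hb : b ≤ c) : a * b ≤ c :=
  (mul_le_mul' ha hb).trans (mul_eq_self hc).le

theorem cov_dirAt {J Ω : Type u} [Inhabited Ω] [LinearOrder J] [Base J] {D : Sys J Ω} {j : J}
    {r p : Cnd J Ω} (h : LeAt D j r p) (hs : (r j).s = none) : DirAt D j r p := by
  refine ⟨?_, h⟩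
  cases e : (p j).s with
  | none => exact hs
  | some a => exact h.1 a e

variable {Θ Ω : Type u} [LinearOrder Θ] [WellFoundedLT Θ] [LinearOrder Ω] [WellFoundedLT Ω]
  [Inhabited Ω] {X : Ctx Θ Ω} {D : Sys (JJ Θ) Ω} {β : Θ} {k : Θ → Cardinal.{u}}

/-- Covering inside one level. -/
theorem seg_cov (hV : Valid X D (Iio β)) (hk : NOK X D β k) (i0 : Θ) {ι Z : Type u} [Nonempty Z]
    (hι : #ι ≤ k i0) (dec : ι → Cnd (JJ Θ) Ω → Z → Prop)
    (hn : ∀ i, IsNm (Low D (levC β)) (Le D (levC β)) (dec i))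
    {p : Cnd (JJ Θ) Ω} (hp : p ∈ Low D (levC β)) :
    ∃ p' ∈ Low D (levC β), TExt D (Iic (pt β i0)) (levC β) p' p ∧ ∃ V : Set Z, #V ≤ sum k ∧
      ∀ i x, ∀ r ∈ Low D (levC β), (∀ j ∈ levC β, j ∉ Iic (pt β i0) → LeAt D j r p') →
        dec i r x → x ∈ V := by
  have hB := basicOn_levC hV hk
  have hk0 : ∀ i, ℵ₀ ≤ k i := fun i =>
    (X.aleph0_le_lb β).trans ((Order.le_succ _).trans (hk.kmu i))
  have hb : ∀ a : {i // i0 ≤ i}, #(Keys D (Iic (pt β a.1))) * #{_i : ι | True} ≤ k a.1 :=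
    fun a => cov_mul_le (hk0 _) (mk_keys_pt hV hk _)
      ((mk_set_le _).trans (hι.trans (hk.kmono a.2)))
  obtain ⟨p', hp', ht, val, hval⟩ := reduce (c := Iic (pt β i0)) (levC_lower β) hB
    (A := {i // i0 ≤ i}) (fun a => Iic (pt β a.1)) (fun _ => isLowerSet_Iic _)
    (fun a => Iic_subset_Iic.2 (pt_le_pt.2 (Or.inr ⟨rfl, a.2⟩))) (fun a => Iic_pt_sub_levC β a.1)
    (fun _ _ => True) dec hn (by
      intro j hj hj'
      rcases mem_levC.1 hj with h | ⟨i', rfl⟩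
      · exact (hj' (Iio_subset_Iic_self (levIio_sub_Iio β i0 h))).elim
      refine (cl_pt hk i').anti (le_trans ?_ le_add_self)
      refine cov_tasks_le (fun a : {i // i0 ≤ i} => pt β i' ∉ Iic (pt β a.1))
        (fun a => Keys D (Iic (pt β a.1))) (fun _ _ => True)
        (fun a => ⟨a.1.1, ?_⟩) ?_ fun a => hb a.1
      · by_contra h
        exact a.2 (pt_le_pt.2 (Or.inr ⟨rfl, not_lt.1 h⟩))
      · intro a b h
        exact Subtype.ext (Subtype.ext (congrArg (fun x => x.1) h))) hp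
  refine ⟨p', hp', ht, (fun w => val w.1 w.2.1 w.2.2) ''
    {w : {i // i0 ≤ i} × Cnd (JJ Θ) Ω × ι | True ∧ w.2.1 ∈ Keys D (Iic (pt β w.1.1)) ∧ True},
    mk_image_le.trans (cov_tasks_le (fun _ : {i // i0 ≤ i} => True)
      (fun a => Keys D (Iic (pt β a.1))) (fun _ _ => True) (fun a => a.1.1)
      (fun a b h => Subtype.ext (Subtype.ext h)) fun a => hb a.1), ?_⟩
  intro i x r hr hle hd
  have hf : {i' | (r (pt β i')).s ≠ none}.Finite :=
    hr.2.2.preimage (f := pt β) fun _ _ _ _ h => (pt_inj.1 h).2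
  obtain ⟨γ, hγ⟩ := X.exists_bound (hf.insert i0).countable
  have h0 : i0 ≤ γ := (hγ i0 (mem_insert _ _)).le
  refine ⟨(⟨γ, h0⟩, strip (res (Iic (pt β γ)) r), i), ⟨trivial,
    strip_mem (hB.anti (Iic_pt_sub_levC β γ)) (res_mem hr (Iic_pt_sub_levC β γ)), trivial⟩,
    (hval ⟨γ, h0⟩ i x trivial r hr (fun j hj hj' => ?_) hd).1.symm⟩
  refine cov_dirAt (hle j hj fun h => hj' (le_trans h (pt_le_pt.2 (Or.inr ⟨rfl, h0⟩)))) ?_
  rcases mem_levC.1 hj with h | ⟨i', rfl⟩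
  · exact (hj' (Iio_subset_Iic_self (levIio_sub_Iio β γ h))).elim
  · by_contra h
    exact hj' (pt_le_pt.2 (Or.inr ⟨rfl, (hγ i' (mem_insert_of_mem _ h)).le⟩))

/-- Covering along the levels. -/
theorem lev_cov {A0 A : Set Θ} (hA0 : IsLowerSet A0) (hA : IsLowerSet A) (hV : Valid X D A)
    {ι Z : Type u} [Nonempty Z] (rk : ι → Θ) (hrk : ∀ γ, #{i | rk i ≤ γ} ≤ X.κ γ)
    (dec : ι → Cnd (JJ Θ) Ω → Z → Prop)
    (hn : ∀ i, IsNm (Low D (lev A)) (Le D (lev A)) (dec i))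
    {p : Cnd (JJ Θ) Ω} (hp : p ∈ Low D (lev A)) :
    ∃ p' ∈ Low D (lev A), TExt D (lev A0) (lev A) p' p ∧ ∃ V : Set Z,
      #V ≤ sum (fun γ : A => X.κ γ) ∧ ∀ i x, ∀ γ ∈ A, A0 ⊆ Iic γ → rk i ≤ γ →
        ∀ r ∈ Low D (lev A), (∀ j ∈ lev A, j ∉ lev (Iic γ) → DirAt D j r p') →
          dec i r x → x ∈ V := by
  have hB := basicOn_lev hV
  have hb : ∀ a : {γ // γ ∈ A ∧ A0 ⊆ Iic γ},
      #(Keys D (lev (Iic a.1))) * #{i | rk i ≤ a.1} ≤ X.κ a.1 := fun a => by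
    obtain ⟨k, hk⟩ := hV a.1 a.2.1
    exact cov_mul_le (X.aleph0_lt_κ _).le
      ((mk_le_mk_of_subset fun _ h => h.1).trans (mk_low_Iic hk)) (hrk _)
  have hed : ∀ γ ∈ A, lev (Iic γ) ⊆ lev A := fun γ hγ => lev_mono fun _ h => hA h hγ
  obtain ⟨p', hp', ht, val, hval⟩ := reduce (c := lev A0) (lev_lower hA) hB
    (A := {γ // γ ∈ A ∧ A0 ⊆ Iic γ}) (fun a => lev (Iic a.1)) (fun a => levIic_lower a.1)
    (fun a => lev_mono a.2.2) (fun a => hed a.1 a.2.1)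
    (fun i a => rk i ≤ a.1) dec hn (by
      intro j hj _
      refine (cl_lb hV hj).anti ?_
      rw [X.lb_eq]
      refine le_trans ?_ le_add_self
      exact cov_tasks_le (fun a : {γ // γ ∈ A ∧ A0 ⊆ Iic γ} => j ∉ lev (Iic a.1))
        (fun a => Keys D (lev (Iic a.1))) (fun i a => rk i ≤ a.1)
        (fun a => ⟨a.1.1, not_le.1 a.2⟩)
        (fun a b h => Subtype.ext (Subtype.ext (congrArg (fun x => x.1) h))) fun a => hb a.1) hp
  refine ⟨p', hp', ht, (fun w => val w.1 w.2.1 w.2.2) ''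
    {w : {γ // γ ∈ A ∧ A0 ⊆ Iic γ} × Cnd (JJ Θ) Ω × ι |
      True ∧ w.2.1 ∈ Keys D (lev (Iic w.1.1)) ∧ rk w.2.2 ≤ w.1.1},
    mk_image_le.trans (cov_tasks_le (fun _ : {γ // γ ∈ A ∧ A0 ⊆ Iic γ} => True)
      (fun a => Keys D (lev (Iic a.1))) (fun i a => rk i ≤ a.1) (fun a => ⟨a.1.1, a.1.2.1⟩)
      (fun a b h => Subtype.ext (Subtype.ext (congrArg (fun x => x.1) h))) fun a => hb a.1), ?_⟩
  intro i x γ hγ h0 hi r hr hle hd
  exact ⟨(⟨γ, hγ, h0⟩, strip (res (lev (Iic γ)) r), i), ⟨trivial,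
    strip_mem (hB.anti (hed γ hγ)) (res_mem hr (hed γ hγ)), hi⟩,
    (hval ⟨γ, hγ, h0⟩ i x hi r hr hle hd).1.symm⟩

/-- The plain form of covering along the levels. -/
theorem lev_cov' {A : Set Θ} (hA : IsLowerSet A) (hV : Valid X D A)
    {ι Z : Type u} [Nonempty Z] (rk : ι → Θ) (hrA : ∀ i, rk i ∈ A)
    (hrk : ∀ γ, #{i | rk i ≤ γ} ≤ X.κ γ) (dec : ι → Cnd (JJ Θ) Ω → Z → Prop)
    (hn : ∀ i, IsNm (Low D (lev A)) (Le D (lev A)) (dec i))
    {p : Cnd (JJ Θ) Ω} (hp : p ∈ Low D (lev A)) :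
    ∃ p' ∈ Low D (lev A), Le D (lev A) p' p ∧ ∃ V : Set Z,
      #V ≤ sum (fun γ : A => X.κ γ) ∧ ∀ i x, ∀ r ∈ Low D (lev A), Le D (lev A) r p' →
        dec i r x → x ∈ V := by
  obtain ⟨p', hp', ht, V, hV', H⟩ := lev_cov isLowerSet_empty hA hV rk hrk dec hn hp
  refine ⟨p', hp', ht.le (lev_lower hA) (basicOn_lev hV) hp', V, hV', fun i x r hr hle hd => ?_⟩
  have hf : (insert (rk i) ((fun j : JJ Θ => (ofLex j).1) '' {j | (r j).s ≠ none})).Finite :=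
    (hr.2.2.image _).insert _
  obtain ⟨γ, hγ, hm⟩ := exists_max_image _ id hf (insert_nonempty _ _)
  have hγA : γ ∈ A := by
    rcases hγ with rfl | ⟨j, hj, rfl⟩
    · exact hrA i
    · by_contra h
      exact hj (by rw [hr.2.1 j h]; rfl)
  refine H i x γ hγA (empty_subset _) (hm _ (mem_insert _ _)) r hr (fun j hj hj' => ?_) hd
  refine cov_dirAt (hle j hj) ?_
  by_contra h
  exact hj' (hm _ (mem_insert_of_mem _ ⟨j, h, rfl⟩))

/-- Covering below a level by sets of size `lb β`. -/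
theorem low_cov (hV : Valid X D (Iio β)) {ι Z : Type u} [Nonempty Z] (hι : #ι ≤ X.lb β)
    (dec : ι → Cnd (JJ Θ) Ω → Z → Prop)
    (hn : ∀ i, IsNm (Low D (lev (Iio β))) (Le D (lev (Iio β))) (dec i))
    {p : Cnd (JJ Θ) Ω} (hp : p ∈ Low D (lev (Iio β))) :
    ∃ p' ∈ Low D (lev (Iio β)), Le D (lev (Iio β)) p' p ∧ ∃ V : Set Z, #V ≤ X.lb β ∧
      ∀ i x, ∀ r ∈ Low D (lev (Iio β)), Le D (lev (Iio β)) r p' → dec i r x → x ∈ V := by
  rcases (Iio β).eq_empty_or_nonempty with h0 | ⟨γ0, h0⟩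
  · have hL : Low D (lev (Iio β)) = {ctop} := by rw [h0, lev_empty, Low_empty]
    refine ⟨p, hp, Le.refl (levIio_lower β) (basicOn_lev hV) hp, ⋃ i, {x | dec i p x},
      (mk_iUnion_le_sum_mk.trans (sum_le_sum _ (fun _ => 1) fun i => ?_)).trans ?_, ?_⟩
    · exact mk_le_one_iff_set_subsingleton.2 fun x hx y hy => (hn i).func p hp x y hx hy
    · simpa using hι
    · intro i x r hr _ hd
      rw [hL] at hr hp
      exact mem_iUnion.2 ⟨i, by rw [hp, ← hr]; exact hd⟩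
  have e : X.lb β = #((ℵ₁ : Cardinal.{u}).out ⊕ Σ γ : Iio β, (X.κ γ).out) := by
    simp [X.lb_eq, mk_sigma]
  obtain ⟨f⟩ := (Cardinal.le_def _ _).1 (e ▸ hι)
  let g : ((ℵ₁ : Cardinal.{u}).out ⊕ Σ γ : Iio β, (X.κ γ).out) → Θ :=
    Sum.elim (fun _ => γ0) fun y => y.1.1
  have hg : ∀ γ, #{y | g y ≤ γ} ≤ X.κ γ := by
    intro γ
    have h₁ : {y | g y ≤ γ} ⊆ range Sum.inl ∪
        ⋃ γ' : {γ' : Iio β // γ'.1 ≤ γ}, range fun z : (X.κ γ'.1).out => Sum.inr ⟨γ'.1, z⟩ := by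
      rintro (y | ⟨γ', z⟩) hy
      · exact Or.inl ⟨y, rfl⟩
      · exact Or.inr (mem_iUnion.2 ⟨⟨γ', hy⟩, z, rfl⟩)
    refine (mk_le_mk_of_subset h₁).trans ((mk_union_le _ _).trans
      (add_le_of_le (X.aleph0_lt_κ γ).le ?_ ?_))
    · refine mk_range_le.trans ?_
      rw [mk_out]
      exact (X.aleph1_le_lb γ).trans (X.lb_lt' γ).le
    · refine mk_iUnion_le_sum_mk.trans ((sum_le_sum _ (fun _ => X.κ γ) fun γ' => ?_).trans ?_)
      · refine mk_range_le.trans ?_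
        rw [mk_out]
        exact X.κ_mono.monotone γ'.2
      · rw [sum_const']
        have := (X.ct β).to_subtype
        exact cov_mul_le (X.aleph0_lt_κ γ).le (mk_le_aleph0.trans (X.aleph0_lt_κ γ).le) le_rfl
  obtain ⟨p', hp', ht, V, hV', H⟩ := lev_cov' (isLowerSet_Iio β) hV (fun i => g (f i))
    (fun i => by
      rcases f i with y | y
      exacts [h0, y.1.2])
    (fun γ => le_trans (mk_le_of_injective (f := fun i => ⟨f i.1, i.2⟩)
      fun a b h => Subtype.ext (f.injective (congrArg (fun x => x.1) h))) (hg γ)) dec hn hp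
  exact ⟨p', hp', ht, V, hV'.trans (X.lb_eq β ▸ le_add_self), H⟩

end Pool.Agent.MP_a2558b_lc
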