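import Pool.Agent.MP_a2558b_lc.Tail
import Pool.Agent.MP_a2558b_lc.Cov

namespace Pool.Agent.MP_a2558b_lc

open Cardinal hiding univ
open Set Base

universe u

section Gen

variable {J Ω : Type u} [Inhabited Ω] [LinearOrder J] [Base J] {D : Sys J Ω} {c d : Set J}

namespace BoundX

/-- Pulling a decision down to the lower part. -/
theorem pull (hc : IsLowerSet c) (hd : IsLowerSet d) (hcd : c ⊆ d) (hB : BasicOn D d) {Z : Type u}
    {dec : Cnd J Ω → Z → Prop} (hn : IsNm (Low D d) (Le D d) dec) {p p' : Cnd J Ω}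
    (hp' : p' ∈ Low D d) (hE : TExt D c d p' p)
    (H : ∀ l ∈ Low D c, Le D c l p → ∃ l' ∈ Low D c, Le D c l' l ∧ ∃ x, dec (glue c l' p') x)
    {r : Cnd J Ω} (hr : r ∈ Low D d) (hrp : Le D d r p') {x : Z} (hx : dec r x) :
    ∃ l ∈ Low D c, Le D c l r ∧ Le D c l p ∧ dec (glue c l p') x := by
  have h1 : Le D c r p := (le_congr hc (fun _ _ => rfl) hE.1).1 (hrp.anti hcd)
  obtain ⟨l, hl, h2, y, hy⟩ := H _ (res_mem hr hcd) ((le_res_left hc Subset.rfl).2 h1)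
  have h3 : Le D c l r := (le_res_right hc Subset.rfl).1 h2
  have hm := glue_mem' hl hcd hr
  have e : x = y := hn.eq_of_le hr (glue_mem' hl hcd hp') hm (glue_le hd hB hc hm h3)
    (glue_le_glue' hd hB hc hcd hl hr h3 fun j hj _ => hrp j hj) hx hy
  exact ⟨l, hl, h3, Le.trans' hd hB hc hcd hr (Low_mono hB hcd hl) h3 h1, e ▸ hy⟩

/-- Covering passes from the lower part to the whole. -/
theorem cov_lift (hc : IsLowerSet c) (hd : IsLowerSet d) (hcd : c ⊆ d) (hB : BasicOn D d)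
    {ι Z : Type u} [Nonempty Z] {dec : ι → Cnd J Ω → Z → Prop}
    (hn : ∀ i, IsNm (Low D d) (Le D d) (dec i)) {p : Cnd J Ω} (hp : p ∈ Low D d)
    (Ψ : Set Z → Prop)
    (htail : ∃ p' ∈ Low D d, TExt D c d p' p ∧ ∀ i, ∀ l ∈ Low D c, Le D c l p →
      ∃ l' ∈ Low D c, Le D c l' l ∧ ∃ x, dec i (glue c l' p') x)
    (hlow : ∀ dec' : ι → Cnd J Ω → Z → Prop, (∀ i, IsNm (Low D c) (Le D c) (dec' i)) →
      ∀ l ∈ Low D c, ∃ q ∈ Low D c, Le D c q l ∧ ∃ V, Ψ V ∧ ∀ i x, ∀ r ∈ Low D c, Le D c r q →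
        dec' i r x → x ∈ V) :
    ∃ q ∈ Low D d, Le D d q p ∧ ∃ V, Ψ V ∧ ∀ i x, ∀ r ∈ Low D d, Le D d r q →
      dec i r x → x ∈ V := by
  obtain ⟨p', hp', hE, H⟩ := htail
  have hBc := hB.anti hcd
  have mono : ∀ i, ∀ a ∈ Low D c, ∀ b ∈ Low D c, Le D c b a → ∀ x, dec i (glue c a p') x →
      dec i (glue c b p') x := fun i a ha b hb h x hx =>
    (hn i).mono _ (glue_mem' ha hcd hp') _ (glue_mem' hb hcd hp')
      (glue_le_glue hd hB hc (glue_mem' hb hcd hp') h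
        fun j hj _ => TDir.refl hd hB hj hp' rfl) x hx
  choose dec' hn' hd' using fun i => exists_nm (refl_on hc hBc) (trans_on hc hBc)
    (fun l x => dec i (glue c l p') x) (mono i) (res c p) (res_mem hp hcd)
    fun l hl h => H i l hl ((le_res_right hc Subset.rfl).1 h)
  obtain ⟨q, hq, h1, V, hV, h2⟩ := hlow dec' hn' _ (res_mem hp hcd)
  have hm := glue_mem' hq hcd hp'
  have h3 : Le D d (glue c q p') p' := glue_le hd hB hc hm
    ((le_congr hc (fun _ _ => rfl) hE.1).2 ((le_res_right hc Subset.rfl).1 h1))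
  refine ⟨_, hm, Le.trans hd hB hp' hm h3 (hE.le hd hB hp'), V, hV, fun i x r hr hrq hx => ?_⟩
  obtain ⟨l, hl, h4, h5, h6⟩ := pull hc hd hcd hB (hn i) hp' hE (H i) hr
    (Le.trans hd hB hm hr hrq h3) hx
  have h7 : Le D c l q := Le.trans' hd hB hc hcd hr (Low_mono hB hcd hl) h4
    ((le_glue_right hc Subset.rfl).1 (hrq.anti hcd))
  obtain ⟨l', hl', h8, y, hy⟩ := (hn' i).dense l hl
  obtain ⟨s, hs, h9, h10⟩ := hd' i l' hl'
    ((le_res_right hc Subset.rfl).2 (Le.trans hc hBc hl hl' h8 h5)) y hy l' hl'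
    (Le.refl hc hBc hl')
  have e : x = y := (hn i).func _ (glue_mem' hs hcd hp') x y
    (mono i l hl s hs (Le.trans hc hBc hl' hs h9 h8) x h6) h10
  exact e ▸ h2 i y l' hl' (Le.trans hc hBc hl hl' h8 h7) hy

/-- The trivial covering. -/
theorem cov_triv (hc : IsLowerSet c) (hB : BasicOn D c) {ι Z : Type u}
    (dec : ι → Cnd J Ω → Z → Prop) (hn : ∀ i, IsNm (Low D c) (Le D c) (dec i))
    (l : Cnd J Ω) (hl : l ∈ Low D c) :
    ∃ q ∈ Low D c, Le D c q l ∧ ∃ V : Set Z, #V ≤ #ι * #(Low D c) ∧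
      ∀ i x, ∀ r ∈ Low D c, Le D c r q → dec i r x → x ∈ V := by
  refine ⟨l, hl, Le.refl hc hB hl, {x | ∃ w : ι × Low D c, dec w.1 w.2 x}, ?_,
    fun i x r hr _ hx => ⟨(i, ⟨r, hr⟩), hx⟩⟩
  choose f hf using fun x : {x | ∃ w : ι × Low D c, dec w.1 w.2 x} => x.2
  have := mk_le_of_injective (f := f) fun x y h =>
    Subtype.ext ((hn (f x).1).func _ (f x).2.2 _ _ (hf x) (h ▸ hf y))
  simpa using this

/-- Passing to names with values in another type. -/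
theorem cov_sub (hd : IsLowerSet d) (hB : BasicOn D d) {ι Y Z : Type u} [Nonempty Z]
    {dec : ι → Cnd J Ω → Y → Prop} (hn : ∀ i, IsNm (Low D d) (Le D d) (dec i))
    (ρ : Y → Z → Prop) (hρ : ∀ i x, ∀ q ∈ Low D d, dec i q x → ∃ b, ρ x b) {p : Cnd J Ω}
    (Ψ : Set Z → Prop)
    (hcov : ∀ dec' : ι → Cnd J Ω → Z → Prop, (∀ i, IsNm (Low D d) (Le D d) (dec' i)) →
      ∃ q ∈ Low D d, Le D d q p ∧ ∃ V, Ψ V ∧ ∀ i x, ∀ r ∈ Low D d, Le D d r q →
        dec' i r x → x ∈ V) :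
    ∃ q ∈ Low D d, Le D d q p ∧ ∃ V, Ψ V ∧ ∀ i x, ∀ r ∈ Low D d, Le D d r q →
      dec i r x → ∃ b ∈ V, ρ x b := by
  choose dec' hn' hd' using fun i => exists_nm (refl_on hd hB) (trans_on hd hB)
    (fun q b => ∃ x, dec i q x ∧ ρ x b)
    (fun a ha b hb h z ⟨x, hx, hz⟩ => ⟨x, (hn i).mono a ha b hb h x hx, hz⟩) ctop (ctop_mem hB)
    fun l hl _ => by
      obtain ⟨q, hq, h, x, hx⟩ := (hn i).dense l hl
      obtain ⟨b, hb⟩ := hρ i x q hq hx
      exact ⟨q, hq, h, b, x, hx, hb⟩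
  obtain ⟨q, hq, h1, V, hV, h2⟩ := hcov dec' hn'
  refine ⟨q, hq, h1, V, hV, fun i x r hr hrq hx => ?_⟩
  obtain ⟨r', hr', h3, b, hb⟩ := (hn' i).dense r hr
  obtain ⟨s, hs, h4, y, hy, h5⟩ := hd' i r' hr' (le_ctop hd hB hr') b hb r' hr' (Le.refl hd hB hr')
  have e : x = y := (hn i).func s hs x y
    ((hn i).mono r hr s hs (Le.trans hd hB hr' hs h4 h3) x hx) hy
  exact ⟨b, h2 i b r' hr' (Le.trans hd hB hr hr' h3 hrq) hb, e ▸ h5⟩

end BoundX

end Gen

open BoundX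

variable {Θ Ω : Type u} [LinearOrder Θ] [WellFoundedLT Θ] [LinearOrder Ω] [WellFoundedLT Ω]
  [Inhabited Ω] {X : Ctx Θ Ω} {D : Sys (JJ Θ) Ω} {β : Θ} {k : Θ → Cardinal.{u}}

/-- Fewer than `mu β` names below a bad point are bounded. -/
theorem bdd_S (hV : Valid X D univ) (hk : LevelOK X D β k) {B : Set Ω} {d : Ω}
    (hB : BProp X β k B d) {ι : Type u} (hι : #ι ≤ X.lb β) (dec : ι → Cnd (JJ Θ) Ω → Ω → Prop)
    (hn : ∀ i, IsNm (Low D univ) (Le D univ) (dec i))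
    (hlt : ∀ i x, ∀ q ∈ Low D univ, dec i q x → x < d) {p : Cnd (JJ Θ) Ω} (hp : p ∈ Low D univ) :
    ∃ q ∈ Low D univ, Le D univ q p ∧ ∃ b < d, ∀ i x, ∀ r ∈ Low D univ, Le D univ r q →
      dec i r x → x < b := by
  have : Nonempty B := hB.ne.to_subtype
  have hU := basicOn_univ hV
  have hI : BasicOn D (lev (Iic β)) := hU.anti (subset_univ _)
  obtain ⟨q, hq, h1, V, hV', h2⟩ := cov_sub isLowerSet_univ hU hn (fun x (b : B) => x < b.1)
    (fun i x q hq hx => by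
      obtain ⟨b, hb, h⟩ := hB.cof x (hlt i x q hq hx)
      exact ⟨⟨b, hb⟩, h⟩) (p := p) (fun V => #V ≤ sum k) fun dec₁ hn₁ =>
    cov_lift (levIic_lower β) isLowerSet_univ (subset_univ _) hU hn₁ hp _
      (tail hV (isLowerSet_Iic β)
        (fun δ hδ => hB.size.trans ((X.κ_le_lb (not_le.1 hδ)).trans (Order.le_succ _)))
        (fun δ hδ => hι.trans (X.lb_mono (not_le.1 hδ).le)) dec₁ hn₁ hp)
      fun dec₂ hn₂ l hl =>
    cov_lift (levC_lower β) (levIic_lower β) (levC_sub_levIic β) hI hn₂ hl _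
      (tail_fam (levC_lower β) (levIic_lower β) (levC_sub_levIic β) hI dec₂ hn₂
        (fun j hj hj' => by
          obtain rfl := (mem_levIic.1 hj).resolve_left hj'
          exact (cl_cc hk).anti hι)
        (fun i u hu => full_mix (levC_lower β) (levIic_lower β) (levC_sub_levIic β) hI
          (fun j _ => mixCut_levC hV β j trivial) (fun r => ∃ x, dec₂ i r x)
          (fun r hr r' hr' h ⟨x, hx⟩ => ⟨x, (hn₂ i).mono r hr r' hr' h x hx⟩) hu u
          fun a ha _ => by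
            obtain ⟨r, hr, h, x, hx⟩ := (hn₂ i).dense _ (glue_mem' ha (levC_sub_levIic β) hu)
            refine ⟨r, hr, (le_glue_right (levC_lower β) Subset.rfl).1
              (h.anti (levC_sub_levIic β)), fun j hj hj' => ⟨?_, (leAt_congr rfl (fun _ _ => rfl)
                (glue_of_notMem hj')).1 (h j hj)⟩, x, hx⟩
            obtain rfl := (mem_levIic.1 hj).resolve_left hj'
            have e : ∀ w ∈ Low D (lev (Iic β)), (w (cc β)).s = none := fun w hw => by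
              rcases hs : (w (cc β)).s with _ | a
              · rfl
              · have := (hw.1 _ hj).1 a hs
                rw [hk.2.pt_eq] at this
                exact this.elim
            rw [e r hr, e u hu]) hl)
      fun dec₃ hn₃ l' hl' => by
        obtain ⟨p', hp', hE, V, hV₁, hV₂⟩ := seg_cov (hV.anti (subset_univ _)) hk.1 β
          (hι.trans ((Order.le_succ _).trans (hk.1.kmu β))) dec₃ hn₃ hl'
        exact ⟨p', hp', hE.le (levC_lower β) (hU.anti (subset_univ _)) hp', V, hV₁,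
          fun i x r hr h hx => hV₂ i x r hr (fun j hj _ => h j hj) hx⟩
  obtain ⟨b, hb, h3⟩ := hB.bdd (Subtype.val '' V) (Subtype.coe_image_subset _ _)
    (mk_image_le.trans hV')
  refine ⟨q, hq, h1, b, hB.sub hb, fun i x r hr h hx => ?_⟩
  obtain ⟨a, ha, h4⟩ := h2 i x r hr h hx
  exact h4.trans (h3 _ ⟨a, ha, rfl⟩)

/-- The generic collapse. -/
theorem col_names (hV : Valid X D univ) (β : Θ) : ∃ g : Ω → Cnd (JJ Θ) Ω → Ω → Prop,
    (∀ i < X.mu β, IsNm (Low D univ) (Le D univ) (g i)) ∧ ∀ ξ < X.kap β, ∀ p ∈ Low D univ,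
      ∃ q ∈ Low D univ, Le D univ q p ∧ ∃ i < X.mu β, g i q ξ := by
  classical
  obtain ⟨k, hk⟩ := hV β trivial
  obtain ⟨val, c1, c2, c3⟩ := hk.2.col
  have hU := basicOn_univ hV
  have hu := isLowerSet_univ (α := JJ Θ)
  have hC := levC_lower β
  have F : ∀ i x y, ∀ r ∈ Low D univ, ∀ s ∈ Low D univ, Le D univ s r →
      val (r (cc β)).t i (res (levC β) r) x → val (s (cc β)).t i (res (levC β) s) y → x = y := by
    intro i x y r hr s hs h hx hy
    refine c1 _ _ i x y _ (res_mem hr (subset_univ _)) _ (res_mem hs (subset_univ _))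
      (t_mem hU hr trivial) (t_mem hU hs trivial) ((le_res_left hC Subset.rfl).2
        ((le_res_right hC Subset.rfl).2 (h.anti (subset_univ _)))) hx ?_ hy
    have := (h (cc β) trivial).2.2.2
    rwa [bs_cc] at this
  have Ext : ∀ r ∈ Low D univ, ∀ q ∈ Low D (levC β), Le D (levC β) q (res (levC β) r) →
      ∀ t ∈ (D (cc β)).T, (D (cc β)).le t (r (cc β)).t q →
      ∃ s ∈ Low D univ, Le D univ s r ∧ (s (cc β)).t = t ∧ res (levC β) s = q := by
    intro r hr q hq h t ht hle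
    have hm := glue_mem' hq (subset_univ _) hr
    have hnc : cc β ∉ levC β := fun h => lt_irrefl β (cc_mem_levC.1 h)
    have e0 : glue (levC β) q r (cc β) = r (cc β) := glue_of_notMem hnc
    have e1 : res (levC β) (glue (levC β) q r) = q := (res_glue Subset.rfl).trans (res_eq_self hq)
    have es : (r (cc β)).s = none := by
      rcases hs : (r (cc β)).s with _ | a
      · rfl
      · have := (hr.1 _ trivial).1 a hs
        rw [hk.2.pt_eq] at this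
        exact this.elim
    have hv : OkAt D (cc β) ⟨none, (r (cc β)).E, t⟩ :=
      ⟨fun a ha => by simp at ha, (hr.1 _ trivial).2.1, (hr.1 _ trivial).2.2.1, ht⟩
    have hs := update_mem hm (j := cc β) trivial hv
    refine ⟨_, hs, Le.trans hu hU hm hs (update_le hu hU hm trivial hv (fun a ha => ?_)
      (fun a _ ha => by simp at ha) (by rw [e0]) (by rw [bs_cc, e0, e1]; exact hle))
      (glue_le hu hU hC hm ((le_res_right hC Subset.rfl).1 h)), by rw [Function.update_self], ?_⟩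
    · rw [e0, es] at ha; simp at ha
    · have := res_bs_update (p := glue (levC β) q r) (j := cc β) ⟨none, (r (cc β)).E, t⟩
      rw [bs_cc] at this
      rw [this, e1]
  have E3 : ∀ i < X.mu β, ∀ r ∈ Low D univ, ∃ s ∈ Low D univ, Le D univ s r ∧
      ∃ x, val (s (cc β)).t i (res (levC β) s) x := fun i hi r hr => by
    obtain ⟨q, hq, h, t, ht, x, h1, h2⟩ := c3 _ (t_mem hU hr trivial) _
      (res_mem hr (subset_univ _)) i hi
    obtain ⟨s, hs, h3, h4, h5⟩ := Ext r hr q hq h t ht h1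
    exact ⟨s, hs, h3, x, by rw [h4, h5]; exact h2⟩
  have G : ∀ i < X.mu β, ∀ s ∈ Low D univ, ∀ x, val (s (cc β)).t i (res (levC β) s) x →
      ∀ r' ∈ Low D univ, Le D univ r' s → ∃ r'' ∈ Low D univ, Le D univ r'' r' ∧
        val (r'' (cc β)).t i (res (levC β) r'') x := fun i hi s hs x hx r' hr' h => by
    obtain ⟨r'', hr'', h1, y, hy⟩ := E3 i hi r' hr'
    exact ⟨r'', hr'', h1, F i x y s hs r'' hr'' (Le.trans hu hU hr' hr'' h1 h) hx hy ▸ hy⟩
  refine ⟨fun i r x => ∀ r' ∈ Low D univ, Le D univ r' r → ∃ r'' ∈ Low D univ, Le D univ r'' r' ∧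
    val (r'' (cc β)).t i (res (levC β) r'') x, fun i hi => ⟨?_, ?_, ?_, ?_⟩, fun ξ hξ p hp => ?_⟩
  · exact fun p _ q hq h x H r' hr' h' => H r' hr' (Le.trans hu hU hq hr' h' h)
  · intro p hp
    obtain ⟨s, hs, h, x, hx⟩ := E3 i hi p hp
    exact ⟨s, hs, h, x, G i hi s hs x hx⟩
  · intro p hp x y hx hy
    obtain ⟨r, hr, h, hx⟩ := hx p hp (Le.refl hu hU hp)
    obtain ⟨s, hs, h', hy⟩ := hy r hr h
    exact F i x y r hr s hs h' hx hy
  · intro p _ x H q hq h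
    obtain ⟨r, hr, h', H'⟩ := H q hq h
    obtain ⟨s, hs, h'', H''⟩ := H' r hr (Le.refl hu hU hr)
    exact ⟨s, hs, Le.trans hu hU hr hs h'' h', H''⟩
  · obtain ⟨q, hq, h, t, ht, i, hi, h1, h2⟩ := c2 _ (t_mem hU hp trivial) _
      (res_mem hp (subset_univ _)) ξ hξ
    obtain ⟨s, hs, h3, h4, h5⟩ := Ext p hp q hq h t ht h1
    exact ⟨s, hs, h3, i, hi, G i hi s hs ξ (by rw [h4, h5]; exact h2)⟩

theorem bdd_w1 (hV : Valid X D univ) {ι : Type u} [Countable ι]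
    (dec : ι → Cnd (JJ Θ) Ω → Ω → Prop) (hn : ∀ i, IsNm (Low D univ) (Le D univ) (dec i))
    (hlt : ∀ i x, ∀ q ∈ Low D univ, dec i q x → x < X.w1) {p : Cnd (JJ Θ) Ω}
    (hp : p ∈ Low D univ) : ∃ q ∈ Low D univ, Le D univ q p ∧ ∃ b < X.w1, ∀ i x,
      ∀ r ∈ Low D univ, Le D univ r q → dec i r x → x < b := by
  have := X.unc
  obtain ⟨β0⟩ : Nonempty Θ := inferInstance
  have hth : ∀ γ, X.th γ < X.w1 := fun γ => X.th_range.subset (mem_range_self γ)
  have : Nonempty (Iio X.w1) := ⟨⟨_, hth β0⟩⟩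
  have hU := basicOn_univ hV
  have hZ : #(Iio X.w1) = ℵ₁ := by
    rw [← X.th_range, mk_range_eq _ X.th_mono.injective, X.mk_Θ]
  have he : IsLowerSet (lev (∅ : Set Θ)) := lev_lower isLowerSet_empty
  obtain ⟨q, hq, h1, V, hV', h2⟩ := cov_sub isLowerSet_univ hU hn
    (fun x (b : Iio X.w1) => x = b.1) (fun i x q hq hx => ⟨⟨x, hlt i x q hq hx⟩, rfl⟩) (p := p)
    (fun V => #V ≤ #ι * #(Low D (lev (∅ : Set Θ)))) fun dec₁ hn₁ =>
    cov_lift he isLowerSet_univ (subset_univ _) hU hn₁ hp _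
      (tail hV isLowerSet_empty
        (fun δ _ => hZ ▸ (X.aleph1_le_lb δ).trans (Order.le_succ _))
        (fun δ _ => mk_le_aleph0.trans (X.aleph0_le_lb δ)) dec₁ hn₁ hp)
      (cov_triv he (hU.anti (subset_univ _)))
  rw [lev_empty, Low_empty, mk_singleton, mul_one] at hV'
  have hc : V.Countable := le_aleph0_iff_set_countable.1 (hV'.trans mk_le_aleph0)
  obtain ⟨γ, hγ⟩ := X.exists_bound
    ((hc.image Subtype.val).preimage_of_injOn X.th_mono.injective.injOn)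
  refine ⟨q, hq, h1, X.th γ, hth γ, fun i x r hr h hx => ?_⟩
  obtain ⟨b, hb, rfl⟩ := h2 i x r hr h hx
  obtain ⟨δ, hδ⟩ : b.1 ∈ range X.th := X.th_range.superset b.2
  exact hδ ▸ X.th_mono (hγ δ ⟨b, hb, hδ.symm⟩)

theorem bdd_succ (hV : Valid X D univ) {γ : Θ} (hγ : β < γ) (hs : ∀ δ, β < δ → γ ≤ δ)
    {ι : Type u} (hι : #ι ≤ X.lb γ) (dec : ι → Cnd (JJ Θ) Ω → Ω → Prop)
    (hn : ∀ i, IsNm (Low D univ) (Le D univ) (dec i))
    (hlt : ∀ i x, ∀ q ∈ Low D univ, dec i q x → x < X.mu γ) {p : Cnd (JJ Θ) Ω}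
    (hp : p ∈ Low D univ) : ∃ q ∈ Low D univ, Le D univ q p ∧ ∃ b < X.mu γ, ∀ i x,
      ∀ r ∈ Low D univ, Le D univ r q → dec i r x → x < b := by
  have : Nonempty (Iio (X.mu γ)) := ⟨⟨_, X.w1_mu γ⟩⟩
  have hU := basicOn_univ hV
  obtain ⟨k, hk⟩ := hV β trivial
  obtain ⟨q, hq, h1, V, hV', h2⟩ := cov_sub isLowerSet_univ hU hn
    (fun x (b : Iio (X.mu γ)) => x = b.1) (fun i x q hq hx => ⟨⟨x, hlt i x q hq hx⟩, rfl⟩) (p := p)
    (fun V => #V ≤ #ι * #(Low D (lev (Iic β)))) fun dec₁ hn₁ =>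
    cov_lift (levIic_lower β) isLowerSet_univ (subset_univ _) hU hn₁ hp _
      (tail hV (isLowerSet_Iic β)
        (fun δ hδ => X.mk_mu γ ▸ Order.succ_le_succ (X.lb_mono (hs δ (not_le.1 hδ))))
        (fun δ hδ => hι.trans (X.lb_mono (hs δ (not_le.1 hδ)))) dec₁ hn₁ hp)
      (cov_triv (levIic_lower β) (hU.anti (subset_univ _)))
  obtain ⟨b, hb, h3⟩ := X.mu_bdd γ (Subtype.val '' V) (Subtype.coe_image_subset _ _)
    (mk_image_le.trans (hV'.trans ((mul_le_mul' hι ((mk_low_Iic hk).trans (X.κ_le_lb hγ))).trans_eq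
      (mul_eq_self (X.aleph0_le_lb γ)))))
  refine ⟨q, hq, h1, b, hb, fun i x r hr h hx => ?_⟩
  obtain ⟨a, ha, rfl⟩ := h2 i x r hr h hx
  exact h3 _ ⟨a, ha, rfl⟩

theorem bdd_top (hV : Valid X D univ) (dec : Ω → Cnd (JJ Θ) Ω → Ω → Prop)
    (hn : ∀ i, IsNm (Low D univ) (Le D univ) (dec i)) {p : Cnd (JJ Θ) Ω} (hp : p ∈ Low D univ) :
    ∃ q ∈ Low D univ, Le D univ q p ∧ ∃ b, ∀ i < X.lam, ∀ x,
      ∀ r ∈ Low D univ, Le D univ r q → dec i r x → x < b := by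
  choose rk hrk using fun i : Iio X.lam => X.lam_cof i.1 i.2
  obtain ⟨q, hq, h1, V, hV', h2⟩ := lev_cov' (A := univ) isLowerSet_univ hV rk (fun _ => trivial)
    (fun γ => by
      rw [← X.mk_kap γ]
      exact mk_le_of_injective (f := fun i : {i | rk i ≤ γ} =>
        (⟨i.1.1, (hrk i.1).trans_le (X.kap_mono i.2)⟩ : Iio (X.kap γ)))
        fun i i' h => Subtype.ext (Subtype.ext (Subtype.mk.inj h)))
    (fun i => dec i.1) (fun i => hn i.1) hp
  have e : sum (fun γ : (univ : Set Θ) => X.κ γ) = sum X.κ :=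
    mk_congr (Equiv.sigmaCongrLeft (β := fun γ => (X.κ γ).out) (Equiv.Set.univ Θ))
  obtain ⟨b, hb⟩ := X.top_bdd V (e ▸ hV')
  exact ⟨q, hq, h1, b, fun i hi x r hr h hx => hb x (h2 ⟨i, hi⟩ x r hr h hx)⟩

/-- Few subsets of `mu β`. -/
theorem few (hV : Valid X D univ) (β : Θ) : ∃ O : Ω → Ω → Set (Cnd (JJ Θ) Ω),
    (∀ w i, O w i ⊆ Low D univ) ∧ ∀ N : Ω → Set (Cnd (JJ Θ) Ω),
      (∀ i, ∀ q ∈ Low D univ, ∀ q' ∈ Low D univ, Le D univ q' q → q ∈ N i → q' ∈ N i) →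
      (∀ i, ∀ r ∈ Low D univ, (∀ r' ∈ Low D univ, Le D univ r' r →
        ∃ r'' ∈ Low D univ, Le D univ r'' r' ∧ r'' ∈ N i) → r ∈ N i) →
      ∀ p ∈ Low D univ, ∃ q ∈ Low D univ, Le D univ q p ∧ ∃ w < X.lam, ∀ i < X.mu β,
        ∀ r ∈ Low D univ, Le D univ r q → (r ∈ N i ↔ ∀ r' ∈ Low D univ, Le D univ r' r →
          ∃ r'' ∈ Low D univ, Le D univ r'' r' ∧ ∃ s ∈ O w i, Le D univ r'' s) := by
  obtain ⟨k, hk⟩ := hV β trivial
  obtain ⟨γ, hγ⟩ := X.exists_gt β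
  have hU := basicOn_univ hV
  have hu := isLowerSet_univ (α := JJ Θ)
  have hc := levIic_lower β
  have hcard : #(Iio (X.mu β) → Set (Low D (lev (Iic β)))) ≤ #(Iio X.lam) := by
    rw [← power_def, mk_set, ← power_mul, X.mk_mu, X.mk_lam]
    refine le_trans ?_ (((X.inacc γ).isStrongPrelimit (X.κ_mono hγ)).le.trans
      (X.κ_le_sum γ))
    exact power_le_power_left two_ne_zero ((mul_le_mul' (mk_low_Iic hk) (X.lb_lt β).le).trans_eq
      (mul_eq_self (X.aleph0_lt_κ β).le))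
  obtain ⟨f⟩ := (le_def _ _).1 hcard
  refine ⟨fun w i => {s | ∃ φ, (f φ).1 = w ∧ ∃ (hi : i < X.mu β) (hs : s ∈ Low D (lev (Iic β))),
    ⟨s, hs⟩ ∈ φ ⟨i, hi⟩}, fun w i s ⟨_, _, _, hs, _⟩ => Low_mono hU (subset_univ _) hs,
    fun N hN hR p hp => ?_⟩
  have hn : ∀ i : Iio (X.mu β), IsNm (Low D univ) (Le D univ)
      (tvN (Low D univ) (Le D univ) (N i.1)) :=
    fun i => isNm_tvN (refl_on hu hU) (trans_on hu hU) (hN i.1)
  obtain ⟨p', hp', hE, H⟩ := tail hV (isLowerSet_Iic β)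
    (fun δ _ => mk_le_aleph0.trans ((X.aleph0_le_lb δ).trans (Order.le_succ _)))
    (fun δ hδ => X.mk_mu β ▸ (X.lb_lt β).le.trans (X.κ_le_lb (not_le.1 hδ))) _ hn hp
  let φ : Iio (X.mu β) → Set (Low D (lev (Iic β))) :=
    fun i => {l | glue (lev (Iic β)) l.1 p' ∈ N i.1}
  refine ⟨p', hp', hE.le hu hU hp', (f φ).1, (f φ).2, fun i hi r hr h =>
    ⟨fun hrN r' hr' h' => ?_, fun H' => hR i r hr fun r' hr' h' => ?_⟩⟩
  · have h1 : tvN (Low D univ) (Le D univ) (N i) r' ⟨true⟩ := Or.inl ⟨rfl, fun s hs h'' =>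
      ⟨s, hs, Le.refl hu hU hs, hN i r hr s hs (Le.trans hu hU hr' hs h'' h') hrN⟩⟩
    obtain ⟨l, hl, h2, -, ⟨-, h4⟩ | ⟨h4, -⟩⟩ := pull hc hu (subset_univ _) hU (hn ⟨i, hi⟩) hp' hE
      (H ⟨i, hi⟩) hr' (Le.trans hu hU hr hr' h' h) h1
    · have hm := glue_mem' hl (subset_univ _) hr'
      exact ⟨_, hm, glue_le hu hU hc hm h2, l,
        ⟨φ, rfl, hi, hl, hR i _ (glue_mem' hl (subset_univ _) hp') h4⟩,
        glue_le_low hu hU hc (subset_univ _) hl hr'⟩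
    · simp at h4
  · obtain ⟨r'', hr'', h1, s, ⟨ψ, h2, hi', hs, h3⟩, h4⟩ := H' r' hr' h'
    obtain rfl : ψ = φ := f.injective (Subtype.ext h2)
    have h5 := Le.trans hu hU hr hr'' (Le.trans hu hU hr' hr'' h1 h') h
    exact ⟨r'', hr'', h1, hN i _ (glue_mem' hs (subset_univ _) hp') r'' hr''
      (le_glue (fun j hj _ => h4 j hj) fun j hj _ => h5 j hj) h3⟩

end Pool.Agent.MP_a2558b_lc
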