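import Pool.Agent.MP_a2558b_lc.Tail
import Pool.Agent.MP_a2558b_lc.Cov

namespace Pool.Agent.MP_a2558b_lc

open Cardinal hiding univ
open Set Base

universe u

variable {Θ Ω : Type u} [LinearOrder Θ] [WellFoundedLT Θ] [LinearOrder Ω] [WellFoundedLT Ω]
  [Inhabited Ω] {X : Ctx Θ Ω} {D : Sys (JJ Θ) Ω} {β : Θ} {k : Θ → Cardinal.{u}}

omit [WellFoundedLT Θ] [WellFoundedLT Ω] in
theorem chain_cc_none (hk : LevelOK X D β k) {u : Cnd (JJ Θ) Ω} (hu : u ∈ Low D (lev (Iic β))) :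
    (u (cc β)).s = none ∧ (u (cc β)).E = ∅ := by
  have h := hu.1 (cc β) (by simp)
  refine ⟨?_, ?_⟩
  · cases e : (u (cc β)).s with
    | none => rfl
    | some a =>
      have := h.1 a e
      rw [hk.2.pt_eq] at this
      exact this.elim
  · exact subset_eq_empty h.2.1 hk.2.pt_eq

omit [WellFoundedLT Θ] in
theorem chain_eq_cc {j : JJ Θ} (h : j ∈ lev (Iic β)) (h' : j ∉ levC β) : j = cc β :=
  (mem_levIic.1 h).resolve_left h'

omit [WellFoundedLT Θ] [WellFoundedLT Ω] in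
theorem chain_mixCut (hk : LevelOK X D β k) : MixCut D (levC β) (lev (Iic β)) := by
  intro j hj hj'
  obtain rfl := chain_eq_cc hj hj'
  rw [bs_cc]
  exact ⟨Subset.rfl, Or.inr ⟨hk.2.pt_eq, hk.2.mix⟩⟩

/-- One task of the step lemma: a term at the collapse coordinate and a bound. -/
theorem chain_task (hV : Valid X D (Iic β)) (hk : LevelOK X D β k) {B : Set Ω} {d : Ω}
    (hB : BProp X β k B d) (H : Ω → Set (Cnd (JJ Θ) Ω))
    (hH : ∀ b, ∀ q ∈ Low D (lev (Iic β)), ∀ q' ∈ Low D (lev (Iic β)), Le D (lev (Iic β)) q' q →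
      q ∈ H b → q' ∈ H b)
    {u : Cnd (JJ Θ) Ω} (hu : u ∈ Low D (lev (Iic β)))
    (h₁ : ∀ a < d, ∀ q ∈ Low D (lev (Iic β)), Le D (lev (Iic β)) q u →
      ∃ r ∈ Low D (lev (Iic β)), Le D (lev (Iic β)) r q ∧ ∃ b ∈ B, a ≤ b ∧ r ∈ H b)
    (i : Θ) {a0 : Ω} (ha0 : a0 < d) {v : Cnd (JJ Θ) Ω} (hv : v ∈ Low D (levC β))
    (hvu : ∀ j ∈ levC β, j ∉ Iic (pt β i) → TDir D j v u) :
    ∃ v' ∈ Low D (levC β), TExt D (Iic (pt β i)) (levC β) v' v ∧
      ∃ z ∈ Low D (lev (Iic β)), TDir D (cc β) z u ∧ ∃ b ∈ B,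
        ∀ q ∈ Low D (levC β), Le D (Iic (pt β i)) q u →
          (∀ j ∈ levC β, j ∉ Iic (pt β i) → LeAt D j q v') →
          ∃ q' ∈ Low D (levC β), Le D (levC β) q' q ∧ ∃ b' ∈ B, a0 ≤ b' ∧ b' < b ∧
            glue (levC β) q' z ∈ H b' := by
  have hV' : Valid X D (Iio β) := hV.anti Iio_subset_Iic_self
  have he := levIic_lower β
  have hc := levC_lower β
  have hce := levC_sub_levIic β
  have hBe : BasicOn D (lev (Iic β)) := basicOn_lev hV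
  have hBc : BasicOn D (levC β) := hBe.anti hce
  obtain ⟨z, hz, hzu, hmix⟩ := full_mix hc he hce hBe (chain_mixCut hk)
    (fun r => ∃ b ∈ B, a0 ≤ b ∧ r ∈ H b)
    (fun r hr r' hr' h ⟨b, h₁, h₂, h₃⟩ => ⟨b, h₁, h₂, hH b r hr r' hr' h h₃⟩) hu u (by
      intro l hl hlu
      have hm := glue_mem' hl hce hu
      obtain ⟨r, hr, hrl, hΦ⟩ := h₁ a0 ha0 _ hm (glue_le he hBe hc hm hlu)
      refine ⟨r, hr, (le_glue_right hc Subset.rfl).1 (hrl.anti hce), fun j hj hj' => ?_, hΦ⟩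
      refine ⟨?_, (leAt_congr rfl (fun _ _ => rfl) (glue_of_notMem hj')).1 (hrl j hj)⟩
      obtain rfl := chain_eq_cc hj hj'
      rw [(chain_cc_none hk hr).1, (chain_cc_none hk hu).1])
  have hu0 : res (levC β) u ∈ Low D (levC β) := res_mem hu hce
  obtain ⟨dec, hdec, hdec'⟩ := exists_nm (X := Ω) (refl_on hc hBc) (trans_on hc hBc)
    (fun q b => b ∈ B ∧ a0 ≤ b ∧ glue (levC β) q z ∈ H b)
    (fun q hq q' hq' h b ⟨h₁, h₂, h₃⟩ => ⟨h₁, h₂, hH b _ (glue_mem' hq hce hz) _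
      (glue_mem' hq' hce hz) (glue_le_glue he hBe hc (glue_mem' hq' hce hz) h
        fun j hj _ => TDir.refl he hBe hj hz rfl) h₃⟩)
    (res (levC β) u) hu0 (by
      intro q hq hqu
      obtain ⟨l', hl', h, b, h'⟩ := hmix q hq ((le_res_right hc Subset.rfl).1 hqu)
      exact ⟨l', hl', h, b, h'⟩)
  obtain ⟨v', hv', hvv, V, hVk, hcov⟩ := seg_cov (ι := PUnit.{u + 1}) (Z := Ω) hV' hk.1 i
    (by
      rw [mk_punit]
      exact ((one_le_aleph0.trans (X.aleph0_le_lb β)).trans (Order.le_succ _)).trans (hk.1.kmu i))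
    (fun _ => dec) (fun _ => hdec) hv
  obtain ⟨b, hb, hbV⟩ := hB.bdd (V ∩ B) inter_subset_right
    ((mk_le_mk_of_subset inter_subset_left).trans hVk)
  refine ⟨v', hv', hvv, z, hz, hzu.2 _ (by simp) (by simp), b, hb, fun q hq hq₁ hq₂ => ?_⟩
  have hqu : Le D (levC β) q (res (levC β) u) := by
    refine (le_res_right hc Subset.rfl).2 fun j hj => ?_
    by_cases e : j ∈ Iic (pt β i)
    · exact hq₁ j e
    · exact ((hq₂ j hj e).trans_tdir hc hBc hj hq (hvv.2 j hj e)).trans_tdir hc hBc hj hq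
        (hvu j hj e)
  obtain ⟨q1, hq1, hq1q, x, hx⟩ := hdec.dense q hq
  have hxV : x ∈ V := hcov PUnit.unit x q1 hq1 (fun j hj e =>
    LeAt.trans hc hBc hj hq hq1 (hq1q.anti (bs_sub hc hj)) (hq1q j hj) (hq₂ j hj e)) hx
  obtain ⟨r, hr, hrq, h₂, h₃, h₄⟩ := hdec' q1 hq1 (Le.trans hc hBc hq hq1 hq1q hqu) x hx q1 hq1
    (Le.refl hc hBc hq1)
  exact ⟨r, hr, Le.trans hc hBc hq1 hr hrq hq1q, x, h₂, h₃, hbV x ⟨hxV, h₂⟩, h₄⟩

/-- The step lemma: different points at `pt β i` force different members of `B`. -/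
theorem chain_step (hV : Valid X D (Iic β)) (hk : LevelOK X D β k) {B : Set Ω} {d : Ω}
    (hB : BProp X β k B d) (H : Ω → Set (Cnd (JJ Θ) Ω))
    (hH : ∀ b, ∀ q ∈ Low D (lev (Iic β)), ∀ q' ∈ Low D (lev (Iic β)), Le D (lev (Iic β)) q' q →
      q ∈ H b → q' ∈ H b)
    {u : Cnd (JJ Θ) Ω} (hu : u ∈ Low D (lev (Iic β)))
    (h₁ : ∀ a < d, ∀ q ∈ Low D (lev (Iic β)), Le D (lev (Iic β)) q u →
      ∃ r ∈ Low D (lev (Iic β)), Le D (lev (Iic β)) r q ∧ ∃ b ∈ B, a ≤ b ∧ r ∈ H b)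
    (i : Θ) :
    ∃ u' ∈ Low D (lev (Iic β)), TExt D (lev (Iio β)) (lev (Iic β)) u' u ∧
      ∃ Val : Ω → Set Ω, ∃ bd ∈ B, (∀ a a' b, b ∈ Val a → b ∈ Val a' → a = a') ∧
        (∀ a, ∀ b ∈ Val a, b ∈ B ∧ b < bd) ∧
        ∀ l ∈ Low D (lev (Iic β)), Le D (lev (Iic β)) l u' → ∀ a, (l (pt β i)).s = some a →
          ∃ l' ∈ Low D (lev (Iic β)), Le D (lev (Iic β)) l' l ∧ ∃ b ∈ Val a, l' ∈ H b := by
  classical
  have he := levIic_lower β
  have hc := levC_lower β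
  have hce := levC_sub_levIic β
  have hBe : BasicOn D (lev (Iic β)) := basicOn_lev hV
  have hBc : BasicOn D (levC β) := hBe.anti hce
  have hjc : pt β i ∈ levC β := by simp
  have hI : IsLowerSet (Iic (pt β i)) := isLowerSet_Iic _
  have hIc := Iic_pt_sub_levC β i
  have hu0 : res (levC β) u ∈ Low D (levC β) := res_mem hu hce
  have hW : #(D (pt β i)).Pt ≤ sum k := (hk.1.size i).1.trans (Cardinal.le_sum k i)
  have : Nonempty (Cnd (JJ Θ) Ω × Ω) := ⟨(ctop, default)⟩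
  obtain ⟨v, hv, hvu, h, hG⟩ := rec_closed (c := Iic (pt β i)) hc hBc (W := (D (pt β i)).Pt)
    (Δ := Cnd (JJ Θ) Ω × Ω) (fun _ => Iic (pt β i)) (fun _ => Subset.rfl)
    (by
      intro j hj hj'
      rcases mem_levC.1 hj with h | ⟨i', rfl⟩
      · exact absurd (mem_Iic.2 (le_of_lt (levIio_sub_Iio β i h))) hj'
      · have hi : i < i' := by
          by_contra h
          exact hj' (mem_Iic.2 (pt_le_pt.2 (Or.inr ⟨rfl, not_lt.1 h⟩)))
        exact (cl_pt hk.1 i').anti ((mk_set_le _).trans ((hk.1.size i).1.trans (k_le_clo hi))))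
    (fun a h x v => x.1 ∈ Low D (lev (Iic β)) ∧ TDir D (cc β) x.1 u ∧ x.2 ∈ B ∧ ∃ a0,
      (∀ a' < a, (h a').2 ∈ B → (h a').2 < a0) ∧
        ∀ q ∈ Low D (levC β), Le D (Iic (pt β i)) q u →
          (∀ j ∈ levC β, j ∉ Iic (pt β i) → LeAt D j q v) →
          ∃ q' ∈ Low D (levC β), Le D (levC β) q' q ∧ ∃ b' ∈ B, a0 ≤ b' ∧ b' < x.2 ∧
            glue (levC β) q' x.1 ∈ H b')
    (by
      rintro a h h' x v e ⟨h₂, h₃, h₄, a0, h₅, h₆⟩
      exact ⟨h₂, h₃, h₄, a0, fun a' ha' => e a' ha' ▸ h₅ a' ha', h₆⟩)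
    (by
      rintro a h x v hv v' hv' e ⟨h₂, h₃, h₄, a0, h₅, h₆⟩
      exact ⟨h₂, h₃, h₄, a0, h₅, fun q hq hq₁ hq₂ => h₆ q hq hq₁ fun j hj hj' =>
        (hq₂ j hj hj').trans_tdir hc hBc hj hq (e j hj hj')⟩)
    hu0 (by
      intro a h v hv hvu
      obtain ⟨a0, ha0, hb⟩ := hB.bdd (range (fun a' => (h a').2) ∩ B) inter_subset_right
        ((mk_le_mk_of_subset inter_subset_left).trans (mk_range_le.trans hW))
      obtain ⟨v', hv', hvv, z, hz, hzu, b, hb', hq⟩ := chain_task hV hk hB H hH hu h₁ i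
        (hB.sub ha0) hv fun j hj hj' => (tdir_congr rfl (res_of_mem hj)).1 (hvu.2 j hj hj')
      exact ⟨v', hv', (z, b), hvv.2, hz, hzu, hb', a0,
        fun a' _ h' => hb _ ⟨mem_range_self a', h'⟩, hq⟩)
  choose hz hzu hb a0 ha0 hq using hG
  obtain ⟨bd, hbd, hbd'⟩ := hB.bdd (range fun a => (h a).2) (range_subset_iff.2 hb)
    (mk_range_le.trans hW)
  have hcc : cc β ∈ lev (Iic β) := by simp
  have hcc' : cc β ∉ levC β := by simp
  obtain ⟨s, hs, hsu, hsa⟩ := hk.2.mix (D (pt β i)).Pt (fun a => ((h a).1 (cc β)).t)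
    (fun a => {q | q ∈ Low D (levC β) ∧ (q (pt β i)).s = some a.1}) (u (cc β)).t
    (t_mem hBe hu hcc) (fun a => t_mem hBe (hz a) hcc)
    (fun a => ⟨fun _ hq => hq.1, fun q hq q' hq' hle => ⟨hq', (hle _ hjc).1 _ hq.2⟩⟩)
    (fun a q hq => tle_of_top he hBe hcc (by rw [bs_cc]; exact hq.1) (hzu a).2.2)
    (fun a a' q hq hq' => Subtype.ext (Option.some.inj (hq.2.symm.trans hq'.2)))
  have hok : OkAt D (cc β) ⟨none, ∅, s⟩ :=
    ⟨fun _ h => by simp at h, empty_subset _, hk.2.null_all _, hs⟩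
  have hw := update_mem hu hcc hok
  have hu' := glue_mem' hv hce hw
  have hu'c : glue (levC β) v (Function.update u (cc β) ⟨none, ∅, s⟩) (cc β) = ⟨none, ∅, s⟩ := by
    rw [glue_of_notMem hcc', Function.update_self]
  refine ⟨_, hu', ⟨fun j hj => ?_, fun j hj hj' => ?_⟩,
    fun a => {b | ∃ ha : a ∈ (D (pt β i)).Pt, b ∈ B ∧ a0 ⟨a, ha⟩ ≤ b ∧ b < (h ⟨a, ha⟩).2},
    bd, hbd, ?_, ?_, ?_⟩
  · have hj' := levIio_sub_levC β hj
    rw [glue_of_mem hj', hvu.1 j (mem_Iic.2 (le_of_lt (levIio_sub_Iio β i hj))), res_of_mem hj']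
  · by_cases e : j ∈ levC β
    · exact (tdir_congr (glue_of_mem e) (res_of_mem e).symm).2 (hvu.tdir hc hBc hv e)
    · obtain rfl := chain_eq_cc hj e
      unfold TDir
      rw [hu'c, (chain_cc_none hk hu).1, (chain_cc_none hk hu).2]
      exact ⟨rfl, Subset.rfl, hsu⟩
  · rintro a a' b ⟨ha, -, h₂, h₃⟩ ⟨ha', -, h₄, h₅⟩
    rcases lt_trichotomy a a' with e | e | e
    · exact absurd (h₃.trans ((ha0 ⟨a', ha'⟩ ⟨a, ha⟩ e (hb _)).trans_le h₄)) (lt_irrefl _)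
    · exact e
    · exact absurd (h₅.trans ((ha0 ⟨a, ha⟩ ⟨a', ha'⟩ e (hb _)).trans_le h₂)) (lt_irrefl _)
  · rintro a b ⟨ha, h₂, -, h₃⟩
    exact ⟨h₂, h₃.trans (hbd' _ (mem_range_self _))⟩
  · intro l hl hlu a hla
    have ha : a ∈ (D (pt β i)).Pt := (hl.1 _ (hce hjc)).1 a hla
    have hl0 : res (levC β) l ∈ Low D (levC β) := res_mem hl hce
    have hlv : Le D (levC β) (res (levC β) l) v :=
      (le_res_left hc Subset.rfl).2 ((le_glue_right hc Subset.rfl).1 (hlu.anti hce))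
    obtain ⟨q', hq', hq'l, b, hbB, h₂, h₃, h₄⟩ := hq ⟨a, ha⟩ _ hl0
      ((le_congr hI (fun _ _ => rfl) fun j hj => (hvu.1 j hj).trans (res_of_mem (hIc hj))).1
        (hlv.anti hIc)) fun j hj _ => hlv j hj
    have hl' := glue_mem' hq' hce hl
    refine ⟨_, hl', glue_le he hBe hc hl' ((le_res_right hc Subset.rfl).1 hq'l), b,
      ⟨ha, hbB, h₂, h₃⟩, hH b _ (glue_mem' hq' hce (hz _)) _ hl' ?_ h₄⟩
    refine le_glue (fun j hj _ => glue_le_low he hBe hc hce hq' hl j hj) fun j hj e => ?_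
    obtain rfl := chain_eq_cc hj e
    refine (dirAt_of ?_ ?_ ?_).2
    · rw [(chain_cc_none hk hl').1, (chain_cc_none hk (hz _)).1]
    · rw [(chain_cc_none hk (hz _)).2]
      exact empty_subset _
    · rw [bs_cc, res_glue Subset.rfl, res_eq_self hq', glue_of_notMem hcc']
      have h₅ := (hlu _ hcc).2.2.2
      rw [hu'c, bs_cc] at h₅
      refine hk.2.basic.trans _ _ _ _ hq' (hk.2.basic.mono _ _ _ hl0 _ hq' hq'l h₅)
        (hsa ⟨a, ha⟩ q' ⟨hq', (hq'l _ hjc).1 a ?_⟩)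
      rw [res_of_mem hjc]
      exact hla

/-- The statement for the iteration up to level `β`. -/
theorem no_chain_loc (hV : Valid X D (Iic β)) (hk : LevelOK X D β k) {B : Set Ω} {d : Ω}
    (hB : BProp X β k B d) (m : Θ) (H : Ω → Set (Cnd (JJ Θ) Ω))
    (hH : ∀ b, ∀ q ∈ Low D (lev (Iic β)), ∀ q' ∈ Low D (lev (Iic β)), Le D (lev (Iic β)) q' q →
      q ∈ H b → q' ∈ H b)
    {p : Cnd (JJ Θ) Ω} (hp : p ∈ Low D (lev (Iic β)))
    (h₁ : ∀ a < d, ∀ q ∈ Low D (lev (Iic β)), Le D (lev (Iic β)) q p →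
      ∃ r ∈ Low D (lev (Iic β)), Le D (lev (Iic β)) r q ∧ ∃ b ∈ B, a ≤ b ∧ r ∈ H b)
    (h₂ : ∀ a < d, ∀ q ∈ Low D (lev (Iic β)), Le D (lev (Iic β)) q p →
      ∃ r ∈ Low D (lev (Iic β)), Le D (lev (Iic β)) r q ∧ ∃ c ∈ B, ∀ b ∈ B, b < a →
        ∀ s ∈ Low D (lev (Iic β)), Le D (lev (Iic β)) s r → s ∈ H b → X.Dr m b c) :
    False := by
  classical
  have he := levIic_lower β
  have hc := levIio_lower β
  have hce : lev (Iio β) ⊆ lev (Iic β) := lev_mono Iio_subset_Iic_self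
  have hBe : BasicOn D (lev (Iic β)) := basicOn_lev hV
  obtain ⟨u, hu, hup, h, hG⟩ := rec_closed (c := lev (Iio β)) he hBe (W := Θ)
    (Δ := (Ω → Set Ω) × Ω) (fun _ => lev (Iio β)) (fun _ => Subset.rfl)
    (fun j hj _ => (cl_lb hV hj).anti ((mk_set_le _).trans (X.mk_Θ.le.trans (X.aleph1_le_lb _))))
    (fun i _ x u => x.2 ∈ B ∧ (∀ a a' b, b ∈ x.1 a → b ∈ x.1 a' → a = a') ∧
      (∀ a, ∀ b ∈ x.1 a, b ∈ B ∧ b < x.2) ∧
        ∀ l ∈ Low D (lev (Iic β)), Le D (lev (Iio β)) l p →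
          (∀ j ∈ lev (Iic β), j ∉ lev (Iio β) → LeAt D j l u) → ∀ a, (l (pt β i)).s = some a →
          ∃ l' ∈ Low D (lev (Iic β)), Le D (lev (Iic β)) l' l ∧ ∃ b ∈ x.1 a, l' ∈ H b)
    (fun _ _ _ _ _ _ h => h)
    (by
      rintro i _ x v hv v' hv' e ⟨h₃, h₄, h₅, h₆⟩
      exact ⟨h₃, h₄, h₅, fun l hl hl₁ hl₂ => h₆ l hl hl₁ fun j hj hj' =>
        (hl₂ j hj hj').trans_tdir he hBe hj hl (e j hj hj')⟩)
    hp (by
      intro i _ u hu hup
      obtain ⟨u', hu', huu, Val, bd, h₃, h₄, h₅, h₆⟩ := chain_step hV hk hB H hH hu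
        (fun a ha q hq hqu => h₁ a ha q hq (Le.trans he hBe hu hq hqu (hup.le he hBe hu))) i
      refine ⟨u', hu', (Val, bd), huu.2, h₃, h₄, h₅, fun l hl hl₁ hl₂ => h₆ l hl fun j hj => ?_⟩
      by_cases e : j ∈ lev (Iio β)
      · exact (leAt_congr rfl (fun _ _ => rfl) ((huu.1 j e).trans (hup.1 j e))).2 (hl₁ j e)
      · exact hl₂ j hj e)
  choose hb hdisj hval hq using hG
  obtain ⟨a, ha, hab⟩ := hB.bdd (range fun i => (h i).2) (range_subset_iff.2 hb)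
    (mk_range_le.trans (X.mk_Θ.le.trans ((X.aleph1_le_lb β).trans ((Order.le_succ _).trans
      ((hk.1.kmu β).trans (Cardinal.le_sum k β))))))
  have hup' := hup.le he hBe hu
  obtain ⟨r, hr, hru, c, hcB, hr'⟩ := h₂ a (hB.sub ha) u hu hup'
  have hfin : {i | (r (pt β i)).s ≠ none}.Finite :=
    hr.2.2.preimage (f := fun i => pt β i) fun _ _ _ _ e => (pt_inj.1 e).2
  obtain ⟨i, hi⟩ := X.exists_bound ((hfin.insert m).insert β).countable
  have hβ : β < i := hi β (Or.inl rfl)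
  have hm : m < i := hi m (Or.inr (Or.inl rfl))
  have hri : (r (pt β i)).s = none := by
    by_contra e
    exact lt_irrefl i (hi i (Or.inr (Or.inr e)))
  have hj : pt β i ∈ lev (Iic β) := by simp
  have hN : (D (pt β i)).null {x | ∃ b ∈ (h i).1 x, b ∈ B ∧ X.Dr m b c} := by
    refine (hk.1.comp i).null_small (hk.1.basic i) (hk.1.act i hβ)
      (le_trans ?_ ((hB.pred m c hcB).trans (k_le_clo hm)))
    have hch : ∀ x : {x | ∃ b ∈ (h i).1 x, b ∈ B ∧ X.Dr m b c},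
        ∃ b : {a | a ∈ B ∧ X.Dr m a c}, b.1 ∈ (h i).1 x.1 :=
      fun ⟨x, b, h₃, h₄⟩ => ⟨⟨b, h₄⟩, h₃⟩
    choose f hf using hch
    exact mk_le_of_injective (f := f) fun x y e =>
      Subtype.ext (hdisj i _ _ _ (hf x) (by rw [e]; exact hf y))
  obtain ⟨x, hx, hxE, hxt⟩ := (hk.1.basic i).exists_pt Subset.rfl (hk.1.act i hβ).1
    ((hk.1.basic i).null_union _ _ hN (hr.1 _ hj).2.2.1) (t_mem hBe hr hj)
  obtain ⟨hr1, hr1r⟩ := add_pt he hBe hr hj hri hx (fun e => hxE (Or.inr e)) hxt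
  have hr1u := Le.trans he hBe hr hr1 hr1r hru
  obtain ⟨l', hl', hl'r, b, hbv, hbH⟩ := hq i _ hr1
    ((Le.trans he hBe hu hr1 hr1u hup').anti hce) (fun j hj _ => hr1u j hj) x
    (by rw [Function.update_self])
  have hb' := hval i x b hbv
  exact hxE (Or.inl ⟨b, hbv, hb'.1, hr' b hb'.1 (hb'.2.trans (hab _ (mem_range_self i))) l' hl'
    (Le.trans he hBe hr1 hl' hl'r hr1r) hbH⟩)

theorem no_chain (hV : Valid X D univ) (hk : LevelOK X D β k) {B : Set Ω} {d : Ω}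
    (hB : BProp X β k B d) (m : Θ) (H : Ω → Set (Cnd (JJ Θ) Ω))
    (hH : ∀ b, ∀ q ∈ Low D univ, ∀ q' ∈ Low D univ, Le D univ q' q → q ∈ H b → q' ∈ H b)
    {p : Cnd (JJ Θ) Ω} (hp : p ∈ Low D univ)
    (h₁ : ∀ a < d, ∀ q ∈ Low D univ, Le D univ q p →
      ∃ r ∈ Low D univ, Le D univ r q ∧ ∃ b ∈ B, a ≤ b ∧ r ∈ H b)
    (h₂ : ∀ a < d, ∀ q ∈ Low D univ, Le D univ q p → ∃ r ∈ Low D univ, Le D univ r q ∧
      ∃ c ∈ B, ∀ b ∈ B, b < a → ∀ s ∈ Low D univ, Le D univ s r → s ∈ H b → X.Dr m b c) :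
    False := by
  have hd : IsLowerSet (univ : Set (JJ Θ)) := isLowerSet_univ
  have hBu : BasicOn D univ := basicOn_univ hV
  have he := levIic_lower β
  have heu : lev (Iic β) ⊆ univ := subset_univ _
  have hBe : BasicOn D (lev (Iic β)) := hBu.anti heu
  obtain ⟨p', hp', hpp, hdec⟩ := tail hV (isLowerSet_Iic β) (ι := B) (Z := ULift.{u} Bool)
    (fun γ _ => ((lt_aleph0_of_finite _).le.trans (X.aleph0_le_lb γ)).trans (Order.le_succ _))
    (fun γ hγ => hB.size.trans (X.κ_le_lb (not_le.1 hγ)))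
    (fun b => tvN (Low D univ) (Le D univ) (H b))
    (fun b => isNm_tvN (refl_on hd hBu) (trans_on hd hBu) (hH b)) hp
  have hgl : ∀ l ∈ Low D (lev (Iic β)), Le D (lev (Iic β)) l (res (lev (Iic β)) p) →
      Le D univ (glue (lev (Iic β)) l p') p := fun l hl h =>
    Le.trans hd hBu hp' (glue_mem' hl heu hp') (glue_le hd hBu he (glue_mem' hl heu hp')
      ((le_congr he (fun _ _ => rfl) fun j hj => (hpp.1 j hj).trans (res_of_mem hj).symm).2 h))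
      (hpp.le hd hBu hp')
  have hkey : ∀ l ∈ Low D (lev (Iic β)), ∀ r ∈ Low D univ, Le D univ r (glue (lev (Iic β)) l p') →
      ∀ l' ∈ Low D (lev (Iic β)), Le D (lev (Iic β)) l' (res (lev (Iic β)) r) →
        Le D univ (glue (lev (Iic β)) l' r) (glue (lev (Iic β)) l' p') ∧
          Le D univ (glue (lev (Iic β)) l' r) r := fun l _ r hr h l' hl' h' =>
    ⟨glue_le_glue' hd hBu he heu hl' hr ((le_res_right he Subset.rfl).1 h') fun j hj e =>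
      (leAt_congr rfl (fun _ _ => rfl) (glue_of_notMem e)).1 (h j hj),
      glue_le hd hBu he (glue_mem' hl' heu hr) ((le_res_right he Subset.rfl).1 h')⟩
  have hres : ∀ l, ∀ r, Le D univ r (glue (lev (Iic β)) l p') →
      Le D (lev (Iic β)) (res (lev (Iic β)) r) l := fun l r h =>
    (le_res_left he Subset.rfl).2 ((le_glue_right he Subset.rfl).1 (h.anti heu))
  refine no_chain_loc (hV.anti (subset_univ _)) hk hB m
    (fun b => {l | ∀ r ∈ Low D univ, Le D univ r (glue (lev (Iic β)) l p') →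
      ∃ s ∈ Low D univ, Le D univ s r ∧ s ∈ H b}) ?_ (res_mem hp heu) ?_ ?_
  · intro b q hq q' hq' h hb r hr h'
    exact hb r hr (Le.trans hd hBu (glue_mem' hq' heu hp') hr h'
      (glue_le_glue hd hBu he (glue_mem' hq' heu hp') h fun j hj _ => TDir.refl hd hBu hj hp' rfl))
  · intro a ha l hl hlp
    obtain ⟨r, hr, hrl, b, hbB, hab, hrH⟩ := h₁ a ha _ (glue_mem' hl heu hp') (hgl l hl hlp)
    have hr0 := res_mem hr heu
    have hr1 := hres l r hrl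
    obtain ⟨l', hl', hl'r, x, hx⟩ := hdec ⟨b, hbB⟩ _ hr0
      ((le_res_right he Subset.rfl).1 (Le.trans he hBe hl hr0 hr1 hlp))
    obtain ⟨h₃, h₄⟩ := hkey l hl r hr hrl l' hl' hl'r
    refine ⟨l', hl', Le.trans he hBe hr0 hl' hl'r hr1, b, hbB, hab, ?_⟩
    rcases hx with ⟨-, hx⟩ | ⟨-, hx⟩
    · exact hx
    · exact absurd (hH b r hr _ (glue_mem' hl' heu hr) h₄ hrH) (hx _ (glue_mem' hl' heu hr) h₃)
  · intro a ha l hl hlp
    obtain ⟨r, hr, hrl, c, hcB, hc⟩ := h₂ a ha _ (glue_mem' hl heu hp') (hgl l hl hlp)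
    refine ⟨_, res_mem hr heu, hres l r hrl, c, hcB, fun b hbB hba l' hl' hl'r hb => ?_⟩
    obtain ⟨h₃, h₄⟩ := hkey l hl r hr hrl l' hl' hl'r
    obtain ⟨s, hs, h₅, h₆⟩ := hb _ (glue_mem' hl' heu hr) h₃
    exact hc b hbB hba s hs (Le.trans hd hBu (glue_mem' hl' heu hr) hs h₅ h₄) h₆

end Pool.Agent.MP_a2558b_lc
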