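import Pool.Agent.MP_a2558b_lc.Trans

namespace Pool.Agent.MP_a2558b_lc

open Cardinal hiding univ
open Set

universe u

namespace Coll

variable {Q Ω : Type u} [LinearOrder Ω]

/-- Terms for a bounded partial function from `mu` to `kap`. -/
structure IsTm (L : Set Q) (R : Q → Q → Prop) (mu kap : Ω) (v : Ω → Q → Ω → Prop) : Prop where
  supp : ∀ i q x, v i q x → i < mu ∧ q ∈ L ∧ x < kap
  mono : ∀ i q x, v i q x → ∀ q' ∈ L, R q' q → v i q' x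
  func : ∀ i q x y, v i q x → v i q y → x = y
  bdd : ∀ q ∈ L, ∃ q' ∈ L, R q' q ∧ ∃ b < mu, ∀ i, b ≤ i → ∀ q'' ∈ L, R q'' q' → ∀ x, ¬ v i q'' x

def tle (L : Set Q) (R : Q → Q → Prop) (v' v : Ω → Q → Ω → Prop) (q : Q) : Prop :=
  ∀ i, ∀ q' ∈ L, R q' q → ∀ x, v i q' x → ∃ q'' ∈ L, R q'' q' ∧ v' i q'' x

/-- The collapse coordinate on the terms themselves. -/
def C0 (L : Set Q) (R : Q → Q → Prop) (mu kap : Ω) : Crd Ω (Ω → Q → Ω → Prop) Q where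
  Pt := ∅
  T := {v | IsTm L R mu kap v}
  null _ := True
  y _ := ∅
  le := tle L R

/-- The standing assumptions. -/
structure Hyp (L : Set Q) (R : Q → Q → Prop) (mu : Ω) : Prop where
  hr : ∀ p ∈ L, R p p
  ht : ∀ p ∈ L, ∀ q ∈ L, ∀ r ∈ L, R r q → R q p → R r p
  ne : ∃ a, a < mu
  lim : ∀ a < mu, ∀ b < mu, ∃ c < mu, a < c ∧ b < c

variable {L : Set Q} {R : Q → Q → Prop} {mu kap : Ω}

theorem isTm_empty (H : Hyp L R mu) : IsTm L R mu kap (fun _ _ _ => False) := by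
  refine ⟨fun _ _ _ h => h.elim, fun _ _ _ h => h.elim, fun _ _ _ _ h => h.elim, fun q hq => ?_⟩
  obtain ⟨a, ha⟩ := H.ne
  exact ⟨q, hq, H.hr q hq, a, ha, fun _ _ _ _ _ _ h => h⟩

theorem tle_of_sub (H : Hyp L R mu) {v' v : Ω → Q → Ω → Prop} {q : Q}
    (h : ∀ i, ∀ q' ∈ L, R q' q → ∀ x, v i q' x → v' i q' x) : tle L R v' v q :=
  fun i q' hq' h' x hx => ⟨q', hq', H.hr q' hq', h i q' hq' h' x hx⟩

theorem basic (H : Hyp L R mu) : (C0 L R mu kap).Basic L R (fun _ _ _ => False) where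
  o_mem := isTm_empty H
  y_sub _ h := h.elim
  refl _ _ _ _ := tle_of_sub H fun _ _ _ _ _ h => h
  trans a b c q hq h₁ h₂ i q' hq' h' x hx := by
    obtain ⟨q₂, hq₂, r₂, h₃⟩ := h₂ i q' hq' h' x hx
    obtain ⟨q₃, hq₃, r₃, h₄⟩ := h₁ i q₂ hq₂ (H.ht _ hq _ hq' _ hq₂ r₂ h') x h₃
    exact ⟨q₃, hq₃, H.ht _ hq' _ hq₂ _ hq₃ r₃ r₂, h₄⟩
  mono a b q hq q' hq' r h i q₂ hq₂ r₂ := h i q₂ hq₂ (H.ht _ hq _ hq' _ hq₂ r₂ r)
  top _ _ _ _ _ _ _ _ _ h := h.elim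
  null_empty := trivial
  null_mono _ _ _ _ := trivial
  null_union _ _ _ _ := trivial
  null_pt _ _ := trivial
  ultra _ := Or.inl trivial
  fine _ _ := trivial
  normal _ _ _ h _ := (h trivial).elim

/-- Values of comparable terms agree. -/
theorem agree {t t' : Ω → Q → Ω → Prop} (h' : IsTm L R mu kap t') {q : Q} (hq : q ∈ L)
    (hr : R q q) (hle : tle L R t' t q) {i x y : Ω} (hx : t i q x) (hy : t' i q y) : x = y := by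
  obtain ⟨q', hq', r, h⟩ := hle i q hq hr x hx
  exact h'.func i q' x y h (h'.mono i q y hy q' hq' r)

/-- The union of a family of terms along open sets. -/
def sup (L : Set Q) {ι : Type u} (t : ι → Ω → Q → Ω → Prop) (M : ι → Set Q)
    (t0 : Ω → Q → Ω → Prop) : Ω → Q → Ω → Prop :=
  fun i q x => q ∈ L ∧ (t0 i q x ∨ ∃ k, q ∈ M k ∧ t k i q x)

theorem sup_spec (H : Hyp L R mu) {ι : Type u} {t : ι → Ω → Q → Ω → Prop} {M : ι → Set Q}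
    {t0 : Ω → Q → Ω → Prop} (tp : Q) (h0 : IsTm L R mu kap t0) (ht : ∀ k, IsTm L R mu kap (t k))
    (hM : ∀ k, OpenIn L R (M k)) (hle : ∀ k, ∀ q ∈ M k, tle L R (t k) t0 q)
    (hf : ∀ k k' i q x y, q ∈ M k → q ∈ M k' → t k i q x → t k' i q y → x = y)
    (hb : ∀ q ∈ L, ∃ q' ∈ L, R q' q ∧ ∃ b < mu, ∀ i, b ≤ i → ∀ q'' ∈ L, R q'' q' →
      ∀ x, ¬ sup L t M t0 i q'' x) :
    ∃ s ∈ (C0 L R mu kap).T, (C0 L R mu kap).le s t0 tp ∧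
      ∀ k, ∀ q ∈ M k, (C0 L R mu kap).le s (t k) q := by
  refine ⟨sup L t M t0, ⟨?_, ?_, ?_, hb⟩, tle_of_sub H fun i q' hq' _ x hx => ⟨hq', Or.inl hx⟩,
    fun k q hq => tle_of_sub H fun i q' hq' r x hx =>
      ⟨hq', Or.inr ⟨k, (hM k).2 q hq q' hq' r, hx⟩⟩⟩
  · rintro i q x ⟨-, h | ⟨k, -, h⟩⟩
    exacts [h0.supp i q x h, (ht k).supp i q x h]
  · rintro i q x ⟨-, h | ⟨k, hk, h⟩⟩ q' hq' r
    exacts [⟨hq', Or.inl (h0.mono i q x h q' hq' r)⟩,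
      ⟨hq', Or.inr ⟨k, (hM k).2 q hk q' hq' r, (ht k).mono i q x h q' hq' r⟩⟩]
  · rintro i q x y ⟨hq, h | ⟨k, hk, h⟩⟩ ⟨-, h' | ⟨k', hk', h'⟩⟩
    · exact h0.func i q x y h h'
    · exact agree (ht k') hq (H.hr q hq) (hle k' q hk') h h'
    · exact (agree (ht k) hq (H.hr q hq) (hle k q hk) h' h).symm
    · exact hf k k' i q x y hk hk' h h'

theorem mix (H : Hyp L R mu) (tp : Q) : (C0 L R mu kap).Mix L R tp := by
  intro ι t M t0 h0 ht hM hle hd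
  refine sup_spec H tp h0 ht hM hle (fun k k' i q x y hk hk' h h' => ?_) fun q hq => ?_
  · obtain rfl := hd k k' q hk hk'
    exact (ht k).func i q x y h h'
  by_cases e : ∃ k, ∃ q' ∈ M k, R q' q
  · obtain ⟨k, q₁, hq₁, r₁⟩ := e
    have m₁ := (hM k).1 hq₁
    obtain ⟨q₂, m₂, r₂, b₂, hb₂, h₂⟩ := (ht k).bdd q₁ m₁
    obtain ⟨q₃, m₃, r₃, b₃, hb₃, h₃⟩ := h0.bdd q₂ m₂
    refine ⟨q₃, m₃, H.ht _ hq _ m₂ _ m₃ r₃ (H.ht _ hq _ m₁ _ m₂ r₂ r₁), max b₂ b₃,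
      max_lt hb₂ hb₃, ?_⟩
    rintro i hi q₄ m₄ r₄ x ⟨-, h | ⟨k', hk', h⟩⟩
    · exact h₃ i ((le_max_right _ _).trans hi) q₄ m₄ r₄ x h
    · have r := H.ht _ m₂ _ m₃ _ m₄ r₄ r₃
      obtain rfl := hd k k' q₄ ((hM k).2 q₁ hq₁ q₄ m₄ (H.ht _ m₁ _ m₂ _ m₄ r r₂)) hk'
      exact h₂ i ((le_max_left _ _).trans hi) q₄ m₄ r x h
  · obtain ⟨q₃, m₃, r₃, b₃, hb₃, h₃⟩ := h0.bdd q hq
    refine ⟨q₃, m₃, r₃, b₃, hb₃, ?_⟩
    rintro i hi q₄ m₄ r₄ x ⟨-, h | ⟨k', hk', -⟩⟩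
    · exact h₃ i hi q₄ m₄ r₄ x h
    · exact e ⟨k', q₄, hk', H.ht _ hq _ m₃ _ m₄ r₄ r₃⟩

/-- Families of at most `c` names of elements below `mu` are forced to be bounded. -/
def BddFam (L : Set Q) (R : Q → Q → Prop) (mu : Ω) (c : Cardinal.{u}) : Prop :=
  ∀ (ι : Type u), #ι ≤ c → ∀ Φ : ι → Q → Ω → Prop,
    (∀ i, ∀ q ∈ L, ∀ q' ∈ L, R q' q → ∀ b, Φ i q b → Φ i q' b) →
    (∀ i, ∀ q ∈ L, ∃ q' ∈ L, R q' q ∧ ∃ b < mu, Φ i q' b) →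
    ∀ p ∈ L, ∃ p' ∈ L, R p' p ∧ ∃ b0 < mu, ∀ i, ∀ q ∈ L, R q p' →
      ∃ q' ∈ L, R q' q ∧ ∃ b < b0, Φ i q' b

theorem ndc (H : Hyp L R mu) (tp : Q) {c : Cardinal.{u}} (hc : ℵ₀ ≤ c) (hB : BddFam L R mu c) :
    (C0 L R mu kap).NDC L R tp c := by
  refine ⟨?_, fun _ h => h.elim⟩
  intro ι t M t0 hι h0 ht hM hle hd
  refine sup_spec H tp h0 ht hM hle (fun k k' i q x y hk hk' h h' => ?_) fun q hq => ?_
  · have hq := (hM k).1 hk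
    obtain ⟨q₁, m₁, r₁, k₁, -, l₁, l₂⟩ := hd k k' q hk hk'
    obtain ⟨q₂, m₂, r₂, h₂⟩ := l₁ i q₁ m₁ (H.hr _ m₁) x ((ht k).mono i q x h q₁ m₁ r₁)
    obtain ⟨q₃, m₃, r₃, h₃⟩ := l₂ i q₂ m₂ r₂ y
      ((ht k').mono i q y h' q₂ m₂ (H.ht _ hq _ m₁ _ m₂ r₂ r₁))
    exact (ht k₁).func i q₃ x y ((ht k₁).mono i q₂ x h₂ q₃ m₃ r₃) h₃
  let t' : Option ι → Ω → Q → Ω → Prop := fun o => o.elim t0 t
  have ht' : ∀ o, IsTm L R mu kap (t' o) := by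
    rintro (_ | k)
    exacts [h0, ht k]
  obtain ⟨p', hp', r', b0, hb0, h⟩ := hB (Option ι)
    (by rw [mk_option]; exact add_le_of_le hc hι (one_le_aleph0.trans hc))
    (fun o q b => ∀ i, b ≤ i → ∀ q'' ∈ L, R q'' q → ∀ x, ¬ t' o i q'' x)
    (fun o q hq q' hq' r b hb i hi q'' hq'' r'' => hb i hi q'' hq'' (H.ht _ hq _ hq' _ hq'' r'' r))
    (fun o q hq => (ht' o).bdd q hq) q hq
  refine ⟨p', hp', r', b0, hb0, fun i hi q₁ m₁ r₁ x hx => ?_⟩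
  obtain ⟨o, ho⟩ : ∃ o, t' o i q₁ x := by
    obtain ⟨-, hx | ⟨k, -, hx⟩⟩ := hx
    exacts [⟨none, hx⟩, ⟨some k, hx⟩]
  obtain ⟨q₂, m₂, r₂, b, hb, h₂⟩ := h o q₁ m₁ r₁
  exact h₂ i (hb.le.trans hi) q₂ m₂ (H.hr _ m₂) x ((ht' o).mono i q₁ x ho q₂ m₂ r₂)

/-- Adding one value. -/
theorem add (H : Hyp L R mu) {t : Ω → Q → Ω → Prop} (ht : IsTm L R mu kap t) {q : Q}
    (hq : q ∈ L) {i ξ : Ω} (hi : i < mu) (hξ : ξ < kap)
    (hn : ∀ q' ∈ L, R q' q → ∀ x, ¬ t i q' x) :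
    ∃ t', IsTm L R mu kap t' ∧ tle L R t' t q ∧ t' i q ξ := by
  refine ⟨fun j q' x => t j q' x ∨ (j = i ∧ q' ∈ L ∧ R q' q ∧ x = ξ), ⟨?_, ?_, ?_, ?_⟩,
    tle_of_sub H fun _ _ _ _ _ h => Or.inl h, Or.inr ⟨rfl, hq, H.hr q hq, rfl⟩⟩
  · rintro j q' x (h | ⟨rfl, h₁, -, rfl⟩)
    exacts [ht.supp j q' x h, ⟨hi, h₁, hξ⟩]
  · rintro j q' x (h | ⟨rfl, h₁, h₂, rfl⟩) q'' hq'' r
    exacts [Or.inl (ht.mono j q' x h q'' hq'' r),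
      Or.inr ⟨rfl, hq'', H.ht _ hq _ h₁ _ hq'' r h₂, rfl⟩]
  · rintro j q' x y (h | ⟨rfl, h₁, h₂, rfl⟩) (h' | ⟨e, h₃, h₄, rfl⟩)
    · exact ht.func j q' x y h h'
    · subst e; exact (hn q' h₃ h₄ x h).elim
    · exact (hn q' h₁ h₂ y h').elim
    · rfl
  · intro q₁ m₁
    obtain ⟨q₂, m₂, r₂, b, hb, h⟩ := ht.bdd q₁ m₁
    obtain ⟨c, hc, h₁, h₂⟩ := H.lim b hb i hi
    refine ⟨q₂, m₂, r₂, c, hc, ?_⟩
    rintro j hj q₃ m₃ r₃ x (h' | ⟨rfl, -⟩)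
    · exact h j (h₁.le.trans hj) q₃ m₃ r₃ x h'
    · exact absurd h₂ (not_lt.2 hj)

theorem col₂ (H : Hyp L R mu) {t : Ω → Q → Ω → Prop} (ht : IsTm L R mu kap t) {q : Q}
    (hq : q ∈ L) {ξ : Ω} (hξ : ξ < kap) :
    ∃ q' ∈ L, R q' q ∧ ∃ t', IsTm L R mu kap t' ∧ ∃ i < mu, tle L R t' t q' ∧ t' i q' ξ := by
  obtain ⟨q', hq', r, b, hb, h⟩ := ht.bdd q hq
  obtain ⟨t', h₁, h₂, h₃⟩ := add H ht hq' hb hξ (h b le_rfl)
  exact ⟨q', hq', r, t', h₁, b, hb, h₂, h₃⟩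

theorem col₃ (H : Hyp L R mu) (hk : mu < kap) {t : Ω → Q → Ω → Prop} (ht : IsTm L R mu kap t)
    {q : Q} (hq : q ∈ L) {i : Ω} (hi : i < mu) :
    ∃ q' ∈ L, R q' q ∧ ∃ t', IsTm L R mu kap t' ∧ ∃ ξ, tle L R t' t q' ∧ t' i q' ξ := by
  by_cases e : ∀ q' ∈ L, R q' q → ∀ x, ¬ t i q' x
  · obtain ⟨t', h₁, h₂, h₃⟩ := add H ht hq hi hk e
    exact ⟨q, hq, H.hr q hq, t', h₁, mu, h₂, h₃⟩
  · push Not at e
    obtain ⟨q', hq', r, x, hx⟩ := e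
    exact ⟨q', hq', r, t, ht, x, tle_of_sub H fun _ _ _ _ _ h => h, hx⟩

/-- Counting the terms. -/
theorem size {κ : Cardinal.{u}} (hκ : κ.IsInaccessible) (hL : #L < κ) (hmu : #(Iio mu) < κ)
    (hkap : #(Iio kap) ≤ κ) : #(C0 L R mu kap).T ≤ κ := by
  let A := (Iio mu × L × Iio kap) ⊕ κ.out
  have h0 : ℵ₀ ≤ κ := hκ.aleph0_lt.le
  have hA : #A = κ := by
    refine le_antisymm ?_ ?_
    · simp only [A, mk_sum, mk_prod, lift_id, mk_out]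
      exact add_le_of_le h0 (mul_le_of_le h0 hmu.le (mul_le_of_le h0 hL.le hkap)) le_rfl
    · simp only [A, mk_sum, lift_id, mk_out]
      exact le_add_self
  have hs := mk_subset_mk_lt_cof (α := A) (by rw [hA]; exact hκ.isStrongPrelimit)
  let g : (Ω → Q → Ω → Prop) → Set (Iio mu × L × Iio kap) := fun v => {w | v w.1 w.2.1 w.2.2}
  have hg : ∀ v ∈ (C0 L R mu kap).T, #(Sum.inl '' g v : Set A) < Ordinal.cof (#A).ord := by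
    intro v hv
    rw [hA]
    refine lt_of_lt_of_le ?_ hκ.le_cof_ord
    refine (mk_image_le.trans ?_).trans_lt (mul_lt_of_lt h0 hmu hL)
    have : #(Iio mu) * #L = #(Iio mu × L) := by simp
    rw [this]
    refine mk_le_of_injective (f := fun w : g v => (w.1.1, w.1.2.1)) ?_
    rintro ⟨⟨i, q, x⟩, h⟩ ⟨⟨i', q', x'⟩, h'⟩ e
    obtain ⟨rfl, rfl⟩ := Prod.mk.inj e
    obtain rfl : x = x' := Subtype.ext (IsTm.func hv _ _ _ _ h h')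
    rfl
  rw [← hA, ← hs]
  refine mk_le_of_injective (f := fun v : (C0 L R mu kap).T =>
    (⟨Sum.inl '' g v.1, hg v.1 v.2⟩ : {s : Set A // #s < Ordinal.cof (#A).ord})) ?_
  rintro ⟨v, hv⟩ ⟨v', hv'⟩ e
  have e' : g v = g v' := (image_injective.2 Sum.inl_injective) (congrArg Subtype.val e)
  have key : ∀ {v v'}, IsTm L R mu kap v → g v = g v' → ∀ i q x, v i q x → v' i q x := by
    intro v v' hv e i q x h
    obtain ⟨h₁, h₂, h₃⟩ := hv.supp i q x h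
    have : (⟨⟨i, h₁⟩, ⟨q, h₂⟩, ⟨x, h₃⟩⟩ : Iio mu × L × Iio kap) ∈ g v := h
    rw [e] at this
    exact this
  refine Subtype.ext (funext fun i => funext fun q => funext fun x => propext ⟨?_, ?_⟩)
  exacts [key hv e' i q x, key hv' e'.symm i q x]

omit [LinearOrder Ω] in
theorem tr_mix {α τ : Type u} {C : Crd α τ Q} {ja : α → Ω} {jt : τ → Ω} {tp : Q}
    (hj : InjOn jt C.T) (htp : tp ∈ L) (h : C.Mix L R tp) : (C.tr L ja jt).Mix L R tp := by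
  intro ι t M t0 h0 ht hM hle hd
  obtain ⟨u0, hu0, rfl⟩ := h0
  choose u hu e using ht
  obtain rfl : t = fun i => jt (u i) := funext fun i => (e i).symm
  obtain ⟨s, hs, h₁, h₂⟩ := h ι u M u0 hu0 hu hM
    (fun i q hq => (tr_le hj (hu i) hu0 ((hM i).1 hq)).1 (hle i q hq)) hd
  exact ⟨jt s, ⟨s, hs, rfl⟩, (tr_le hj hs hu0 htp).2 h₁,
    fun i q hq => (tr_le hj hs (hu i) ((hM i).1 hq)).2 (h₂ i q hq)⟩

end Coll

end Pool.Agent.MP_a2558b_lc
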