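import Pool.Agent.MP_a2558b_lc.Basic

namespace Pool.Agent.MP_a2558b_lc

open Cardinal hiding univ
open Set Base

universe u

variable {α τ Q Ω : Type u}

/-- Transport of a coordinate along codings of points and terms. -/
def Crd.tr (C : Crd α τ Q) (Lo : Set Q) (ja : α → Ω) (jt : τ → Ω) : Crd Ω Ω Q where
  Pt := ja '' C.Pt
  T := jt '' C.T
  null E := C.null (C.Pt ∩ ja ⁻¹' E)
  y b := {s | ∃ a ∈ C.Pt, ja a = b ∧ s ∈ jt '' C.y a}
  le s' s q := q ∈ Lo ∧ ∃ t' ∈ C.T, ∃ t ∈ C.T, jt t' = s' ∧ jt t = s ∧ C.le t' t q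

/-- The trivial coordinate. -/
def triv (Lo : Set Q) (o : Ω) : Crd Ω Ω Q where
  Pt := ∅
  T := {o}
  null _ := True
  y _ := ∅
  le s' s q := s' = o ∧ s = o ∧ q ∈ Lo

/-- A coordinate that lives on `z` and `Lo`. -/
structure Bnd (z : Set Ω) (Lo : Set Q) (C : Crd Ω Ω Q) : Prop where
  pt : C.Pt ⊆ z
  t : C.T ⊆ z
  null : ∀ E, C.null E ↔ C.null (E ∩ z)
  y : ∀ b, C.y b ⊆ z
  y' : ∀ b, b ∉ z → C.y b = ∅
  le : ∀ s' s q, C.le s' s q → s' ∈ z ∧ s ∈ z ∧ q ∈ Lo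

theorem mk_bnd (z : Set Ω) (Lo : Set Q) :
    #{C : Crd Ω Ω Q | Bnd z Lo C} ≤ 2 ^ (2 : Cardinal.{u}) ^ (#z + #Lo + ℵ₀) := by
  set k : Cardinal.{u} := #z + #Lo + ℵ₀ with hk
  have hk0 : ℵ₀ ≤ k := le_add_self
  have hz : #z ≤ k := le_self_add.trans le_self_add
  have hL : #Lo ≤ k := le_add_self.trans le_self_add
  have mul : ∀ {L a b : Cardinal.{u}}, ℵ₀ ≤ L → a ≤ L → b ≤ L → a * b ≤ L :=
    fun h ha hb => (mul_le_mul' ha hb).trans (mul_eq_self h).le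
  have pw : ∀ {a b : Cardinal.{u}}, a ≤ b → (2 : Cardinal.{u}) ^ a ≤ 2 ^ b :=
    fun h => power_le_power_left two_ne_zero h
  have up : ∀ {a : Cardinal.{u}}, a ≤ k → (2 : Cardinal.{u}) ^ a ≤ 2 ^ (2 : Cardinal.{u}) ^ k :=
    fun h => pw (h.trans (cantor k).le)
  have hK : ℵ₀ ≤ (2 : Cardinal.{u}) ^ (2 : Cardinal.{u}) ^ k :=
    hk0.trans ((cantor k).le.trans (cantor _).le)
  let F : {C : Crd Ω Ω Q | Bnd z Lo C} →
      Set z × Set z × Set (Set z) × (z → Set z) × Set (z × z × Lo) := fun C =>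
    (Subtype.val ⁻¹' C.1.Pt, Subtype.val ⁻¹' C.1.T, {E | C.1.null (Subtype.val '' E)},
      fun b => Subtype.val ⁻¹' C.1.y b.1, {x | C.1.le x.1.1 x.2.1.1 x.2.2.1})
  have pre : ∀ {A B : Set Ω}, A ⊆ z → B ⊆ z →
      (Subtype.val ⁻¹' A : Set z) = Subtype.val ⁻¹' B → A = B := by
    intro A B hA hB h
    ext x
    exact ⟨fun hx => (Set.ext_iff.1 h ⟨x, hA hx⟩).1 hx, fun hx => (Set.ext_iff.1 h ⟨x, hB hx⟩).2 hx⟩
  have hF : Function.Injective F := by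
    rintro ⟨⟨P, T, n, y, l⟩, h⟩ ⟨⟨P', T', n', y', l'⟩, h'⟩ e
    have h : Bnd z Lo ⟨P, T, n, y, l⟩ := h
    have h' : Bnd z Lo ⟨P', T', n', y', l'⟩ := h'
    simp only [F, Prod.mk.injEq] at e
    obtain ⟨e1, e2, e3, e4, e5⟩ := e
    have a1 : P = P' := pre h.pt h'.pt e1
    have a2 : T = T' := pre h.t h'.t e2
    have a3 : n = n' := by
      funext E
      have := Set.ext_iff.1 e3 (Subtype.val ⁻¹' E)
      simp only [mem_ofPred_eq, Subtype.image_preimage_coe, inter_comm z E] at this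
      exact propext ((h.null E).trans (this.trans (h'.null E).symm))
    have a4 : y = y' := by
      funext b
      by_cases hb : b ∈ z
      · exact pre (h.y b) (h'.y b) (congrFun e4 ⟨b, hb⟩)
      · exact (h.y' b hb).trans (h'.y' b hb).symm
    have a5 : l = l' := by
      funext s' s q
      refine propext ⟨fun H => ?_, fun H => ?_⟩
      · obtain ⟨h1, h2, h3⟩ := h.le s' s q H
        exact (Set.ext_iff.1 e5 (⟨s', h1⟩, ⟨s, h2⟩, ⟨q, h3⟩)).1 H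
      · obtain ⟨h1, h2, h3⟩ := h'.le s' s q H
        exact (Set.ext_iff.1 e5 (⟨s', h1⟩, ⟨s, h2⟩, ⟨q, h3⟩)).2 H
    subst a1 a2 a3 a4 a5
    rfl
  refine (mk_le_of_injective hF).trans ?_
  simp only [mk_prod, lift_id, mk_set, ← power_def]
  refine mul hK (up hz) (mul hK (up hz) (mul hK (pw (pw hz)) (mul hK ?_ (up ?_))))
  · rw [← power_mul]
    exact up (mul hk0 hz hz)
  · exact mul hk0 hz (mul hk0 hz hL)

variable {C : Crd α τ Q} {Lo : Set Q} {R : Q → Q → Prop} {o : τ} {tp : Q} {ja : α → Ω}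
  {jt : τ → Ω} {c : Cardinal.{u}}

theorem tr_le (ht : InjOn jt C.T) {t' t : τ} (h₁ : t' ∈ C.T) (h₂ : t ∈ C.T) {q : Q} (hq : q ∈ Lo) :
    (C.tr Lo ja jt).le (jt t') (jt t) q ↔ C.le t' t q := by
  refine ⟨?_, fun h => ⟨hq, t', h₁, t, h₂, rfl, rfl, h⟩⟩
  rintro ⟨-, a, ha, b, hb, e₁, e₂, h⟩
  rwa [ht ha h₁ e₁, ht hb h₂ e₂] at h

theorem tr_basic (ha : InjOn ja C.Pt) (ht : InjOn jt C.T) (h : C.Basic Lo R o) :
    (C.tr Lo ja jt).Basic Lo R (jt o) := by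
  refine ⟨mem_image_of_mem _ h.o_mem, ?_, ?_, ?_, ?_, ?_, ?_, ?_, ?_, ?_, ?_, ?_, ?_⟩
  · rintro b - s ⟨a, ha', -, t, ht', rfl⟩
    exact mem_image_of_mem _ (h.y_sub a ha' ht')
  · rintro _ ⟨t, ht', rfl⟩ q hq
    exact ⟨hq, t, ht', t, ht', rfl, rfl, h.refl t ht' q hq⟩
  · rintro x y w q hq ⟨-, a, ha', b, hb, rfl, rfl, h₁⟩ ⟨-, b', hb', d, hd, e, rfl, h₂⟩
    rw [ht hb' hb e] at h₂
    exact ⟨hq, a, ha', d, hd, rfl, rfl, h.trans _ _ _ q hq h₁ h₂⟩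
  · rintro x y q hq q' hq' hR ⟨-, a, ha', b, hb, rfl, rfl, h₁⟩
    exact ⟨hq', a, ha', b, hb, rfl, rfl, h.mono _ _ q hq q' hq' hR h₁⟩
  · rintro _ ⟨t, ht', rfl⟩ q hq
    exact ⟨hq, t, ht', o, h.o_mem, rfl, rfl, h.top t ht' q hq⟩
  · exact h.null_mono _ _ (fun a ha' => ha'.2) h.null_empty
  · intro E E' hE H
    refine h.null_mono _ _ (fun a ha' => ?_) H
    exact ⟨ha'.1, hE ha'.2⟩
  · intro E E' H H'
    refine h.null_mono _ _ (fun a ha' => ?_) (h.null_union _ _ H H')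
    exact ha'.2.elim (fun e => Or.inl ⟨ha'.1, e⟩) fun e => Or.inr ⟨ha'.1, e⟩
  · intro E H
    refine h.null_mono _ _ (fun a ha' => ?_) H
    exact ⟨ha'.1, ha'.2, mem_image_of_mem _ ha'.1⟩
  · intro E
    refine (h.ultra (C.Pt ∩ ja ⁻¹' E)).imp id fun H => h.null_mono _ _ (fun a ha' => ?_) H
    exact ⟨ha'.1, fun e => ha'.2.2 e.2⟩
  · rintro _ ⟨t, ht', rfl⟩
    refine h.null_mono _ _ (fun a ha' => ?_) (h.fine t ht')
    exact ⟨ha'.1, fun e => ha'.2.2 ⟨a, ha'.1, rfl, mem_image_of_mem _ e⟩⟩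
  · intro A f _ hn hf
    have : ∀ a, ∃ t, a ∈ C.Pt ∩ ja ⁻¹' A → t ∈ C.y a ∧ jt t = f (ja a) := by
      intro a
      by_cases e : a ∈ C.Pt ∩ ja ⁻¹' A
      · obtain ⟨a', ha', e', t, ht', e''⟩ := hf (ja a) e.2
        rw [ha ha' e.1 e'] at ht'
        exact ⟨t, fun _ => ⟨ht', e''⟩⟩
      · exact ⟨o, fun e' => absurd e' e⟩
    choose g hg using this
    obtain ⟨t, H⟩ := h.normal _ g inter_subset_left hn fun a e => (hg a e).1
    refine ⟨jt t, fun H' => H (h.null_mono _ _ (fun a e => ?_) H')⟩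
    exact ⟨e.1.1, e.1.2, by rw [← (hg a e.1).2, e.2]⟩

theorem tr_comp (h : C.Comp c) : (C.tr Lo ja jt).Comp c := by
  intro ι E hι H
  change C.null (C.Pt ∩ ja ⁻¹' ⋃ i, E i)
  rw [preimage_iUnion, inter_iUnion]
  exact h ι _ hι H

theorem tr_ndc (ha : InjOn ja C.Pt) (ht : InjOn jt C.T) (h : C.Basic Lo R o) (htp : tp ∈ Lo)
    (h' : C.NDC Lo R tp c) : (C.tr Lo ja jt).NDC Lo R tp c := by
  have key : ∀ S ⊆ C.T, NDCOn C.le Lo R tp S c →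
      NDCOn (C.tr Lo ja jt).le Lo R tp (jt '' S) c := by
    rintro S hS H ι t M _ hι ⟨t0, h0, rfl⟩ hm hM h₁ h₂
    choose v hv e using hm
    obtain rfl : t = fun i => jt (v i) := funext fun i => (e i).symm
    obtain ⟨s, hs, h₃, h₄⟩ := H ι v M t0 hι h0 hv hM
      (fun i q hq => (tr_le ht (hS (hv i)) (hS h0) ((hM i).1 hq)).1 (h₁ i q hq))
      (fun i i' q hq hq' => by
        obtain ⟨q', hq'', hR, k, hk, a, b⟩ := h₂ i i' q hq hq'
        exact ⟨q', hq'', hR, k, hk, (tr_le ht (hS (hv k)) (hS (hv i)) hq'').1 a,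
          (tr_le ht (hS (hv k)) (hS (hv i')) hq'').1 b⟩)
    exact ⟨jt s, mem_image_of_mem _ hs, (tr_le ht (hS hs) (hS h0) htp).2 h₃,
      fun i q hq => (tr_le ht (hS hs) (hS (hv i)) ((hM i).1 hq)).2 (h₄ i q hq)⟩
  refine ⟨key _ Subset.rfl h'.1, ?_⟩
  rintro _ ⟨a, ha', rfl⟩
  have : (C.tr Lo ja jt).y (ja a) = jt '' C.y a := by
    ext s
    refine ⟨?_, fun hs => ⟨a, ha', rfl, hs⟩⟩
    rintro ⟨a', ha'', e, hs⟩
    rwa [ha ha'' ha' e] at hs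
  rw [this]
  exact key _ (h.y_sub a ha') (h'.2 a ha')

theorem tr_act (ha : InjOn ja C.Pt) (h : C.Basic Lo R o) (h' : C.Act) : (C.tr Lo ja jt).Act := by
  refine ⟨fun H => h'.1 (h.null_mono _ _ (fun a e => ?_) H), fun b => ?_⟩
  · exact ⟨e, mem_image_of_mem _ e⟩
  by_cases e : ∃ a ∈ C.Pt, ja a = b
  · obtain ⟨a, ha', rfl⟩ := e
    exact h.null_mono _ _ (fun x hx => ha hx.1 ha' hx.2) (h'.2 a)
  · exact h.null_mono _ _ (fun x hx => e ⟨x, hx.1, hx.2⟩) h.null_empty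

theorem tr_bnd (h : C.Basic Lo R o) {z : Set Ω} (ha : ja '' C.Pt ⊆ z) (ht : jt '' C.T ⊆ z) :
    Bnd z Lo (C.tr Lo ja jt) := by
  refine ⟨ha, ht, fun E => ⟨fun H => h.null_mono _ _ (fun a e => ?_) H,
    fun H => h.null_mono _ _ (fun a e => ?_) H⟩, ?_, ?_, ?_⟩
  · exact ⟨e.1, e.2.1⟩
  · exact ⟨e.1, e.2, ha (mem_image_of_mem _ e.1)⟩
  · rintro b _ ⟨a, ha', -, t, ht', rfl⟩
    exact ht (mem_image_of_mem _ (h.y_sub a ha' ht'))
  · intro b hb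
    refine eq_empty_of_forall_notMem ?_
    rintro s ⟨a, ha', rfl, -⟩
    exact hb (ha (mem_image_of_mem _ ha'))
  · rintro _ _ q ⟨hq, a, ha', b, hb, rfl, rfl, -⟩
    exact ⟨ht (mem_image_of_mem _ ha'), ht (mem_image_of_mem _ hb), hq⟩

theorem triv_basic (o : Ω) : (triv Lo o).Basic Lo R o := by
  refine ⟨rfl, fun _ h => h.elim, fun t ht q hq => ⟨ht, ht, hq⟩,
    fun _ _ _ _ hq h₁ h₂ => ⟨h₁.1, h₂.2.1, hq⟩, fun _ _ _ _ _ hq' _ h => ⟨h.1, h.2.1, hq'⟩,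
    fun t ht q hq => ⟨ht, rfl, hq⟩, trivial, fun _ _ _ _ => trivial, fun _ _ _ _ => trivial,
    fun _ _ => trivial, fun _ => Or.inl trivial, fun _ _ => trivial,
    fun _ _ _ h => absurd trivial h⟩

theorem triv_comp (o : Ω) : (triv Lo o).Comp c := by
  exact fun _ _ _ _ => trivial

theorem triv_ndc (o : Ω) (htp : tp ∈ Lo) : (triv Lo o).NDC Lo R tp c := by
  refine ⟨fun ι t M t0 _ h0 hm hM _ _ => ⟨o, rfl, ⟨rfl, h0, htp⟩, fun i q hq => ?_⟩,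
    fun _ h => h.elim⟩
  exact ⟨rfl, hm i, (hM i).1 hq⟩

theorem triv_bnd {o : Ω} {z : Set Ω} (h : o ∈ z) : Bnd z Lo (triv Lo o) := by
  refine ⟨empty_subset _, singleton_subset_iff.2 h, fun _ => Iff.rfl, fun _ => empty_subset _,
    fun _ _ => rfl, ?_⟩
  rintro _ _ q ⟨rfl, rfl, hq⟩
  exact ⟨h, h, hq⟩

/-- A coding of a set into a large enough set, with one prescribed value. -/
theorem exists_code {A : Set α} {z : Set Ω} {o : Ω} (ho : o ∈ z) (hz : #A ≤ #z) (a0 : α) :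
    ∃ j : α → Ω, InjOn j A ∧ j '' A ⊆ z ∧ j a0 = o := by
  classical
  obtain ⟨e⟩ := (le_def _ _).1 hz
  let x : z := if h : a0 ∈ A then e ⟨a0, h⟩ else ⟨o, ho⟩
  let g : A → z := fun a => Equiv.swap x ⟨o, ho⟩ (e a)
  have hg : Function.Injective g := (Equiv.injective _).comp e.injective
  refine ⟨fun a => if h : a ∈ A then (g ⟨a, h⟩).1 else o, fun a ha b hb h => ?_, ?_, ?_⟩
  · simp only [dif_pos ha, dif_pos hb] at h
    exact congrArg Subtype.val (hg (Subtype.ext h))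
  · rintro _ ⟨a, ha, rfl⟩
    simp only [dif_pos ha]
    exact (g ⟨a, ha⟩).2
  · by_cases h : a0 ∈ A
    · simp only [dif_pos h, g, x, Equiv.swap_apply_left]
    · simp only [dif_neg h]

end Pool.Agent.MP_a2558b_lc
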