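import Pool.Agent.MP_a2558b_lc.Tail
import Pool.Agent.MP_a2558b_lc.Cov
import Pool.Agent.MP_a2558b_lc.Trans
import Pool.Agent.MP_a2558b_lc.CollX1

namespace Pool.Agent.MP_a2558b_lc

open Cardinal hiding univ
open Set Base

universe u

variable {Θ Ω : Type u} [LinearOrder Θ] [WellFoundedLT Θ] [LinearOrder Ω] [WellFoundedLT Ω]
  [Inhabited Ω] {X : Ctx Θ Ω} {D : Sys (JJ Θ) Ω} {β : Θ} {k : Θ → Cardinal.{u}}

/-- The cofinality of `mu β` is preserved below the collapse coordinate. -/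
theorem bdd_mu (hV : Valid X D (Iio β)) (hk : NOK X D β k) {ι : Type u} (hι : #ι ≤ X.lb β)
    (Φ : ι → Cnd (JJ Θ) Ω → Ω → Prop)
    (mono : ∀ i, ∀ q ∈ Low D (levC β), ∀ q' ∈ Low D (levC β), Le D (levC β) q' q →
      ∀ b, Φ i q b → Φ i q' b)
    (dense : ∀ i, ∀ q ∈ Low D (levC β), ∃ q' ∈ Low D (levC β), Le D (levC β) q' q ∧
      ∃ b < X.mu β, Φ i q' b)
    {p : Cnd (JJ Θ) Ω} (hp : p ∈ Low D (levC β)) :
    ∃ p' ∈ Low D (levC β), Le D (levC β) p' p ∧ ∃ b0 < X.mu β, ∀ i, ∀ q ∈ Low D (levC β),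
      Le D (levC β) q p' → ∃ q' ∈ Low D (levC β), Le D (levC β) q' q ∧ ∃ b < b0, Φ i q' b := by
  have hd := levC_lower β
  have hc := levIio_lower β
  have hcd := levIio_sub_levC β
  have hB := basicOn_levC hV hk
  have hB0 := hB.anti hcd
  have : Nonempty (Iio (X.mu β)) := ⟨⟨X.w1, X.w1_mu β⟩⟩
  choose dec hn hdec using fun i => exists_nm (X := Iio (X.mu β)) (refl_on hd hB) (trans_on hd hB)
    (fun q b => Φ i q b.1) (fun p hp q hq h x => mono i p hp q hq h x.1) ctop (ctop_mem hB)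
    (fun p hp _ => by
      obtain ⟨q, hq, h, b, hb, h'⟩ := dense i p hp
      exact ⟨q, hq, h, ⟨b, hb⟩, h'⟩)
  obtain ⟨p1, hp1, hT, H1⟩ := seg_tail_fam hV hk (X.mk_mu β).le (hι.trans (Order.le_succ _))
    dec hn hp
  have hl0 := res_mem hp hcd
  choose dec' hn' hdec' using fun i => exists_nm (X := Iio (X.mu β)) (refl_on hc hB0)
    (trans_on hc hB0) (fun l x => dec i (glue (lev (Iio β)) l p1) x)
    (fun l hl l' hl' h x => (hn i).mono _ (glue_mem' hl hcd hp1) _ (glue_mem' hl' hcd hp1)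
      (glue_le_glue hd hB hc (glue_mem' hl' hcd hp1) h
        fun j hj _ => TDir.refl hd hB hj hp1 rfl) x)
    (res (lev (Iio β)) p) hl0
    (fun l hl h => H1 i l hl ((le_res_right hc Subset.rfl).1 h))
  obtain ⟨l1, hl1, r1, V, hV', H2⟩ := low_cov hV hι dec' hn' hl0
  obtain ⟨b0, hb0, H3⟩ := X.mu_bdd β (Subtype.val '' V) (by rintro _ ⟨x, -, rfl⟩; exact x.2)
    (mk_image_le.trans hV')
  have hm := glue_mem' hl1 hcd hp1
  refine ⟨_, hm, Le.trans hd hB hp1 hm (glue_le hd hB hc hm ?_) (hT.le hd hB hp1), b0, hb0,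
    fun i q hq hqp => ?_⟩
  · exact (le_congr hc (fun _ _ => rfl) hT.1).2 ((le_res_right hc Subset.rfl).1 r1)
  have hq0 := res_mem hq hcd
  have r2 : Le D (lev (Iio β)) (res (lev (Iio β)) q) l1 :=
    (le_res_left hc Subset.rfl).2 ((le_glue_right hc Subset.rfl).1 (hqp.anti hcd))
  obtain ⟨r, hr, r3, x, hx⟩ := (hn' i).dense _ hq0
  have r4 := Le.trans hc hB0 hq0 hr r3 r2
  obtain ⟨r', hr', r5, hx'⟩ := hdec' i r hr (Le.trans hc hB0 hl1 hr r4 r1) x hx r hr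
    (Le.refl hc hB0 hr)
  have r6 : Le D (lev (Iio β)) r' q :=
    (le_res_right hc Subset.rfl).1 (Le.trans hc hB0 hr hr' r5 r3)
  have hm' := glue_mem' hr' hcd hq
  have r7 := glue_le_glue' (u := p1) hd hB hc hcd hr' hq r6 fun j hj e =>
    (leAt_congr rfl (fun _ _ => rfl) (glue_of_notMem e)).1 (hqp j hj)
  obtain ⟨s, hs, r8, h⟩ := hdec i _ hm' (le_ctop hd hB hm') x
    ((hn i).mono _ (glue_mem' hr' hcd hp1) _ hm' r7 x hx') _ hm' (Le.refl hd hB hm')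
  exact ⟨s, hs, Le.trans hd hB hm' hs r8 (glue_le hd hB hc hm' r6), x.1,
    H3 _ ⟨x, H2 i x r hr r4 hx, rfl⟩, h⟩

/-- The term order of the collapse of `κ β` to `mu β`. -/
theorem exists_C (hV : Valid X D (Iio β)) (hk : NOK X D β k) :
    ∃ C, COK X β C (Low D (levC β)) (Le D (levC β)) := by
  have hd := levC_lower β
  have hB := basicOn_levC hV hk
  have H : Coll.Hyp (Low D (levC β)) (Le D (levC β)) (X.mu β) := by
    refine ⟨refl_on hd hB, trans_on hd hB, ⟨X.w1, X.w1_mu β⟩, fun a ha b hb => ?_⟩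
    obtain ⟨c, hc, h⟩ := X.mu_bdd β {a, b} (by rintro _ (rfl | rfl); exacts [ha, hb])
      (((toFinite _).lt_aleph0).le.trans (X.aleph0_le_lb β))
    exact ⟨c, hc, h a (Or.inl rfl), h b (Or.inr rfl)⟩
  have hsz := Coll.size (R := Le D (levC β)) (X.inacc β) (mk_low_levC hk)
    (mu := X.mu β) (by rw [X.mk_mu]; exact X.lb_lt β) (X.mk_kap β).le
  obtain ⟨jt, hj, -, ho⟩ := exists_code
    (A := (Coll.C0 (Low D (levC β)) (Le D (levC β)) (X.mu β) (X.kap β)).T) (z := univ)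
    (o := (default : Ω)) trivial
    (hsz.trans ((X.mk_kap β).ge.trans (mk_le_mk_of_subset (subset_univ _)))) fun _ _ _ => False
  have hb := Coll.basic (kap := X.kap β) H
  have ha : InjOn (id : Ω → Ω)
    (Coll.C0 (Low D (levC β)) (Le D (levC β)) (X.mu β) (X.kap β)).Pt := injOn_id _
  refine ⟨(Coll.C0 (Low D (levC β)) (Le D (levC β)) (X.mu β) (X.kap β)).tr (Low D (levC β)) id jt,
    ho ▸ tr_basic ha hj hb, image_empty _, fun _ => trivial,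
    tr_ndc ha hj hb (ctop_mem hB) (Coll.ndc H _ (X.aleph0_le_lb β)
      fun ι hι Φ h₁ h₂ p hp => bdd_mu hV hk hι Φ h₁ h₂ hp),
    Coll.tr_mix hj (ctop_mem hB) (Coll.mix H _), mk_image_le.trans hsz,
    fun s i q ξ => ∃ t, Coll.IsTm (Low D (levC β)) (Le D (levC β)) (X.mu β) (X.kap β) t ∧
      jt t = s ∧ t i q ξ, ?_, ?_, ?_⟩
  · rintro _ _ i ξ ξ' q hq q' hq' - - r ⟨t, ht, rfl, h⟩ hle ⟨t', ht', rfl, h'⟩
    exact Coll.agree ht' hq' (H.hr _ hq') ((tr_le hj ht' ht hq').1 hle)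
      (ht.mono i q ξ h q' hq' r) h'
  · rintro _ ⟨t, ht, rfl⟩ q hq ξ hξ
    obtain ⟨q', hq', r, t', ht', i, hi, h₁, h₂⟩ := Coll.col₂ H ht hq hξ
    exact ⟨q', hq', r, jt t', ⟨t', ht', rfl⟩, i, hi, (tr_le hj ht' ht hq').2 h₁, t', ht', rfl, h₂⟩
  · rintro _ ⟨t, ht, rfl⟩ q hq i hi
    obtain ⟨q', hq', r, t', ht', ξ, h₁, h₂⟩ := Coll.col₃ H (X.mu_kap β) ht hq hi
    exact ⟨q', hq', r, jt t', ⟨t', ht', rfl⟩, ξ, (tr_le hj ht' ht hq').2 h₁, t', ht', rfl, h₂⟩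

end Pool.Agent.MP_a2558b_lc
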