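import Pool.Agent.MP_a2558b_lc.Sys

namespace Pool.Agent.MP_a2558b_lc

open Cardinal hiding univ
open Set Base

universe u

theorem ctx_mk_Iic_lt {α : Type u} [LinearOrder α] {c : Cardinal.{u}} (hc : ℵ₀ ≤ c) {a : α}
    (h : #(Iio a) < c) : #(Iic a) < c := by
  rw [← Iio_insert]
  exact mk_insert_le.trans_lt (add_lt_of_lt hc h (one_lt_aleph0.trans_le hc))

theorem ctx_mk_Iic_le {α : Type u} [LinearOrder α] {c : Cardinal.{u}} (hc : ℵ₀ ≤ c) {a : α}
    (h : #(Iio a) ≤ c) : #(Iic a) ≤ c := by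
  rw [← Iio_insert]
  exact mk_insert_le.trans (add_le_of_le hc h (one_lt_aleph0.le.trans hc))

theorem Supercompact.inacc {κ : Cardinal.{u}} (h : Supercompact κ) : κ.IsInaccessible := by
  classical
  obtain ⟨h0, hU⟩ := h
  refine ⟨h0, ?_, ?_⟩
  · by_contra hlt
    rw [not_le, ← Ordinal.cof_toType] at hlt
    obtain ⟨s, hs, hcs⟩ := Order.exists_cof_eq κ.ord.ToType
    obtain ⟨U, hC, hsm, hfine, -⟩ := hU κ.ord.ToType
    have h1 : ∀ a : κ.ord.ToType, {x : Set κ.ord.ToType | Iic a ⊆ x} ∈ U := by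
      intro a
      have hc : #(Iic a) < κ := ctx_mk_Iic_lt h0.le (by simpa using mk_Iio_lt a (by simp))
      have := (Filter.eventually_cardinal_forall (l := (U : Filter (Set κ.ord.ToType)))
        (p := fun x (y : Iic a) => (y : κ.ord.ToType) ∈ x) hc).2 fun y => hfine y
      refine Filter.mem_of_superset this fun x hx y hy => hx ⟨y, hy⟩
    have h2 := (Filter.eventually_cardinal_forall (l := (U : Filter (Set κ.ord.ToType)))
      (p := fun x (a : s) => Iic (a : κ.ord.ToType) ⊆ x) (hcs ▸ hlt)).2 fun a => h1 a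
    obtain ⟨x, hx1, hx2⟩ := U.nonempty_of_mem (Filter.inter_mem h2 hsm)
    have hx : x = univ := by
      refine eq_univ_of_forall fun y => ?_
      obtain ⟨a, ha, hya⟩ := hs y
      exact hx1 ⟨a, ha⟩ hya
    rw [hx] at hx2
    simp at hx2
  · by_contra hlt
    obtain ⟨c, hc, hle⟩ := not_isStrongPrelimit_iff.1 hlt
    obtain ⟨U, hC, hsm, hfine, -⟩ := hU κ.out
    have hne : Nonempty κ.out := by
      rw [← mk_ne_zero_iff, mk_out]
      exact (aleph0_pos.trans h0).ne'
    obtain ⟨e⟩ : Nonempty (κ.out ↪ Set c.out) := by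
      rw [← le_def]
      simpa using hle
    have hf : ∀ x : Set κ.out, ∃ y, #x < κ → y ∉ x := by
      intro x
      by_cases hx : ∃ y, y ∉ x
      · obtain ⟨y, hy⟩ := hx
        exact ⟨y, fun _ => hy⟩
      · refine ⟨Classical.arbitrary _, fun hlt' => ?_⟩
        push Not at hx
        rw [eq_univ_of_forall hx] at hlt'
        simp at hlt'
    choose f hf using hf
    set A : Set c.out := {i | {x | i ∈ e (f x)} ∈ U} with hA
    have h1 : ∀ i : c.out, ∀ᶠ x in (U : Filter (Set κ.out)), (i ∈ e (f x) ↔ i ∈ A) := by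
      intro i
      by_cases hi : i ∈ A
      · exact Filter.mem_of_superset hi fun x hx => iff_of_true hx hi
      · have := Ultrafilter.compl_mem_iff_notMem.2 hi
        exact Filter.mem_of_superset this fun x hx => iff_of_false hx hi
    have h2 := (Filter.eventually_cardinal_forall (l := (U : Filter (Set κ.out)))
      (p := fun x (i : c.out) => (i ∈ e (f x) ↔ i ∈ A)) (by simpa using hc)).2 h1
    obtain ⟨x0, hx0⟩ := U.nonempty_of_mem h2
    obtain ⟨x, ⟨hx1, hx2⟩, hx3⟩ :=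
      U.nonempty_of_mem (Filter.inter_mem (Filter.inter_mem h2 hsm) (hfine (f x0)))
    have he : e (f x) = e (f x0) := by
      ext i
      exact (hx1 i).trans (hx0 i).symm
    exact hf x hx2 (e.injective he ▸ hx3)

theorem ctx_exists_pos {Ω : Type u} [LinearOrder Ω] [WellFoundedLT Ω] {c : Cardinal.{u}}
    (hc : c < #Ω) : ∃ x : Ω, #(Iio x) = c ∧ ∀ y < x, #(Iio y) < c := by
  have h1 : c.ord < Ordinal.type ((· < ·) : Ω → Ω → Prop) := (ord_lt_ord.2 hc).trans_le (ord_le_type _)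
  have hcard : ∀ y : Ω, #(Iio y) = (Ordinal.typein ((· < ·) : Ω → Ω → Prop) y).card := fun y =>
    (Ordinal.card_typein (r := ((· < ·) : Ω → Ω → Prop)) y).symm
  refine ⟨Ordinal.enum (α := Ω) (· < ·) ⟨c.ord, h1⟩, ?_, fun y hy => ?_⟩
  · rw [hcard, Ordinal.typein_enum, card_ord]
  · rw [hcard, ← lt_ord]
    have := (Ordinal.typein_lt_typein ((· < ·) : Ω → Ω → Prop)).2 hy
    rwa [Ordinal.typein_enum] at this

theorem ctx_exists_bound {Ω : Type u} [LinearOrder Ω] {S Z : Set Ω} {c : Cardinal.{u}}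
    (hc : ℵ₀ ≤ c) (hS : c < #S) (hZ : #Z ≤ c) (hI : ∀ z ∈ Z, #(Iio z) ≤ c) :
    ∃ b ∈ S, ∀ z ∈ Z, z < b := by
  by_contra hcon
  push Not at hcon
  have hsub : S ⊆ ⋃ z : Z, Iic (z : Ω) := by
    intro b hb
    obtain ⟨z, hz, hbz⟩ := hcon b hb
    exact mem_iUnion.2 ⟨⟨z, hz⟩, hbz⟩
  have h1 : #(⋃ z : Z, Iic (z : Ω)) ≤ c := by
    refine mk_iUnion_le_sum_mk.trans ?_
    refine (sum_le_sum _ (fun _ => c) fun z : Z => ctx_mk_Iic_le hc (hI z z.2)).trans ?_
    rw [sum_const']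
    exact mul_le_of_le hc hZ le_rfl
  exact absurd ((mk_le_mk_of_subset hsub).trans h1) (not_le.2 hS)

theorem ctx_exists_enum {S : Set Cardinal.{u}} (h : ¬ S.Countable) (Θ : Type u) [LinearOrder Θ]
    [WellFoundedLT Θ] (hct : ∀ β : Θ, (Iio β).Countable) :
    ∃ κ : Θ → Cardinal.{u}, StrictMono κ ∧ ∀ β, κ β ∈ S := by
  rcases InitialSeg.total ((· < ·) : Θ → Θ → Prop) ((· < ·) : S → S → Prop) with f | f
  · exact ⟨fun β => f β, fun a b hab => f.map_rel_iff.2 hab, fun β => (f β).2⟩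
  · by_cases hs : Function.Surjective f
    · choose g hg using hs
      refine ⟨fun β => g β, fun a b hab => ?_, fun β => (g β).2⟩
      have : f (g a) < f (g b) := by rwa [hg, hg]
      exact f.map_rel_iff.1 this
    · exfalso
      obtain ⟨β, hβ⟩ := not_forall.1 hs
      apply h
      have hlt : ∀ s : S, f s ∈ Iio β := by
        intro s
        rcases lt_trichotomy (f s) β with h1 | h1 | h1
        · exact h1
        · exact absurd ⟨s, h1⟩ hβ
        · exact absurd (f.mem_range_of_rel h1) hβ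
      have := (hct β).to_subtype
      have hinj : Function.Injective fun s : S => (⟨f s, hlt s⟩ : Iio β) := fun a b hab =>
        f.injective (congrArg Subtype.val hab)
      exact countable_coe_iff.1 hinj.countable

theorem ctx_transGen_card {Ω : Type u} [LinearOrder Ω] [WellFoundedLT Ω] {r : Ω → Ω → Prop}
    {c : Cardinal.{u}} (hc : ℵ₀ ≤ c) (hlt : ∀ a b, r a b → a < b) (hr : ∀ b, #{a | r a b} ≤ c)
    (b : Ω) : #{a | Relation.TransGen r a b} ≤ c := by
  induction b using WellFoundedLT.induction with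
  | ind b ih =>
    have hsub : {a | Relation.TransGen r a b} ⊆
        {a | r a b} ∪ ⋃ d : {a | r a b}, {a | Relation.TransGen r a d} := by
      intro a ha
      cases ha with
      | single h1 => exact Or.inl h1
      | tail h1 h2 => exact Or.inr (mem_iUnion.2 ⟨⟨_, h2⟩, h1⟩)
    refine (mk_le_mk_of_subset hsub).trans ((mk_union_le _ _).trans (add_le_of_le hc (hr b) ?_))
    refine mk_iUnion_le_sum_mk.trans ?_
    refine (sum_le_sum _ (fun _ => c) fun d : {a | r a b} => ih d (hlt _ _ d.2)).trans ?_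
    rw [sum_const']
    exact mul_le_of_le hc (hr b) le_rfl

theorem ctx_lt_of_mk_lt {Ω : Type u} [LinearOrder Ω] {x y : Ω} (h : #(Iio x) < #(Iio y)) :
    x < y := by
  by_contra hcon
  exact absurd (mk_le_mk_of_subset (Iio_subset_Iio (not_lt.1 hcon))) (not_le.2 h)

theorem exists_ctx (h : ¬ {κ : Cardinal.{u} | Supercompact κ}.Countable) :
    ∃ (Θ Ω : Type u) (_ : LinearOrder Θ) (_ : WellFoundedLT Θ) (_ : LinearOrder Ω)
      (_ : WellFoundedLT Ω), Nonempty (Ctx Θ Ω) := by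
  classical
  obtain ⟨Θ, i1, i2, hΘ, hΘt⟩ : ∃ (Θ : Type u) (_ : LinearOrder Θ) (_ : WellFoundedLT Θ),
      #Θ = ℵ₁ ∧ Ordinal.type ((· < ·) : Θ → Θ → Prop) = (ℵ₁ : Cardinal.{u}).ord :=
    ⟨(ℵ₁ : Cardinal.{u}).ord.ToType, inferInstance, inferInstance, mk_ord_toType _,
      Ordinal.type_toType _⟩
  have hΘlt : ∀ β : Θ, #(Iio β) < ℵ₁ := fun β => hΘ ▸ mk_Iio_lt β (by rw [hΘ, hΘt])
  have hΘle : ∀ β : Θ, #(Iio β) ≤ ℵ₀ := fun β => by
    have := hΘlt β
    rwa [← succ_aleph0, Order.lt_succ_iff] at this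
  have hct : ∀ β : Θ, (Iio β).Countable := fun β => le_aleph0_iff_set_countable.1 (hΘle β)
  have hunc : Uncountable Θ := by
    rw [← aleph0_lt_mk_iff, hΘ]
    exact aleph0_lt_aleph_one
  have hnm : ∀ β : Θ, ∃ γ, β < γ := by
    intro β
    obtain ⟨γ, -, hγ⟩ := ctx_exists_bound (S := (univ : Set Θ)) (Z := {β}) le_rfl
      (by rw [mk_univ, hΘ]; exact aleph0_lt_aleph_one) (by simp) fun z _ => hΘle z
    exact ⟨γ, hγ β rfl⟩
  obtain ⟨κ, hmono, hsc⟩ := ctx_exists_enum h Θ hct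
  have hin : ∀ β, (κ β).IsInaccessible := fun β => Supercompact.inacc (hsc β)
  have h01 : (ℵ₀ : Cardinal.{u}) ≤ ℵ₁ := aleph0_lt_aleph_one.le
  have h1κ : ∀ β, ℵ₁ < κ β := fun β => by
    rw [← succ_aleph0]
    exact (hin β).isSuccLimit.succ_lt (hin β).aleph0_lt
  set lb : Θ → Cardinal.{u} := fun β => ℵ₁ + sum fun γ : Iio β => κ γ with hlb
  have h1lb : ∀ β, ℵ₁ ≤ lb β := fun β => self_le_add_right _ _
  have h0lb : ∀ β, ℵ₀ ≤ lb β := fun β => h01.trans (h1lb β)
  have hκlb : ∀ β γ, γ < β → κ γ ≤ lb β := fun β γ hγ =>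
    (le_sum (fun γ : Iio β => κ γ) ⟨γ, hγ⟩).trans (self_le_add_left _ _)
  have hlble : ∀ β c, ℵ₁ ≤ c → (∀ γ < β, κ γ ≤ c) → lb β ≤ c := by
    intro β c hc hγ
    refine add_le_of_le (h01.trans hc) hc ?_
    refine (sum_le_sum _ (fun _ => c) fun γ : Iio β => hγ γ γ.2).trans ?_
    rw [sum_const']
    exact mul_le_of_le (h01.trans hc) ((hΘle β).trans (h01.trans hc)) le_rfl
  have hlbκ : ∀ β, Order.succ (lb β) < κ β := by
    intro β
    refine (hin β).isSuccLimit.succ_lt (add_lt_of_lt (hin β).aleph0_lt.le (h1κ β) ?_)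
    exact sum_lt_of_isRegular (hin β).isRegular ((hΘlt β).trans (h1κ β)) fun γ => hmono γ.2
  have hκs : ∀ β, κ β < sum κ := by
    intro β
    obtain ⟨γ, hγ⟩ := hnm β
    exact (hmono hγ).trans_le (le_sum κ γ)
  obtain ⟨β0⟩ : Nonempty Θ := inferInstance
  have h1s : ℵ₁ < sum κ := (h1κ β0).trans (hκs β0)
  have h0s : ℵ₀ ≤ sum κ := h01.trans h1s.le
  have hscof : ∀ c < sum κ, ∃ β, c < κ β := by
    intro c hc
    by_contra hcon
    push Not at hcon
    have h1c : ℵ₁ ≤ c := (h1κ β0).le.trans (hcon β0)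
    refine absurd ((sum_le_sum _ (fun _ => c) hcon).trans ?_) (not_le.2 hc)
    rw [sum_const', hΘ]
    exact mul_le_of_le (h01.trans h1c) h1c le_rfl
  obtain ⟨Ω, j1, j2, hΩ, hΩt⟩ : ∃ (Ω : Type u) (_ : LinearOrder Ω) (_ : WellFoundedLT Ω),
      #Ω = Order.succ (sum κ) ∧ Ordinal.type ((· < ·) : Ω → Ω → Prop) = (Order.succ (sum κ)).ord :=
    ⟨(Order.succ (sum κ)).ord.ToType, inferInstance, inferInstance, mk_ord_toType _,
      Ordinal.type_toType _⟩
  have hsΩ : sum κ < #Ω := hΩ ▸ Order.lt_succ _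
  have hsmall : ∀ x : Ω, #(Iio x) ≤ sum κ := fun x =>
    Order.lt_succ_iff.1 (hΩ ▸ mk_Iio_lt x (by rw [hΩ, hΩt]))
  obtain ⟨th⟩ : Nonempty (Θ <i Ω) := by
    refine Ordinal.type_lt_iff.1 ?_
    rw [hΘt, hΩt, ord_lt_ord]
    exact h1s.trans (Order.lt_succ _)
  have hthm : StrictMono th := fun a b hab => th.map_rel_iff.2 hab
  have hthr : range th = Iio th.top := th.range_eq_Iio
  have hw1 : #(Iio th.top) = ℵ₁ := by
    rw [← hthr, mk_range_eq _ hthm.injective, hΘ]
  obtain ⟨lam, hlam, hlami⟩ := ctx_exists_pos hsΩ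
  choose kap hkap hkapi using fun β => ctx_exists_pos ((hκs β).trans hsΩ)
  choose mu hmu hmui using fun β => ctx_exists_pos (((hlbκ β).trans (hκs β)).trans hsΩ)
  have hmui' : ∀ β, ∀ x < mu β, #(Iio x) ≤ lb β := fun β x hx =>
    Order.lt_succ_iff.1 (hmui β x hx)
  have hlamcof : ∀ x < lam, ∃ β, x < kap β := by
    intro x hx
    obtain ⟨β, hβ⟩ := hscof _ (hlami x hx)
    exact ⟨β, ctx_lt_of_mk_lt (by rwa [hkap])⟩
  have hkapm : StrictMono kap := fun a b hab =>
    ctx_lt_of_mk_lt (by rw [hkap, hkap]; exact hmono hab)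
  have he : ∀ b : Ω, ∃ e : Ω → Ω, InjOn e (Iio b) ∧ ∀ a < b, e a < lam := by
    intro b
    obtain ⟨e⟩ : Nonempty (Iio b ↪ Iio lam) := by
      rw [← le_def, hlam]
      exact hsmall b
    refine ⟨fun a => if ha : a < b then e ⟨a, ha⟩ else a, fun a ha a' ha' haa => ?_,
      fun a ha => ?_⟩
    · simp only [dif_pos (mem_Iio.1 ha), dif_pos (mem_Iio.1 ha')] at haa
      exact congrArg Subtype.val (e.injective (Subtype.ext haa))
    · simp only [dif_pos ha]
      exact (e ⟨a, ha⟩).2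
  choose e hei hel using he
  refine ⟨Θ, Ω, i1, i2, j1, j2, ⟨{
    κ := κ
    lb := lb
    sc := hsc
    inacc := hin
    κ_mono := hmono
    ct := hct
    unc := hunc
    mk_Θ := hΘ
    lb_eq := fun _ => rfl
    lb_lt := hlbκ
    w1 := th.top
    lam := lam
    th := th
    kap := kap
    mu := mu
    th_mono := hthm
    th_range := hthr
    mk_kap := hkap
    kap_init := hkapi
    mk_mu := hmu
    mu_init := hmui'
    mu_bdd := fun β Z hZ hZc => ?_
    w1_mu := fun β => ctx_lt_of_mk_lt (by rw [hw1, hmu]; exact Order.lt_succ_iff.2 (h1lb β))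
    mu_kap := fun β => ctx_lt_of_mk_lt (by rw [hmu, hkap]; exact hlbκ β)
    kap_mu := fun β γ hβγ =>
      ctx_lt_of_mk_lt (by rw [hmu, hkap]; exact Order.lt_succ_iff.2 (hκlb γ β hβγ))
    kap_lam := fun β => ctx_lt_of_mk_lt (by rw [hlam, hkap]; exact hκs β)
    lam_cof := hlamcof
    mk_lam := hlam
    small := hsmall
    top_bdd := fun Z hZ => ?_
    sing := fun x hx1 hx2 => ?_
    Dr := fun m => Relation.TransGen fun a b => a < b ∧ e b a < kap m
    Dr_lt := fun m a b hab => ?_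
    Dr_trans := fun m a b c h1 h2 => h1.trans h2
    Dr_mono := fun m m' a b hm hab => ?_
    Dr_total := fun a b hab => ?_
    Dr_card := fun m b => ?_ }⟩⟩
  · exact ctx_exists_bound (S := Iio (mu β)) (h0lb β) (by rw [hmu]; exact Order.lt_succ _) hZc
      fun z hz => hmui' β z (hZ hz)
  · obtain ⟨b, -, hb⟩ := ctx_exists_bound (S := (univ : Set Ω)) h0s (by rwa [mk_univ]) hZ
      fun z _ => hsmall z
    exact ⟨b, hb⟩
  · have hex : ∃ β, #(Iio x) ≤ κ β := by
      obtain ⟨β, hβ⟩ := hlamcof x hx2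
      exact ⟨β, (hkapi β x hβ).le⟩
    obtain ⟨β, hβ, hmin⟩ := WellFounded.has_min (wellFounded_lt (α := Θ)) _ hex
    have hγx : ∀ γ < β, κ γ < #(Iio x) := fun γ hγ => not_le.1 fun h1 => hmin γ h1 hγ
    have h1x : ℵ₁ ≤ #(Iio x) := hw1 ▸ mk_le_mk_of_subset (Iio_subset_Iio hx1.le)
    have hlbx : lb β ≤ #(Iio x) := hlble β _ h1x fun γ hγ => (hγx γ hγ).le
    rcases lt_trichotomy x (mu β) with h1 | h1 | h1
    · right; left
      have hxlb : #(Iio x) = lb β := (hmui' β x h1).antisymm hlbx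
      by_cases hini : ∃ z < x, #(Iio z) = #(Iio x)
      · obtain ⟨z, hz, hzx⟩ := hini
        obtain ⟨g⟩ := Cardinal.eq.1 hzx
        refine ⟨z, hz, fun i => if hi : i < z then g ⟨i, hi⟩ else i, fun i hi => ?_,
          fun b hb => ?_⟩
        · simp only [dif_pos hi]
          exact (g ⟨i, hi⟩).2
        · refine ⟨g.symm ⟨b, hb⟩, (g.symm ⟨b, hb⟩).2, ?_⟩
          have hi : (g.symm ⟨b, hb⟩ : Ω) < z := (g.symm ⟨b, hb⟩).2
          simp only [dif_pos hi, Subtype.coe_eta, Equiv.apply_symm_apply, le_refl]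
      · push Not at hini
        have hini' : ∀ z < x, #(Iio z) < lb β := fun z hz =>
          hxlb ▸ (mk_le_mk_of_subset (Iio_subset_Iio hz.le)).lt_of_ne (hini z hz)
        have h1lb' : ℵ₁ < lb β := hw1 ▸ hini' _ hx1
        have : Nonempty Θ := ⟨β⟩
        have hinv : ∀ γ, Function.invFun th (th γ) = γ := Function.leftInverse_invFun hthm.injective
        refine ⟨th β, (th.lt_top β).trans hx1, fun i => kap (Function.invFun th i),
          fun i hi => ?_, fun b hb => ?_⟩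
        · have hi' : i ∈ range th := hthr ▸ hi.trans (th.lt_top β)
          obtain ⟨γ, rfl⟩ := hi'
          simp only [hinv]
          exact ctx_lt_of_mk_lt (by rw [hkap]; exact hγx γ (hthm.lt_iff_lt.1 hi))
        · by_contra hcon
          push Not at hcon
          have hb' := hini' b hb
          have : lb β ≤ max ℵ₁ #(Iio b) := by
            refine hlble β _ (le_max_left _ _) fun γ hγ => le_max_of_le_right ?_
            have := hcon (th γ) (hthm hγ)
            rw [hinv] at this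
            exact hkap γ ▸ mk_le_mk_of_subset (Iio_subset_Iio this.le)
          exact absurd this (not_le.2 (max_lt h1lb' hb'))
    · exact Or.inl ⟨β, h1⟩
    · exact Or.inr (Or.inr ⟨β, h1, hβ⟩)
  · induction hab with
    | single h1 => exact h1.1
    | tail _ h2 ih => exact ih.trans h2.1
  · induction hab with
    | single h1 => exact Relation.TransGen.single ⟨h1.1, h1.2.trans_le (hkapm.monotone hm)⟩
    | tail _ h2 ih => exact ih.tail ⟨h2.1, h2.2.trans_le (hkapm.monotone hm)⟩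
  · obtain ⟨m, hm⟩ := hlamcof _ (hel b a hab)
    exact ⟨m, Relation.TransGen.single ⟨hab, hm⟩⟩
  · refine ctx_transGen_card (hin m).aleph0_lt.le (fun a b h1 => h1.1) (fun b => ?_) b
    rw [← hkap m]
    refine mk_le_of_injective (f := fun a => ⟨e b a.1, a.2.2⟩) fun a a' haa => ?_
    exact Subtype.ext (hei b a.2.1 a'.2.1 (congrArg Subtype.val haa))

end Pool.Agent.MP_a2558b_lc
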