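import Pool.Agent.MP_c6cf52_lc.Defs

namespace Pool.Agent.MP_a2558b_lc

open Pool.Agent.MP_c6cf52_lc

universe u

/-- `κ` is supercompact: it is uncountable and for every type `Y` there is a `κ`-complete, fine and
normal ultrafilter on the subsets of `Y` of size below `κ`. -/
def Supercompact (κ : Cardinal.{u}) : Prop :=
  Cardinal.aleph0 < κ ∧ ∀ Y : Type u, ∃ U : Ultrafilter (Set Y),
    CardinalInterFilter (U : Filter (Set Y)) κ ∧ {x : Set Y | Cardinal.mk x < κ} ∈ U ∧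
      (∀ y, {x : Set Y | y ∈ x} ∈ U) ∧ ∀ f : Set Y → Y, {x | f x ∈ x} ∈ U → ∃ y, {x | f x = y} ∈ U

variable {M : Type u} (E : M → M → Prop)

/-- `w` is the first infinite ordinal: a nonzero limit ordinal all of whose nonzero members have a
largest member. -/
def IsOmega (w : M) : Prop :=
  IsOrd E w ∧ (∃ x, E x w) ∧ (∀ x, E x w → ∃ y, E y w ∧ E x y) ∧
    ∀ x, E x w → (∃ y, E y x) → ∃ y, E y x ∧ ∀ z, E z x → ¬ E y z

/-- `l` is the least cardinal above `k`. -/
def IsSucc (k l : M) : Prop := IsCard E l ∧ E k l ∧ ∀ m, IsCard E m → E k m → ¬ E m l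

/-- `A` is an unbounded subset of the ordinal `d`. -/
def Unb (A d : M) : Prop :=
  (∀ a, E a A → E a d) ∧ ∀ b, E b d → ∃ a, E a A ∧ (E b a ∨ b = a)

/-- There is a function from `m` to `d` with unbounded range. -/
def CofMap (m d : M) : Prop :=
  ∃ f, IsFun E f m d ∧ ∀ b, E b d → ∃ i a, App E f i a ∧ (E b a ∨ b = a)

/-- `m` is the cofinality of `d`: the least ordinal that maps cofinally into `d`. -/
def IsCof (d m : M) : Prop := IsOrd E m ∧ CofMap E m d ∧ ∀ n, E n m → ¬ CofMap E n d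

/-- `d` is a nonzero limit ordinal. -/
def IsLimit (d : M) : Prop := IsOrd E d ∧ (∃ x, E x d) ∧ ∀ x, E x d → ∃ y, E y d ∧ E x y

/-- `C` is a closed unbounded subset of `k`. -/
def IsClub (C k : M) : Prop :=
  Unb E C k ∧ ∀ d, E d k → (∃ x, E x d) → (∀ x, E x d → ∃ c, E c C ∧ E x c ∧ E c d) → E d C

/-- `S` is a stationary subset of `k`. -/
def IsStat (S k : M) : Prop := (∀ d, E d S → E d k) ∧ ∀ C, IsClub E C k → ∃ d, E d S ∧ E d C

/-- `d` is approachable with respect to the sequence `a`. -/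
def Appr (a d : M) : Prop :=
  IsLimit E d ∧ ∃ A m, IsCof E d m ∧ Unb E A d ∧ HasOtp E A m ∧
    ∀ c, E c d → ∃ b x, E b d ∧ App E a b x ∧ ∀ z, E z x ↔ E z A ∧ E z c

/-- `S` belongs to the approachability ideal `I[k]`. -/
def InI (k S : M) : Prop :=
  (∀ d, E d S → E d k) ∧ ∃ a Y C, IsFun E a k Y ∧
    (∀ b x, App E a b x → ∃ c, E c k ∧ ∀ z, E z x → E z c) ∧ IsClub E C k ∧
      ∀ d, E d S → E d C → Appr E a d

end Pool.Agent.MP_a2558b_lc
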