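import Pool.Agent.MP_a2558b_lc.Defs

namespace Pool.Agent.MP_a2558b_lc

open Cardinal Set

universe u

/-- A decision relation: a name for an element of `X`. -/
structure Nm (P : Type u) [Preorder P] (X : Type u) where
  dec : P → X → Prop
  mono : ∀ {p q x}, q ≤ p → dec p x → dec q x
  dense : ∀ p, ∃ q ≤ p, ∃ x, dec q x
  func : ∀ {p x y}, dec p x → dec p y → x = y

variable (P : Type u) [Preorder P] {Ω : Type u} [LinearOrder Ω]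

/-- Every family of names for elements below `c` indexed below `z` is forced to be bounded. -/
def Bdd (z c : Ω) : Prop :=
  ∀ h : Ω → Nm P Ω, (∀ i < z, ∀ p x, (h i).dec p x → x < c) →
    ∀ p, ∃ q ≤ p, ∃ b < c, ∀ i < z, ∀ r ≤ q, ∀ x, (h i).dec r x → x < b

/-- Every family of names indexed below `z` is forced to be bounded in `Ω`. -/
def BddTop (z : Ω) : Prop :=
  ∀ h : Ω → Nm P Ω, ∀ p, ∃ q ≤ p, ∃ b, ∀ i < z, ∀ r ≤ q, ∀ x, (h i).dec r x → x < b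

/-- Some family of names indexed below `z` is forced to be cofinal below `c`. -/
def CofN (z c : Ω) : Prop :=
  ∃ h : Ω → Nm P Ω, (∀ i < z, ∀ p x, (h i).dec p x → x < c) ∧
    ∀ b < c, ∀ p, ∃ q ≤ p, ∃ i < z, ∃ x, b ≤ x ∧ (h i).dec q x

/-- The combinatorial facts about a forcing `P` from which the theorem follows.  The well order `Ω`
has the type of the successor of `lam`. -/
structure Facts (Ω : Type u) [LinearOrder Ω] where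
  w1 : Ω
  lam : Ω
  mu : Ω → Ω
  S : Ω → Set Ω
  D : Ω → Ω → Ω → Prop
  w1_unc : ¬ (Iio w1).Countable
  w1_ct : ∀ x < w1, (Iio x).Countable
  w1_lt : w1 < lam
  small : ∀ x : Ω, #(Iio x) ≤ #(Iio lam)
  bdd_w1 : ∀ z < w1, Bdd P z w1
  cards : ∀ x < lam, ∃ c, x < c ∧ c < lam ∧ ∀ z < c, Bdd P z c
  bdd_top : BddTop P lam
  cof_lam : ∃ f : Ω → Ω, (∀ i < w1, f i < lam) ∧ (∀ i j, i ≤ j → j < w1 → f i ≤ f j) ∧
    ∀ b < lam, ∃ i < w1, b ≤ f i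
  sing : ∀ x, w1 < x → x < lam → (∃ β < w1, x = mu β) ∨ ∃ z < x, CofN P z x
  w1_mu : ∀ β < w1, w1 < mu β
  cofS : ∀ β < w1, ∀ d ∈ S β, CofN P (mu β) d ∧ ∀ z < mu β, Bdd P z d
  D_lt : ∀ m a b, D m a b → a < b
  D_trans : ∀ m a b c, D m a b → D m b c → D m a c
  D_mono : ∀ m m' a b, m ≤ m' → m' < w1 → D m a b → D m' a b
  D_total : ∀ a b, a < b → ∃ m < w1, D m a b
  stat : ∀ β < w1, ∀ h : Ω → Nm P Ω, ∀ p, ∃ r ≤ p, ∃ d ∈ S β,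
    ∀ a < d, ∀ r' ≤ r, ∀ x, (h a).dec r' x → x < d
  few : ∀ β < w1, ∃ O : Ω → Ω → Set P, ∀ (N : Ω → Set P) (p : P), (∀ i, IsLowerSet (N i)) →
    (∀ i r, (∀ r' ≤ r, ∃ r'' ≤ r', r'' ∈ N i) → r ∈ N i) →
    ∃ q ≤ p, ∃ w < lam, ∀ i < mu β, ∀ r ≤ q, 
      (r ∈ N i ↔ ∀ r' ≤ r, ∃ r'' ≤ r', ∃ s ∈ O w i, r'' ≤ s)
  nochain : ∀ β < w1, ∀ d ∈ S β, ∃ B : Set Ω, B ⊆ Iio d ∧ (∀ a < d, ∃ b ∈ B, a < b) ∧
    ∀ m < w1, ∀ (H : Ω → Set P) (p : P), (∀ b, IsLowerSet (H b)) →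
      (∀ a < d, ∀ q ≤ p, ∃ r ≤ q, ∃ b ∈ B, a ≤ b ∧ r ∈ H b) →
      (∀ a < d, ∀ q ≤ p, ∃ r ≤ q, ∃ c ∈ B, ∀ b ∈ B, b < a → ∀ s ≤ r, s ∈ H b → D m b c) → False

/-- The conclusion of the main theorem. -/
def Concl : Prop :=
  ∃ (M : Type (u + 1)) (E : M → M → Prop), WellFounded E ∧
    Pool.Agent.MP_c6cf52_lc.IsZFC E ∧
    ∃ w l t k, IsOmega E w ∧ Pool.Agent.MP_c6cf52_lc.IsCard E l ∧ IsCof E l t ∧ E w t ∧ E t l ∧
      IsSucc E l k ∧ ∀ m, Pool.Agent.MP_c6cf52_lc.IsCard E m → IsCof E m m → E t m → E m l →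
        ∃ S, (∀ d, E d S → IsCof E d m) ∧ IsStat E S k ∧ ¬ InI E k S

end Pool.Agent.MP_a2558b_lc
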