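import Pool.Agent.MP_a2558b_lc.Meas

namespace Pool.Agent.MP_a2558b_lc

open Cardinal hiding univ
open Set Base

universe u

variable {κ : Cardinal.{u}} {Y α τ Q γ : Type u}

/-- The reflection of a coordinate to `x`. -/
def Crd.rf (C : Crd α τ Q) (ia : α → Y) (it : τ → Y) (ie : Set α → Y) (x : Set Y) :
    Crd α τ Q where
  Pt := cut ia x C.Pt
  T := cut it x C.T
  null E := ∃ E', ie E' ∈ x ∧ C.null E' ∧ E ∩ cut ia x C.Pt ⊆ E'
  y a := cut it x (C.y a)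
  le := C.le

variable (S : SCM κ Y) {C : Crd α τ Q} {ia : α → Y} {it : τ → Y} {ie : Set α → Y}
  {Lo : Set Q} {R : Q → Q → Prop} {o : τ} {tp : Q}

/-- A statement about all objects holds almost everywhere once it holds along every choice. -/
theorem rf_ev_all {X β : Type*} [Nonempty β] {F : Filter X} {Φ : β → X → Prop}
    (h : ∀ f : X → β, ∀ᶠ x in F, Φ (f x) x) : ∀ᶠ x in F, ∀ b, Φ b x := by
  classical
  have H : ∀ x, ∃ b, Φ b x → ∀ b', Φ b' x := by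
    intro x
    by_cases hx : ∀ b', Φ b' x
    · exact ⟨Classical.arbitrary β, fun _ => hx⟩
    · obtain ⟨b, hb⟩ := not_forall.1 hx
      exact ⟨b, fun h' => absurd h' hb⟩
  choose f hf using H
  exact (h f).mono fun x hx => hf x hx

theorem rf_null_mono {x : Set Y} {E E' : Set α} (hE : E' ⊆ E) (h : (C.rf ia it ie x).null E) :
    (C.rf ia it ie x).null E' := by
  obtain ⟨F, h₁, h₂, h₃⟩ := h
  exact ⟨F, h₁, h₂, fun a ha => h₃ ⟨hE ha.1, ha.2⟩⟩

/-- The reflected ideal agrees with the ideal on limits of families of sets. -/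
theorem rf_null_iff (he : Function.Injective ie) (h : C.Basic Lo R o) {b : Set Y → Set α}
    {b0 : Set α}
    (hb : ∀ᶠ x in (S.U : Filter (Set Y)), ∀ a, ia a ∈ x → (a ∈ b x ↔ a ∈ b0)) :
    ∀ᶠ x in (S.U : Filter (Set Y)), ((C.rf ia it ie x).null (b x) ↔ C.null b0) := by
  by_cases h0 : C.null b0
  · filter_upwards [hb, S.fine (ie b0)] with x hx hx'
    exact ⟨fun _ => h0, fun _ => ⟨b0, hx', h0, fun a ha => (hx a ha.2.2).1 ha.1⟩⟩
  · have H : ∀ E' : Set α, ∀ᶠ x in (S.U : Filter (Set Y)),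
        C.null E' → ∃ a ∈ b0, a ∈ C.Pt ∧ a ∉ E' ∧ ia a ∈ x := by
      intro E'
      by_cases hE : C.null E'
      · have : ¬ (b0 ∩ C.Pt ⊆ E') := fun hs => h0 (h.null_pt _ (h.null_mono _ _ hs hE))
        obtain ⟨a, ha, ha'⟩ := not_subset.1 this
        filter_upwards [S.fine (ia a)] with x hx _
        exact ⟨a, ha.1, ha.2, ha', hx⟩
      · exact Filter.Eventually.of_forall fun x h' => absurd h' hE
    filter_upwards [hb, S.diag he H] with x hx hx'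
    refine ⟨?_, fun h' => absurd h' h0⟩
    rintro ⟨E', h₁, h₂, h₃⟩
    obtain ⟨a, a₁, a₂, a₃, a₄⟩ := hx' E' h₁ h₂
    exact absurd (h₃ ⟨(hx a a₄).2 a₁, a₂, a₄⟩) a₃

theorem rf_union (ha : Function.Injective ia) (he : Function.Injective ie) (h : C.Basic Lo R o) :
    ∀ᶠ x in (S.U : Filter (Set Y)), ∀ p : Set α × Set α, (C.rf ia it ie x).null p.1 →
      (C.rf ia it ie x).null p.2 → (C.rf ia it ie x).null (p.1 ∪ p.2) := by
  refine rf_ev_all fun f => ?_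
  obtain ⟨b₁, h₁⟩ := S.los_set ha fun x => (f x).1
  obtain ⟨b₂, h₂⟩ := S.los_set ha fun x => (f x).2
  have h₃ : ∀ᶠ x in (S.U : Filter (Set Y)), ∀ a, ia a ∈ x →
      (a ∈ (f x).1 ∪ (f x).2 ↔ a ∈ b₁ ∪ b₂) := by
    filter_upwards [h₁, h₂] with x e₁ e₂ a hx
    exact or_congr (e₁ a hx) (e₂ a hx)
  filter_upwards [rf_null_iff (it := it) S he h h₁, rf_null_iff (it := it) S he h h₂,
    rf_null_iff (it := it) S he h h₃] with x e₁ e₂ e₃ n₁ n₂
  exact e₃.2 (h.null_union _ _ (e₁.1 n₁) (e₂.1 n₂))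

theorem rf_ultra (ha : Function.Injective ia) (he : Function.Injective ie) (h : C.Basic Lo R o) :
    ∀ᶠ x in (S.U : Filter (Set Y)), ∀ E : Set α, (C.rf ia it ie x).null E ∨
      (C.rf ia it ie x).null ((C.rf ia it ie x).Pt \ E) := by
  refine rf_ev_all fun f => ?_
  obtain ⟨b, h₁⟩ := S.los_set ha f
  have h₂ : ∀ᶠ x in (S.U : Filter (Set Y)), ∀ a, ia a ∈ x →
      (a ∈ (C.rf ia it ie x).Pt \ f x ↔ a ∈ C.Pt \ b) := by
    filter_upwards [h₁] with x e₁ a hx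
    exact ⟨fun H => ⟨H.1.1, fun H' => H.2 ((e₁ a hx).2 H')⟩,
      fun H => ⟨⟨H.1, hx⟩, fun H' => H.2 ((e₁ a hx).1 H')⟩⟩
  filter_upwards [rf_null_iff (it := it) S he h h₁, rf_null_iff (it := it) S he h h₂]
    with x e₁ e₂
  exact (h.ultra b).imp e₁.2 e₂.2

theorem rf_fine (ht : Function.Injective it) (h : C.Basic Lo R o) :
    ∀ᶠ x in (S.U : Filter (Set Y)), ∀ t ∈ (C.rf ia it ie x).T,
      (C.rf ia it ie x).null {a ∈ (C.rf ia it ie x).Pt | t ∉ (C.rf ia it ie x).y a} := by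
  have H : ∀ t : τ, ∀ᶠ x in (S.U : Filter (Set Y)), ie {a ∈ C.Pt | t ∉ C.y a} ∈ x :=
    fun t => S.fine _
  filter_upwards [S.diag ht H] with x hx t htx
  exact ⟨_, hx t htx.2, h.fine t htx.1, fun a ha => ⟨ha.2.1, fun H' => ha.1.2 ⟨H', htx.2⟩⟩⟩

theorem rf_normal (ha : Function.Injective ia) (ht : Function.Injective it)
    (he : Function.Injective ie) (h : C.Basic Lo R o) :
    ∀ᶠ x in (S.U : Filter (Set Y)), ∀ p : Set α × (α → τ), p.1 ⊆ (C.rf ia it ie x).Pt →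
      ¬ (C.rf ia it ie x).null p.1 → (∀ a ∈ p.1, p.2 a ∈ (C.rf ia it ie x).y a) →
      ∃ t, ¬ (C.rf ia it ie x).null {a ∈ p.1 | p.2 a = t} := by
  have : Nonempty τ := ⟨o⟩
  refine rf_ev_all fun f => ?_
  obtain ⟨A, h₁⟩ := S.los_set ha fun x => (f x).1
  have Hg : ∀ a : α, ∃ t, ∀ᶠ x in (S.U : Filter (Set Y)),
      it ((f x).2 a) ∈ x → (f x).2 a = t := by
    intro a
    by_cases hc : ∀ᶠ x in (S.U : Filter (Set Y)), it ((f x).2 a) ∈ x
    · obtain ⟨t, htc⟩ := S.const_in ht (fun x => (f x).2 a) hc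
      exact ⟨t, htc.mono fun x hx _ => hx⟩
    · exact ⟨o, (Ultrafilter.eventually_not.2 hc).mono fun x hx h' => absurd h' hx⟩
  choose g hg using Hg
  have hg' := S.diag ha hg
  by_cases h0 : C.null {a ∈ A | a ∈ C.Pt ∧ g a ∈ C.y a}
  · filter_upwards [h₁, hg', S.fine (ie {a ∈ A | a ∈ C.Pt ∧ g a ∈ C.y a})]
      with x e₁ e₂ e₃ _ p₂ p₃
    refine absurd ⟨_, e₃, h0, fun a ha' => ⟨(e₁ a ha'.2.2).1 ha'.1, ha'.2.1, ?_⟩⟩ p₂
    have := p₃ a ha'.1
    rw [← e₂ a ha'.2.2 this.2]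
    exact this.1
  · obtain ⟨t, ht'⟩ := h.normal _ g (fun a ha' => ha'.2.1) h0 fun a ha' => ha'.2.2
    have h₂ : ∀ᶠ x in (S.U : Filter (Set Y)), ∀ a, ia a ∈ x →
        (a ∈ {a ∈ {a ∈ (f x).1 | a ∈ C.Pt ∧ g a ∈ C.y a} | g a = t} ↔
          a ∈ {a ∈ {a ∈ A | a ∈ C.Pt ∧ g a ∈ C.y a} | g a = t}) := by
      filter_upwards [h₁] with x e₁ a hx
      exact and_congr (and_congr (e₁ a hx) Iff.rfl) Iff.rfl
    filter_upwards [hg', rf_null_iff (it := it) S he h h₂] with x e₂ e₃ p₁ _ p₃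
    refine ⟨t, fun hn => ht' (e₃.1 (rf_null_mono ?_ hn))⟩
    intro a ha'
    refine ⟨ha'.1.1, ?_⟩
    rw [e₂ a (p₁ ha'.1.1).2 (p₃ a ha'.1.1).2]
    exact ha'.2

theorem rf_basic (ha : Function.Injective ia) (ht : Function.Injective it)
    (he : Function.Injective ie) (h : C.Basic Lo R o) :
    ∀ᶠ x in (S.U : Filter (Set Y)), (C.rf ia it ie x).Basic Lo R o := by
  filter_upwards [S.fine (it o), S.fine (ie ∅), rf_union (it := it) S ha he h,
    rf_ultra (it := it) S ha he h, rf_fine (ia := ia) (ie := ie) S ht h, rf_normal S ha ht he h]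
    with x e₁ e₂ e₃ e₄ e₅ e₆
  exact
    { o_mem := ⟨h.o_mem, e₁⟩
      y_sub := fun a ha' t ht' => ⟨h.y_sub a ha'.1 ht'.1, ht'.2⟩
      refl := fun t ht' => h.refl t ht'.1
      trans := h.trans
      mono := h.mono
      top := fun t ht' => h.top t ht'.1
      null_empty := ⟨∅, e₂, h.null_empty, fun a ha' => ha'.1⟩
      null_mono := fun _ _ => rf_null_mono
      null_union := fun E E' => e₃ (E, E')
      null_pt := by
        rintro E ⟨F, h₁, h₂, h₃⟩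
        exact ⟨F, h₁, h₂, fun a ha' => h₃ ⟨ha', ha'.2⟩⟩
      ultra := e₄
      fine := e₅
      normal := fun A f => e₆ (A, f) }

theorem rf_act (ha : Function.Injective ia) (he : Function.Injective ie) (h : C.Basic Lo R o)
    (h' : C.Act) : ∀ᶠ x in (S.U : Filter (Set Y)), (C.rf ia it ie x).Act := by
  have h₁ : ∀ᶠ x in (S.U : Filter (Set Y)), ∀ a, ia a ∈ x →
      (a ∈ (C.rf ia it ie x).Pt ↔ a ∈ C.Pt) :=
    Filter.Eventually.of_forall fun x a hx => ⟨fun H => H.1, fun H => ⟨H, hx⟩⟩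
  have H : ∀ a : α, ∀ᶠ x in (S.U : Filter (Set Y)), ie {a} ∈ x := fun a => S.fine _
  filter_upwards [rf_null_iff (it := it) S he h h₁, S.diag ha H, S.fine (ie ∅)] with x e₁ e₂ e₃
  refine ⟨fun hn => h'.1 (e₁.1 hn), fun a => ?_⟩
  by_cases hx : ia a ∈ x
  · exact ⟨{a}, e₂ a hx, h'.2 a, fun b hb => hb.1⟩
  · refine ⟨∅, e₃, h.null_empty, fun b hb => hx ?_⟩
    have : b = a := hb.1
    exact this ▸ hb.2.2

theorem rf_comp (ha : Function.Injective ia) (he : Function.Injective ie) (h : C.Basic Lo R o)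
    {e : γ → Y} (hi : Function.Injective e) {Z : Set γ} (h' : C.Comp #Z) :
    ∀ᶠ x in (S.U : Filter (Set Y)), (C.rf ia it ie x).Comp #(cut e x Z) := by
  classical
  have H : ∀ᶠ x in (S.U : Filter (Set Y)), ∀ E : γ → Set α,
      (∀ z ∈ cut e x Z, (C.rf ia it ie x).null (E z)) →
        (C.rf ia it ie x).null {a | ∃ z ∈ cut e x Z, a ∈ E z} := by
    refine rf_ev_all fun f => ?_
    choose E0 hE0 using fun z => S.los_set ha fun x => f x z
    have hF : C.null (⋃ z : Z, if C.null (E0 z) then E0 z else ∅) := by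
      refine h' Z _ le_rfl fun z => ?_
      split_ifs with hz
      exacts [hz, h.null_empty]
    filter_upwards [S.diag hi hE0, S.diag hi fun z => rf_null_iff (it := it) S he h (hE0 z),
      S.fine (ie (⋃ z : Z, if C.null (E0 z) then E0 z else ∅))] with x e₁ e₂ e₃ hn
    refine ⟨_, e₃, hF, ?_⟩
    rintro a ⟨⟨z, hz, haz⟩, hax⟩
    refine mem_iUnion.2 ⟨⟨z, hz.1⟩, ?_⟩
    rw [if_pos ((e₂ z hz.2).1 (hn z hz))]
    exact (e₁ z hz.2 a hax.2).1 haz
  filter_upwards [H, S.fine (ie ∅)] with x e₁ e₂ ι E hι hE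
  obtain ⟨j⟩ := (Cardinal.le_def _ _).1 hι
  refine rf_null_mono ?_ (e₁ (fun z => {a | ∃ i, (j i).1 = z ∧ a ∈ E i}) fun z _ => ?_)
  · intro a ha'
    obtain ⟨i, hi'⟩ := mem_iUnion.1 ha'
    exact ⟨(j i).1, (j i).2, i, rfl, hi'⟩
  · by_cases hz : ∃ i, (j i).1 = z
    · obtain ⟨i, rfl⟩ := hz
      refine rf_null_mono ?_ (hE i)
      rintro a ⟨k, hk, ha'⟩
      rwa [← j.injective (Subtype.ext hk)]
    · exact ⟨∅, e₂, h.null_empty, fun a ⟨⟨i, hi', _⟩, _⟩ => hz ⟨i, hi'⟩⟩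

theorem rf_ndc (ha : Function.Injective ia) (ht : Function.Injective it) (hLo : #Lo < κ)
    {e : γ → Y} (hi : Function.Injective e) {Z : Set γ} (h' : C.NDC Lo R tp #Z) :
    ∀ᶠ x in (S.U : Filter (Set Y)), (C.rf ia it ie x).NDC Lo R tp #(cut e x Z) := by
  have H : ∀ a : α, ∀ᶠ x in (S.U : Filter (Set Y)), a ∈ C.Pt →
      NDCOn C.le Lo R tp (cut it x (C.y a)) #(cut e x Z) := by
    intro a
    by_cases hp : a ∈ C.Pt
    · exact (S.ndc ht hi hLo (h'.2 a hp)).mono fun x hx _ => hx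
    · exact Filter.Eventually.of_forall fun x h => absurd h hp
  filter_upwards [S.ndc ht hi hLo h'.1, S.diag ha H] with x e₁ e₂
  exact ⟨e₁, fun a ha' => e₂ a ha'.2 ha'.1⟩

end Pool.Agent.MP_a2558b_lc
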