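import Pool.Agent.MP_a2558b_lc.GoodB
import Pool.Agent.MP_a2558b_lc.Trans
import Pool.Agent.MP_a2558b_lc.Refl

namespace Pool.Agent.MP_a2558b_lc

open Cardinal hiding univ
open Set Base Function

universe u

theorem exists_emb (A B C D E : Type u) : ∃ (Y : Type u) (a : A → Y) (b : B → Y) (c : C → Y)
    (d : D → Y) (e : E → Y), Injective a ∧ Injective b ∧ Injective c ∧ Injective d ∧
      Injective e :=
  ⟨A ⊕ B ⊕ C ⊕ D ⊕ E, Sum.inl, Sum.inr ∘ Sum.inl, Sum.inr ∘ Sum.inr ∘ Sum.inl,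
    Sum.inr ∘ Sum.inr ∘ Sum.inr ∘ Sum.inl, Sum.inr ∘ Sum.inr ∘ Sum.inr ∘ Sum.inr,
    Sum.inl_injective, Sum.inr_injective.comp Sum.inl_injective,
    Sum.inr_injective.comp (Sum.inr_injective.comp Sum.inl_injective),
    Sum.inr_injective.comp (Sum.inr_injective.comp (Sum.inr_injective.comp Sum.inl_injective)),
    Sum.inr_injective.comp (Sum.inr_injective.comp (Sum.inr_injective.comp Sum.inr_injective))⟩

theorem cut_mono {α Y : Type u} {e : α → Y} {x : Set Y} {A B : Set α} (h : A ⊆ B) :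
    cut e x A ⊆ cut e x B := fun _ ha => ⟨h ha.1, ha.2⟩

variable {Θ Ω : Type u} [LinearOrder Θ] [WellFoundedLT Θ] [LinearOrder Ω] [WellFoundedLT Ω]
  [Inhabited Ω]

omit [WellFoundedLT Θ] [WellFoundedLT Ω] [Inhabited Ω] in
theorem Ctx.mk_Θ_lt (X : Ctx Θ Ω) (β : Θ) : #Θ < X.κ β :=
  X.mk_Θ ▸ (X.aleph1_le_lb β).trans_lt (X.lb_lt' β)

omit [WellFoundedLT Θ] [Inhabited Ω] in
/-- The ordinals of a typical small set. -/
theorem ev_ord (X : Ctx Θ Ω) (β : Θ) {Y : Type u} (S : SCM (X.κ β) Y) {e : Ω → Y}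
    (he : Injective e) {c : Cardinal.{u}} (hc : c < X.κ β) :
    ∀ᶠ x in (S.U : Filter (Set Y)), ∀ k : Θ → Cardinal.{u},
      (∀ i, k i = #(cut e x (Iio (X.kap (max i β))))) →
      (Monotone k ∧ (∀ i, k i ^ ℵ₀ ≤ k i) ∧ (∀ i, c + Order.succ (X.lb β) ≤ k i) ∧
        ∀ i, k i < X.κ β) ∧ ∃ d, BProp X β k (cut e x univ) d := by
  have hΘ := X.mk_Θ_lt β
  have hi := X.inacc β
  obtain ⟨Z0, hZ0, hZ⟩ : ∃ Z0 ⊆ Iio (X.kap β), #Z0 = c + Order.succ (X.lb β) :=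
    le_mk_iff_exists_subset.1 (X.mk_kap β ▸ (add_lt_of_lt hi.aleph0_lt.le hc (X.lb_lt β)).le)
  have h₁ := S.sub_small e (A := Z0) (hZ ▸ add_lt_of_lt hi.aleph0_lt.le hc (X.lb_lt β))
  have h₂ := S.cut_small he
  have h₃ := S.all hΘ fun γ => S.pow he (A := Iio (X.kap γ))
    (X.mk_kap γ ▸ inacc_pow_le (X.inacc γ) (X.aleph0_lt_κ γ))
  have h₄ := S.bdd he (A := Iio X.lam) fun Z hZ => X.top_bdd Z (X.mk_lam ▸ hZ)
  have h₅ := S.all hΘ fun m => S.diag he fun b => S.card_le he he (A := {a | X.Dr m a b})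
    (A' := Iio (X.kap (max m β))) ((X.Dr_card m b).trans
      ((X.κ_mono.monotone (le_max_left m β)).trans (X.mk_kap _).ge))
  filter_upwards [h₁, h₂, h₃, h₄, h₅] with x h₁ h₂ h₃ h₄ h₅ k hk
  have hck : ∀ i, c + Order.succ (X.lb β) ≤ k i := fun i => by
    rw [hk, ← hZ]
    exact mk_le_mk_of_subset fun a ha =>
      ⟨lt_of_lt_of_le (hZ0 ha) (X.kap_mono (le_max_right i β)), h₁ a ha⟩
  refine ⟨⟨fun i i' h => ?_, fun i => hk i ▸ h₃ _, hck, fun i => hk i ▸ h₂ _⟩, ?_⟩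
  · rw [hk, hk]
    exact mk_le_mk_of_subset (cut_mono (Iio_subset_Iio (X.kap_mono (max_le_max_right β h))))
  have wf : WellFounded (fun a b : Ω => a < b) := wellFounded_lt
  obtain ⟨d, hd, hmin⟩ := wf.has_min {d | ∀ z ∈ cut e x univ, z < d}
    (X.top_bdd _ ((h₂ _).le.trans (X.κ_le_sum β)))
  have hkl : ∀ i, k i ≤ #(cut e x (Iio X.lam)) := fun i =>
    hk i ▸ mk_le_mk_of_subset (cut_mono (Iio_subset_Iio (X.kap_lam _).le))
  have h1 : ℵ₁ ≤ #(cut e x (Iio X.lam)) :=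
    ((X.aleph1_le_lb β).trans (Order.le_succ _)).trans (le_add_self.trans ((hck β).trans (hkl β)))
  have h0 : ℵ₀ ≤ #(cut e x (Iio X.lam)) := aleph0_lt_aleph_one.le.trans h1
  have hb : ∀ Z ⊆ cut e x univ, #Z ≤ #(cut e x (Iio X.lam)) →
      ∃ b ∈ cut e x univ, ∀ z ∈ Z, z < b := fun Z hZ hZ' => by
    obtain ⟨b, hb, hb'⟩ := h₄ Z (fun z hz => (hZ hz).2) hZ'
    exact ⟨b, ⟨mem_univ _, hb⟩, hb'⟩
  refine ⟨d, fun z hz => hd z hz, ?_, fun a ha => ?_, fun Z hZ hZ' => hb Z hZ (hZ'.trans ?_),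
    fun m b hb' => ?_, (h₂ _).le⟩
  · obtain ⟨b, hb, -⟩ := hb ∅ (empty_subset _) (by simp)
    exact ⟨b, hb⟩
  · have := mt (fun h => hmin a h ha) not_false
    simp only [mem_ofPred_eq, not_forall, not_lt] at this
    obtain ⟨z, hz, haz⟩ := this
    obtain ⟨b, hb, hb'⟩ := hb {z} (singleton_subset_iff.2 hz)
      (by simpa using one_le_aleph0.trans h0)
    exact ⟨b, hb, haz.trans_lt (hb' z rfl)⟩
  · refine (sum_le_sum _ _ hkl).trans ?_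
    rw [sum_const', X.mk_Θ]
    exact mul_le_of_le h0 h1 le_rfl
  · rw [hk]
    refine le_trans (mk_le_mk_of_subset fun a ha => ?_) (h₅ m b hb'.2)
    exact ⟨ha.2, ha.1.2⟩

namespace Fam

variable {X : Ctx Θ Ω} {D0 : Sys (JJ Θ) Ω} {β : Θ} {K : Type u} (F : Fam X D0 β K)

theorem exists_CC (hV : Valid X D0 (Iio β)) :
    ∃ C : Θ → Crd (Set (Tm0 Θ Ω K)) (Tm0 Θ Ω K) (Cnd (JJ Θ) Ω), ∀ γ, β < γ →
      (C γ).T = F.T γ ∧ (C γ).le = F.le γ ∧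
      (C γ).Basic (Low D0 (lev (Iio β))) (Le D0 (lev (Iio β))) (F.o γ) ∧ (C γ).Act ∧
      (∀ c' < X.κ γ, (C γ).Comp c') ∧
      (C γ).NDC (Low D0 (lev (Iio β))) (Le D0 (lev (Iio β))) ctop (X.lb γ) ∧
      #(C γ).Pt ≤ X.κ γ := by
  have : Nonempty (Crd (Set (Tm0 Θ Ω K)) (Tm0 Θ Ω K) (Cnd (JJ Θ) Ω)) :=
    ⟨⟨∅, ∅, fun _ => True, fun _ => ∅, fun _ _ _ => True⟩⟩
  choose! C hC using fun (γ : Θ) (h : β < γ) => exists_top (X.sc γ) (X.inacc γ) (F.o_mem γ)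
    (F.le_refl h.le) (F.le_trans h.le) (F.le_mono h.le) (F.le_top h.le) (X.lb_lt' γ)
    (F.ndc (basicOn_lev hV) h.le) ((mk_low_Iio hV).trans (X.κ_mono h)) (F.mk_T h)
  exact ⟨C, hC⟩

/-- The reflected coordinates. -/
theorem reflect₀ (hV : Valid X D0 (Iio β)) (ζ : K → Ω → Cnd (JJ Θ) Ω → Ω → Prop)
    (hζ : ∀ N a, IsNm (Low (F.D N) univ) (Le (F.D N) univ) (ζ N a)) :
    ∃ (C : Θ → Crd (Set (Tm0 Θ Ω K)) (Tm0 Θ Ω K) (Cnd (JJ Θ) Ω)) (k : Θ → Cardinal.{u})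
      (B : Set Ω) (d : Ω), (Monotone k ∧ (∀ i, k i ^ ℵ₀ ≤ k i) ∧
        (∀ i, #(Low D0 (lev (Iio β))) + Order.succ (X.lb β) ≤ k i) ∧ ∀ i, k i < X.κ β) ∧
      BProp X β k B d ∧
      (∀ γ, β < γ → (C γ).T ⊆ F.T γ ∧ (C γ).le = F.le γ ∧
        (C γ).Basic (Low D0 (lev (Iio β))) (Le D0 (lev (Iio β))) (F.o γ) ∧ (C γ).Act ∧
        (C γ).Comp (clo X D0 β k γ) ∧
        (C γ).NDC (Low D0 (lev (Iio β))) (Le D0 (lev (Iio β))) ctop (clo X D0 β k γ) ∧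
        #(C γ).Pt ≤ k γ ∧ #(C γ).T ≤ k γ) ∧
      ∀ N, ∀ t : Θ → Tm0 Θ Ω K, (∀ γ, β < γ → t γ ∈ (C γ).T) → ∀ a < d, ∃ t' : Θ → Tm0 Θ Ω K,
        ∃ b < d, (∀ γ, β < γ → t' γ ∈ (C γ).T ∧ F.le γ (t' γ) (t γ) ctop) ∧
          F.Cov N (ζ N a) t' b := by
  classical
  obtain ⟨C, hC⟩ := F.exists_CC hV
  obtain ⟨Y, e, it, ia, ie, es, he, hit, hia, hie, hes⟩ := exists_emb Ω (Tm0 Θ Ω K)
    (Set (Tm0 Θ Ω K)) (Set (Set (Tm0 Θ Ω K))) (Θ → Tm0 Θ Ω K)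
  obtain ⟨S⟩ := (X.sc β).scm Y
  have hΘ := X.mk_Θ_lt β
  have hLo := mk_low_Iio hV
  choose Λ hΛ' hΛ using fun γ => le_mk_iff_exists_subset.1 (X.mk_kap γ ▸ (X.lb_lt' γ).le :
    X.lb γ ≤ #(Iio (X.kap γ)))
  choose op ob hop using F.exists_cov ζ hζ
  have h₁ := ev_ord X β S he hLo
  have h₂ := S.all hΘ (Φ := fun γ x => β < γ →
      ((C γ).rf ia it ie x).Basic (Low D0 (lev (Iio β))) (Le D0 (lev (Iio β))) (F.o γ) ∧
      ((C γ).rf ia it ie x).Act ∧ ((C γ).rf ia it ie x).Comp #(cut e x (Λ γ)) ∧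
      ((C γ).rf ia it ie x).NDC (Low D0 (lev (Iio β))) (Le D0 (lev (Iio β))) ctop
        #(cut e x (Λ γ)) ∧
      #(cut ia x (C γ).Pt) ≤ #(cut e x (Iio (X.kap γ))) ∧
      #(cut it x (C γ).T) ≤ #(cut e x (Iio (X.kap γ))) ∧
      ∀ δ, δ < γ → #(cut e x (Iio (X.kap δ))) ≤ #(cut e x (Λ γ))) fun γ => by
    by_cases h : β < γ
    swap
    · exact Filter.Eventually.of_forall fun x h' => absurd h' h
    obtain ⟨c₁, -, c₃, c₄, c₅, c₆, c₇⟩ := hC γ h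
    have a₇ := S.all hΘ (Φ := fun δ x => δ < γ →
        #(cut e x (Iio (X.kap δ))) ≤ #(cut e x (Λ γ))) fun δ => by
      by_cases h' : δ < γ
      · filter_upwards [S.card_le he he (A := Iio (X.kap δ)) (A' := Λ γ)
          (by rw [X.mk_kap, hΛ]; exact X.κ_le_lb h')] with x hx _ using hx
      · exact Filter.Eventually.of_forall fun x h'' => absurd h'' h'
    filter_upwards [rf_basic S hia hit hie c₃, rf_act (it := it) S hia hie c₃ c₄,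
      rf_comp (it := it) S hia hie c₃ he (Z := Λ γ) (c₅ _ (hΛ γ ▸ X.lb_lt' γ)),
      rf_ndc (ie := ie) S hia hit hLo he (Z := Λ γ) (hΛ γ ▸ c₆),
      S.card_le hia he (A := (C γ).Pt) (A' := Iio (X.kap γ)) (X.mk_kap γ ▸ c₇),
      S.card_le hit he (A := (C γ).T) (A' := Iio (X.kap γ))
        (by rw [X.mk_kap, c₁, F.mk_T h]), a₇] with x a₁ a₂ a₃ a₄ a₅ a₆ a₇ _
    exact ⟨a₁, a₂, a₃, a₄, a₅, a₆, a₇⟩
  have h₃ := S.diag hes (Φ := fun t x => ∀ a, e a ∈ x → (∀ γ, it (op t a γ) ∈ x) ∧ e (ob t a) ∈ x)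
    fun t => S.diag he fun a => (S.all hΘ fun γ => S.fine _).and (S.fine _)
  have h₄ := S.seq hΘ hit es
  have h₅ := S.all hΘ fun γ => S.fine (it (F.o γ))
  obtain ⟨x, h₁, h₂, h₃, h₄, h₅⟩ := (h₁.and (h₂.and (h₃.and (h₄.and h₅)))).exists
  obtain ⟨hk, d, hd⟩ := h₁ (fun i => #(cut e x (Iio (X.kap (max i β))))) fun _ => rfl
  refine ⟨fun γ => (C γ).rf ia it ie x, _, _, d, hk, hd, fun γ h => ?_, fun N t ht a ha => ?_⟩
  · obtain ⟨a₁, a₂, a₃, a₄, a₅, a₆, a₇⟩ := h₂ γ h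
    have hβ : #(Low D0 (lev (Iio β))) + Order.succ (X.lb β) ≤ #(cut e x (Λ γ)) :=
      (hk.2.2.1 β).trans (a₇ _ (by simpa using h))
    have h0 : ℵ₀ ≤ #(cut e x (Λ γ)) :=
      ((X.aleph0_le_lb β).trans (Order.le_succ _)).trans (le_add_self.trans hβ)
    have hclo : clo X D0 β (fun i => #(cut e x (Iio (X.kap (max i β))))) γ ≤ #(cut e x (Λ γ)) := by
      refine add_le_of_le h0 hβ ((sum_le_sum _ (fun _ => #(cut e x (Λ γ))) fun i =>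
        a₇ _ (max_lt i.2 h)).trans ?_)
      rw [sum_const']
      exact mul_le_of_le h0 ((mk_le_aleph0_iff.2 (X.ct γ)).trans h0) le_rfl
    refine ⟨fun t ht => (hC γ h).1 ▸ ht.1, (hC γ h).2.1, a₁, a₂, a₃.anti hclo, a₄.anti hclo,
      ?_, ?_⟩
    · rw [max_eq_left h.le]; exact a₅
    · rw [max_eq_left h.le]; exact a₆
  · obtain ⟨a1, ha1, haa⟩ := hd.cof a ha
    let t1 : Θ → Tm0 Θ Ω K := fun γ => if β < γ then t γ else F.o γ
    have e1 : ∀ γ, β < γ → t1 γ = t γ := fun γ h => if_pos h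
    have hx : es t1 ∈ x := h₄ t1 fun γ => by
      by_cases h : β < γ
      · rw [e1 γ h]; exact (ht γ h).2
      · rw [show t1 γ = F.o γ from if_neg h]; exact h₅ γ
    obtain ⟨b₁, b₂⟩ := h₃ t1 hx a1 ha1.2
    obtain ⟨b₃, b₄⟩ := hop t1 a1 fun γ h => e1 γ h ▸ (hC γ h).1 ▸ (ht γ h).1
    exact ⟨op t1 a1, ob t1 a1, hd.sub ⟨mem_univ _, b₂⟩, fun γ h =>
      ⟨⟨(hC γ h).1 ▸ (b₃ γ h).1, b₁ γ⟩, e1 γ h ▸ (b₃ γ h).2⟩, b₄ N a haa⟩

/-- The reflected level. -/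
theorem reflect (hV : Valid X D0 (Iio β)) (ζ : K → Ω → Cnd (JJ Θ) Ω → Ω → Prop)
    (hζ : ∀ N a, IsNm (Low (F.D N) univ) (Le (F.D N) univ) (ζ N a)) :
    ∃ (Ns : Θ → Crd Ω Ω (Cnd (JJ Θ) Ω)) (k : Θ → Cardinal.{u}) (B : Set Ω) (d : Ω),
      (∃ z ⊆ Iio (X.kap β), #z < X.κ β ∧
        ∀ i, Bnd (insert default z) (Low D0 (lev (Iio β))) (Ns i)) ∧
      (∀ D : Sys (JJ Θ) Ω, (∀ j ∈ lev (Iio β), D j = D0 j) → (∀ i, D (pt β i) = Ns i) →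
        NOK X D β k) ∧ BProp X β k B d ∧
      ∀ N, (∀ i, F.D N (pt β i) = Ns i) → ∃ r ∈ Low (F.D N) univ, Le (F.D N) univ r (F.p N) ∧
        ∀ a < d, ∀ r' ∈ Low (F.D N) univ, Le (F.D N) univ r' r → ∀ x, ζ N a r' x → x < d := by
  classical
  obtain ⟨C, k, B, d, ⟨k₁, k₂, k₃, k₄⟩, hd, hC, hcl⟩ := F.reflect₀ hV ζ hζ
  have hi := X.inacc β
  have hs : sum k < X.κ β := sum_lt_of_isRegular hi.isRegular (X.mk_Θ_lt β) k₄
  obtain ⟨z, hz, hz'⟩ : ∃ z ⊆ Iio (X.kap β), #z = sum k :=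
    le_mk_iff_exists_subset.1 (X.mk_kap β ▸ hs.le)
  have hkz : ∀ i, k i ≤ #(insert default z : Set Ω) := fun i =>
    (le_sum k i).trans (hz' ▸ mk_le_mk_of_subset (subset_insert _ _))
  have hz0 : (default : Ω) ∈ insert default z := mem_insert _ _
  choose! ja ja₁ ja₂ ja₃ using fun (γ : Θ) (h : β < γ) =>
    exists_code hz0 ((hC γ h).2.2.2.2.2.2.1.trans (hkz γ)) ∅
  choose! jt jt₁ jt₂ jt₃ using fun (γ : Θ) (h : β < γ) =>
    exists_code hz0 ((hC γ h).2.2.2.2.2.2.2.trans (hkz γ)) (F.o γ)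
  let Ns : Θ → Crd Ω Ω (Cnd (JJ Θ) Ω) := fun i => if β < i then
    (C i).tr (Low D0 (lev (Iio β))) (ja i) (jt i) else triv (Low D0 (lev (Iio β))) default
  have e₁ : ∀ i, β < i → Ns i = (C i).tr (Low D0 (lev (Iio β))) (ja i) (jt i) :=
    fun i h => if_pos h
  have e₂ : ∀ i, ¬ β < i → Ns i = triv (Low D0 (lev (Iio β))) default := fun i h => if_neg h
  have htp : ctop ∈ Low D0 (lev (Iio β)) := ctop_mem (basicOn_lev hV)
  have h0 : ∀ i, ℵ₀ ≤ k i := fun i =>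
    ((X.aleph0_le_lb β).trans (Order.le_succ _)).trans (le_add_self.trans (k₃ i))
  refine ⟨Ns, k, B, d, ⟨z, hz, hz' ▸ hs, fun i => ?_⟩, fun D h₁ h₂ => ?_, hd, fun N hN => ?_⟩
  · by_cases h : β < i
    · rw [e₁ i h]; exact tr_bnd (hC i h).2.2.1 (ja₂ i h) (jt₂ i h)
    · rw [e₂ i h]; exact triv_bnd hz0
  · have l₁ : Low D (lev (Iio β)) = Low D0 (lev (Iio β)) := Low_congr h₁
    have l₂ : Le D (lev (Iio β)) = Le D0 (lev (Iio β)) := Le_congr h₁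
    have l₃ : clo X D β k = clo X D0 β k := by
      funext i
      simp only [clo, l₁]
    refine ⟨fun i => ?_, k₁, k₂, fun i => l₁ ▸ le_self_add.trans (k₃ i),
      fun i => le_add_self.trans (k₃ i), k₄, fun i => ?_, fun i => ?_, fun i => ?_, fun i h => ?_⟩
    · rw [l₁, l₂, h₂]
      by_cases h : β < i
      · rw [e₁ i h, ← jt₃ i h]; exact tr_basic (ja₁ i h) (jt₁ i h) (hC i h).2.2.1
      · rw [e₂ i h]; exact triv_basic _
    · rw [h₂]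
      by_cases h : β < i
      · rw [e₁ i h]
        exact ⟨mk_image_le.trans (hC i h).2.2.2.2.2.2.1, mk_image_le.trans (hC i h).2.2.2.2.2.2.2⟩
      · rw [e₂ i h]
        exact ⟨by simp [triv], by simpa [triv] using one_le_aleph0.trans (h0 i)⟩
    · rw [l₃, h₂]
      by_cases h : β < i
      · rw [e₁ i h]; exact tr_comp (hC i h).2.2.2.2.1
      · rw [e₂ i h]; exact triv_comp _
    · rw [l₃, l₁, l₂, h₂]
      by_cases h : β < i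
      · rw [e₁ i h]; exact tr_ndc (ja₁ i h) (jt₁ i h) (hC i h).2.2.1 htp (hC i h).2.2.2.2.2.1
      · rw [e₂ i h]; exact triv_ndc _ htp
    · rw [h₂, e₁ i h]; exact tr_act (ja₁ i h) (hC i h).2.2.1 (hC i h).2.2.2.1
  · refine Codes.master (Tb := fun γ => (C γ).T) (jt := jt) ⟨fun γ h => (hC γ h).1,
      fun γ h => (hC γ h).2.2.2.2.2.2.2.trans (k₄ γ).le, fun γ h => ?_,
      fun γ h u hu u' hu' q hq => ?_⟩ (ζ N) (hζ N) (hcl N)
    · rw [hN, e₁ γ h]; rfl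
    · rw [hN, e₁ γ h, tr_le (jt₁ γ h) hu' hu hq, (hC γ h).2.1]

end Fam

end Pool.Agent.MP_a2558b_lc
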