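import Pool.Agent.MP_a2558b_lc.Coll
import Pool.Agent.MP_a2558b_lc.Trans
import Pool.Agent.MP_a2558b_lc.Refl
import Pool.Agent.MP_a2558b_lc.GoodC

namespace Pool.Agent.MP_a2558b_lc

open Cardinal hiding univ
open Set Base

universe u

variable {Θ Ω : Type u} [LinearOrder Θ] [WellFoundedLT Θ] [LinearOrder Ω] [WellFoundedLT Ω]
  [Inhabited Ω] {X : Ctx Θ Ω} {D : Sys (JJ Θ) Ω} {β : Θ} {k : Θ → Cardinal.{u}}

omit [WellFoundedLT Θ] [WellFoundedLT Ω] in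
/-- There are few candidates for a level. -/
theorem mk_cand {Q : Type u} {Lo : Set Q} (hLo : #Lo < X.κ β) :
    #{N : Θ → Crd Ω Ω Q | ∃ z ⊆ Iio (X.kap β), #z < X.κ β ∧
      ∀ i, Bnd (insert default z) Lo (N i)} ≤ X.κ β := by
  have hi := X.inacc β
  have h0 : ℵ₀ ≤ X.κ β := hi.aleph0_lt.le
  let I := {z : Set Ω // z ⊆ Iio (X.kap β) ∧ #z < X.κ β}
  have hI : #I ≤ X.κ β := by
    rw [← inacc_small_sets hi (X.mk_kap β)]
    refine mk_le_of_injective (f := fun z => ⟨Subtype.val ⁻¹' z.1,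
      (mk_preimage_of_injective _ _ Subtype.val_injective).trans_lt z.2.2⟩) fun z z' h => ?_
    have h' : (Subtype.val ⁻¹' z.1 : Set (Iio (X.kap β))) = Subtype.val ⁻¹' z'.1 :=
      congrArg Subtype.val h
    refine Subtype.ext (Set.ext fun a => ⟨fun ha => ?_, fun ha => ?_⟩)
    · exact (Set.ext_iff.1 h' ⟨a, z.2.1 ha⟩).1 ha
    · exact (Set.ext_iff.1 h' ⟨a, z'.2.1 ha⟩).2 ha
  have hS : ∀ z : I, #{N : Θ → Crd Ω Ω Q | ∀ i, Bnd (insert default z.1) Lo (N i)} ≤ X.κ β := by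
    intro z
    have h₁ : #{C : Crd Ω Ω Q | Bnd (insert default z.1) Lo C} ≤ X.κ β :=
      (mk_bnd _ _).trans (inacc_two_pow hi (inacc_two_pow hi (add_lt_of_lt h0 (add_lt_of_lt h0
        (mk_insert_le.trans_lt (add_lt_of_lt h0 z.2.2 (one_lt_aleph0.trans hi.aleph0_lt))) hLo)
        hi.aleph0_lt))).le
    calc #{N : Θ → Crd Ω Ω Q | ∀ i, Bnd (insert default z.1) Lo (N i)}
        ≤ #(Θ → {C : Crd Ω Ω Q | Bnd (insert default z.1) Lo C}) :=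
          mk_le_of_injective (f := fun N i => ⟨N.1 i, N.2 i⟩) fun N N' h =>
            Subtype.ext (funext fun i => congrArg Subtype.val (congrFun h i))
      _ = #{C : Crd Ω Ω Q | Bnd (insert default z.1) Lo C} ^ #Θ := (power_def _ _).symm
      _ ≤ X.κ β ^ #Θ := power_le_power_right h₁
      _ ≤ X.κ β := inacc_pow_le hi (X.mk_Θ_lt β)
  calc _ ≤ #(⋃ z : I, {N : Θ → Crd Ω Ω Q | ∀ i, Bnd (insert default z.1) Lo (N i)}) :=
        mk_le_mk_of_subset fun N hN => by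
          obtain ⟨z, h₁, h₂, h₃⟩ := hN
          exact mem_iUnion.2 ⟨⟨z, h₁, h₂⟩, h₃⟩
    _ ≤ sum fun _ : I => X.κ β := mk_iUnion_le_sum_mk.trans (sum_le_sum _ _ hS)
    _ ≤ X.κ β := by
        rw [sum_const']
        exact mul_le_of_le h0 hI le_rfl

open Classical in
/-- The system with new point coordinates and a new collapse at level `β`. -/
noncomputable def sysN (D0 : Sys (JJ Θ) Ω) (β : Θ) (N : Θ → Crd Ω Ω (Cnd (JJ Θ) Ω))
    (C : Crd Ω Ω (Cnd (JJ Θ) Ω)) : Sys (JJ Θ) Ω :=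
  fun j => if h : ∃ i, j = pt β i then N h.choose else if j = cc β then C else D0 j

section

variable {D0 : Sys (JJ Θ) Ω} {N : Θ → Crd Ω Ω (Cnd (JJ Θ) Ω)} {C C' : Crd Ω Ω (Cnd (JJ Θ) Ω)}

omit [WellFoundedLT Θ] [WellFoundedLT Ω] [LinearOrder Ω] [Inhabited Ω]

theorem sysN_pt (i : Θ) : sysN D0 β N C (pt β i) = N i := by
  have h : ∃ i', pt β i = pt β i' := ⟨i, rfl⟩
  rw [sysN, dif_pos h, ← (pt_inj.1 h.choose_spec).2]

theorem sysN_cc : sysN D0 β N C (cc β) = C := by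
  rw [sysN, dif_neg fun ⟨_, h⟩ => pt_ne_cc h.symm, if_pos rfl]

theorem sysN_low : ∀ j ∈ lev (Iio β), sysN D0 β N C j = D0 j := by
  intro j hj
  rw [sysN, dif_neg, if_neg]
  · rintro rfl
    exact lt_irrefl β hj
  · rintro ⟨i, rfl⟩
    exact lt_irrefl β hj

theorem sysN_levC : ∀ j ∈ levC β, sysN D0 β N C j = sysN D0 β N C' j := by
  intro j hj
  rcases mem_levC.1 hj with h | ⟨i, rfl⟩
  · rw [sysN_low j h, sysN_low j h]
  · rw [sysN_pt, sysN_pt]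

end

theorem exists_good {D0 : Sys (JJ Θ) Ω} (hV : Valid X D0 (Iio β)) :
    ∃ D1 : Sys (JJ Θ) Ω, (∀ j ∈ lev (Iio β), D1 j = D0 j) ∧ (∃ k, LevelOK X D1 β k) ∧
      ∀ D : Sys (JJ Θ) Ω, (∀ j ∈ lev (Iic β), D j = D1 j) → Valid X D univ → Stat X D β := by
  by_contra H
  let K := {N : Θ → Crd Ω Ω (Cnd (JJ Θ) Ω) // (∃ z ⊆ Iio (X.kap β), #z < X.κ β ∧
    ∀ i, Bnd (insert default z) (Low D0 (lev (Iio β))) (N i)) ∧
      ∃ k, NOK X (sysN D0 β N (D0 (cc β))) β k}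
  have hK : #K ≤ X.κ β :=
    le_trans (mk_le_mk_of_subset fun N hN => hN.1) (mk_cand (mk_low_Iio hV))
  have key : ∀ N : K, ∃ D : Sys (JJ Θ) Ω, Valid X D univ ∧ (∀ j ∈ lev (Iio β), D j = D0 j) ∧
      (∀ i, D (pt β i) = N.1 i) ∧
      (∀ k, NOK X (sysN D0 β N.1 (D0 (cc β))) β k → LevelOK X D β k) ∧ ¬ Stat X D β := by
    rintro ⟨N, -, k, hk⟩
    have hV' : Valid X (sysN D0 β N (D0 (cc β))) (Iio β) := fun γ hγ => by
      obtain ⟨k', hk'⟩ := hV γ hγ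
      exact ⟨k', LevelOK_congr (fun j hj => (sysN_low j (levIic_sub_levIio hγ hj)).symm) hk'⟩
    obtain ⟨C, hC⟩ := exists_C hV' hk
    have hL : ∀ k, NOK X (sysN D0 β N (D0 (cc β))) β k → LevelOK X (sysN D0 β N C) β k := by
      intro k hk
      refine ⟨NOK_congr sysN_levC hk, ?_⟩
      rw [sysN_cc, Low_congr (sysN_levC (C' := D0 (cc β))), Le_congr (sysN_levC (C' := D0 (cc β)))]
      exact hC
    by_contra H'
    refine H ⟨sysN D0 β N C, sysN_low, ⟨k, hL k hk⟩, fun D h₁ h₂ => ?_⟩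
    by_contra h₃
    exact H' ⟨D, h₂, fun j hj => (h₁ j (lev_mono Iio_subset_Iic_self hj)).trans (sysN_low j hj),
      fun i => (h₁ _ (pt_mem_lev.2 (mem_Iic.2 le_rfl))).trans (sysN_pt i),
      fun k hk => LevelOK_congr (fun j hj => (h₁ j hj).symm) (hL k hk), h₃⟩
  choose DD h₁ h₂ h₃ h₄ h₅ using key
  simp only [Stat, not_forall] at h₅
  choose ζ hζ pp hp h₅ using h₅
  let F : Fam X D0 β K := ⟨DD, pp, h₁, h₂, hp, hK⟩
  obtain ⟨Ns, k, B, d, a₁, a₂, a₃, a₄⟩ := F.reflect hV ζ hζ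
  have hk := a₂ (sysN D0 β Ns (D0 (cc β))) sysN_low sysN_pt
  obtain ⟨r, hr, hle, h⟩ := a₄ ⟨Ns, a₁, k, hk⟩ (h₃ _)
  exact h₅ ⟨Ns, a₁, k, hk⟩ ⟨r, hr, hle, d, ⟨k, B, h₄ _ k hk, a₃⟩, h⟩

end Pool.Agent.MP_a2558b_lc
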