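import Pool.Agent.MP_a2558b_lc.Cov

namespace Pool.Agent.MP_a2558b_lc

open Cardinal hiding univ
open Set Base

universe u

/-! ### Inaccessible arithmetic -/

theorem inacc_two_pow {κ c : Cardinal.{u}} (h : κ.IsInaccessible) (hc : c < κ) : 2 ^ c < κ :=
  h.isStrongPrelimit hc

theorem inacc_small_sets {κ : Cardinal.{u}} (h : κ.IsInaccessible) {α : Type u} (hα : #α = κ) :
    #{s : Set α // #s < κ} = κ := by
  have := Cardinal.mk_subset_mk_lt_cof (α := α) (hα ▸ h.isStrongPrelimit)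
  rwa [hα, h.isRegular.cof_ord] at this

theorem inacc_pow_le {κ c : Cardinal.{u}} (h : κ.IsInaccessible) (hc : c < κ) : κ ^ c ≤ κ := by
  have h0 : ℵ₀ ≤ κ := h.aleph0_lt.le
  rcases eq_or_ne c 0 with rfl | hc0
  · simpa using Cardinal.one_le_iff_ne_zero.2 h.ne_zero
  have e : #(c.out × κ.out) = κ := by
    simp only [mk_prod, lift_id, mk_out]
    exact mul_eq_right h0 hc.le hc0
  have e' : κ ^ c = #(c.out → κ.out) := by rw [← power_def, mk_out, mk_out]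
  refine e'.trans_le (le_of_le_of_eq ?_ (inacc_small_sets h e))
  refine mk_le_of_injective (f := fun f : c.out → κ.out => (⟨range fun i => (i, f i),
    mk_range_le.trans_lt (by rwa [mk_out])⟩ : {s : Set (c.out × κ.out) // #s < κ}))
    fun f g hfg => funext fun i => ?_
  have : (i, f i) ∈ range fun i => (i, g i) := by
    have h := congrArg Subtype.val hfg
    dsimp only at h
    rw [← h]; exact mem_range_self i
  obtain ⟨j, hj⟩ := this
  obtain ⟨rfl, h⟩ := Prod.mk.inj hj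
  exact h.symm

variable {Θ Ω : Type u} [LinearOrder Θ] [WellFoundedLT Θ] [LinearOrder Ω] [WellFoundedLT Ω]
  [Inhabited Ω]

/-- A small family of valid systems that agree below level `β`, with conditions. -/
structure Fam (X : Ctx Θ Ω) (D0 : Sys (JJ Θ) Ω) (β : Θ) (K : Type u) where
  D : K → Sys (JJ Θ) Ω
  p : K → Cnd (JJ Θ) Ω
  valid : ∀ N, Valid X (D N) univ
  agree : ∀ N, ∀ j ∈ lev (Iio β), D N j = D0 j
  mem : ∀ N, p N ∈ Low (D N) univ
  card : #K ≤ X.κ β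

/-- Terms of the product of the direct extension orders. -/
abbrev Tm0 (Θ Ω K : Type u) : Type u := (K → WithTop Θ → Vl Ω) × Ω

namespace Fam

variable {X : Ctx Θ Ω} {D0 : Sys (JJ Θ) Ω} {β : Θ} {K : Type u} (F : Fam X D0 β K)

def T (γ : Θ) : Set (Tm0 Θ Ω K) :=
  {t | t.2 < X.kap γ ∧ ∀ N i, OkAt (F.D N) (toLex (γ, i)) (t.1 N i) ∧
    (t.1 N i).s = (F.p N (toLex (γ, i))).s ∧ (F.p N (toLex (γ, i))).E ⊆ (t.1 N i).E ∧
      (F.D N (toLex (γ, i))).le (t.1 N i).t (F.p N (toLex (γ, i))).t ctop}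

def le (γ : Θ) (t' t : Tm0 Θ Ω K) (q : Cnd (JJ Θ) Ω) : Prop :=
  ∀ N i, (t.1 N i).E ⊆ (t'.1 N i).E ∧ (F.D N (toLex (γ, i))).le (t'.1 N i).t (t.1 N i).t q

def o (γ : Θ) : Tm0 Θ Ω K := (fun N i => F.p N (toLex (γ, i)), X.w1)

omit [WellFoundedLT Θ] [WellFoundedLT Ω]

theorem basic (N : K) : BasicOn (F.D N) univ := basicOn_univ (F.valid N)

theorem low_eq (N : K) : Low (F.D N) (lev (Iio β)) = Low D0 (lev (Iio β)) := Low_congr (F.agree N)

theorem le_eq (N : K) : Le (F.D N) (lev (Iio β)) = Le D0 (lev (Iio β)) := Le_congr (F.agree N)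

variable {γ : Θ}

theorem sub_bs (h : β ≤ γ) (i : WithTop Θ) : lev (Iio β) ⊆ bs (toLex (γ, i) : JJ Θ) :=
  (lev_mono (Iio_subset_Iio h)).trans (levIio_sub_bs (j := toLex (γ, i)))

theorem mem_bs (N : K) (h : β ≤ γ) (i : WithTop Θ) {q : Cnd (JJ Θ) Ω}
    (hq : q ∈ Low D0 (lev (Iio β))) : q ∈ Low (F.D N) (bs (toLex (γ, i) : JJ Θ)) :=
  Low_mono ((F.basic N).anti (subset_univ _)) (sub_bs h i) (F.low_eq N ▸ hq)

theorem t_mem_T {t : Tm0 Θ Ω K} (ht : t ∈ F.T γ) (N : K) (i : WithTop Θ) :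
    (t.1 N i).t ∈ (F.D N (toLex (γ, i))).T :=
  (F.basic N _ (mem_univ _)).car_sub (ht.2 N i).1.1 (ht.2 N i).1.2.2.2

theorem o_mem (γ : Θ) : F.o γ ∈ F.T γ :=
  ⟨(X.w1_mu γ).trans (X.mu_kap γ), fun N _ => ⟨(F.mem N).1 _ (mem_univ _), rfl, Subset.rfl,
    (TDir.refl isLowerSet_univ (F.basic N) (mem_univ _) (F.mem N) rfl).2.2⟩⟩

theorem le_refl (h : β ≤ γ) : ∀ t ∈ F.T γ, ∀ q ∈ Low D0 (lev (Iio β)), F.le γ t t q :=
  fun _ ht _ hq N i => ⟨Subset.rfl,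
    (F.basic N _ (mem_univ _)).refl _ (F.t_mem_T ht N i) _ (F.mem_bs N h i hq)⟩

theorem le_trans (h : β ≤ γ) : ∀ a b c, ∀ q ∈ Low D0 (lev (Iio β)),
    F.le γ a b q → F.le γ b c q → F.le γ a c q :=
  fun _ _ _ _ hq h₁ h₂ N i => ⟨(h₂ N i).1.trans (h₁ N i).1,
    (F.basic N _ (mem_univ _)).trans _ _ _ _ (F.mem_bs N h i hq) (h₁ N i).2 (h₂ N i).2⟩

/-- A term inequality forced by a condition below level `β` holds below it. -/
theorem tle (N : K) (h : β ≤ γ) (i : WithTop Θ) {q q' : Cnd (JJ Θ) Ω}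
    (hq : q ∈ Low D0 (lev (Iio β))) (hq' : q' ∈ Low (F.D N) (bs (toLex (γ, i) : JJ Θ)))
    (hle : Le D0 (lev (Iio β)) q' q) {a b : Ω} (H : (F.D N (toLex (γ, i))).le a b q) :
    (F.D N (toLex (γ, i))).le a b q' :=
  (F.basic N _ (mem_univ _)).mono _ _ _ (F.mem_bs N h i hq) _ hq'
    (le_of_low (low _) ((F.basic N).anti (subset_univ _)) hq' (F.low_eq N ▸ hq)
      (F.le_eq N ▸ hle)) H

theorem le_mono (h : β ≤ γ) : ∀ a b, ∀ q ∈ Low D0 (lev (Iio β)), ∀ q' ∈ Low D0 (lev (Iio β)),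
    Le D0 (lev (Iio β)) q' q → F.le γ a b q → F.le γ a b q' :=
  fun _ _ _ hq _ hq' hle H N i =>
    ⟨(H N i).1, F.tle N h i hq (F.mem_bs N h i hq') hle (H N i).2⟩

theorem le_top (h : β ≤ γ) : ∀ t ∈ F.T γ, ∀ q ∈ Low D0 (lev (Iio β)), F.le γ t (F.o γ) q :=
  fun _ ht _ hq N i => ⟨(ht.2 N i).2.2.1, tle_of_top isLowerSet_univ (F.basic N) (mem_univ _)
    (F.mem_bs N h i hq) (ht.2 N i).2.2.2⟩

theorem ndc (hB : BasicOn D0 (lev (Iio β))) (h : β ≤ γ) :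
    NDCOn (F.le γ) (Low D0 (lev (Iio β))) (Le D0 (lev (Iio β))) ctop (F.T γ) (X.lb γ) := by
  intro ι t M t0 hι h0 ht hM hb hdir
  have hc := levIio_lower β
  have key : ∀ N i, ∃ s ∈ (F.D N (toLex (γ, i))).car (F.p N (toLex (γ, i))).s,
      (F.D N (toLex (γ, i))).le s (t0.1 N i).t ctop ∧
      ∀ k, ∀ q ∈ M k, (F.D N (toLex (γ, i))).le s ((t k).1 N i).t q := by
    intro N i
    have hcl : Cl (F.D N) (toLex (γ, i)) (X.lb γ) := cl_lb (F.valid N) (mem_univ _)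
    have hBN := (F.basic N).anti (subset_univ (bs (toLex (γ, i) : JJ Θ)))
    have hres : ∀ q ∈ Low (F.D N) (bs (toLex (γ, i) : JJ Θ)),
        res (lev (Iio β)) q ∈ Low D0 (lev (Iio β)) :=
      fun q hq => F.low_eq N ▸ res_mem hq (sub_bs h i)
    have hself : ∀ q ∈ Low (F.D N) (bs (toLex (γ, i) : JJ Θ)),
        Le D0 (lev (Iio β)) q (res (lev (Iio β)) q) := fun q hq =>
      F.le_eq N ▸ (le_res (low _) hBN hq).anti (sub_bs h i)
    obtain ⟨s, hs, h₁, h₂⟩ := hcl.2.car ((F.mem N).1 _ (mem_univ _)).1 ι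
      (fun k => ((t k).1 N i).t)
      (fun k => {q | q ∈ Low (F.D N) (bs (toLex (γ, i) : JJ Θ)) ∧ res (lev (Iio β)) q ∈ M k})
      (t0.1 N i).t hι ((h0.2 N i).2.1 ▸ (h0.2 N i).1.2.2.2)
      (fun k => ((ht k).2 N i).2.1 ▸ ((ht k).2 N i).1.2.2.2)
      (fun k => ⟨fun q hq => hq.1, fun q hq q' hq' hle => ⟨hq', (hM k).2 _ hq.2 _ (hres q' hq')
        ((le_res_left hc Subset.rfl).2 ((le_res_right hc Subset.rfl).2
          (F.le_eq N ▸ hle.anti (sub_bs h i))))⟩⟩)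
      (fun k q hq => F.tle N h i (hres q hq.1) hq.1 (hself q hq.1) (hb k _ hq.2 N i).2)
      (fun k k' q hq hq' => by
        obtain ⟨l, hl, hle, k'', hk, h₃, h₄⟩ := hdir k k' _ hq.2 hq'.2
        have hl' : l ∈ Low (F.D N) (lev (Iio β)) := F.low_eq N ▸ hl
        have hm := glue_mem' hl' (sub_bs h i) hq.1
        have hr : res (lev (Iio β)) (glue (lev (Iio β)) l q) = l :=
          (res_glue Subset.rfl).trans (res_eq_self hl)
        have hle' : Le D0 (lev (Iio β)) (glue (lev (Iio β)) l q) l := by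
          have := hself _ hm
          rwa [hr] at this
        refine ⟨glue (lev (Iio β)) l q, hm, glue_le (low _) hBN hc hm
          (F.le_eq N ▸ (le_res_right hc Subset.rfl).1 hle), k'', ⟨hm, hr.symm ▸ hk⟩,
          F.tle N h i hl hm hle' (h₃ N i).2, F.tle N h i hl hm hle' (h₄ N i).2⟩)
    refine ⟨s, hs, h₁, fun k q hq => h₂ k q ⟨F.mem_bs N h i ((hM k).1 hq), ?_⟩⟩
    rwa [res_eq_self ((hM k).1 hq)]
  choose s hs h₁ h₂ using key
  refine ⟨(fun N i => ⟨(F.p N (toLex (γ, i))).s, (t0.1 N i).E ∪ ⋃ k, ((t k).1 N i).E, s N i⟩,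
    t0.2), ⟨h0.1, fun N i => ⟨⟨((F.mem N).1 _ (mem_univ _)).1, ?_, ?_, hs N i⟩, rfl,
      (h0.2 N i).2.2.1.trans subset_union_left, ?_⟩⟩,
    fun N i => ⟨subset_union_left, h₁ N i⟩, fun k q hq N i =>
      ⟨(subset_iUnion (fun k => ((t k).1 N i).E) k).trans subset_union_right, h₂ N i k q hq⟩⟩
  · exact union_subset (h0.2 N i).1.2.1 (iUnion_subset fun k => ((ht k).2 N i).1.2.1)
  · have hcl : Cl (F.D N) (toLex (γ, i)) (X.lb γ) := cl_lb (F.valid N) (mem_univ _)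
    exact (F.basic N _ (mem_univ _)).null_union _ _ (h0.2 N i).1.2.2.1
      (hcl.1 ι _ hι fun k => ((ht k).2 N i).1.2.2.1)
  · exact (F.basic N _ (mem_univ _)).trans _ _ _ _ (F.mem_bs N h i (ctop_mem hB)) (h₁ N i)
      (h0.2 N i).2.2.2

end Fam

namespace Fam

variable {X : Ctx Θ Ω} {D0 : Sys (JJ Θ) Ω} {β γ : Θ} {K : Type u} (F : Fam X D0 β K)

theorem mk_T (h : β < γ) : #(F.T γ) = X.κ γ := by
  have hi := X.inacc γ
  have h0 : ℵ₀ ≤ X.κ γ := hi.aleph0_lt.le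
  apply le_antisymm
  · let V : K → Set (WithTop Θ → Vl Ω) := fun N => {v | ∀ i, OkAt (F.D N) (toLex (γ, i)) (v i) ∧
      (v i).s = (F.p N (toLex (γ, i))).s}
    have hV : ∀ N, #(V N) ≤ X.κ γ := fun N => by
      obtain ⟨k, hk⟩ := F.valid N γ (mem_univ _)
      exact mk_level hk (F.p N)
    calc #(F.T γ) ≤ #((∀ N, V N) × Iio (X.kap γ)) :=
          mk_le_of_injective (f := fun t => (fun N => ⟨t.1.1 N, fun i =>
            ⟨(t.2.2 N i).1, (t.2.2 N i).2.1⟩⟩, ⟨t.1.2, t.2.1⟩)) fun t t' e => by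
            obtain ⟨e₁, e₂⟩ := Prod.mk.inj e
            exact Subtype.ext (Prod.ext (funext fun N => congrArg Subtype.val (congrFun e₁ N))
              (congrArg Subtype.val e₂))
      _ = (prod fun N => #(V N)) * X.κ γ := by simp [mk_pi, X.mk_kap]
      _ ≤ X.κ γ ^ #K * X.κ γ := by
          gcongr
          simpa using prod_le_prod _ (fun _ : K => X.κ γ) hV
      _ ≤ X.κ γ * X.κ γ := by
          gcongr
          exact inacc_pow_le hi (F.card.trans_lt (X.κ_mono h))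
      _ = X.κ γ := mul_eq_self h0
  · rw [← X.mk_kap]
    exact mk_le_of_injective (f := fun a => ⟨((F.o γ).1, a.1), a.2, (F.o_mem γ).2⟩)
      fun a b e => Subtype.ext (congrArg (fun t => t.1.2) e)

open Classical in
/-- The condition given by a sequence of terms above level `β`. -/
noncomputable def cnd (N : K) (t : Θ → Tm0 Θ Ω K) : Cnd (JJ Θ) Ω :=
  fun j => if β < (ofLex j).1 then (t (ofLex j).1).1 N (ofLex j).2 else F.p N j

omit [WellFoundedLT Θ] [WellFoundedLT Ω] in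
theorem cnd_gt (N : K) (t : Θ → Tm0 Θ Ω K) (h : β < γ) (i : WithTop Θ) :
    F.cnd N t (toLex (γ, i)) = (t γ).1 N i := if_pos h

omit [WellFoundedLT Θ] [WellFoundedLT Ω] in
theorem cnd_le (N : K) (t : Θ → Tm0 Θ Ω K) {j : JJ Θ} (h : j ∈ lev (Iic β)) :
    F.cnd N t j = F.p N j := if_neg (not_lt.2 h)

omit [WellFoundedLT Θ] [WellFoundedLT Ω] in
theorem cnd_mem (N : K) {t : Θ → Tm0 Θ Ω K} (ht : ∀ γ, β < γ → t γ ∈ F.T γ) :
    F.cnd N t ∈ Low (F.D N) univ := by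
  refine ⟨fun j _ => ?_, fun j hj => (hj (mem_univ j)).elim, (F.mem N).2.2.subset fun j hj => ?_⟩
  · by_cases h : β < (ofLex j).1
    · exact (F.cnd_gt N t h (ofLex j).2).symm ▸ ((ht _ h).2 N _).1
    · rw [F.cnd_le N t (not_lt.1 h)]; exact (F.mem N).1 j (mem_univ j)
  · by_cases h : β < (ofLex j).1
    · have e : (F.cnd N t j).s = (F.p N j).s :=
        (congrArg Vl.s (F.cnd_gt N t h (ofLex j).2)).trans ((ht _ h).2 N _).2.1
      exact fun h' => hj (e.trans h')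
    · exact fun h' => hj (F.cnd_le N t (not_lt.1 h) ▸ h')

/-- Below `t` the value of the name `ζ` is below `b`, modulo bounded changes. -/
def Cov (N : K) (ζ : Cnd (JJ Θ) Ω → Ω → Prop) (t : Θ → Tm0 Θ Ω K) (b : Ω) : Prop :=
  ∃ γ0, ∀ γ, γ0 ≤ γ → ∀ r ∈ Low (F.D N) univ,
    (∀ j, j ∉ lev (Iic γ) → DirAt (F.D N) j r (F.cnd N t)) → ∀ x, ζ r x → x < b

theorem exists_cov (ζ : K → Ω → Cnd (JJ Θ) Ω → Ω → Prop)
    (hζ : ∀ N a, IsNm (Low (F.D N) univ) (Le (F.D N) univ) (ζ N a)) (t : Θ → Tm0 Θ Ω K) (a : Ω) :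
    ∃ (t' : Θ → Tm0 Θ Ω K) (b : Ω), (∀ γ, β < γ → t γ ∈ F.T γ) →
      (∀ γ, β < γ → t' γ ∈ F.T γ ∧ F.le γ (t' γ) (t γ) ctop) ∧
        ∀ N, ∀ a' < a, F.Cov N (ζ N a') t' b := by
  by_cases ht : ∀ γ, β < γ → t γ ∈ F.T γ
  swap
  · exact ⟨t, a, fun h => absurd h ht⟩
  obtain ⟨e⟩ : Nonempty (Iio a ↪ Iio X.lam) := (le_def _ _).1 (X.mk_lam ▸ X.small a)
  choose rk' hrk' using fun z : Iio X.lam => X.lam_cof z.1 z.2
  have wf : WellFounded (fun a b : Θ => a < b) := wellFounded_lt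
  let rk : Iio a → Θ := fun i => wf.min {γ | (e i).1 < X.kap γ} ⟨_, hrk' (e i)⟩
  have hrk : ∀ γ, #{i | rk i ≤ γ} ≤ X.κ γ := fun γ => by
    rw [← X.mk_kap]
    exact mk_le_of_injective (f := fun i => ⟨(e i.1).1, lt_of_lt_of_le
      (wf.min_mem {γ | (e i.1).1 < X.kap γ} ⟨_, hrk' (e i.1)⟩) (X.kap_mono i.2)⟩)
      fun i i' h => Subtype.ext (e.injective (Subtype.ext (Subtype.mk.inj h)))
  choose p' hp' hT V hV H using fun N => lev_cov (A0 := Iic β) (isLowerSet_Iic β) isLowerSet_univ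
    (F.valid N) rk hrk (fun i : Iio a => ζ N i.1) (fun i => hζ N i.1) (F.cnd_mem N ht)
  have h0 : ℵ₀ ≤ sum X.κ := (X.aleph0_lt_κ β).le.trans (X.κ_le_sum β)
  have hs : (sum fun γ : (univ : Set Θ) => X.κ γ) ≤ sum X.κ := by
    unfold Cardinal.sum
    refine mk_le_of_injective (f := fun z : Σ γ : (univ : Set Θ), (X.κ γ).out =>
      (⟨z.1.1, z.2⟩ : Σ γ : Θ, (X.κ γ).out)) ?_
    rintro ⟨⟨i, _⟩, x⟩ ⟨⟨j, _⟩, y⟩ h
    cases h
    rfl
  obtain ⟨b, hb⟩ := X.top_bdd (⋃ N, V N) (mk_iUnion_le_sum_mk.trans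
    ((sum_le_sum _ (fun _ => sum X.κ) fun N => (hV N).trans hs).trans (by
      rw [sum_const']
      exact mul_le_of_le h0 (F.card.trans (X.κ_le_sum β)) le_rfl)))
  have hB := F.basic
  refine ⟨fun γ => (fun N i => p' N (toLex (γ, i)), (t γ).2), b, fun _ => ⟨fun γ hγ => ?_,
    fun N a' ha' => ⟨max β (rk ⟨a', ha'⟩), fun γ hγ r hr hd x hx => hb x (mem_iUnion.2 ⟨N,
      H N ⟨a', ha'⟩ x γ (mem_univ _) (Iic_subset_Iic.2 ((le_max_left _ _).trans hγ))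
        ((le_max_right _ _).trans hγ) r hr (fun j _ hj => ?_) hx⟩)⟩⟩⟩
  · have key : ∀ N i, TDir (F.D N) (toLex (γ, i)) (p' N) (F.cnd N t) := fun N i =>
      (hT N).2 _ (mem_univ _) (not_le.2 hγ)
    have key' : ∀ N i, (p' N (toLex (γ, i))).s = ((t γ).1 N i).s ∧
        ((t γ).1 N i).E ⊆ (p' N (toLex (γ, i))).E ∧
        (F.D N (toLex (γ, i))).le (p' N (toLex (γ, i))).t ((t γ).1 N i).t ctop := fun N i => by
      have := key N i
      unfold TDir at this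
      rwa [F.cnd_gt N t hγ] at this
    refine ⟨⟨(ht γ hγ).1, fun N i => ⟨(hp' N).1 _ (mem_univ _),
      (key' N i).1.trans ((ht γ hγ).2 N i).2.1, ((ht γ hγ).2 N i).2.2.1.trans (key' N i).2.1,
      (hB N _ (mem_univ _)).trans _ _ _ _ (ctop_mem ((hB N).anti (subset_univ _))) (key' N i).2.2
        ((ht γ hγ).2 N i).2.2.2⟩⟩, fun N i => (key' N i).2⟩
  · have hlt : β < (ofLex j).1 := lt_of_le_of_lt ((le_max_left _ _).trans hγ) (not_le.1 hj)
    exact (dirAt_congr rfl (fun _ _ => rfl) (F.cnd_gt N _ hlt (ofLex j).2)).1 (hd j hj)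

end Fam

end Pool.Agent.MP_a2558b_lc
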