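import Pool.Agent.MP_a2558b_lc.GoodA

namespace Pool.Agent.MP_a2558b_lc

open Cardinal hiding univ
open Set Base

universe u

variable {Θ Ω : Type u} [LinearOrder Θ] [WellFoundedLT Θ] [LinearOrder Ω] [WellFoundedLT Ω]
  [Inhabited Ω]

namespace Fam

variable {X : Ctx Θ Ω} {D0 : Sys (JJ Θ) Ω} {β : Θ} {K : Type u} (F : Fam X D0 β K)

/-- The level `β` of the system `N` codes small parts of the term orders of the family. -/
structure Codes (N : K) (Tb : Θ → Set (Tm0 Θ Ω K)) (jt : Θ → Tm0 Θ Ω K → Ω) : Prop where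
  sub : ∀ γ, β < γ → Tb γ ⊆ F.T γ
  card : ∀ γ, β < γ → #(Tb γ) ≤ X.κ β
  img : ∀ γ, β < γ → (F.D N (pt β γ)).T = jt γ '' Tb γ
  le : ∀ γ, β < γ → ∀ u ∈ Tb γ, ∀ u' ∈ Tb γ, ∀ q ∈ Low D0 (lev (Iio β)),
    ((F.D N (pt β γ)).le (jt γ u') (jt γ u) q ↔ F.le γ u' u q)

variable {F} {N : K} {Tb : Θ → Set (Tm0 Θ Ω K)} {jt : Θ → Tm0 Θ Ω K → Ω}

omit [WellFoundedLT Θ] [WellFoundedLT Ω]

theorem pt_mem_bs {γ : Θ} (h : β < γ) (i : WithTop Θ) (δ : Θ) :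
    pt β δ ∈ bs (toLex (γ, i) : JJ Θ) :=
  levIio_sub_bs (j := toLex (γ, i)) (pt_mem_lev.2 h)

/-- The master term at one coordinate. -/
theorem Codes.term (H : F.Codes N Tb jt) {γ : Θ} (h : β < γ) (i : WithTop Θ) :
    ∃ s ∈ (F.D N (toLex (γ, i))).car (F.p N (toLex (γ, i))).s,
      (F.D N (toLex (γ, i))).le s (F.p N (toLex (γ, i))).t ctop ∧
      ∀ u ∈ Tb γ, ∀ q ∈ Low (F.D N) (bs (toLex (γ, i) : JJ Θ)), (q (pt β γ)).t = jt γ u →
        (F.D N (toLex (γ, i))).le s (u.1 N i).t q := by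
  have hc := levIio_lower β
  have hcl : Cl (F.D N) (toLex (γ, i)) (X.lb γ) := cl_lb (F.valid N) (mem_univ _)
  have hBN := (F.basic N).anti (subset_univ (bs (toLex (γ, i) : JJ Θ)))
  have hb := pt_mem_bs h i γ
  have hP := hBN _ hb
  rw [bs_pt, F.low_eq, F.le_eq] at hP
  have hres : ∀ q ∈ Low (F.D N) (bs (toLex (γ, i) : JJ Θ)),
      res (lev (Iio β)) q ∈ Low D0 (lev (Iio β)) :=
    fun q hq => F.low_eq N ▸ res_mem hq (sub_bs h.le i)
  have hself : ∀ q ∈ Low (F.D N) (bs (toLex (γ, i) : JJ Θ)),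
      Le D0 (lev (Iio β)) q (res (lev (Iio β)) q) := fun q hq =>
    F.le_eq N ▸ (le_res (low _) hBN hq).anti (sub_bs h.le i)
  obtain ⟨s, hs, h₁, h₂⟩ := hcl.2.car ((F.mem N).1 _ (mem_univ _)).1 (Tb γ)
    (fun u => (u.1.1 N i).t)
    (fun u => {q | q ∈ Low (F.D N) (bs (toLex (γ, i) : JJ Θ)) ∧
      (F.D N (pt β γ)).le (q (pt β γ)).t (jt γ u.1) (res (lev (Iio β)) q)})
    (F.p N (toLex (γ, i))).t ((H.card γ h).trans (X.κ_le_lb h))
    ((F.mem N).1 _ (mem_univ _)).2.2.2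
    (fun u => ((H.sub γ h u.2).2 N i).2.1 ▸ ((H.sub γ h u.2).2 N i).1.2.2.2)
    (fun u => ⟨fun q hq => hq.1, fun q hq q' hq' hle => ⟨hq', by
      have e := (hle _ hb).2.2.2
      rw [bs_pt] at e
      exact hP.trans _ _ _ _ (hres q' hq') e (hP.mono _ _ _ (hres q hq.1) _ (hres q' hq')
        ((le_res_left hc Subset.rfl).2 ((le_res_right hc Subset.rfl).2
          (F.le_eq N ▸ hle.anti (sub_bs h.le i)))) hq.2)⟩⟩)
    (fun u q hq => tle_of_top isLowerSet_univ (F.basic N) (mem_univ _) hq.1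
      ((H.sub γ h u.2).2 N i).2.2.2)
    (fun u u' q hq hq' => by
      have hw := t_mem hBN hq.1 hb
      have hw' := hw
      rw [H.img γ h] at hw'
      obtain ⟨w, hwT, e⟩ := hw'
      refine ⟨q, hq.1, Le.refl (low _) hBN hq.1, ⟨w, hwT⟩, ⟨hq.1, ?_⟩, ?_, ?_⟩
      · have := hP.refl _ hw _ (hres q hq.1)
        rwa [e]
      · exact F.tle N h.le i (hres q hq.1) hq.1 (hself q hq.1)
          (((H.le γ h _ u.2 _ hwT _ (hres q hq.1)).1 (e ▸ hq.2)) N i).2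
      · exact F.tle N h.le i (hres q hq.1) hq.1 (hself q hq.1)
          (((H.le γ h _ u'.2 _ hwT _ (hres q hq.1)).1 (e ▸ hq'.2)) N i).2)
  refine ⟨s, hs, h₁, fun u hu q hq e => h₂ ⟨u, hu⟩ q ⟨hq, ?_⟩⟩
  have := hP.refl _ (t_mem hBN hq hb) _ (hres q hq)
  rwa [← e]

/-- The master condition. -/
theorem Codes.cond (H : F.Codes N Tb jt) :
    ∃ r ∈ Low (F.D N) univ, Le (F.D N) univ r (F.p N) ∧ ∀ γ, β < γ → ∀ i : WithTop Θ,
      ∀ u ∈ Tb γ, (u.1 N i).E ⊆ (r (toLex (γ, i))).E ∧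
        ∀ q ∈ Low (F.D N) (bs (toLex (γ, i) : JJ Θ)), (q (pt β γ)).t = jt γ u →
          (F.D N (toLex (γ, i))).le (r (toLex (γ, i))).t (u.1 N i).t q := by
  classical
  choose! s hs h₁ h₂ using fun (γ : Θ) (h : β < γ) (i : WithTop Θ) => H.term h i
  let t : Θ → Tm0 Θ Ω K := fun γ => (fun N' i => if N' = N then
    ⟨(F.p N (toLex (γ, i))).s, (F.p N (toLex (γ, i))).E ∪ ⋃ u : Tb γ, (u.1.1 N i).E, s γ i⟩
    else F.p N' (toLex (γ, i)), X.w1)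
  have e : ∀ γ i, (t γ).1 N i = ⟨(F.p N (toLex (γ, i))).s,
      (F.p N (toLex (γ, i))).E ∪ ⋃ u : Tb γ, (u.1.1 N i).E, s γ i⟩ := fun γ i => if_pos rfl
  have ht : ∀ γ, β < γ → t γ ∈ F.T γ := fun γ h => ⟨(F.o_mem γ).1, fun N' i => by
    by_cases hN : N' = N
    · subst hN
      rw [e]
      have hcl : Cl (F.D N') (toLex (γ, i)) (X.lb γ) := cl_lb (F.valid N') (mem_univ _)
      have hp := (F.mem N').1 (toLex (γ, i)) (mem_univ _)
      exact ⟨⟨hp.1, union_subset hp.2.1 (iUnion_subset fun u => ((H.sub γ h u.2).2 N' i).1.2.1),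
        (F.basic N' _ (mem_univ _)).null_union _ _ hp.2.2.1
          (hcl.1 _ _ ((H.card γ h).trans (X.κ_le_lb h))
            fun u => ((H.sub γ h u.2).2 N' i).1.2.2.1), hs γ h i⟩, rfl, subset_union_left,
        h₁ γ h i⟩
    · have e' : (t γ).1 N' i = F.p N' (toLex (γ, i)) := if_neg hN
      rw [e']
      exact (F.o_mem γ).2 N' i⟩
  have hm := F.cnd_mem N ht
  refine ⟨F.cnd N t, hm, TExt.le (c := lev (Iic β)) isLowerSet_univ (F.basic N) hm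
    ⟨fun j hj => F.cnd_le N t hj, fun j _ hj => ?_⟩, fun γ h i u hu => ?_⟩
  · have h : β < (ofLex j).1 := not_le.1 hj
    have := ((ht _ h).2 N (ofLex j).2).2
    rw [← F.cnd_gt N t h] at this
    exact this
  · rw [F.cnd_gt N t h, e]
    exact ⟨(subset_iUnion (fun u : Tb γ => (u.1.1 N i).E) ⟨u, hu⟩).trans subset_union_right,
      h₂ γ h i u hu⟩

/-- The master condition forces that `d` is closed under the names. -/
theorem Codes.master (H : F.Codes N Tb jt) (ζ : Ω → Cnd (JJ Θ) Ω → Ω → Prop)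
    (hζ : ∀ a, IsNm (Low (F.D N) univ) (Le (F.D N) univ) (ζ a)) {d : Ω}
    (hcl : ∀ t : Θ → Tm0 Θ Ω K, (∀ γ, β < γ → t γ ∈ Tb γ) → ∀ a < d, ∃ t' : Θ → Tm0 Θ Ω K,
      ∃ b < d, (∀ γ, β < γ → t' γ ∈ Tb γ ∧ F.le γ (t' γ) (t γ) ctop) ∧ F.Cov N (ζ a) t' b) :
    ∃ r ∈ Low (F.D N) univ, Le (F.D N) univ r (F.p N) ∧
      ∀ a < d, ∀ r' ∈ Low (F.D N) univ, Le (F.D N) univ r' r → ∀ x, ζ a r' x → x < d := by
  classical
  obtain ⟨r, hr, hrp, hm⟩ := H.cond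
  refine ⟨r, hr, hrp, fun a ha r' hr' hle x hx => ?_⟩
  have hB := F.basic N
  have hu : IsLowerSet (univ : Set (JJ Θ)) := isLowerSet_univ
  have : Nonempty (Tm0 Θ Ω K) := ⟨F.o β⟩
  choose! t ht₁ ht₂ using fun (γ : Θ) (h : β < γ) =>
    (H.img γ h ▸ t_mem hB hr' (mem_univ (pt β γ)) : (r' (pt β γ)).t ∈ jt γ '' Tb γ)
  obtain ⟨t', b, hb, ht', γ0, hcov⟩ := hcl t ht₁ a ha
  obtain ⟨γ1, hγ1⟩ := X.exists_bound (s := {β, γ0} ∪ ((fun j : JJ Θ => (ofLex j).1) ''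
    {j | (r' j).s ≠ none} ∪ {i | (r' (pt β i)).s ≠ none}))
    ((toFinite _).countable.union ((hr'.2.2.image _).countable.union
      (hr'.2.2.preimage (f := pt β) fun _ _ _ _ h => (pt_inj.1 h).2).countable))
  have hβ : β < γ1 := hγ1 _ (Or.inl (Or.inl rfl))
  have hn₁ : ∀ j : JJ Θ, γ1 < (ofLex j).1 → (r' j).s = none := fun j hj => by
    by_contra h
    exact lt_asymm hj (hγ1 _ (Or.inr (Or.inl ⟨j, h, rfl⟩)))
  have hn₂ : ∀ i, γ1 < i → (r' (pt β i)).s = none := fun i hi => by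
    by_contra h
    exact lt_asymm hi (hγ1 _ (Or.inr (Or.inr h)))
  let r1 : Cnd (JJ Θ) Ω := fun j => if h : ∃ γ, γ1 < γ ∧ j = pt β γ then
    ⟨(r' j).s, (r' j).E, jt h.choose (t' h.choose)⟩ else r' j
  have e₁ : ∀ γ, γ1 < γ → r1 (pt β γ) = ⟨(r' (pt β γ)).s, (r' (pt β γ)).E, jt γ (t' γ)⟩ := by
    intro γ h
    have h' : ∃ γ', γ1 < γ' ∧ pt β γ = pt β γ' := ⟨γ, h, rfl⟩
    have := (pt_inj.1 h'.choose_spec.2).2
    simp only [r1, dif_pos h', ← this]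
  have e₂ : ∀ j, (¬ ∃ γ, γ1 < γ ∧ j = pt β γ) → r1 j = r' j := fun j h => dif_neg h
  have es : ∀ j, (r1 j).s = (r' j).s := fun j => by
    by_cases h : ∃ γ, γ1 < γ ∧ j = pt β γ
    · obtain ⟨γ, h, rfl⟩ := h
      rw [e₁ γ h]
    · rw [e₂ j h]
  have hr1 : r1 ∈ Low (F.D N) univ := by
    refine ⟨fun j _ => ?_, fun j hj => (hj (mem_univ j)).elim, by simpa only [es] using hr'.2.2⟩
    by_cases h : ∃ γ, γ1 < γ ∧ j = pt β γ
    · obtain ⟨γ, h, rfl⟩ := h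
      have h0 := hr'.1 (pt β γ) (mem_univ _)
      rw [e₁ γ h]
      refine ⟨h0.1, h0.2.1, h0.2.2.1, ?_⟩
      rw [hn₂ γ h]
      change jt γ (t' γ) ∈ (F.D N (pt β γ)).T
      rw [H.img γ (hβ.trans h)]
      exact mem_image_of_mem _ (ht' γ (hβ.trans h)).1
    · rw [e₂ j h]; exact hr'.1 j (mem_univ _)
  have hle1 : Le (F.D N) univ r1 r' := by
    intro j _
    by_cases h : ∃ γ, γ1 < γ ∧ j = pt β γ
    · obtain ⟨γ, h, rfl⟩ := h
      have h' := hβ.trans h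
      have hq := res_bs_mem hu hr1 (mem_univ (pt β γ))
      refine (dirAt_of (es _) (by rw [e₁ γ h]) ?_).2
      refine tle_of_top hu hB (mem_univ _) hq ?_
      rw [e₁ γ h, ← ht₂ γ h']
      exact (H.le γ h' _ (ht₁ γ h') _ (ht' γ h').1 _
        (F.low_eq N ▸ ctop_mem (hB.anti (subset_univ _)))).2 (ht' γ h').2
    · exact leAt_refl hu hB (mem_univ _) hr1 (e₂ j h)
  refine lt_trans (hcov γ1 (hγ1 _ (Or.inl (Or.inr rfl))).le r1 hr1 (fun j hj => ?_) x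
    ((hζ a).mono _ hr' _ hr1 hle1 x hx)) hb
  obtain ⟨γ, i⟩ := j
  have h : γ1 < γ := not_le.1 hj
  have h' := hβ.trans h
  have hle2 := Le.trans hu hB hr' hr1 hle1 hle (toLex (γ, i)) (mem_univ _)
  have hle3 := Le.trans hu hB hr hr' hle hrp (toLex (γ, i)) (mem_univ _)
  have hT := (H.sub γ h' (ht' γ h').1).2 N i
  obtain ⟨m₁, m₂⟩ := hm γ h' i _ (ht' γ h').1
  have hq := res_bs_mem hu hr1 (mem_univ (toLex (γ, i) : JJ Θ))
  change DirAt (F.D N) (toLex (γ, i)) r1 (F.cnd N t')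
  refine dirAt_of ?_ ?_ ?_
  · rw [F.cnd_gt N t' h', hT.2.1, es, hn₁ (toLex (γ, i)) h]
    cases e : (F.p N (toLex (γ, i))).s with
    | none => rfl
    | some z =>
      have := hle3.1 z e
      rw [hn₁ (toLex (γ, i)) h] at this
      exact this
  · rw [F.cnd_gt N t' h']
    exact m₁.trans hle2.2.2.1
  · rw [F.cnd_gt N t' h']
    refine (hB _ (mem_univ _)).trans _ _ _ _ hq hle2.2.2.2 (m₂ _ hq ?_)
    rw [res_of_mem (pt_mem_bs h' i γ), e₁ γ h]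

end Fam

end Pool.Agent.MP_a2558b_lc
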