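import Pool.Agent.MP_a2558b_lc.Basic

namespace Pool.Agent.MP_a2558b_lc

open Cardinal hiding univ
open Set Base

universe u

section Idx

variable {Θ : Type u}

theorem JJ_cases (j : JJ Θ) : (∃ β i, j = pt β i) ∨ ∃ β, j = cc β := by
  obtain ⟨β, i⟩ := j
  induction i using WithTop.recTopCoe with
  | top => exact Or.inr ⟨β, rfl⟩
  | coe i => exact Or.inl ⟨β, i, rfl⟩

@[simp] theorem pt_mem_lev {β i : Θ} {A : Set Θ} : pt β i ∈ lev A ↔ β ∈ A := Iff.rfl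

@[simp] theorem cc_mem_lev {β : Θ} {A : Set Θ} : cc β ∈ lev A ↔ β ∈ A := Iff.rfl

theorem lev_mono {A B : Set Θ} (h : A ⊆ B) : lev A ⊆ lev B := fun _ hj => h hj

@[simp] theorem lev_univ : lev (univ : Set Θ) = univ := rfl

@[simp] theorem lev_empty : lev (∅ : Set Θ) = ∅ := rfl

theorem pt_inj {β i γ i' : Θ} : pt β i = pt γ i' ↔ β = γ ∧ i = i' := by
  simp [pt]

theorem cc_inj {β γ : Θ} : cc β = cc γ ↔ β = γ := by
  simp [cc]

theorem pt_ne_cc {β i γ : Θ} : pt β i ≠ cc γ := by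
  simp [pt, cc]

variable [LinearOrder Θ] {β γ i i' : Θ} {j : JJ Θ}

theorem bs_pt (β i : Θ) : bs (pt β i) = lev (Iio β) := if_neg (by simp [pt])

theorem bs_cc (β : Θ) : bs (cc β) = levC β := if_pos rfl

theorem pt_lt_pt : pt β i < pt γ i' ↔ β < γ ∨ (β = γ ∧ i < i') := by
  simp [pt, Prod.Lex.lt_iff]

theorem pt_le_pt : pt β i ≤ pt γ i' ↔ β < γ ∨ (β = γ ∧ i ≤ i') := by
  simp [pt, Prod.Lex.le_iff]

theorem pt_lt_cc : pt β i < cc γ ↔ β ≤ γ := by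
  simp [pt, cc, Prod.Lex.lt_iff, le_iff_lt_or_eq]

theorem cc_lt_pt : cc β < pt γ i ↔ β < γ := by
  simp [pt, cc, Prod.Lex.lt_iff]

theorem cc_le_pt : cc β ≤ pt γ i ↔ β < γ := by
  simp [pt, cc, Prod.Lex.le_iff]

theorem cc_lt_cc : cc β < cc γ ↔ β < γ := by
  simp [cc, Prod.Lex.lt_iff]

@[simp] theorem pt_mem_levC : pt β i ∈ levC γ ↔ β ≤ γ := pt_lt_cc

@[simp] theorem cc_mem_levC : cc β ∈ levC γ ↔ β < γ := cc_lt_cc

theorem levC_lower (β : Θ) : IsLowerSet (levC β) := isLowerSet_Iio _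

theorem levIio_lower (β : Θ) : IsLowerSet (lev (Iio β)) := lev_lower (isLowerSet_Iio β)

theorem levIic_lower (β : Θ) : IsLowerSet (lev (Iic β)) := lev_lower (isLowerSet_Iic β)

theorem mem_levC : j ∈ levC β ↔ j ∈ lev (Iio β) ∨ ∃ i, j = pt β i := by
  rcases JJ_cases j with ⟨γ, i, rfl⟩ | ⟨γ, rfl⟩
  · simp [pt_inj, le_iff_lt_or_eq]
  · simp [pt_ne_cc.symm]

theorem mem_levIic : j ∈ lev (Iic β) ↔ j ∈ levC β ∨ j = cc β := by
  rcases JJ_cases j with ⟨γ, i, rfl⟩ | ⟨γ, rfl⟩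
  · simp [pt_ne_cc]
  · simp [cc_inj, le_iff_lt_or_eq]

theorem levIio_sub_levC (β : Θ) : lev (Iio β) ⊆ levC β := fun _ h => mem_levC.2 (Or.inl h)

theorem levC_sub_levIic (β : Θ) : levC β ⊆ lev (Iic β) := fun _ h => mem_levIic.2 (Or.inl h)

theorem levIio_sub_Iio (β i : Θ) : lev (Iio β) ⊆ Iio (pt β i) := bs_pt β i ▸ sub _

theorem Iic_pt_sub_levC (β i : Θ) : Iic (pt β i) ⊆ levC β :=
  fun _ h => lt_of_le_of_lt (mem_Iic.1 h) (pt_lt_cc.2 le_rfl)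

theorem levIic_sub_levIio (h : β < γ) : lev (Iic β) ⊆ lev (Iio γ) :=
  lev_mono fun _ hx => lt_of_le_of_lt hx h

theorem levIio_sub_bs : lev (Iio (ofLex j).1) ⊆ bs j := by
  rcases JJ_cases j with ⟨γ, i, rfl⟩ | ⟨γ, rfl⟩
  · rw [bs_pt]; exact Subset.rfl
  · rw [bs_cc]; exact levIio_sub_levC γ

end Idx

variable {Θ Ω : Type u} [LinearOrder Θ] [LinearOrder Ω] [Inhabited Ω] {X : Ctx Θ Ω}
  {D : Sys (JJ Θ) Ω} {β γ : Θ} {k : Θ → Cardinal.{u}} {A : Set Θ}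

theorem Valid.anti {B : Set Θ} (h : Valid X D A) (hB : B ⊆ A) : Valid X D B :=
  fun β hβ => h β (hB hβ)

theorem basicOn_lev (hV : Valid X D A) : BasicOn D (lev A) := by
  intro j hj
  rcases JJ_cases j with ⟨γ, i, rfl⟩ | ⟨γ, rfl⟩
  · obtain ⟨k, hk⟩ := hV γ hj
    rw [bs_pt]; exact hk.1.basic i
  · obtain ⟨k, hk⟩ := hV γ hj
    rw [bs_cc]; exact hk.2.basic

theorem basicOn_univ (hV : Valid X D univ) : BasicOn D univ := basicOn_lev hV

theorem basicOn_levC (hV : Valid X D (Iio β)) (hk : NOK X D β k) : BasicOn D (levC β) := by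
  intro j hj
  rcases mem_levC.1 hj with h | ⟨i, rfl⟩
  · exact basicOn_lev hV j h
  · rw [bs_pt]; exact hk.basic i

theorem cl_pt (hk : NOK X D β k) (i : Θ) : Cl D (pt β i) (clo X D β k i) := by
  refine ⟨hk.comp i, ?_⟩
  rw [bs_pt]; exact hk.ndc i

theorem cl_cc (hk : LevelOK X D β k) : Cl D (cc β) (X.lb β) := by
  refine ⟨fun _ _ _ _ => hk.2.null_all _, ?_⟩
  rw [bs_cc]; exact hk.2.ndc

theorem low_le_clo (i : Θ) : #(Low D (lev (Iio β))) ≤ clo X D β k i :=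
  le_self_add.trans le_self_add

theorem mu_le_clo (i : Θ) : Order.succ (X.lb β) ≤ clo X D β k i := le_add_self.trans le_self_add

theorem k_le_clo {i i' : Θ} (h : i' < i) : k i' ≤ clo X D β k i :=
  (Cardinal.le_sum (fun i' : Iio i => k i') ⟨i', h⟩).trans le_add_self

theorem cl_lb (hV : Valid X D A) {j : JJ Θ} (hj : j ∈ lev A) : Cl D j (X.lb (ofLex j).1) := by
  rcases JJ_cases j with ⟨γ, i, rfl⟩ | ⟨γ, rfl⟩
  · obtain ⟨k, hk⟩ := hV γ hj
    exact (cl_pt hk.1 i).anti ((Order.le_succ _).trans (mu_le_clo i))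
  · obtain ⟨k, hk⟩ := hV γ hj
    exact cl_cc hk

namespace Ctx

variable (X)

omit [Inhabited Ω]

theorem aleph1_le_lb (β : Θ) : ℵ₁ ≤ X.lb β := X.lb_eq β ▸ le_self_add

theorem aleph0_le_lb (β : Θ) : ℵ₀ ≤ X.lb β := aleph0_lt_aleph_one.le.trans (X.aleph1_le_lb β)

theorem κ_le_lb (h : β < γ) : X.κ β ≤ X.lb γ :=
  X.lb_eq γ ▸ (Cardinal.le_sum (fun γ' : Iio γ => X.κ γ') ⟨β, h⟩).trans le_add_self

theorem lb_lt' (β : Θ) : X.lb β < X.κ β := (Order.le_succ _).trans_lt (X.lb_lt β)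

theorem aleph0_lt_κ (β : Θ) : ℵ₀ < X.κ β := (X.aleph0_le_lb β).trans_lt (X.lb_lt' β)

theorem lb_mono (h : β ≤ γ) : X.lb β ≤ X.lb γ := by
  rcases h.eq_or_lt with rfl | h
  exacts [le_rfl, (X.lb_lt' β).le.trans (X.κ_le_lb h)]

theorem κ_le_sum (β : Θ) : X.κ β ≤ sum X.κ := Cardinal.le_sum _ _

include X in
theorem exists_gt (β : Θ) : ∃ γ, β < γ := by
  by_contra h
  push Not at h
  have := X.unc
  refine Set.not_countable_univ (α := Θ) (((X.ct β).insert β).mono fun x _ => ?_)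
  exact (h x).eq_or_lt

include X in
theorem exists_bound {s : Set Θ} (hs : s.Countable) : ∃ γ, ∀ x ∈ s, x < γ := by
  by_contra h
  push Not at h
  have := X.unc
  refine Set.not_countable_univ (α := Θ)
    ((hs.biUnion fun x _ => (X.ct x).insert x).mono fun γ _ => ?_)
  obtain ⟨x, hx, h⟩ := h γ
  exact mem_biUnion hx h.eq_or_lt

theorem kap_mono (h : β ≤ γ) : X.kap β ≤ X.kap γ := by
  rcases h.eq_or_lt with rfl | h
  exacts [le_rfl, ((X.kap_mu _ _ h).trans (X.mu_kap γ)).le]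

end Ctx

end Pool.Agent.MP_a2558b_lc
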