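import Pool.Agent.MP_a2558b_lc.Sem2

namespace Pool.Agent.MP_a2558b_lc

open Pool.Agent.MP_c6cf52_lc Name Set

universe u v

namespace UD3

theorem isOrd (i : ℕ) : UDef.{v} (fun _ E w => IsOrd E (w i)) := by
  unfold IsOrd
  repeat' first
    | exact UDef.mem _ _ | exact UDef.eq _ _ | apply UDef.and | apply UDef.or
    | apply UDef.imp | apply UDef.all

theorem hasOtp (i j : ℕ) : UDef.{v} (fun _ E w => HasOtp E (w i) (w j)) := by
  unfold HasOtp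
  repeat' first
    | exact UDef.mem _ _ | exact UDef.isFun _ _ _ | exact UDef.app _ _ _ | apply UDef.and
    | apply UDef.imp | apply UDef.all | apply UDef.ex

theorem unb (i j : ℕ) : UDef.{v} (fun _ E w => Unb E (w i) (w j)) := by
  unfold Unb
  repeat' first
    | exact UDef.mem _ _ | exact UDef.eq _ _ | apply UDef.and | apply UDef.or
    | apply UDef.imp | apply UDef.all | apply UDef.ex

theorem cofMap (i j : ℕ) : UDef.{v} (fun _ E w => CofMap E (w i) (w j)) := by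
  unfold CofMap
  repeat' first
    | exact UDef.mem _ _ | exact UDef.eq _ _ | exact UDef.isFun _ _ _ | exact UDef.app _ _ _
    | apply UDef.and | apply UDef.or | apply UDef.imp | apply UDef.all | apply UDef.ex

theorem isCof (i j : ℕ) : UDef.{v} (fun _ E w => IsCof E (w i) (w j)) := by
  unfold IsCof
  repeat' first
    | exact UDef.mem _ _ | exact isOrd _ | exact cofMap _ _ | apply UDef.and | apply UDef.not
    | apply UDef.imp | apply UDef.all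

theorem isLimit (i : ℕ) : UDef.{v} (fun _ E w => IsLimit E (w i)) := by
  unfold IsLimit
  repeat' first
    | exact UDef.mem _ _ | exact isOrd _ | apply UDef.and | apply UDef.imp | apply UDef.all
    | apply UDef.ex

theorem isClub (i j : ℕ) : UDef.{v} (fun _ E w => IsClub E (w i) (w j)) := by
  unfold IsClub
  repeat' first
    | exact UDef.mem _ _ | exact unb _ _ | apply UDef.and | apply UDef.imp | apply UDef.all
    | apply UDef.ex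

theorem isStat (i j : ℕ) : UDef.{v} (fun _ E w => IsStat E (w i) (w j)) := by
  unfold IsStat
  repeat' first
    | exact UDef.mem _ _ | exact isClub _ _ | apply UDef.and | apply UDef.imp | apply UDef.all
    | apply UDef.ex

theorem appr (i j : ℕ) : UDef.{v} (fun _ E w => Appr E (w i) (w j)) := by
  unfold Appr
  repeat' first
    | exact UDef.mem _ _ | exact isLimit _ | exact isCof _ _ | exact unb _ _ | exact hasOtp _ _
    | exact UDef.app _ _ _ | apply UDef.and | apply UDef.iff | apply UDef.imp | apply UDef.all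
    | apply UDef.ex

theorem inI (i j : ℕ) : UDef.{v} (fun _ E w => InI E (w i) (w j)) := by
  unfold InI
  repeat' first
    | exact UDef.mem _ _ | exact UDef.isFun _ _ _ | exact UDef.app _ _ _ | exact isClub _ _
    | exact appr _ _ | apply UDef.and | apply UDef.imp | apply UDef.all | apply UDef.ex

end UD3

variable {P : Type u} [Preorder P] [OrderTop P] {Ω : Type u} [LinearOrder Ω] [WellFoundedLT Ω]

namespace S3

open Gen

variable {g : Gen P}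

omit [WellFoundedLT Ω] in
theorem tri (a b : Ω) : a < b ∨ a = b ∨ b < a := lt_trichotomy a b

theorem o_eq (x : Ω) : (oN x : Name P) = sN (Iio x) := ordN_eq wfO x

theorem E_sN {s : Set Ω} (h : sN s ∈ g.N) {x : g.M} :
    g.E x (g.v (sN s)) ↔ ∃ y ∈ s, oN y ∈ g.N ∧ g.v (oN y) = x := E_setN wfO h

theorem E_o {a : Ω} (h : oN a ∈ g.N) {x : g.M} :
    g.E x (g.v (oN a)) ↔ ∃ y, y < a ∧ oN y ∈ g.N ∧ g.v (oN y) = x := E_ordN wfO h

theorem o_lt {a b : Ω} (ha : oN a ∈ g.N) (hb : oN b ∈ g.N) :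
    g.E (g.v (oN a)) (g.v (oN b)) ↔ a < b := ord_lt_iff wfO tri ha hb

theorem o_inj {a b : Ω} (ha : oN a ∈ g.N) (hb : oN b ∈ g.N) (h : g.v (oN a) = g.v (oN b)) :
    a = b := ord_inj wfO tri ha hb h

theorem o_mem_sN {s : Set Ω} {a : Ω} (ha : oN a ∈ g.N) (hs : sN s ∈ g.N) :
    g.E (g.v (oN a)) (g.v (sN s)) ↔ a ∈ s := ord_mem_setN_iff wfO tri ha hs

theorem isOrd_o {a : Ω} (h : oN a ∈ g.N) : IsOrd g.E (g.v (oN a)) := by
  rw [o_eq] at h ⊢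
  exact isOrd_setN wfO tri h fun x y h₁ h₂ => lt_trans h₁ h₂

theorem isOrd_k (h : sN (univ : Set Ω) ∈ g.N) : IsOrd g.E (g.v (sN (univ : Set Ω))) :=
  isOrd_setN wfO tri h fun _ _ _ _ => trivial

theorem isOmega_om : IsOmega g.E g.om := by
  refine ⟨isOrd_setN natWf natTri g.omega_mem fun _ _ _ _ => trivial, ⟨_, nat_om 0⟩,
    fun x hx => ?_, fun x hx ⟨y, hy⟩ => ?_⟩
  · obtain ⟨n, rfl⟩ := E_om.1 hx
    exact ⟨_, nat_om (n + 1), nat_lt.2 (Nat.lt_succ_self n)⟩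
  · obtain ⟨n, rfl⟩ := E_om.1 hx
    obtain ⟨m, hm, -⟩ := E_nat.1 hy
    refine ⟨g.nat (n - 1), nat_lt.2 (by omega), fun z hz => ?_⟩
    obtain ⟨k, hk, rfl⟩ := E_nat.1 hz
    rw [nat_lt]
    omega

theorem exists_om {t : Ω} (ht : ¬ (Iio t).Countable) :
    ∃ (i : ℕ → Ω) (w : Ω), (∀ n y, y < i n ↔ ∃ m, i m = y ∧ m < n) ∧
      (∀ y, y < w ↔ ∃ m, i m = y) ∧ w < t := by
  rcases InitialSeg.total (fun a b : ℕ => a < b) (fun a b : Ω => a < b) with f | f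
  · obtain ⟨x, hx⟩ : ∃ x, x ∉ range f := by
      by_contra h
      push Not at h
      exact ht ((countable_range f).mono fun x _ => h x)
    obtain ⟨w, hw, hmin⟩ := wellFounded_lt.has_min {x | x ∉ range f} ⟨x, hx⟩
    have e : ∀ y, y < w ↔ ∃ m, f m = y := by
      refine fun y => ⟨fun h => by_contra fun h' => hmin y h' h, ?_⟩
      rintro ⟨m, rfl⟩
      rcases lt_trichotomy (f m) w with h | h | h
      exacts [h, absurd ⟨m, h⟩ hw, absurd (f.mem_range_of_rel h) hw]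
    refine ⟨f, w, fun n y => f.exists_eq_iff_rel, e, not_le.1 fun h => ht ?_⟩
    exact (countable_range f).mono fun y hy => (e y).1 (lt_of_lt_of_le hy h)
  · have : Countable Ω := f.injective.countable
    exact absurd (to_countable _) ht

theorem om_mem {t : Ω} (ht : ¬ (Iio t).Countable) (hk : oN t ∈ g.N) :
    g.E g.om (g.v (oN t)) := by
  obtain ⟨i, w, h₁, h₂, h₃⟩ := exists_om ht
  refine dens (UDef.mem 0 1) (l2 g.omega_mem hk) fun p _ =>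
    ⟨p, le_rfl, insert (oN w) (range fun n => oN (i n)), (countable_range _).insert _,
      fun g' _ hC hl => ?_⟩
  have hw : oN w ∈ g'.N := hC (mem_insert _ _)
  have hm : ∀ n, oN (i n) ∈ g'.N := fun n => hC (Or.inr ⟨n, rfl⟩)
  have e : ∀ n, g'.nat n = g'.v (oN (i n)) := by
    intro n
    induction n using Nat.strong_induction_on with
    | h n ih =>
      refine ext fun x => ?_
      rw [E_nat, E_o (hm n)]
      constructor
      · rintro ⟨j, hj, rfl⟩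
        exact ⟨i j, (h₁ _ _).2 ⟨j, rfl, hj⟩, hm j, (ih j hj).symm⟩
      · rintro ⟨y, hy, -, rfl⟩
        obtain ⟨j, rfl, hj⟩ := (h₁ _ _).1 hy
        exact ⟨j, hj, ih j hj⟩
  have e' : g'.om = g'.v (oN w) := by
    refine ext fun x => ?_
    rw [E_om, E_o hw]
    constructor
    · rintro ⟨j, rfl⟩
      exact ⟨i j, (h₂ _).2 ⟨j, rfl⟩, hm j, (e j).symm⟩
    · rintro ⟨y, hy, -, rfl⟩
      obtain ⟨j, rfl⟩ := (h₂ _).1 hy
      exact ⟨j, e j⟩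
  change g'.E g'.om (g'.v (oN t))
  rw [e']
  exact (o_lt hw (hl _ (by simp))).2 h₃

/-- A definable total relation is uniformized by a function of the model. -/
theorem exists_fun {A B : g.M} {Q : g.M → g.M → Prop}
    (hQ : g.Tm (fun z : g.M × g.M => Q z.1 z.2)) (tot : ∀ x, g.E x A → ∃ y, g.E y B ∧ Q x y) :
    ∃ F, IsFun g.E F A B ∧ ∀ s t, App g.E F s t → Q s t := by
  obtain ⟨f, hf, h⟩ := tm_choice (Γ := g.Elt A) (Q := fun x y => g.E y B ∧ Q x.1 y)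
    (tm_and (by fun_prop) (hQ.comp₂ (F := Q) (tm_val tm_id.fst) tm_id.snd)) fun x => tot x.1 x.2
  obtain ⟨F, h₁, h₂⟩ := exists_graph (Γ := g.Elt A) Df.true hf
  refine ⟨F, ⟨fun p hp => ?_, fun a ha => ⟨f ⟨a, ha⟩, (h₂ _ _).2 ⟨⟨a, ha⟩, trivial, rfl, rfl⟩,
    fun b hb => ?_⟩⟩, fun s t hst => ?_⟩
  · obtain ⟨x, -, rfl⟩ := h₁ p hp
    exact ⟨x.1, f x, x.2, (h x).1, isPair_pr _ _⟩
  · obtain ⟨x, -, e, rfl⟩ := (h₂ _ _).1 hb
    obtain rfl : x = ⟨a, ha⟩ := Subtype.ext e.symm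
    rfl
  · obtain ⟨x, -, rfl, rfl⟩ := (h₂ _ _).1 hst
    exact (h x).2

/-- An injection of `l` into `x` gives a map from `x` onto any nonempty subset of `l`. -/
theorem cofMap_of_inj {f l x c e : g.M} (hf : IsInj g.E f l x) (he : g.E e c)
    (hc : ∀ a, g.E a c → g.E a l) : CofMap g.E x c := by
  obtain ⟨F, h₁, h₂⟩ := exists_fun (A := x) (B := c)
    (Q := fun i a => ∀ a', g.E a' c → App g.E f a' i → a = a') (by fun_prop) fun i _ => by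
      by_cases h : ∃ a, g.E a c ∧ App g.E f a i
      · obtain ⟨a, ha, h⟩ := h
        exact ⟨a, ha, fun a' _ h' => hf.2 _ _ _ h h'⟩
      · exact ⟨e, he, fun a' ha' h' => absurd ⟨a', ha', h'⟩ h⟩
  refine ⟨F, h₁, fun b hb => ?_⟩
  obtain ⟨i, hi, hbi⟩ := fun_ex hf.1 (hc b hb)
  obtain ⟨a, -, ha⟩ := fun_ex h₁ hi
  exact ⟨i, a, ha, Or.inr (h₂ _ _ ha b hb hbi).symm⟩

/-- The image of a name under a ground function. -/
def mapNm (φ : Ω → Ω) (h : Nm P Ω) : Nm P Ω where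
  dec p j := ∃ x, h.dec p x ∧ φ x = j
  mono hq := fun ⟨x, h₁, h₂⟩ => ⟨x, h.mono hq h₁, h₂⟩
  dense p := by
    obtain ⟨q, hq, x, hx⟩ := h.dense p
    exact ⟨q, hq, _, x, hx, rfl⟩
  func := by
    rintro p _ _ ⟨x, h₁, rfl⟩ ⟨y, h₂, rfl⟩
    rw [h.func h₁ h₂]

/-- The constant name. -/
def constNm (x : Ω) : Nm P Ω where
  dec _ y := y = x
  mono _ h := h
  dense p := ⟨p, le_rfl, x, rfl⟩
  func h₁ h₂ := h₁.trans h₂.symm

omit [OrderTop P] [WellFoundedLT Ω] in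
theorem exists_emb (F : Facts P Ω) (x : Ω) :
    ∃ e : Iio x → Iio F.lam, Function.Injective e := by
  obtain ⟨e⟩ := (Cardinal.le_def _ _).1 (F.small x)
  exact ⟨e, e.injective⟩

omit [OrderTop P] [WellFoundedLT Ω] in
theorem bddTop (F : Facts P Ω) (x : Ω) : BddTop P x := by
  classical
  obtain ⟨e, he⟩ := exists_emb F x
  intro h p
  obtain ⟨q, hq, b, H⟩ := F.bdd_top
    (fun j => if hj : ∃ i : Iio x, (e i).1 = j then h hj.choose.1 else h j) p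
  refine ⟨q, hq, b, fun i hi r hr y hy => H (e ⟨i, hi⟩).1 (e ⟨i, hi⟩).2 r hr y ?_⟩
  have hj : ∃ i' : Iio x, (e i').1 = (e ⟨i, hi⟩).1 := ⟨_, rfl⟩
  have : hj.choose = ⟨i, hi⟩ := he (Subtype.ext hj.choose_spec)
  simp only [dif_pos hj, this]
  exact hy

omit [WellFoundedLT Ω] in
theorem exists_gt (F : Facts P Ω) (x : Ω) : ∃ y, x < y := by
  obtain ⟨q, -, b, H⟩ := F.bdd_top (fun _ => constNm x) ⊤
  exact ⟨b, H F.w1 F.w1_lt q le_rfl x rfl⟩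

omit [OrderTop P] [WellFoundedLT Ω] in
theorem bdd_lam (F : Facts P Ω) {z : Ω} (hz : z < F.w1) : Bdd P z F.lam := by
  obtain ⟨f, h₁, h₂, h₃⟩ := F.cof_lam
  have : ∀ x, ∃ j < F.w1, x < F.lam → x ≤ f j := fun x => by
    by_cases hx : x < F.lam
    · obtain ⟨j, hj, h⟩ := h₃ x hx
      exact ⟨j, hj, fun _ => h⟩
    · exact ⟨z, hz, fun h => absurd h hx⟩
  choose φ hφ hφ' using this
  intro h hh p
  obtain ⟨q, hq, b, hb, H⟩ := F.bdd_w1 z hz (fun i => mapNm φ (h i))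
    (by rintro i - p _ ⟨x, -, rfl⟩; exact hφ x) p
  obtain ⟨c, hc, hc', -⟩ := F.cards _ (h₁ b hb)
  refine ⟨q, hq, c, hc', fun i hi r hr x hx => ?_⟩
  have := H i hi r hr (φ x) ⟨x, hx, rfl⟩
  exact ((hφ' x (hh i hi r x hx)).trans (h₂ _ _ this.le hb)).trans_lt hc

omit [OrderTop P] [WellFoundedLT Ω] in
theorem cofN_lam (F : Facts P Ω) : CofN P F.w1 F.lam := by
  obtain ⟨f, h₁, -, h₃⟩ := F.cof_lam
  refine ⟨fun i => constNm (f i), fun i hi p x hx => ?_, fun b hb p => ?_⟩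
  · obtain rfl : x = f i := hx
    exact h₁ i hi
  · obtain ⟨i, hi, h⟩ := h₃ b hb
    exact ⟨p, le_rfl, i, hi, f i, h, rfl⟩

theorem isCard_lam (F : Facts P Ω) (h₂ : oN F.lam ∈ g.N) : IsCard g.E (g.v (oN F.lam)) := by
  refine ⟨isOrd_o h₂, fun a ha => ?_⟩
  obtain ⟨x, hx, hxN, rfl⟩ := (E_o h₂).1 ha
  obtain ⟨c, hxc, hc, H⟩ := F.cards x hx
  refine dens (Ψ := fun _ E w => ¬ ∃ f, IsInj E f (w 0) (w 1)) (UDef.ex (UDef.isInj _ _ _)).not
    (l2 h₂ hxN) fun p _ => ⟨p, le_rfl, {oN c}, countable_singleton _, fun g' _ hC hl => ?_⟩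
  have hcN : oN c ∈ g'.N := hC rfl
  have hl' : oN F.lam ∈ g'.N := hl _ (by simp)
  have hx' : oN x ∈ g'.N := hl _ (by simp)
  rintro ⟨f, hf : IsInj g'.E f (g'.v (oN F.lam)) (g'.v (oN x))⟩
  exact not_cofMap (H x hxc) g' hx' hcN (cofMap_of_inj hf ((o_lt hx' hcN).2 hxc)
    fun a ha => (isOrd_o hl').1 _ _ ((o_lt hcN hl').2 hc) ha)

theorem isCard_k (F : Facts P Ω) (h₃ : sN (univ : Set Ω) ∈ g.N) :
    IsCard g.E (g.v (sN (univ : Set Ω))) := by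
  refine ⟨isOrd_k h₃, fun a ha ⟨f, hf⟩ => ?_⟩
  obtain ⟨x, -, hxN, rfl⟩ := (E_sN h₃).1 ha
  exact not_cofMap_top (bddTop F x) g hxN h₃ (cofMap_of_inj hf ha fun _ h => h)

theorem exists_inj (F : Facts P Ω) {y : Ω} (hy : oN y ∈ g.N) (h₂ : oN F.lam ∈ g.N) :
    ∃ f, IsInj g.E f (g.v (oN y)) (g.v (oN F.lam)) := by
  obtain ⟨e, he⟩ := exists_emb F y
  let τ : Name P := relN (fun z : Iio y => oN z.1) (fun z => oN (e z).1) (fun _ => ⊤)
  refine dens (Ψ := fun _ E w => ∃ f, IsInj E f (w 0) (w 1)) (UDef.ex (UDef.isInj _ _ _))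
    (l2 hy h₂) fun p _ => ⟨p, le_rfl, {τ}, countable_singleton _, fun g' _ hC hl => ?_⟩
  have hτ : τ ∈ g'.N := hC rfl
  have hy' : oN y ∈ g'.N := hl _ (by simp)
  have hl' : oN F.lam ∈ g'.N := hl _ (by simp)
  refine ⟨g'.v τ, ⟨fun p hp => ?_, fun a ha => ?_⟩, fun a a' b h₁ h₂ => ?_⟩
  · obtain ⟨z, -, h₁, h₂, rfl⟩ := (E_relN hτ).1 hp
    exact ⟨_, _, (o_lt h₁ hy').2 z.2, (o_lt h₂ hl').2 (e z).2, isPair_pr _ _⟩
  · obtain ⟨z, hz, hzN, rfl⟩ := (E_o hy').1 ha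
    have : ∃ b, App g'.E (g'.v τ) (g'.v (oN z)) b := by
      refine dens (Ψ := fun _ E w => ∃ b, App E (w 0) (w 1) b) (UDef.ex (UDef.app _ _ _))
        (l2 hτ hzN) fun p _ => ⟨p, le_rfl, {oN (e ⟨z, hz⟩).1}, countable_singleton _,
          fun g'' _ hC hl => ?_⟩
      exact ⟨_, (app_relN (show τ ∈ g''.N from hl _ (by simp))).2
        ⟨⟨z, hz⟩, g''.top, hl _ (by simp), hC rfl, rfl, rfl⟩⟩
    obtain ⟨b, hb⟩ := this
    refine ⟨b, hb, fun b' hb' => ?_⟩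
    obtain ⟨i, -, hi, -, e₁, rfl⟩ := (app_relN hτ).1 hb
    obtain ⟨i', -, hi', -, e₂, rfl⟩ := (app_relN hτ).1 hb'
    rw [show i = i' from Subtype.ext (o_inj hi hi' (e₁.symm.trans e₂))]
  · obtain ⟨z, -, -, hz, rfl, rfl⟩ := (app_relN hτ).1 h₁
    obtain ⟨z', -, -, hz', rfl, e₂⟩ := (app_relN hτ).1 h₂
    rw [he (Subtype.ext (o_inj hz hz' e₂))]

theorem noMax_k (F : Facts P Ω) (h₃ : sN (univ : Set Ω) ∈ g.N) {a : g.M}
    (ha : g.E a (g.v (sN (univ : Set Ω)))) : ∃ b, g.E b (g.v (sN (univ : Set Ω))) ∧ g.E a b := by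
  obtain ⟨x, -, hxN, rfl⟩ := (E_sN h₃).1 ha
  obtain ⟨y, hy⟩ := exists_gt F x
  refine dens (Ψ := fun _ E w => ∃ b, E b (w 0) ∧ E (w 1) b)
    (UDef.ex ((UDef.mem _ _).and (UDef.mem _ _))) (l2 h₃ hxN)
    fun p _ => ⟨p, le_rfl, {oN y}, countable_singleton _, fun g' _ hC hl => ?_⟩
  have hyN : oN y ∈ g'.N := hC rfl
  exact ⟨g'.v (oN y), (o_mem_sN hyN (hl _ (by simp))).2 trivial,
    (o_lt (hl _ (by simp)) hyN).2 hy⟩

omit [WellFoundedLT Ω] in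
theorem exists_lt_S (F : Facts P Ω) {β d : Ω} (hβ : β < F.w1) (hd : d ∈ F.S β) : ∃ x, x < d := by
  obtain ⟨⟨h, h₁, -⟩, -⟩ := F.cofS β hβ d hd
  obtain ⟨q, -, x, hx⟩ := (h F.w1).dense ⊤
  exact ⟨x, h₁ _ (F.w1_mu β hβ) q x hx⟩

end S3

open S3 Gen

theorem frame (F : Facts P Ω) (g : Gen P) (h₁ : oN F.w1 ∈ g.N) (h₂ : oN F.lam ∈ g.N)
    (h₃ : sN (univ : Set Ω) ∈ g.N) :
    IsOmega g.E g.om ∧ IsCard g.E (g.v (oN F.lam)) ∧
      IsCof g.E (g.v (oN F.lam)) (g.v (oN F.w1)) ∧ g.E g.om (g.v (oN F.w1)) ∧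
      g.E (g.v (oN F.w1)) (g.v (oN F.lam)) ∧
      IsSucc g.E (g.v (oN F.lam)) (g.v (sN (univ : Set Ω))) := by
  refine ⟨isOmega_om, isCard_lam F h₂, ⟨isOrd_o h₁, cofMap (cofN_lam F) g h₁ h₂, fun n hn => ?_⟩,
    om_mem F.w1_unc h₁, (o_lt h₁ h₂).2 F.w1_lt, isCard_k F h₃, (o_mem_sN h₂ h₃).2 trivial,
    fun m hm hlm hmk => ?_⟩
  · obtain ⟨z, hz, hzN, rfl⟩ := (E_o h₁).1 hn
    exact not_cofMap (bdd_lam F hz) g hzN h₂
  · obtain ⟨y, -, hyN, rfl⟩ := (E_sN h₃).1 hmk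
    exact hm.2 _ hlm (exists_inj F hyN h₂)

theorem isStat_S (F : Facts P Ω) {β : Ω} (hβ : β < F.w1) (g : Gen P)
    (h₃ : sN (univ : Set Ω) ∈ g.N) (h₅ : sN (F.S β) ∈ g.N) :
    IsStat g.E (g.v (sN (F.S β))) (g.v (sN (univ : Set Ω))) := by
  refine ⟨fun d hd => ?_, fun C hC => ?_⟩
  · obtain ⟨y, -, hyN, rfl⟩ := (E_sN h₅).1 hd
    exact (o_mem_sN hyN h₃).2 trivial
  obtain ⟨f, hf, hf'⟩ := exists_fun (A := g.v (sN (univ : Set Ω))) (B := g.v (sN (univ : Set Ω)))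
    (Q := fun a b => g.E b C ∧ g.E a b) (by fun_prop) fun a ha => by
      obtain ⟨b, hb, hab⟩ := noMax_k F h₃ ha
      obtain ⟨c, hc, h | rfl⟩ := hC.1.2 b hb
      · exact ⟨c, hC.1.1 c hc, hc, E_trans (isOrd_k h₃) (hC.1.1 c hc) hab h⟩
      · exact ⟨b, hb, hc, hab⟩
  obtain ⟨σ, hσ, rfl⟩ := exists_v f
  obtain ⟨τ, hτ, rfl⟩ := exists_v C
  obtain ⟨p₀, hp₀, H₀⟩ := transfer (UDef.isFun 0 1 1) (l2 hσ h₃) hf
  refine dens (Ψ := fun _ E w => IsFun E (w 0) (w 2) (w 2) →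
      (∀ a b, App E (w 0) a b → E b (w 1) ∧ E a b) → IsClub E (w 1) (w 2) →
      ∃ d, E d (w 3) ∧ E d (w 1))
    ((UDef.isFun _ _ _).imp ((UDef.all (UDef.all ((UDef.app _ _ _).imp
      ((UDef.mem _ _).and (UDef.mem _ _))))).imp ((UD3.isClub _ _).imp
      (UDef.ex ((UDef.mem _ _).and (UDef.mem _ _))))))
    (l4 hσ hτ h₃ h₅) (fun p hp => ?_) hf hf' hC
  obtain ⟨p', -, hp₁, hp₂⟩ := g.dir hp hp₀
  obtain ⟨r, hr, d, hd, H⟩ := exists_closure_pt F hβ σ p' fun g' hg' hσ' hk' =>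
    H₀ g' (g'.up hg' hp₂) (l2 hσ' hk')
  obtain ⟨x₀, hx₀⟩ := exists_lt_S F hβ hd
  refine ⟨r, hr.trans hp₁, {oN d, oN x₀}, (toFinite _).countable, fun g' hr' hC' hl => ?_⟩
  have hdN : oN d ∈ g'.N := hC' (by simp)
  have hxN : oN x₀ ∈ g'.N := hC' (by simp)
  have hσ' : σ ∈ g'.N := hl _ (by simp)
  have hk' : sN (univ : Set Ω) ∈ g'.N := hl _ (by simp)
  have hS' : sN (F.S β) ∈ g'.N := hl _ (by simp)
  intro (a₁ : IsFun g'.E (g'.v σ) (g'.v (sN (univ : Set Ω))) (g'.v (sN (univ : Set Ω))))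
    (a₂ : ∀ a b, App g'.E (g'.v σ) a b → g'.E b (g'.v τ) ∧ g'.E a b)
    (a₃ : IsClub g'.E (g'.v τ) (g'.v (sN (univ : Set Ω))))
  have hdk : g'.E (g'.v (oN d)) (g'.v (sN (univ : Set Ω))) := (o_mem_sN hdN hk').2 trivial
  refine ⟨g'.v (oN d), (o_mem_sN hdN hS').2 hd,
    a₃.2 _ hdk ⟨_, (o_lt hxN hdN).2 hx₀⟩ fun x hx => ?_⟩
  obtain ⟨b, -, hb⟩ := fun_ex a₁ ((isOrd_k hk').1 _ _ hdk hx)
  exact ⟨b, (a₂ _ _ hb).1, (a₂ _ _ hb).2, H g' hr' hσ' hk' hdN x b hx hb⟩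

theorem sem_main (F : Facts P Ω) : Concl.{u} := by
  obtain ⟨g, -, hg⟩ := exists_gen (⊤ : P) {oN F.w1, oN F.lam, sN (univ : Set Ω)}
    (toFinite _).countable
  have h₁ : oN F.w1 ∈ g.N := hg (by simp)
  have h₂ : oN F.lam ∈ g.N := hg (by simp)
  have h₃ : sN (univ : Set Ω) ∈ g.N := hg (by simp)
  obtain ⟨a₁, a₂, a₃, a₄, a₅, a₆⟩ := frame F g h₁ h₂ h₃
  refine ⟨g.M, g.E, E_wf, g.isZFC, _, _, _, _, a₁, a₂, a₃, a₄, a₅, a₆, fun m _ hm htm hml => ?_⟩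
  obtain ⟨x, hx, hxN, rfl⟩ := (E_o h₂).1 hml
  rcases F.sing x ((o_lt h₁ hxN).1 htm) hx with ⟨β, hβ, rfl⟩ | ⟨z, hz, H⟩
  · refine dens (Ψ := fun _ E w => ∃ S, (∀ d, E d S → IsCof E d (w 0)) ∧ IsStat E S (w 1) ∧
        ¬ InI E (w 1) S)
      (UDef.ex ((UDef.all ((UDef.mem _ _).imp (UD3.isCof _ _))).and
        ((UD3.isStat _ _).and (UD3.inI _ _).not))) (l2 hxN h₃)
      fun p _ => ⟨p, le_rfl, {sN (F.S β), oN F.w1, oN F.lam}, (toFinite _).countable,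
        fun g' _ hC hl => ?_⟩
    have b₁ : oN F.w1 ∈ g'.N := hC (by simp)
    have b₂ : oN F.lam ∈ g'.N := hC (by simp)
    have b₃ : sN (univ : Set Ω) ∈ g'.N := hl _ (by simp)
    have b₄ : oN (F.mu β) ∈ g'.N := hl _ (by simp)
    have b₅ : sN (F.S β) ∈ g'.N := hC (by simp)
    refine ⟨g'.v (sN (F.S β)), fun d hd => ?_, isStat_S F hβ g' b₃ b₅,
      not_inI F hβ g' b₁ b₂ b₃ b₄ b₅⟩
    obtain ⟨y, hy, hyN, rfl⟩ := (E_sN b₅).1 hd
    exact isCof_S F hβ hy g' hyN b₄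
  · exfalso
    have : ∃ n, g.E n (g.v (oN x)) ∧ CofMap g.E n (g.v (oN x)) := by
      refine dens (Ψ := fun _ E w => ∃ n, E n (w 0) ∧ CofMap E n (w 0))
        (UDef.ex ((UDef.mem _ _).and (UD3.cofMap _ _))) (l1 hxN)
        fun p _ => ⟨p, le_rfl, {oN z}, countable_singleton _, fun g' _ hC hl => ?_⟩
      have hzN : oN z ∈ g'.N := hC rfl
      have hx' : oN x ∈ g'.N := hl _ (by simp)
      exact ⟨_, (o_lt hzN hx').2 hz, cofMap H g' hzN hx'⟩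
    obtain ⟨n, hn, h⟩ := this
    exact hm.2.2 n hn h

end Pool.Agent.MP_a2558b_lc
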