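import Pool.Agent.MP_a2558b_lc.Good
import Pool.Agent.MP_a2558b_lc.Chain
import Pool.Agent.MP_a2558b_lc.Bound
import Pool.Agent.MP_a2558b_lc.Ctx
import Pool.Agent.MP_a2558b_lc.Sem3

namespace Pool.Agent.MP_a2558b_lc

open Cardinal hiding univ
open Set Base

universe u

/-- A preorder on a subset of a type. -/
structure SubPO (Q : Type u) where
  L : Set Q
  R : Q → Q → Prop
  hr : ∀ p ∈ L, R p p
  ht : ∀ p ∈ L, ∀ q ∈ L, ∀ r ∈ L, R r q → R q p → R r p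

namespace SubPO

variable {Q Z : Type u} (F : SubPO Q)

/-- The carrier of the preorder. -/
def Car : Type u := {q // q ∈ F.L}

instance : Preorder F.Car where
  le a b := F.R a.1 b.1
  le_refl a := F.hr a.1 a.2
  le_trans a b c h₁ h₂ := F.ht c.1 c.2 b.1 b.2 a.1 a.2 h₁ h₂

/-- An element of the carrier. -/
def mk' (q : Q) (h : q ∈ F.L) : F.Car := ⟨q, h⟩

variable {F}

/-- The regularization of a name. -/
def reg (n : Nm F.Car Z) (q : Q) (x : Z) : Prop :=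
  ∀ q' ∈ F.L, F.R q' q → ∃ r : F.Car, F.R r.1 q' ∧ n.dec r x

theorem reg_of_dec {n : Nm F.Car Z} {p : F.Car} {x : Z} (h : n.dec p x) : reg n p.1 x :=
  fun q' hq' h' => ⟨F.mk' q' hq', F.hr q' hq', n.mono (p := p) (q := F.mk' q' hq') h' h⟩

theorem isNm_reg (n : Nm F.Car Z) : IsNm F.L F.R (reg n) := by
  refine ⟨?_, ?_, ?_, ?_⟩
  · exact fun p hp q hq h x H q' hq' h' => H q' hq' (F.ht _ hp _ hq _ hq' h' h)
  · intro p hp
    obtain ⟨q, hq, x, hx⟩ := n.dense (F.mk' p hp)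
    exact ⟨q.1, q.2, hq, x, reg_of_dec hx⟩
  · intro p hp x y hx hy
    obtain ⟨q, h, hx⟩ := hx p hp (F.hr p hp)
    obtain ⟨r, h', hy⟩ := hy q.1 q.2 h
    exact n.func (n.mono (p := q) (q := r) h' hx) hy
  · intro p hp x H q hq h
    obtain ⟨r, hr', h', H'⟩ := H q hq h
    obtain ⟨s, h'', H''⟩ := H' r hr' (F.hr r hr')
    exact ⟨s, F.ht _ hq _ hr' _ s.2 h'' h', H''⟩

theorem reg_elim {n : Nm F.Car Z} {q : Q} (hq : q ∈ F.L) {x : Z} (h : reg n q x) :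
    ∃ r, n.dec r x := by
  obtain ⟨r, -, h⟩ := h q hq (F.hr q hq)
  exact ⟨r, h⟩

/-- The image of a regular decision relation under a map, as a name. -/
def img {dec : Q → Z → Prop} (h : IsNm F.L F.R dec) (f : Z → Z) : Nm F.Car Z where
  dec p y := ∃ x, dec p.1 x ∧ y = f x
  mono := by
    rintro p q y hqp ⟨x, hx, rfl⟩
    exact ⟨x, h.mono p.1 p.2 q.1 q.2 hqp x hx, rfl⟩
  dense p := by
    obtain ⟨q, hq, h', x, hx⟩ := h.dense p.1 p.2
    exact ⟨F.mk' q hq, h', f x, x, hx, rfl⟩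
  func := by
    rintro p y y' ⟨x, hx, rfl⟩ ⟨x', hx', rfl⟩
    rw [h.func p.1 p.2 x x' hx hx']

variable [LinearOrder Z]

theorem bdd_of {z c : Z} (H : ∀ dec : Iio z → Q → Z → Prop, (∀ i, IsNm F.L F.R (dec i)) →
    (∀ i x, ∀ q ∈ F.L, dec i q x → x < c) → ∀ p ∈ F.L, ∃ q ∈ F.L, F.R q p ∧ ∃ b < c,
      ∀ i x, ∀ r ∈ F.L, F.R r q → dec i r x → x < b) : Bdd F.Car z c := by
  intro h hh p
  obtain ⟨q, hq, h₁, b, hb, h₂⟩ := H (fun i => reg (h i)) (fun i => isNm_reg _)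
    (fun i x q hq hx => by
      obtain ⟨r, hr⟩ := reg_elim hq hx
      exact hh i i.2 r x hr) p.1 p.2
  exact ⟨F.mk' q hq, h₁, b, hb, fun i hi r hr x hx => h₂ ⟨i, hi⟩ x r.1 r.2 hr (reg_of_dec hx)⟩

end SubPO

/-- The constant name. -/
def constNm (P : Type u) [Preorder P] {Z : Type u} (a : Z) : Nm P Z where
  dec _ y := y = a
  mono _ h := h
  dense p := ⟨p, le_rfl, a, rfl⟩
  func h h' := h.trans h'.symm

variable {Θ Ω : Type u} [LinearOrder Θ] [WellFoundedLT Θ] [LinearOrder Ω] [WellFoundedLT Ω]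
  [Inhabited Ω] {X : Ctx Θ Ω} {D : Sys (JJ Θ) Ω} {β : Θ} {k : Θ → Cardinal.{u}}

/-- The system formed from the earlier levels. -/
noncomputable def preSys (β : Θ) (prev : ∀ γ, γ < β → WithTop Θ → Crd Ω Ω (Cnd (JJ Θ) Ω)) :
    Sys (JJ Θ) Ω := fun j =>
  if h : (ofLex j).1 < β then prev _ h (ofLex j).2 else triv ∅ default

open Classical in
/-- One step of the recursion. -/
noncomputable def stepSys (X : Ctx Θ Ω) (β : Θ)
    (prev : ∀ γ, γ < β → WithTop Θ → Crd Ω Ω (Cnd (JJ Θ) Ω)) :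
    WithTop Θ → Crd Ω Ω (Cnd (JJ Θ) Ω) := fun i =>
  if h : Valid X (preSys β prev) (Iio β) then (exists_good h).choose (toLex (β, i))
  else triv ∅ default

theorem exists_system (X : Ctx Θ Ω) :
    ∃ D : Sys (JJ Θ) Ω, Valid X D univ ∧ ∀ β, Stat X D β := by
  classical
  let L : Θ → WithTop Θ → Crd Ω Ω (Cnd (JJ Θ) Ω) :=
    (wellFounded_lt (α := Θ)).fix (stepSys X)
  have hL : ∀ β, L β = stepSys X β fun γ _ => L γ := fun β => WellFounded.fix_eq _ _ _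
  let D : Sys (JJ Θ) Ω := fun j => L (ofLex j).1 (ofLex j).2
  have key : ∀ β, (∀ γ < β, ∃ k, LevelOK X D γ k) →
      (∃ k, LevelOK X D β k) ∧ (Valid X D univ → Stat X D β) := by
    intro β ih
    have h0 : ∀ j ∈ lev (Iio β), D j = preSys β (fun γ _ => L γ) j := fun j hj => by
      rw [preSys, dif_pos (show (ofLex j).1 < β from hj)]
    have hV : Valid X (preSys β fun γ _ => L γ) (Iio β) := by
      intro γ hγ
      obtain ⟨k, hk⟩ := ih γ hγ
      exact ⟨k, LevelOK_congr (fun j hj => h0 j (levIic_sub_levIio hγ hj)) hk⟩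
    obtain ⟨h₁, ⟨k, h₂⟩, h₃⟩ := (exists_good hV).choose_spec
    have h : ∀ j ∈ lev (Iic β), D j = (exists_good hV).choose j := by
      intro j hj
      rcases (show (ofLex j).1 ≤ β from hj).eq_or_lt with e | e
      · show L (ofLex j).1 (ofLex j).2 = _
        have e' : toLex (β, (ofLex j).2) = j := by rw [← e]; rfl
        rw [e, hL β, stepSys, dif_pos hV, e']
      · rw [h₁ j e, h0 j e]
    exact ⟨⟨k, LevelOK_congr (fun j hj => (h j hj).symm) h₂⟩, h₃ D h⟩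
  have hV : ∀ β, ∃ k, LevelOK X D β k := by
    intro β
    induction β using WellFoundedLT.induction with
    | _ β ih => exact (key β ih).1
  exact ⟨D, fun β _ => hV β, fun β => (key β fun γ _ => hV γ).2 fun γ _ => hV γ⟩

/-- The forcing order of a valid system. -/
def sysPO (hV : Valid X D univ) : SubPO (Cnd (JJ Θ) Ω) where
  L := Low D univ
  R := Le D univ
  hr := refl_on isLowerSet_univ (basicOn_univ hV)
  ht := trans_on isLowerSet_univ (basicOn_univ hV)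

theorem cofN_of (hV : Valid X D univ) (β : Θ) {B : Set Ω} {d : Ω} (h₁ : B ⊆ Iio d)
    (h₂ : B.Nonempty) (h₃ : ∀ a < d, ∃ b ∈ B, a ≤ b) (h₄ : #B ≤ X.κ β) :
    CofN (sysPO hV).Car (X.mu β) d := by
  classical
  obtain ⟨x0, hx0⟩ := h₂
  rw [← X.mk_kap β] at h₄
  obtain ⟨e⟩ := (Cardinal.le_def _ _).1 h₄
  obtain ⟨f, hf₁, hf₂⟩ : ∃ f : Ω → Ω, (∀ ξ, f ξ ∈ B) ∧ ∀ b ∈ B, ∃ ξ < X.kap β, f ξ = b := by
    refine ⟨fun ξ => if h : ∃ b : B, (e b).1 = ξ then h.choose.1 else x0, fun ξ => ?_,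
      fun b hb => ⟨(e ⟨b, hb⟩).1, (e ⟨b, hb⟩).2, ?_⟩⟩
    · by_cases h : ∃ b : B, (e b).1 = ξ
      · simp only [dif_pos h]; exact h.choose.2
      · simp only [dif_neg h]; exact hx0
    · have h : ∃ b' : B, (e b').1 = (e ⟨b, hb⟩).1 := ⟨_, rfl⟩
      simp only [dif_pos h]
      rw [e.injective (Subtype.ext h.choose_spec)]
  obtain ⟨g, hg₁, hg₂⟩ := col_names hV β
  refine ⟨fun i => if h : i < X.mu β then SubPO.img (F := sysPO hV) (hg₁ i h) f
    else constNm _ x0, fun i hi p x hx => ?_, fun b hb p => ?_⟩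
  · simp only [dif_pos hi] at hx
    obtain ⟨y, -, rfl⟩ := hx
    exact h₁ (hf₁ y)
  · obtain ⟨a, ha, hba⟩ := h₃ b hb
    obtain ⟨ξ, hξ, rfl⟩ := hf₂ a ha
    obtain ⟨q, hq, h, i, hi, hg⟩ := hg₂ ξ hξ p.1 p.2
    refine ⟨(sysPO hV).mk' q hq, h, i, hi, f ξ, hba, ?_⟩
    simp only [dif_pos hi]
    exact ⟨ξ, hg, rfl⟩

theorem exists_facts (hV : Valid X D univ) (hS : ∀ β, Stat X D β) :
    ∃ (P : Type u) (_ : Preorder P) (_ : OrderTop P), Nonempty (Facts P Ω) := by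
  classical
  have hu := X.unc
  have hB := basicOn_univ hV
  let inv : Ω → Θ := Function.invFun X.th
  have inv_th : ∀ β, inv (X.th β) = β := Function.leftInverse_invFun X.th_mono.injective
  have th_lt : ∀ β, X.th β < X.w1 := fun β => by
    have : X.th β ∈ range X.th := ⟨β, rfl⟩
    rwa [X.th_range] at this
  have ex_th : ∀ b < X.w1, ∃ β, X.th β = b := fun b hb => by
    have : b ∈ Iio X.w1 := hb
    rwa [← X.th_range] at this
  have inv_mono : ∀ i j, i ≤ j → j < X.w1 → inv i ≤ inv j := by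
    intro i j hij hj
    obtain ⟨a, rfl⟩ := ex_th i (hij.trans_lt hj)
    obtain ⟨b, rfl⟩ := ex_th j hj
    rw [inv_th, inv_th]
    exact X.th_mono.le_iff_le.1 hij
  have w1_ct : ∀ x < X.w1, (Iio x).Countable := by
    intro x hx
    obtain ⟨a, rfl⟩ := ex_th x hx
    refine ((X.ct a).image X.th).mono fun y hy => ?_
    obtain ⟨b, rfl⟩ := ex_th y (lt_trans hy hx)
    exact ⟨b, X.th_mono.lt_iff_lt.1 hy, rfl⟩
  refine ⟨(sysPO hV).Car, inferInstance,
    { top := (sysPO hV).mk' ctop (ctop_mem hB)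
      le_top := fun a => le_ctop isLowerSet_univ hB a.2 }, ⟨?_⟩⟩
  refine
    { w1 := X.w1
      lam := X.lam
      mu := fun b => X.mu (inv b)
      S := fun b => SS X D (inv b)
      D := fun m => X.Dr (inv m)
      w1_unc := ?_
      w1_ct := w1_ct
      w1_lt := ?_
      small := fun x => X.mk_lam ▸ X.small x
      bdd_w1 := ?_
      cards := ?_
      bdd_top := ?_
      cof_lam := ?_
      sing := ?_
      w1_mu := fun b _ => X.w1_mu _
      cofS := ?_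
      D_lt := fun m => X.Dr_lt _
      D_trans := fun m => X.Dr_trans _
      D_mono := fun m m' a b h h' => X.Dr_mono _ _ a b (inv_mono m m' h h')
      D_total := ?_
      stat := ?_
      few := ?_
      nochain := ?_ }
  · rw [← X.th_range]
    intro h
    exact Set.not_countable_univ (α := Θ)
      ((h.preimage_of_injOn X.th_mono.injective.injOn).mono fun x _ => mem_range_self (f := X.th) x)
  · obtain ⟨β⟩ : Nonempty Θ := inferInstance
    exact (X.w1_mu β).trans ((X.mu_kap β).trans (X.kap_lam β))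
  · intro z hz
    have := (w1_ct z hz).to_subtype
    exact SubPO.bdd_of fun dec hn hlt p hp => bdd_w1 hV dec hn hlt hp
  · intro x hx
    obtain ⟨β, hβ⟩ := X.lam_cof x hx
    obtain ⟨γ, hγ, hmin⟩ := (wellFounded_lt (α := Θ)).has_min {γ | β < γ} (X.exists_gt β)
    refine ⟨X.mu γ, hβ.trans (X.kap_mu _ _ hγ), (X.mu_kap γ).trans (X.kap_lam γ), fun z hz => ?_⟩
    exact SubPO.bdd_of fun dec hn hlt p hp =>
      bdd_succ hV hγ (fun δ hδ => not_lt.1 (hmin δ hδ)) (X.mu_init γ z hz) dec hn hlt hp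
  · intro h p
    obtain ⟨q, hq, h₁, b, h₂⟩ := bdd_top hV (fun i => SubPO.reg (h i))
      (fun i => SubPO.isNm_reg (F := sysPO hV) _) p.2
    exact ⟨(sysPO hV).mk' q hq, h₁, b, fun i hi r hr x hx =>
      h₂ i hi x r.1 r.2 hr (SubPO.reg_of_dec hx)⟩
  · refine ⟨fun i => X.kap (inv i), fun i _ => X.kap_lam _,
      fun i j h h' => X.kap_mono (inv_mono i j h h'), fun b hb => ?_⟩
    obtain ⟨β, hβ⟩ := X.lam_cof b hb
    exact ⟨X.th β, th_lt β, by simp only [inv_th]; exact hβ.le⟩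
  · intro x h₁ h₂
    rcases X.sing x h₁ h₂ with ⟨β, h⟩ | ⟨z, hz, f, hf₁, hf₂⟩ | ⟨β, h₃, h₄⟩
    · exact Or.inl ⟨X.th β, th_lt β, by rw [inv_th]; exact h⟩
    · refine Or.inr ⟨z, hz, fun i => constNm _ (f i), fun i hi p y hy => ?_, fun b hb p => ?_⟩
      · rw [show y = f i from hy]; exact hf₁ i hi
      · obtain ⟨i, hi, h⟩ := hf₂ b hb
        exact ⟨p, le_rfl, i, hi, f i, h, rfl⟩
    · exact Or.inr ⟨X.mu β, h₃, cofN_of hV β Subset.rfl ⟨_, h₃⟩ (fun a ha => ⟨a, ha, le_rfl⟩) h₄⟩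
  · rintro b - d ⟨k, B, hk, hP⟩
    refine ⟨cofN_of hV _ hP.sub hP.ne (fun a ha => ?_) hP.size, fun z hz => ?_⟩
    · obtain ⟨c, hc, h⟩ := hP.cof a ha
      exact ⟨c, hc, h.le⟩
    · exact SubPO.bdd_of fun dec hn hlt p hp =>
        bdd_S hV hk hP (X.mu_init _ z hz) dec hn hlt hp
  · intro a b h
    obtain ⟨m, hm⟩ := X.Dr_total a b h
    exact ⟨X.th m, th_lt m, by rw [inv_th]; exact hm⟩
  · intro b _ h p
    obtain ⟨r, hr, h₁, d, hd, h₂⟩ := hS (inv b) (fun a => SubPO.reg (h a))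
      (fun a => SubPO.isNm_reg (F := sysPO hV) _) p.1 p.2
    exact ⟨(sysPO hV).mk' r hr, h₁, d, hd, fun a ha r' hr' x hx =>
      h₂ a ha r'.1 r'.2 hr' x (SubPO.reg_of_dec hx)⟩
  · intro b _
    obtain ⟨O, hO, H⟩ := few hV (inv b)
    refine ⟨fun w i => {s | s.1 ∈ O w i}, fun N p h₁ h₂ => ?_⟩
    obtain ⟨q, hq, hqp, w, hw, H'⟩ := H (fun i => {q | ∃ h, (sysPO hV).mk' q h ∈ N i})
      (by
        rintro i q hq q' hq' h ⟨_, hN⟩
        exact ⟨hq', h₁ i (a := (sysPO hV).mk' q hq) (b := (sysPO hV).mk' q' hq') h hN⟩)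
      (by
        intro i r hr h
        refine ⟨hr, h₂ i _ fun r' hr' => ?_⟩
        obtain ⟨r'', hr'', h', _, hN⟩ := h r'.1 r'.2 hr'
        exact ⟨(sysPO hV).mk' r'' hr'', h', hN⟩) p.1 p.2
    refine ⟨(sysPO hV).mk' q hq, hqp, w, hw, fun i hi r hr => ?_⟩
    have := H' i hi r.1 r.2 hr
    constructor
    · intro hN r' hr'
      obtain ⟨r'', hr'', h', s, hs, h''⟩ := this.1 ⟨r.2, hN⟩ r'.1 r'.2 hr'
      exact ⟨(sysPO hV).mk' r'' hr'', h', (sysPO hV).mk' s (hO w i hs), hs, h''⟩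
    · intro h
      obtain ⟨_, hN⟩ := this.2 fun r' hr' h' => by
        obtain ⟨r'', h₃, s, hs, h₄⟩ := h ((sysPO hV).mk' r' hr') h'
        exact ⟨r''.1, r''.2, h₃, s.1, hs, h₄⟩
      exact hN
  · rintro b - d ⟨k, B, hk, hP⟩
    refine ⟨B, hP.sub, hP.cof, fun m _ H p h₀ h₁ h₂ => ?_⟩
    refine no_chain hV hk hP (inv m) (fun c => {q | ∃ h, (sysPO hV).mk' q h ∈ H c}) ?_ p.2 ?_ ?_
    · rintro c q hq q' hq' h ⟨_, hN⟩
      exact ⟨hq', @h₀ c ((sysPO hV).mk' q hq) ((sysPO hV).mk' q' hq') h hN⟩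
    · intro a ha q hq h
      obtain ⟨r, hr, c, hc, h₃, h₄⟩ := h₁ a ha ((sysPO hV).mk' q hq) h
      exact ⟨r.1, r.2, hr, c, hc, h₃, r.2, h₄⟩
    · intro a ha q hq h
      obtain ⟨r, hr, c, hc, h₃⟩ := h₂ a ha ((sysPO hV).mk' q hq) h
      refine ⟨r.1, r.2, hr, c, hc, ?_⟩
      rintro b' hb' hlt s hs hsr ⟨_, hN⟩
      exact h₃ b' hb' hlt ((sysPO hV).mk' s hs) hsr hN

theorem main (h : ¬ {κ : Cardinal.{u} | Supercompact κ}.Countable) : Concl.{u} := by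
  obtain ⟨Θ, Ω, _, _, _, _, ⟨X⟩⟩ := exists_ctx h
  let _ : Inhabited Ω := ⟨X.w1⟩
  obtain ⟨D, hV, hS⟩ := exists_system X
  obtain ⟨P, _, _, ⟨F⟩⟩ := exists_facts hV hS
  exact sem_main F

end Pool.Agent.MP_a2558b_lc
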