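import Pool.Agent.MP_a2558b_lc.Basic

namespace Pool.Agent.MP_a2558b_lc

open Cardinal hiding univ
open Set Base

universe u

/-- A normal fine measure on the small subsets of `Y`. -/
structure SCM (κ : Cardinal.{u}) (Y : Type u) where
  U : Ultrafilter (Set Y)
  unc : ℵ₀ < κ
  comp : CardinalInterFilter (U : Filter (Set Y)) κ
  small : ∀ᶠ x : Set Y in U, #x < κ
  fine : ∀ y, ∀ᶠ x : Set Y in U, y ∈ x
  normal : ∀ f : Set Y → Y, (∀ᶠ x : Set Y in U, f x ∈ x) → ∃ y, ∀ᶠ x : Set Y in U, f x = y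

theorem Supercompact.scm {κ : Cardinal.{u}} (h : Supercompact κ) (Y : Type u) :
    Nonempty (SCM κ Y) := by
  obtain ⟨U, h₁, h₂, h₃, h₄⟩ := h.2 Y
  exact ⟨⟨U, h.1, h₁, h₂, h₃, h₄⟩⟩

/-- The trace of `A` on `x` along `e`. -/
def cut {α Y : Type u} (e : α → Y) (x : Set Y) (A : Set α) : Set α := {a | a ∈ A ∧ e a ∈ x}

namespace SCM

variable {κ : Cardinal.{u}} {Y α γ : Type u} (S : SCM κ Y)

theorem all {ι : Type u} (hι : #ι < κ) {Φ : ι → Set Y → Prop}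
    (h : ∀ i, ∀ᶠ x in (S.U : Filter (Set Y)), Φ i x) :
    ∀ᶠ x in (S.U : Filter (Set Y)), ∀ i, Φ i x := by
  haveI := S.comp
  exact (Filter.eventually_cardinal_forall hι).2 h

theorem const {Z : Type u} (hZ : #Z < κ) (f : Set Y → Z) :
    ∃ z, ∀ᶠ x in (S.U : Filter (Set Y)), f x = z := by
  by_contra H
  obtain ⟨x, hx⟩ := (S.all hZ fun z => Ultrafilter.eventually_not.2 (not_exists.1 H z)).exists
  exact hx _ rfl

theorem const_in {e : α → Y} (he : Function.Injective e) (f : Set Y → α)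
    (h : ∀ᶠ x in (S.U : Filter (Set Y)), e (f x) ∈ x) :
    ∃ a, ∀ᶠ x in (S.U : Filter (Set Y)), f x = a := by
  obtain ⟨y, hy⟩ := S.normal (fun x => e (f x)) h
  obtain ⟨x₀, rfl⟩ := hy.exists
  exact ⟨f x₀, hy.mono fun x hx => he hx⟩

theorem diag {e : α → Y} (he : Function.Injective e) {Φ : α → Set Y → Prop}
    (h : ∀ a, ∀ᶠ x in (S.U : Filter (Set Y)), Φ a x) :
    ∀ᶠ x in (S.U : Filter (Set Y)), ∀ a, e a ∈ x → Φ a x := by
  by_contra H
  have H' := (Ultrafilter.eventually_not.2 H).mono fun x hx => by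
    push Not at hx
    exact hx
  obtain ⟨f, hf⟩ := H'.choice
  obtain ⟨a, ha⟩ := S.const_in he f (hf.mono fun x hx => hx.1)
  obtain ⟨x, h₁, h₂, h₃⟩ := (hf.and (ha.and (h a))).exists
  exact h₁.2 (h₂ ▸ h₃)

theorem los_set {e : α → Y} (he : Function.Injective e) (b : Set Y → Set α) :
    ∃ b0 : Set α, ∀ᶠ x in (S.U : Filter (Set Y)), ∀ a, e a ∈ x → (a ∈ b x ↔ a ∈ b0) := by
  refine ⟨{a | ∀ᶠ x in (S.U : Filter (Set Y)), a ∈ b x}, S.diag he fun a => ?_⟩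
  by_cases h : ∀ᶠ x in (S.U : Filter (Set Y)), a ∈ b x
  · exact h.mono fun x hx => iff_of_true hx h
  · exact (Ultrafilter.eventually_not.2 h).mono fun x hx => iff_of_false hx h

theorem sub_small (e : α → Y) {A : Set α} (hA : #A < κ) :
    ∀ᶠ x in (S.U : Filter (Set Y)), ∀ a ∈ A, e a ∈ x := by
  exact (S.all hA fun a : A => S.fine (e a)).mono fun x hx a ha => hx ⟨a, ha⟩

theorem cut_small {e : α → Y} (he : Function.Injective e) :
    ∀ᶠ x in (S.U : Filter (Set Y)), ∀ A, #(cut e x A) < κ := by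
  refine S.small.mono fun x hx A => lt_of_le_of_lt ?_ hx
  exact mk_le_of_injective (f := fun a : cut e x A => (⟨e a, a.2.2⟩ : x))
    fun a b h => Subtype.ext (he (congrArg Subtype.val h))

theorem card_le {e : α → Y} (he : Function.Injective e) {e' : γ → Y}
    (he' : Function.Injective e') {A : Set α} {A' : Set γ} (h : #A ≤ #A') :
    ∀ᶠ x in (S.U : Filter (Set Y)), #(cut e x A) ≤ #(cut e' x A') := by
  obtain ⟨g⟩ := (le_def _ _).1 h
  refine (S.diag he (Φ := fun a x => ∀ h : a ∈ A, e' (g ⟨a, h⟩) ∈ x) fun a => ?_).mono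
    fun x hx => ?_
  · by_cases h : a ∈ A
    · exact (S.fine (e' (g ⟨a, h⟩))).mono fun x hx _ => hx
    · exact Filter.Eventually.of_forall fun x h' => absurd h' h
  · exact mk_le_of_injective (f := fun a : cut e x A =>
      (⟨g ⟨a, a.2.1⟩, (g ⟨a, a.2.1⟩).2, hx a a.2.2 a.2.1⟩ : cut e' x A'))
      fun a b h => by
        have h₁ : g ⟨a, a.2.1⟩ = g ⟨b, b.2.1⟩ := Subtype.ext (Subtype.mk.inj h)
        exact Subtype.ext (Subtype.mk.inj (g.injective h₁))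

theorem seq {I : Type u} (hI : #I < κ) {e : α → Y} (he : Function.Injective e)
    (e' : (I → α) → Y) :
    ∀ᶠ x in (S.U : Filter (Set Y)), ∀ s : I → α, (∀ i, e (s i) ∈ x) → e' s ∈ x := by
  by_contra H
  have H' := (Ultrafilter.eventually_not.2 H).mono fun x hx => by
    push Not at hx
    exact hx
  obtain ⟨s, hs⟩ := H'.choice
  choose a ha using fun i => S.const_in he (fun x => s x i) (hs.mono fun x hx => hx.1 i)
  obtain ⟨x, h₁, h₂, h₃⟩ := (hs.and ((S.all hI ha).and (S.fine (e' a)))).exists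
  exact h₁.2 ((funext h₂ : s x = a) ▸ h₃)

theorem pow {e : α → Y} (he : Function.Injective e) {A : Set α} (h : #A ^ ℵ₀ ≤ #A) :
    ∀ᶠ x in (S.U : Filter (Set Y)), #(cut e x A) ^ ℵ₀ ≤ #(cut e x A) := by
  have e₁ : ∀ B : Type u, #B ^ ℵ₀ = #(ULift.{u} ℕ → B) := fun B => by simp
  rw [e₁] at h
  obtain ⟨g⟩ := (le_def _ _).1 h
  refine (S.seq (I := ULift.{u} ℕ) (by simpa using S.unc) (e := fun a : A => e a)
    (he.comp Subtype.val_injective) fun s => e (g s)).mono fun x hx => ?_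
  rw [e₁]
  refine mk_le_of_injective (f := fun s : ULift.{u} ℕ → cut e x A =>
    (⟨g fun i => ⟨s i, (s i).2.1⟩, (g _).2, hx _ fun i => (s i).2.2⟩ : cut e x A))
    fun s s' h => funext fun i => Subtype.ext ?_
  have h₁ : g (fun i => ⟨s i, (s i).2.1⟩) = g fun i => ⟨s' i, (s' i).2.1⟩ :=
    Subtype.ext (Subtype.mk.inj h)
  exact Subtype.mk.inj (congrFun (g.injective h₁) i)

theorem bdd [LinearOrder α] {e : α → Y} (he : Function.Injective e) {A : Set α}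
    (h : ∀ Z : Set α, #Z ≤ #A → ∃ b, ∀ z ∈ Z, z < b) :
    ∀ᶠ x in (S.U : Filter (Set Y)), ∀ Z : Set α, (∀ z ∈ Z, e z ∈ x) → #Z ≤ #(cut e x A) →
      ∃ b, e b ∈ x ∧ ∀ z ∈ Z, z < b := by
  classical
  by_contra H
  have H' : ∀ᶠ x in (S.U : Filter (Set Y)), ∃ y : Set α × (α → α), (∀ z ∈ y.1, e z ∈ x) ∧
      MapsTo y.2 y.1 (cut e x A) ∧ InjOn y.2 y.1 ∧ ∀ b, e b ∈ x → ∃ z ∈ y.1, b ≤ z := by
    refine (Ultrafilter.eventually_not.2 H).mono fun x hx => ?_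
    push Not at hx
    obtain ⟨Z, h₁, h₂, h₃⟩ := hx
    obtain ⟨g⟩ := (le_def _ _).1 h₂
    refine ⟨(Z, fun a => if h : a ∈ Z then g ⟨a, h⟩ else a), h₁, fun a ha => ?_,
      fun a ha b hb hab => ?_, h₃⟩
    · simp only [dif_pos ha]
      exact (g _).2
    · simp only [dif_pos ha, dif_pos hb] at hab
      exact congrArg Subtype.val (g.injective (Subtype.ext hab))
  obtain ⟨y, hy⟩ := H'.choice
  obtain ⟨Z₀, hZ⟩ := S.los_set he fun x => (y x).1
  have hm : ∀ a : Z₀, ∀ᶠ x in (S.U : Filter (Set Y)), a.1 ∈ (y x).1 := fun a =>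
    (hZ.and (S.fine (e a))).mono fun x hx => (hx.1 a hx.2).2 a.2
  choose g hg using fun a : Z₀ => S.const_in he (fun x => (y x).2 a)
    ((hy.and (hm a)).mono fun x hx => (hx.1.2.1 hx.2).2)
  have hA : ∀ a, g a ∈ A := fun a => by
    obtain ⟨x, h₁, h₂, h₃⟩ := (hy.and ((hm a).and (hg a))).exists
    exact h₃ ▸ (h₁.2.1 h₂).1
  obtain ⟨b, hb⟩ := h Z₀ (mk_le_of_injective (f := fun a => (⟨g a, hA a⟩ : A)) fun a a' haa => by
    obtain ⟨x, h₁, ⟨h₂, h₃⟩, h₄, h₅⟩ :=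
      (hy.and (((hm a).and (hg a)).and ((hm a').and (hg a')))).exists
    exact Subtype.ext (h₁.2.2.1 h₂ h₄ (h₃.trans ((congrArg Subtype.val haa).trans h₅.symm))))
  obtain ⟨x, h₁, h₂, h₃⟩ := (hy.and (hZ.and (S.fine (e b)))).exists
  obtain ⟨z, hz, hbz⟩ := h₁.2.2.2 b h₃
  exact (hb z ((h₂ z (h₁.1 z hz)).1 hz)).not_ge hbz

/-- Named directed closure reflects. -/
theorem ndc {τ Q : Type u} {it : τ → Y} (hit : Function.Injective it) {e : γ → Y}
    (he : Function.Injective e) {le : τ → τ → Q → Prop} {Lo : Set Q} {R : Q → Q → Prop} {tp : Q}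
    (hLo : #Lo < κ) {T : Set τ} {Z : Set γ} (h : NDCOn le Lo R tp T #Z) :
    ∀ᶠ x in (S.U : Filter (Set Y)), NDCOn le Lo R tp (cut it x T) #(cut e x Z) := by
  classical
  by_contra H
  have H' : ∀ᶠ x in (S.U : Filter (Set Y)), ∃ y : (γ → τ) × (γ → Set Q) × τ,
      y.2.2 ∈ cut it x T ∧ (∀ z, y.1 z ∈ cut it x T) ∧ (∀ z, OpenIn Lo R (y.2.1 z)) ∧
      (∀ z, ∀ q ∈ y.2.1 z, le (y.1 z) y.2.2 q) ∧
      (∀ z z', ∀ q ∈ y.2.1 z, q ∈ y.2.1 z' → ∃ q' ∈ Lo, R q' q ∧ ∃ k, q' ∈ y.2.1 k ∧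
        le (y.1 k) (y.1 z) q' ∧ le (y.1 k) (y.1 z') q') ∧
      (∀ z, ∀ q ∈ y.2.1 z, z ∈ cut e x Z) ∧
      ¬ ∃ s ∈ cut it x T, le s y.2.2 tp ∧ ∀ z, ∀ q ∈ y.2.1 z, le s (y.1 z) q := by
    refine (Ultrafilter.eventually_not.2 H).mono fun x hx => ?_
    simp only [NDCOn, not_forall] at hx
    obtain ⟨ι, t, M, t0, h₁, h₂, h₃, h₄, h₅, h₆, h₇⟩ := hx
    obtain ⟨g⟩ := (le_def _ _).1 h₁
    have hg : Function.Injective fun i => (g i).1 := Subtype.val_injective.comp g.injective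
    have e₁ : ∀ i, Function.extend (fun i => (g i).1) t (fun _ => t0) (g i).1 = t i :=
      fun i => hg.extend_apply _ _ i
    have e₂ : ∀ i, Function.extend (fun i => (g i).1) M (fun _ => ∅) (g i).1 = M i :=
      fun i => hg.extend_apply _ _ i
    have e₃ : ∀ z, ∀ q ∈ Function.extend (fun i => (g i).1) M (fun _ => ∅) z,
        ∃ i, (g i).1 = z := fun z q hq => by
      by_contra h'
      rw [Function.extend_apply' _ _ _ h'] at hq
      exact hq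
    refine ⟨(Function.extend (fun i => (g i).1) t (fun _ => t0),
      Function.extend (fun i => (g i).1) M (fun _ => ∅), t0), h₂, fun z => ?_, fun z => ?_,
      fun z q hq => ?_, fun z z' q hq hq' => ?_, fun z q hq => ?_, ?_⟩
    · by_cases h' : ∃ i, (g i).1 = z
      · obtain ⟨i, rfl⟩ := h'
        simp only [e₁]
        exact h₃ i
      · simp only [Function.extend_apply' _ _ _ h']
        exact h₂
    · by_cases h' : ∃ i, (g i).1 = z
      · obtain ⟨i, rfl⟩ := h'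
        simp only [e₂]
        exact h₄ i
      · simp only [Function.extend_apply' _ _ _ h']
        exact ⟨empty_subset _, fun q hq => hq.elim⟩
    · obtain ⟨i, rfl⟩ := e₃ z q hq
      simp only [e₁, e₂] at hq ⊢
      exact h₅ i q hq
    · obtain ⟨i, rfl⟩ := e₃ z q hq
      obtain ⟨i', rfl⟩ := e₃ z' q hq'
      simp only [e₁, e₂] at hq hq' ⊢
      obtain ⟨q', k₁, k₂, k, k₃⟩ := h₆ i i' q hq hq'
      exact ⟨q', k₁, k₂, (g k).1, by simpa only [e₁, e₂] using k₃⟩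
    · obtain ⟨i, rfl⟩ := e₃ z q hq
      exact (g i).2
    · rintro ⟨s, k₁, k₂, k₃⟩
      refine h₇ ⟨s, k₁, k₂, fun i q hq => ?_⟩
      simpa only [e₁] using k₃ (g i).1 q (by simpa only [e₂] using hq)
  obtain ⟨y, hy⟩ := H'.choice
  obtain ⟨t0, ht0⟩ := S.const_in hit (fun x => (y x).2.2) (hy.mono fun x hx => hx.1.2)
  choose t ht using fun z => S.const_in hit (fun x => (y x).1 z)
    (hy.mono fun x hx => (hx.2.1 z).2)
  let M : γ → Set Q := fun z => {q | q ∈ Lo ∧ ∀ᶠ x in (S.U : Filter (Set Y)), q ∈ (y x).2.1 z}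
  have hM : ∀ z, ∀ᶠ x in (S.U : Filter (Set Y)), (y x).2.1 z = M z := fun z => by
    have : ∀ q : Lo, ∀ᶠ x in (S.U : Filter (Set Y)), (q.1 ∈ (y x).2.1 z ↔ q.1 ∈ M z) :=
      fun q => by
        by_cases h : ∀ᶠ x in (S.U : Filter (Set Y)), q.1 ∈ (y x).2.1 z
        · exact h.mono fun x hx => iff_of_true hx ⟨q.2, h⟩
        · exact (Ultrafilter.eventually_not.2 h).mono fun x hx => iff_of_false hx fun h' => h h'.2
    refine (hy.and (S.all hLo this)).mono fun x hx => Set.ext fun q => ⟨fun hq => ?_, fun hq => ?_⟩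
    · exact (hx.2 ⟨q, (hx.1.2.2.1 z).1 hq⟩).1 hq
    · exact (hx.2 ⟨q, hq.1⟩).2 hq
  have good := hy.and (ht0.and (S.diag he fun z => (ht z).and (hM z)))
  have one : ∀ z, ∃ x, _ ∧ e z ∈ x := fun z => (good.and (S.fine (e z))).exists
  obtain ⟨s, hs, hs₁, hs₂⟩ := h Z (fun z => t z) (fun z => M z) t0 le_rfl
    (by
      obtain ⟨x, h₁, h₂, -⟩ := good.exists
      exact h₂ ▸ h₁.1.1)
    (fun z => by
      obtain ⟨x, ⟨h₁, -, h₂⟩, h₃⟩ := one z
      exact (h₂ z h₃).1 ▸ (h₁.2.1 z).1)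
    (fun z => by
      obtain ⟨x, ⟨h₁, -, h₂⟩, h₃⟩ := one z
      exact (h₂ z h₃).2 ▸ h₁.2.2.1 z)
    (fun z q hq => by
      obtain ⟨x, ⟨h₁, h₀, h₂⟩, h₃⟩ := one z
      rw [← (h₂ z h₃).2] at hq
      rw [← (h₂ z h₃).1, ← h₀]
      exact h₁.2.2.2.1 z q hq)
    (fun z z' q hq hq' => by
      obtain ⟨x, ⟨h₁, -, h₂⟩, h₃, h₄⟩ := (good.and ((S.fine (e z)).and (S.fine (e z')))).exists
      rw [← (h₂ z h₃).2] at hq
      rw [← (h₂ z' h₄).2] at hq'
      obtain ⟨q', k₁, k₂, k, k₃, k₄⟩ := h₁.2.2.2.2.1 z z' q hq hq'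
      have k₅ := h₁.2.2.2.2.2.1 k q' k₃
      rw [(h₂ z h₃).1, (h₂ z' h₄).1, (h₂ k k₅.2).1] at k₄
      rw [(h₂ k k₅.2).2] at k₃
      exact ⟨q', k₁, k₂, ⟨k, k₅.1⟩, k₃, k₄⟩)
  obtain ⟨x, ⟨h₁, h₀, h₂⟩, h₃⟩ := (good.and (S.fine (it s))).exists
  refine h₁.2.2.2.2.2.2 ⟨s, ⟨hs, h₃⟩, h₀ ▸ hs₁, fun z q hq => ?_⟩
  have k₅ := h₁.2.2.2.2.2.1 z q hq
  rw [(h₂ z k₅.2).1]
  exact hs₂ ⟨z, k₅.1⟩ q ((h₂ z k₅.2).2 ▸ hq)

end SCM

end Pool.Agent.MP_a2558b_lc
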