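import Pool.Agent.MP_a2558b_lc.Basic

namespace Pool.Agent.MP_a2558b_lc

open Cardinal hiding univ
open Set Base

universe u

variable {J Ω : Type u} [Inhabited Ω] [LinearOrder J] [WellFoundedLT J] [Base J] {D : Sys J Ω}
  {c d : Set J}

namespace Rec

/-- Recursion with choice along a well order. -/
theorem exists_rec {W Y : Type u} [LinearOrder W] [WellFoundedLT W] [Nonempty Y]
    (P : W → (W → Y) → Y → Prop)
    (loc : ∀ w H H' y, (∀ w' < w, H w' = H' w') → P w H y → P w H' y)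
    (step : ∀ w H, (∀ w' < w, P w' H (H w')) → ∃ y, P w H y) : ∃ g, ∀ w, P w g (g w) := by
  classical
  let F : ∀ w : W, (∀ w', w' < w → Y) → Y := fun w ih =>
    Classical.epsilon (P w fun w' => if h : w' < w then ih w' h else Classical.arbitrary Y)
  let g : W → Y := (wellFounded_lt (α := W)).fix F
  have hg : ∀ w, g w = Classical.epsilon
      (P w fun w' => if w' < w then g w' else Classical.arbitrary Y) := fun w =>
    (wellFounded_lt (α := W)).fix_eq F w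
  refine ⟨g, fun w => ?_⟩
  induction w using WellFoundedLT.induction with
  | _ w ih =>
  obtain ⟨y, hy⟩ := step w g ih
  refine loc w (fun w' => if w' < w then g w' else Classical.arbitrary Y) g _
    (fun w' h => if_pos h) ?_
  rw [hg w]
  exact Classical.epsilon_spec ⟨y, loc w g _ y (fun w' h => (if_pos h).symm) hy⟩

omit [WellFoundedLT J] in
/-- A chain of trivially forced direct extensions has a lower bound. -/
theorem bound (hd : IsLowerSet d) (hB : BasicOn D d) {W : Type u} [LinearOrder W]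
    (e : W → Set J) (hce : ∀ w, c ⊆ e w) (hcl : ∀ j ∈ d, j ∉ c → Cl D j #{w | j ∉ e w})
    {p : Cnd J Ω} (hp : p ∈ Low D d) (S : Set W) (g : W → Cnd J Ω)
    (h₁ : ∀ w ∈ S, g w ∈ Low D d) (h₂ : ∀ w ∈ S, ∀ j ∈ d, j ∉ e w → TDir D j (g w) p)
    (h₃ : ∀ w ∈ S, ∀ w' ∈ S, w' < w → ∀ j ∈ d, j ∉ e w → j ∉ e w' → TDir D j (g w) (g w')) :
    ∃ u ∈ Low D d, TExt D c d u p ∧ ∀ w ∈ S, ∀ j ∈ d, j ∉ e w → TDir D j u (g w) := by
  have key : ∀ j, ∃ v : Vl Ω, (j ∈ d → j ∉ c → OkAt D j v ∧ v.s = (p j).s ∧ (p j).E ⊆ v.E ∧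
      (D j).le v.t (p j).t ctop ∧ ∀ w ∈ S, j ∉ e w →
        (g w j).E ⊆ v.E ∧ (D j).le v.t (g w j).t ctop) ∧ (¬ (j ∈ d ∧ j ∉ c) → v = p j) := by
    intro j
    by_cases hj : j ∈ d ∧ j ∉ c
    swap
    · exact ⟨p j, fun a b => absurd ⟨a, b⟩ hj, fun _ => rfl⟩
    obtain ⟨hj, hjc⟩ := hj
    have hcard : #{w | w ∈ S ∧ j ∉ e w} ≤ #{w | j ∉ e w} :=
      mk_le_mk_of_subset fun _ h => h.2
    have hb := hB.anti (bs_sub hd hj)
    obtain ⟨s, hs, hs₁, hs₂⟩ := (hcl j hj hjc).2.car (hp.1 j hj).1 {w | w ∈ S ∧ j ∉ e w}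
      (fun i => (g i j).t) (fun _ => Low D (bs j)) (p j).t hcard (hp.1 j hj).2.2.2
      (fun i => (h₂ i i.2.1 j hj i.2.2).1 ▸ ((h₁ i i.2.1).1 j hj).2.2.2)
      (fun _ => ⟨Subset.rfl, fun _ _ _ h _ => h⟩)
      (fun i q hq => tle_of_top hd hB hj hq (h₂ i i.2.1 j hj i.2.2).2.2)
      (fun i i' q hq _ => ⟨q, hq, Le.refl (low j) hb hq, by
        have r : ∀ i : {w | w ∈ S ∧ j ∉ e w}, (D j).le (g i j).t (g i j).t q := fun i =>
          (hB j hj).refl _ (t_mem hB (h₁ i i.2.1) hj) _ hq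
        rcases lt_trichotomy i.1 i'.1 with h | h | h
        · exact ⟨i', hq, tle_of_top hd hB hj hq
            (h₃ _ i'.2.1 _ i.2.1 h j hj i'.2.2 i.2.2).2.2, r i'⟩
        · exact ⟨i, hq, r i, h ▸ r i⟩
        · exact ⟨i, hq, r i, tle_of_top hd hB hj hq
            (h₃ _ i.2.1 _ i'.2.1 h j hj i.2.2 i'.2.2).2.2⟩⟩)
    refine ⟨⟨(p j).s, (p j).E ∪ ⋃ i : {w | w ∈ S ∧ j ∉ e w}, (g i j).E, s⟩,
      fun _ _ => ⟨⟨(hp.1 j hj).1, union_subset (hp.1 j hj).2.1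
        (iUnion_subset fun i => ((h₁ i i.2.1).1 j hj).2.1),
        (hB j hj).null_union _ _ (hp.1 j hj).2.2.1 ((hcl j hj hjc).1 _ _ hcard
          fun i => ((h₁ i i.2.1).1 j hj).2.2.1), hs⟩, rfl, subset_union_left, hs₁,
        fun w hw hwe => ⟨fun a ha => Or.inr (mem_iUnion.2 ⟨⟨w, hw, hwe⟩, ha⟩),
          hs₂ ⟨w, hw, hwe⟩ _ (ctop_mem hb)⟩⟩, fun h => absurd ⟨hj, hjc⟩ h⟩
  choose u hu hu' using key
  have hs : ∀ j, (u j).s = (p j).s := fun j => by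
    by_cases hj : j ∈ d ∧ j ∉ c
    exacts [(hu j hj.1 hj.2).2.1, by rw [hu' j hj]]
  refine ⟨u, ⟨fun j hj => ?_, fun j hj => ?_, by simpa only [hs] using hp.2.2⟩,
    ⟨fun j hj => hu' j fun h => h.2 hj, fun j hj hjc => ?_⟩, fun w hw j hj hwe => ?_⟩
  · by_cases hjc : j ∈ c
    · rw [hu' j fun h => h.2 hjc]
      exact hp.1 j hj
    · exact (hu j hj hjc).1
  · rw [hu' j fun h => hj h.1]
    exact hp.2.1 j hj
  · exact ⟨hs j, (hu j hj hjc).2.2.1, (hu j hj hjc).2.2.2.1⟩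
  · have := (hu j hj fun h => hwe (hce w h)).2.2.2.2 w hw hwe
    exact ⟨(hs j).trans (h₂ w hw j hj hwe).1.symm, this.1, this.2⟩

end Rec

/-- Transfinite recursion along a well order of tasks, using the closure of the coordinates. -/
theorem rec_closed (hd : IsLowerSet d) (hB : BasicOn D d) {W Δ : Type u} [LinearOrder W]
    [WellFoundedLT W] [Nonempty Δ] (e : W → Set J) (hce : ∀ w, c ⊆ e w)
    (hcl : ∀ j ∈ d, j ∉ c → Cl D j #{w | j ∉ e w})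
    (G : W → (W → Δ) → Δ → Cnd J Ω → Prop)
    (loc : ∀ w h h' x u, (∀ w' < w, h w' = h' w') → G w h x u → G w h' x u)
    (pres : ∀ w h x, ∀ u ∈ Low D d, ∀ u' ∈ Low D d, (∀ j ∈ d, j ∉ e w → TDir D j u' u) →
      G w h x u → G w h x u')
    {p : Cnd J Ω} (hp : p ∈ Low D d)
    (step : ∀ w h, ∀ u ∈ Low D d, TExt D c d u p →
      ∃ u' ∈ Low D d, ∃ x, (∀ j ∈ d, j ∉ e w → TDir D j u' u) ∧ G w h x u') :
    ∃ p' ∈ Low D d, TExt D c d p' p ∧ ∃ h, ∀ w, G w h (h w) p' := by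
  have : Nonempty (Cnd J Ω × Δ) := ⟨(p, Classical.arbitrary Δ)⟩
  obtain ⟨g, hg⟩ := Rec.exists_rec (W := W) (Y := Cnd J Ω × Δ)
    (fun w H y => y.1 ∈ Low D d ∧ (∀ j ∈ d, j ∉ e w → TDir D j y.1 p) ∧
      (∀ w' < w, ∀ j ∈ d, j ∉ e w → j ∉ e w' → TDir D j y.1 (H w').1) ∧
      G w (fun w' => (H w').2) y.2 y.1)
    (fun w H H' y h hy => ⟨hy.1, hy.2.1, fun w' hw' => h w' hw' ▸ hy.2.2.1 w' hw',
      loc w _ _ _ _ (fun w' hw' => congrArg Prod.snd (h w' hw')) hy.2.2.2⟩)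
    fun w H ih => by
      obtain ⟨u, hu, h₁, h₂⟩ := Rec.bound hd hB e hce hcl hp (Iio w) (fun w' => (H w').1)
        (fun w' h => (ih w' h).1) (fun w' h => (ih w' h).2.1)
        fun w' h w'' _ h' => (ih w' h).2.2.1 w'' h'
      obtain ⟨u', hu', x, h₃, h₄⟩ := step w (fun w' => (H w').2) u hu h₁
      exact ⟨(u', x), hu', fun j hj h => (h₃ j hj h).trans hd hB hj
        (h₁.2 j hj fun h' => h (hce w h')),
        fun w' hw' j hj h h' => (h₃ j hj h).trans hd hB hj (h₂ w' hw' j hj h'), h₄⟩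
  obtain ⟨u, hu, h₁, h₂⟩ := Rec.bound hd hB e hce hcl hp univ (fun w' => (g w').1)
    (fun w' _ => (hg w').1) (fun w' _ => (hg w').2.1)
    fun w' _ w'' _ h' => (hg w').2.2.1 w'' h'
  exact ⟨u, hu, h₁, fun w => (g w).2, fun w =>
    pres w _ _ _ (hg w).1 u hu (h₂ w trivial) (hg w).2.2.2⟩

/-- From a reduction of one name to a reduction of a family of names. -/
theorem tail_fam (hc : IsLowerSet c) (hd : IsLowerSet d) (hcd : c ⊆ d) (hB : BasicOn D d)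
    {ι Z : Type u} (dec : ι → Cnd J Ω → Z → Prop)
    (hn : ∀ i, IsNm (Low D d) (Le D d) (dec i)) (hcl : ∀ j ∈ d, j ∉ c → Cl D j #ι)
    (one : ∀ i, ∀ p ∈ Low D d, ∃ p' ∈ Low D d, TExt D c d p' p ∧ ∀ l ∈ Low D c, Le D c l p →
      ∃ l' ∈ Low D c, Le D c l' l ∧ ∃ x, dec i (glue c l' p') x)
    {p : Cnd J Ω} (hp : p ∈ Low D d) :
    ∃ p' ∈ Low D d, TExt D c d p' p ∧ ∀ i, ∀ l ∈ Low D c, Le D c l p →
      ∃ l' ∈ Low D c, Le D c l' l ∧ ∃ x, dec i (glue c l' p') x := by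
  obtain ⟨_, _⟩ := exists_wellOrder ι
  obtain ⟨p', hp', h₁, -, h₂⟩ := rec_closed (c := c) hd hB (W := ι) (Δ := PUnit.{u + 1})
    (fun _ => c) (fun _ => Subset.rfl) (fun j hj hjc => (hcl j hj hjc).anti (mk_set_le _))
    (fun w _ _ u => ∀ l ∈ Low D c, Le D c l p →
      ∃ l' ∈ Low D c, Le D c l' l ∧ ∃ x, dec w (glue c l' u) x)
    (fun _ _ _ _ _ _ h => h)
    (fun w _ _ u hu u' hu' ht h l hl hlp => by
      obtain ⟨l', hl', h₁, x, h₂⟩ := h l hl hlp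
      exact ⟨l', hl', h₁, x, (hn w).mono _ (glue_mem' hl' hcd hu) _ (glue_mem' hl' hcd hu')
        (glue_le_glue hd hB hc (glue_mem' hl' hcd hu') (Le.refl hc (hB.anti hcd) hl') ht) x h₂⟩)
    hp fun w _ u hu ht => by
      obtain ⟨u', hu', h₁, h₂⟩ := one w u hu
      exact ⟨u', hu', PUnit.unit, h₁.2, fun l hl hlp =>
        h₂ l hl ((le_congr hc (fun _ _ => rfl) ht.1).2 hlp)⟩
  exact ⟨p', hp', h₁, h₂⟩

end Pool.Agent.MP_a2558b_lc
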