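import Pool.Agent.MP_a2558b_lc.Rec

namespace Pool.Agent.MP_a2558b_lc

open Cardinal hiding univ
open Set Base

universe u

variable {J Ω : Type u} [Inhabited Ω] [LinearOrder J] [WellFoundedLT J] [Base J] {D : Sys J Ω}
  {c d : Set J}

omit [LinearOrder J] [WellFoundedLT J] [Base J] in
/-- Changing a condition outside `b` coordinatewise, keeping the chosen points. -/
theorem assemble {p : Cnd J Ω} (hp : p ∈ Low D d) (b : Set J) (P : J → Vl Ω → Prop)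
    (h : ∀ j ∈ d, j ∉ b → ∃ v, OkAt D j v ∧ v.s = (p j).s ∧ P j v) :
    ∃ p' ∈ Low D d, (∀ j ∈ b, p' j = p j) ∧
      ∀ j ∈ d, j ∉ b → (p' j).s = (p j).s ∧ P j (p' j) := by
  classical
  choose v hv using h
  let p' : Cnd J Ω := fun j => if H : j ∈ d ∧ j ∉ b then v j H.1 H.2 else p j
  have h1 : ∀ j (hj : j ∈ d) (hb : j ∉ b), p' j = v j hj hb := fun j hj hb => dif_pos ⟨hj, hb⟩
  have h2 : ∀ j, ¬ (j ∈ d ∧ j ∉ b) → p' j = p j := fun j H => dif_neg H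
  refine ⟨p', ⟨fun j hj => ?_, fun j hj => ?_, hp.2.2.subset fun j hj => ?_⟩,
    fun j hj => h2 j fun H => H.2 hj, fun j hj hb => ?_⟩
  · by_cases hb : j ∈ b
    · rw [h2 j fun H => H.2 hb]; exact hp.1 j hj
    · rw [h1 j hj hb]; exact (hv j hj hb).1
  · rw [h2 j fun H => hj H.1]; exact hp.2.1 j hj
  · by_cases H : j ∈ d ∧ j ∉ b
    · have e := (hv j H.1 H.2).2.1
      rw [← h1 j H.1 H.2] at e
      intro h'
      exact hj (e.trans h')
    · intro h'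
      exact hj (by rw [h2 j H]; exact h')
  · rw [h1 j hj hb]; exact (hv j hj hb).2

omit [WellFoundedLT J] in
/-- A direct extension at `j` is forced by everything below it. -/
theorem DirAt.tle (hd : IsLowerSet d) (hB : BasicOn D d) {j : J} (hj : j ∈ d) {r u q : Cnd J Ω}
    (hr : r ∈ Low D d) (h : DirAt D j r u) (hq : q ∈ Low D (bs j)) (hle : Le D (bs j) q r) :
    (D j).le (r j).t (u j).t q :=
  (hB j hj).mono _ _ _ (res_bs_mem hd hr hj) _ hq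
    ((le_res_right (low j) Subset.rfl).2 hle) h.2.2.2.2

omit [WellFoundedLT J] in
/-- Mixing along pairwise disjoint cones, from the closure of a coordinate. -/
theorem mix_of_ndc (hd : IsLowerSet d) (hB : BasicOn D d) {j : J} (hj : j ∈ d)
    {x : Cardinal.{u}} (hcl : (D j).NDC (Low D (bs j)) (Le D (bs j)) ctop x) {ι : Type u}
    (hι : #ι ≤ x) {u : Cnd J Ω} (hu : u ∈ Low D d) (r : ι → Cnd J Ω) (hr : ∀ i, r i ∈ Low D d)
    (hdir : ∀ i, DirAt D j (r i) u)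
    (hdis : ∀ i i', ∀ q ∈ Low D (bs j), Le D (bs j) q (r i) → Le D (bs j) q (r i') → i = i') :
    ∃ s ∈ (D j).car (u j).s, (D j).le s (u j).t ctop ∧
      ∀ i, ∀ q ∈ Low D (bs j), Le D (bs j) q (r i) → (D j).le s (r i j).t q := by
  have hBj := hB.anti (bs_sub hd hj)
  obtain ⟨s, hs, h₁, h₂⟩ := hcl.car (hu.1 j hj).1 ι (fun i => (r i j).t)
    (fun i => {q | q ∈ Low D (bs j) ∧ Le D (bs j) q (r i)}) (u j).t hι (hu.1 j hj).2.2.2
    (fun i => (hdir i).1 ▸ ((hr i).1 j hj).2.2.2) (fun i => openIn_le (low j) hBj (r i))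
    (fun i q hq => (hdir i).tle hd hB hj (hr i) hq.1 hq.2) (by
      intro i i' q hq hq'
      obtain rfl := hdis i i' q hq.1 hq.2 hq'.2
      have h := (hB j hj).refl _ (t_mem hB (hr i) hj) q hq.1
      exact ⟨q, hq.1, Le.refl (low j) hBj hq.1, i, hq, h, h⟩)
  exact ⟨s, hs, h₁, fun i q hq h => h₂ i q ⟨hq, h⟩⟩

/-- Reduction of direct decisions above a family of cuts. -/
theorem reduce (hd : IsLowerSet d) (hB : BasicOn D d) {A ι Z : Type u} [Nonempty Z]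
    (e : A → Set J) (he : ∀ a, IsLowerSet (e a)) (hce : ∀ a, c ⊆ e a) (hed : ∀ a, e a ⊆ d)
    (rk : ι → A → Prop) (dec : ι → Cnd J Ω → Z → Prop)
    (hn : ∀ i, IsNm (Low D d) (Le D d) (dec i))
    (hcl : ∀ j ∈ d, j ∉ c → Cl D j
      #{w : A × Cnd J Ω × ι | j ∉ e w.1 ∧ w.2.1 ∈ Keys D (e w.1) ∧ rk w.2.2 w.1})
    {p : Cnd J Ω} (hp : p ∈ Low D d) :
    ∃ p' ∈ Low D d, TExt D c d p' p ∧ ∃ val : A → Cnd J Ω → ι → Z, ∀ a i x, rk i a →
      ∀ r ∈ Low D d, (∀ j ∈ d, j ∉ e a → DirAt D j r p') → dec i r x →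
        x = val a (strip (res (e a) r)) i ∧ ∃ l ∈ Low D (e a), strip l = strip (res (e a) r) ∧
          Le D (e a) l r ∧ dec i (glue (e a) l p') x := by
  classical
  let W := {w : A × Cnd J Ω × ι // w.2.1 ∈ Keys D (e w.1) ∧ rk w.2.2 w.1}
  obtain ⟨lo, wf⟩ := exists_wellFoundedLT W
  have hcl' : ∀ j ∈ d, j ∉ c → Cl D j #{w : W | j ∉ e w.1.1} := by
    intro j hj hc
    refine (hcl j hj hc).anti (mk_le_of_injective
      (f := fun w : {w : W | j ∉ e w.1.1} => (⟨w.1.1, w.2, w.1.2⟩ :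
        {w : A × Cnd J Ω × ι | j ∉ e w.1 ∧ w.2.1 ∈ Keys D (e w.1) ∧ rk w.2.2 w.1})) ?_)
    intro w w' h
    have h' : w.1.1 = w'.1.1 := Subtype.mk.inj h
    exact Subtype.ext (Subtype.ext h')
  have : Nonempty (Cnd J Ω × Z) := ⟨(ctop, Classical.arbitrary Z)⟩
  let G : W → (W → Cnd J Ω × Z) → Cnd J Ω × Z → Cnd J Ω → Prop := fun w _ x u =>
    (∃ r ∈ Low D d, strip (res (e w.1.1) r) = w.1.2.1 ∧
      (∀ j ∈ d, j ∉ e w.1.1 → DirAt D j r u) ∧ ∃ z, dec w.1.2.2 r z) →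
    x.1 ∈ Low D d ∧ strip (res (e w.1.1) x.1) = w.1.2.1 ∧ dec w.1.2.2 x.1 x.2 ∧
      ∀ j ∈ d, j ∉ e w.1.1 → (u j).s = (x.1 j).s ∧ (x.1 j).E ⊆ (u j).E ∧
        ∀ q ∈ Low D (bs j), Le D (bs j) q x.1 → (D j).le (u j).t (x.1 j).t q
  obtain ⟨p', hp', hext, h, hG⟩ := rec_closed (c := c) hd hB (fun w : W => e w.1.1)
    (fun w => hce _) hcl' G (fun _ _ _ _ _ _ H => H) (by
      rintro w h x u hu u' hu' ht H ⟨r, hr, h₁, h₂, h₃⟩
      obtain ⟨a₁, a₂, a₃, a₄⟩ := H ⟨r, hr, h₁,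
        fun j hj he => (h₂ j hj he).trans_tdir hd hB hj hr (ht j hj he), h₃⟩
      refine ⟨a₁, a₂, a₃, fun j hj he => ?_⟩
      obtain ⟨b₁, b₂, b₃⟩ := a₄ j hj he
      obtain ⟨t₁, t₂, t₃⟩ := ht j hj he
      exact ⟨t₁.trans b₁, b₂.trans t₂, fun q hq hle =>
        (hB j hj).trans _ _ _ q hq (tle_of_top hd hB hj hq t₃) (b₃ q hq hle)⟩) hp (by
      intro w h u hu _
      by_cases H : ∃ r ∈ Low D d, strip (res (e w.1.1) r) = w.1.2.1 ∧
        (∀ j ∈ d, j ∉ e w.1.1 → DirAt D j r u) ∧ ∃ z, dec w.1.2.2 r z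
      swap
      · exact ⟨u, hu, Classical.arbitrary _, fun j hj _ => TDir.refl hd hB hj hu rfl,
          fun H' => absurd H' H⟩
      obtain ⟨r, hr, h₁, h₂, z, hz⟩ := H
      obtain ⟨u', hu', -, h₃⟩ := assemble hu (e w.1.1) (fun j v => v.E = (r j).E ∧
          (D j).le v.t (u j).t ctop ∧
          ∀ q ∈ Low D (bs j), Le D (bs j) q r → (D j).le v.t (r j).t q) (by
        intro j hj he
        have h1 : #PUnit.{u + 1} ≤ #{w : W | j ∉ e w.1.1} := by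
          rw [mk_punit, Cardinal.one_le_iff_ne_zero, mk_ne_zero_iff]
          exact ⟨⟨w, he⟩⟩
        obtain ⟨s, hs, a₁, a₂⟩ := mix_of_ndc hd hB hj (hcl' j hj fun hc => he (hce _ hc)).2 h1 hu
          (fun _ => r) (fun _ => hr) (fun _ => h₂ j hj he) (fun _ _ _ _ _ _ => rfl)
        exact ⟨⟨(u j).s, (r j).E, s⟩, ⟨(hu.1 j hj).1, (hr.1 j hj).2.1, (hr.1 j hj).2.2.1, hs⟩, rfl,
          rfl, a₁, a₂ PUnit.unit⟩)
      refine ⟨u', hu', (r, z), fun j hj he => ?_, fun _ => ⟨hr, h₁, hz, fun j hj he => ?_⟩⟩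
      · obtain ⟨a₁, a₂, a₃, -⟩ := h₃ j hj he
        exact ⟨a₁, a₂ ▸ (h₂ j hj he).2.2.2.1, a₃⟩
      · obtain ⟨a₁, a₂, -, a₄⟩ := h₃ j hj he
        exact ⟨a₁.trans (h₂ j hj he).1.symm, a₂ ▸ Subset.rfl, a₄⟩)
  refine ⟨p', hp', hext, fun a k i =>
    if H : k ∈ Keys D (e a) ∧ rk i a then (h ⟨(a, k, i), H⟩).2 else Classical.arbitrary Z, ?_⟩
  intro a i x hrk r hr hdir hdec
  have hk : strip (res (e a) r) ∈ Keys D (e a) :=
    strip_mem (hB.anti (hed a)) (res_mem hr (hed a))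
  obtain ⟨a₁, a₂, a₃, a₄⟩ := hG ⟨(a, strip (res (e a) r), i), hk, hrk⟩ ⟨r, hr, rfl, hdir, x, hdec⟩
  simp only [dif_pos (And.intro hk hrk)]
  generalize h ⟨(a, strip (res (e a) r), i), hk, hrk⟩ = y at a₁ a₂ a₃ a₄
  obtain ⟨r0, x0⟩ := y
  simp only at a₁ a₂ a₃ a₄ ⊢
  have hm : addE r r0 ∈ Low D d := addE_mem hB hr a₁
  have hmr : Le D d (addE r r0) r := addE_le hd hB hr a₁
  have hl : res (e a) (addE r r0) ∈ Low D (e a) := res_mem hm (hed a)
  have hg : glue (e a) (res (e a) (addE r r0)) p' ∈ Low D d := glue_mem' hl (hed a) hp'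
  have hgr : Le D d (glue (e a) (res (e a) (addE r r0)) p') r0 := by
    refine le_of_mix (e := e a) hd hg (fun j hj hje => ?_) (fun j hj hje => ?_)
    · have h₁ := strip_eq_iff.1 a₂ j
      rw [res_of_mem hje, res_of_mem hje] at h₁
      refine (leAt_congr (q' := addE r r0) ?_ (fun i hi => ?_) rfl).2
        (dirAt_addE hd hB hr a₁ hj h₁.1.symm h₁.2.symm subset_union_right).2
      · rw [glue_of_mem hje, res_of_mem hje]
      · rw [glue_of_mem (bs_sub (he a) hje hi), res_of_mem (bs_sub (he a) hje hi)]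
    · rw [glue_of_notMem hje]; exact a₄ j hj hje
  have hmg : Le D d (addE r r0) (glue (e a) (res (e a) (addE r r0)) p') :=
    le_glue (fun j hj _ => le_res hd hB hm j hj) fun j hj hje =>
      LeAt.trans hd hB hj hr hm (hmr.anti (bs_sub hd hj)) (hmr j hj) (hdir j hj hje).2
  have hdg := (hn i).mono r0 a₁ _ hg hgr x0 a₃
  obtain rfl : x = x0 := (hn i).eq_of_le hr hg hm hmr hmg hdec hdg
  refine ⟨rfl, _, hl, strip_eq_iff.2 fun j => ?_,
    (le_res_left (he a) Subset.rfl).2 (hmr.anti (hed a)), hdg⟩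
  by_cases hje : j ∈ e a
  · rw [res_of_mem hje, res_of_mem hje]; exact ⟨rfl, rfl⟩
  · rw [res_of_notMem hje, res_of_notMem hje]; exact ⟨rfl, rfl⟩

/-- Full mixing at a cut. -/
theorem full_mix (hc : IsLowerSet c) (hd : IsLowerSet d) (hcd : c ⊆ d) (hB : BasicOn D d)
    (hmix : MixCut D c d) (Φ : Cnd J Ω → Prop)
    (hΦ : ∀ r ∈ Low D d, ∀ r' ∈ Low D d, Le D d r' r → Φ r → Φ r')
    {p : Cnd J Ω} (hp : p ∈ Low D d) (l0 : Cnd J Ω)
    (dense : ∀ l ∈ Low D c, Le D c l l0 →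
      ∃ r ∈ Low D d, Le D c r l ∧ (∀ j ∈ d, j ∉ c → DirAt D j r p) ∧ Φ r) :
    ∃ p' ∈ Low D d, TExt D c d p' p ∧ ∀ l ∈ Low D c, Le D c l l0 →
      ∃ l' ∈ Low D c, Le D c l' l ∧ Φ (glue c l' p') := by
  classical
  have hBc := hB.anti hcd
  let S : Set (Cnd J Ω) := {r | r ∈ Low D d ∧ (∀ j ∈ d, j ∉ c → DirAt D j r p) ∧ Φ r}
  let T : Set (Set (Cnd J Ω)) := {F | F ⊆ S ∧
    ∀ r ∈ F, ∀ r' ∈ F, ∀ q ∈ Low D c, Le D c q r → Le D c q r' → r = r'}
  obtain ⟨F, hF⟩ := zorn_subset T (by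
    intro K hK hch
    refine ⟨⋃₀ K, ⟨sUnion_subset fun F hF => (hK hF).1, ?_⟩, fun F hF => subset_sUnion_of_mem hF⟩
    rintro r ⟨F, hF, hr⟩ r' ⟨F', hF', hr'⟩
    rcases hch.total hF hF' with h | h
    · exact (hK hF').2 r (h hr) r' hr'
    · exact (hK hF).2 r hr r' (h hr'))
  obtain ⟨hFS, hFd⟩ := hF.prop
  have hself : ∀ r ∈ Low D d, Le D c (res c r) r := fun r hr =>
    (le_res_left hc Subset.rfl).2 ((Le.refl hd hB hr).anti hcd)
  have hmax : ∀ r ∈ S, ∃ r' ∈ F, ∃ q ∈ Low D c, Le D c q r ∧ Le D c q r' := by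
    intro r hr
    by_contra H
    push Not at H
    have hT : insert r F ∈ T := by
      refine ⟨insert_subset hr hFS, ?_⟩
      rintro a (rfl | ha) b (rfl | hb) q hq h₁ h₂
      · rfl
      · exact absurd h₂ (H b hb q hq h₁)
      · exact absurd h₁ (H a ha q hq h₂)
      · exact hFd a ha b hb q hq h₁ h₂
    have hrF : r ∈ F := hF.le_of_ge hT (subset_insert r F) (mem_insert r F)
    exact H r hrF _ (res_mem hr.1 hcd) (hself r hr.1) (hself r hr.1)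
  have hcard : #F ≤ #(Low D c) := by
    refine mk_le_of_injective
      (f := fun r : F => (⟨res c r.1, res_mem (hFS r.2).1 hcd⟩ : Low D c)) ?_
    intro r r' h
    have h' : res c r.1 = res c r'.1 := congrArg Subtype.val h
    exact Subtype.ext (hFd _ r.2 _ r'.2 _ (res_mem (hFS r.2).1 hcd) (hself _ (hFS r.2).1)
      (h' ▸ hself _ (hFS r'.2).1))
  obtain ⟨p', hp', h₁, h₂⟩ := assemble hp c (fun j v => (p j).E ⊆ v.E ∧
      (D j).le v.t (p j).t ctop ∧ ∀ r ∈ F, (r j).E ⊆ v.E ∧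
      ∀ q ∈ Low D (bs j), Le D (bs j) q r → (D j).le v.t (r j).t q) (by
    intro j hj hjc
    obtain ⟨hcb, hm⟩ := hmix j hj hjc
    have hdis : ∀ r r' : F, ∀ q ∈ Low D (bs j), Le D (bs j) q r.1 → Le D (bs j) q r'.1 →
        r = r' := fun r r' q hq a₁ a₂ =>
      Subtype.ext (hFd _ r.2 _ r'.2 _ (res_mem hq hcb)
        ((le_res_left hc Subset.rfl).2 (a₁.anti hcb)) ((le_res_left hc Subset.rfl).2 (a₂.anti hcb)))
    have hPt : (⋃ r : F, (r.1 j).E) ⊆ (D j).Pt :=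
      iUnion_subset fun r => ((hFS r.2).1.1 j hj).2.1
    have key : (D j).null (⋃ r : F, (r.1 j).E) ∧ ∃ s ∈ (D j).car (p j).s,
        (D j).le s (p j).t ctop ∧ ∀ r : F, ∀ q ∈ Low D (bs j), Le D (bs j) q r.1 →
          (D j).le s (r.1 j).t q := by
      rcases hm with hm | ⟨hm, hm'⟩
      · exact ⟨hm.1 F _ hcard fun r => ((hFS r.2).1.1 j hj).2.2.1,
          mix_of_ndc hd hB hj hm.2 hcard hp (fun r : F => r.1) (fun r => (hFS r.2).1)
            (fun r => (hFS r.2).2.1 j hj hjc) hdis⟩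
      · refine ⟨(hB j hj).null_mono _ _ (hm ▸ hPt) (hB j hj).null_empty, ?_⟩
        have hs : (p j).s = none := by
          cases e : (p j).s with
          | none => rfl
          | some a => exact absurd ((hp.1 j hj).1 a e) (by rw [hm]; exact notMem_empty a)
        obtain ⟨s, hsT, a₁, a₂⟩ := hm' F (fun r => (r.1 j).t)
          (fun r => {q | q ∈ Low D (bs j) ∧ Le D (bs j) q r.1}) (p j).t (t_mem hB hp hj)
          (fun r => t_mem hB (hFS r.2).1 hj)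
          (fun r => openIn_le (low j) (hB.anti (bs_sub hd hj)) r.1)
          (fun r q hq => ((hFS r.2).2.1 j hj hjc).tle hd hB hj (hFS r.2).1 hq.1 hq.2)
          (fun r r' q hq hq' => hdis r r' q hq.1 hq.2 hq'.2)
        exact ⟨s, by rw [hs]; exact hsT, a₁, fun r q hq h => a₂ r q ⟨hq, h⟩⟩
    obtain ⟨hnull, s, hs, a₁, a₂⟩ := key
    refine ⟨⟨(p j).s, (p j).E ∪ ⋃ r : F, (r.1 j).E, s⟩,
      ⟨(hp.1 j hj).1, union_subset (hp.1 j hj).2.1 hPt,
        (hB j hj).null_union _ _ (hp.1 j hj).2.2.1 hnull, hs⟩, rfl, subset_union_left, a₁,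
      fun r hr => ⟨?_, a₂ ⟨r, hr⟩⟩⟩
    exact (subset_iUnion (fun r : F => (r.1 j).E) ⟨r, hr⟩).trans subset_union_right)
  refine ⟨p', hp', ⟨h₁, fun j hj hjc => ⟨(h₂ j hj hjc).1, (h₂ j hj hjc).2.1,
    (h₂ j hj hjc).2.2.1⟩⟩, fun l hl hll => ?_⟩
  obtain ⟨r, hr, a₁, a₂, a₃⟩ := dense l hl hll
  obtain ⟨r', hr', q, hq, b₁, b₂⟩ := hmax r ⟨hr, a₂, a₃⟩
  have hg : glue c q p' ∈ Low D d := glue_mem' hq hcd hp'
  refine ⟨q, hq, Le.trans' hd hB hc hcd hr (Low_mono hB hcd hq) b₁ a₁,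
    hΦ r' (hFS hr').1 _ hg ?_ (hFS hr').2.2⟩
  refine le_of_mix (e := c) hd hg (fun j _ hjc => (le_glue_left hc Subset.rfl).2 b₂ j hjc)
    (fun j hj hjc => ?_)
  rw [glue_of_notMem hjc]
  obtain ⟨e₁, -, -, e₂⟩ := h₂ j hj hjc
  exact ⟨e₁.trans ((hFS hr').2.1 j hj hjc).1.symm, (e₂ r' hr').1, (e₂ r' hr').2⟩

end Pool.Agent.MP_a2558b_lc
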