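import Pool.Agent.MP_a2558b_lc.Reduce

namespace Pool.Agent.MP_a2558b_lc

open Cardinal hiding univ
open Set Base

universe u

variable {J Ω : Type u} [Inhabited Ω] [LinearOrder J] [WellFoundedLT J] [Base J] {D : Sys J Ω}
  {c d : Set J}

open Classical in
/-- The condition with lower part `l`, value `v` at `j` and upper part `p`. -/
noncomputable def segC (j : J) (l p : Cnd J Ω) (v : Vl Ω) : Cnd J Ω :=
  glue (Iio j) l (Function.update p j v)

omit [Inhabited Ω] [WellFoundedLT J] [Base J] in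
theorem segC_self (j : J) (l p : Cnd J Ω) (v : Vl Ω) : segC j l p v j = v := by
  classical
  unfold segC
  rw [glue_of_notMem (c := Iio j) (lt_irrefl j)]
  convert Function.update_self j v p

omit [Inhabited Ω] [WellFoundedLT J] [Base J] in
theorem segC_lt {i j : J} (h : i < j) (l p : Cnd J Ω) (v : Vl Ω) : segC j l p v i = l i :=
  glue_of_mem h

omit [Inhabited Ω] [WellFoundedLT J] [Base J] in
theorem segC_gt {i j : J} (h : j < i) (l p : Cnd J Ω) (v : Vl Ω) : segC j l p v i = p i := by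
  classical
  unfold segC
  rw [glue_of_notMem (c := Iio j) (not_lt.2 h.le)]
  convert Function.update_of_ne (ne_of_gt h) v p

omit [Inhabited Ω] [WellFoundedLT J] [Base J] in
theorem segC_ne {i j : J} (h : i ≠ j) (l p : Cnd J Ω) (v w : Vl Ω) :
    segC j l p v i = segC j l p w i := by
  rcases lt_or_gt_of_ne h with h | h
  · rw [segC_lt h, segC_lt h]
  · rw [segC_gt h, segC_gt h]

omit [WellFoundedLT J] in
theorem segC_mem (hd : IsLowerSet d) {j : J} (hj : j ∈ d) {l p : Cnd J Ω}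
    (hl : l ∈ Low D (Iio j)) (hp : p ∈ Low D d) {v : Vl Ω} (hv : OkAt D j v) :
    segC j l p v ∈ Low D d :=
  glue_mem' hl (fun _ hi => hd (le_of_lt hi) hj) (update_mem hp hj hv)

/-- The point `a` at `j` decides the value `x` over the lower part `l` using the term `t`. -/
def segGood (D : Sys J Ω) {Z : Type u} (dec : Cnd J Ω → Z → Prop) (p : Cnd J Ω) (j : J)
    (l : Cnd J Ω) (x : Z) (a t : Ω) : Prop :=
  ∃ E, OkAt D j ⟨some a, E, t⟩ ∧ (D j).le t (p j).t (res (bs j) l) ∧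
    dec (segC j l p ⟨some a, E, t⟩) x

/-- The points at `j` that decide some value over the lower part `l`. -/
def segBad (D : Sys J Ω) {Z : Type u} (dec : Cnd J Ω → Z → Prop) (p : Cnd J Ω) (j : J)
    (l : Cnd J Ω) : Set Ω :=
  {a | a ∈ (D j).Pt ∧ ∃ x t, segGood D dec p j l x a t}

omit [WellFoundedLT J] in
/-- If many points decide a value then a condition without a point decides a value. -/
theorem seg_remove (hd : IsLowerSet d) (hB : BasicOn D d) {Z : Type u}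
    {dec : Cnd J Ω → Z → Prop} (hn : IsNm (Low D d) (Le D d) dec) {j : J} (hj : j ∈ d)
    (h₀ : (D j).Comp #Z) {p l : Cnd J Ω} (hp : p ∈ Low D d) (hl : l ∈ Low D (Iio j))
    (hbad : ¬ (D j).null (segBad D dec p j l)) :
    ∃ E t x, OkAt D j ⟨none, E, t⟩ ∧ (D j).le t (p j).t (res (bs j) l) ∧
      dec (segC j l p ⟨none, E, t⟩) x := by
  classical
  have hb := hB j hj
  obtain ⟨x, hx⟩ := h₀.exists_pos hb le_rfl hbad
    (fun x => {a | a ∈ (D j).Pt ∧ ∃ t, segGood D dec p j l x a t})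
    (fun a ha => by obtain ⟨h, x, t, ht⟩ := ha; exact ⟨x, h, t, ht⟩)
  have hf : ∀ a, ∃ t, (∃ t, segGood D dec p j l x a t) → segGood D dec p j l x a t := by
    intro a
    by_cases h : ∃ t, segGood D dec p j l x a t
    · obtain ⟨t, ht⟩ := h; exact ⟨t, fun _ => ht⟩
    · exact ⟨default, fun h' => absurd h' h⟩
  choose f hf using hf
  obtain ⟨t, ht⟩ := hb.normal _ f (fun a ha => ha.1) hx (fun a ha => by
    obtain ⟨E, h, -⟩ := hf a ha.2
    exact h.2.2.2)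
  set A : Set Ω := {a ∈ {a | a ∈ (D j).Pt ∧ ∃ t, segGood D dec p j l x a t} | f a = t} with hA
  have hAP : A ⊆ (D j).Pt := fun a ha => ha.1.1
  have hAg : ∀ a ∈ A, segGood D dec p j l x a t := fun a ha => ha.2 ▸ hf a ha.1.2
  obtain ⟨a0, ha0⟩ : A.Nonempty := by
    rw [nonempty_iff_ne_empty]
    intro h
    exact ht (h ▸ hb.null_empty)
  obtain ⟨E0, h1, h2, -⟩ := hAg a0 ha0
  have htT : t ∈ (D j).T := hb.y_sub a0 (hAP ha0) h1.2.2.2
  have hok : OkAt D j ⟨none, (D j).Pt \ A, t⟩ :=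
    ⟨fun a h => by simp at h, sdiff_subset, hb.null_diff ht, htT⟩
  refine ⟨(D j).Pt \ A, t, x, hok, h2, hn.reg _ (segC_mem hd hj hl hp hok) x ?_⟩
  intro q hq hle
  obtain ⟨q1, hq1, hle1, b, hb1⟩ : ∃ q1 ∈ Low D d, Le D d q1 q ∧ ∃ b, (q1 j).s = some b := by
    cases e : (q j).s with
    | some b => exact ⟨q, hq, Le.refl hd hB hq, b, e⟩
    | none =>
      obtain ⟨b, hbA, hbE, hbt⟩ := hb.exists_pt hAP ht (hq.1 j hj).2.2.1 (t_mem hB hq hj)
      obtain ⟨h, h'⟩ := add_pt hd hB hq hj e (hAP hbA) hbE hbt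
      exact ⟨_, h, h', b, by rw [Function.update_self]⟩
  have hle2 := Le.trans hd hB hq hq1 hle1 hle
  have hbA : b ∈ A := by
    by_contra h
    refine (hle2 j hj).2.1 b (by rw [segC_self]) hb1 ?_
    rw [segC_self]
    exact ⟨(hq1.1 j hj).1 b hb1, h⟩
  obtain ⟨E, h3, -, h4⟩ := hAg b hbA
  have hw := segC_mem hd hj hl hp h3
  have hq2 := addE_mem hB hq1 hw
  have hle3 := addE_le hd hB hq1 hw
  have hle4 := Le.trans hd hB hq1 hq2 hle3 hle2
  refine ⟨_, hq2, Le.trans hd hB hq1 hq2 hle3 hle1, hn.mono _ hw _ hq2 ?_ x h4⟩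
  intro i hi
  by_cases e : i = j
  · subst e
    refine (dirAt_of ?_ subset_union_right ?_).2
    · rw [segC_self]; exact hb1
    · have := (hle4 i hi).2.2.2
      rw [segC_self] at this ⊢
      exact this
  · exact (leAt_congr rfl (fun _ _ => rfl) (segC_ne e l p _ _)).1 (hle4 i hi)

omit [WellFoundedLT J] in
/-- Removing the largest new point of a deciding condition. -/
theorem seg_step (hc : IsLowerSet c) (hd : IsLowerSet d) (hB : BasicOn D d) {Z : Type u}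
    {dec : Cnd J Ω → Z → Prop} (hn : IsNm (Low D d) (Le D d) dec)
    (h₀ : ∀ j ∈ d, j ∉ c → (D j).Comp #Z) {p' p'' : Cnd J Ω} (hp' : p' ∈ Low D d)
    (hp'' : p'' ∈ Low D d) (hs : ∀ j, (p'' j).s = (p' j).s) (ht : ∀ j, (p'' j).t = (p' j).t)
    (hE : ∀ j, (p' j).E ⊆ (p'' j).E)
    (hbad : ∀ j ∈ d, j ∉ c → ∀ l ∈ Low D (Iio j), (D j).null (segBad D dec p' j l) →
      segBad D dec p' j l ⊆ (p'' j).E)
    (hred : ∀ j ∈ d, j ∉ c → ∀ x, ∀ r ∈ Low D d, (∀ i ∈ d, j < i → DirAt D i r p') → dec r x →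
      ∃ l ∈ Low D (Iic j), strip l = strip (res (Iic j) r) ∧ Le D (Iic j) l r ∧
        dec (glue (Iic j) l p') x)
    {r : Cnd J Ω} (hr : r ∈ Low D d) (hle : ∀ i ∈ d, i ∉ c → LeAt D i r p'') {x : Z}
    (hx : dec r x) {j : J} (hj : j ∈ d) (hjc : j ∉ c) (hne : (r j).s ≠ (p'' j).s)
    (hmax : ∀ i ∈ d, j < i → (r i).s = (p'' i).s) :
    ∃ r' ∈ Low D d, Le D c r' r ∧ (∀ i ∈ d, i ∉ c → LeAt D i r' p'') ∧ (∃ x, dec r' x) ∧
      ∀ i ∈ d, j ≤ i → (r' i).s = (p'' i).s := by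
  have hcj : c ⊆ Iio j := fun i hi => lt_of_not_ge fun h => hjc (hc h hi)
  have hjd : Iic j ⊆ d := fun i hi => hd hi hj
  have hjd' : Iio j ⊆ d := fun i hi => hd (le_of_lt hi) hj
  have hT : ∀ i ∈ d, TDir D i p'' p' := fun i hi => ⟨hs i, hE i, by
    rw [ht i]
    exact (hB i hi).refl _ (t_mem hB hp' hi) _ (ctop_mem (hB.anti (bs_sub hd hi)))⟩
  have hnone : (p'' j).s = none := by
    cases e : (p'' j).s with
    | none => rfl
    | some b => exact absurd (((hle j hj hjc).1 b e).trans e.symm) hne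
  obtain ⟨a, ha⟩ : ∃ a, (r j).s = some a := by
    cases e : (r j).s with
    | none => exact absurd (e.trans hnone.symm) hne
    | some b => exact ⟨b, rfl⟩
  have haE : a ∉ (p'' j).E := (hle j hj hjc).2.1 a hnone ha
  obtain ⟨l0, hl0, hst, hl0r, hdec⟩ := hred j hj hjc x r hr (fun i hi hji =>
    ⟨(hmax i hi hji).trans (hs i), (hle i hi fun h => hjc (hc hji.le h)).trans_tdir hd hB hi hr
      (hT i hi)⟩) hx
  have hl0d : l0 ∈ Low D d := Low_mono hB hjd hl0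
  have hl : res (Iio j) l0 ∈ Low D (Iio j) := res_mem hl0 Iio_subset_Iic_self
  have hl0s : (l0 j).s = some a := by
    have := (strip_eq_iff.1 hst j).1
    rw [res_of_mem (mem_Iic.2 le_rfl)] at this
    exact this.trans ha
  have hl0j : l0 j = ⟨some a, (l0 j).E, (l0 j).t⟩ := by rw [← hl0s]
  have hab : a ∈ segBad D dec p' j (res (Iio j) l0) := by
    refine ⟨(hr.1 j hj).1 a ha, x, (l0 j).t, (l0 j).E, ?_, ?_, ?_⟩
    · rw [← hl0j]; exact hl0d.1 j hj
    · rw [res_res (sub j)]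
      exact (LeAt.trans hd hB hj hr hl0d (hl0r.anti ((sub j).trans Iio_subset_Iic_self))
        (hl0r j (mem_Iic.2 le_rfl)) ((hle j hj hjc).trans_tdir hd hB hj hr (hT j hj))).2.2.2
    · rw [← hl0j]
      convert hdec using 1
      funext i
      rcases lt_trichotomy i j with h | h | h
      · rw [segC_lt h, res_of_mem (mem_Iio.2 h), glue_of_mem (mem_Iic.2 h.le)]
      · rw [h, segC_self, glue_of_mem (mem_Iic.2 le_rfl)]
      · rw [segC_gt h, glue_of_notMem (c := Iic j) (not_le.2 h)]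
  obtain ⟨E, t, x', hok, hlt, hdec'⟩ := seg_remove hd hB hn hj (h₀ j hj hjc) hp' hl
    (fun h => haE (hbad j hj hjc _ hl h hab))
  have h3 := segC_mem hd hj hl hp' hok
  have h4 := addE_mem hB h3 hp''
  have h43 := addE_le hd hB h3 hp''
  have h4l : Le D (Iio j) (addE (segC j (res (Iio j) l0) p' ⟨none, E, t⟩) p'') l0 :=
    (le_congr (isLowerSet_Iio j) (fun _ _ => rfl) fun i hi => by
      rw [segC_lt hi, res_of_mem hi]).1 (h43.anti hjd')
  have h4r : Le D (Iio j) (addE (segC j (res (Iio j) l0) p' ⟨none, E, t⟩) p'') r :=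
    Le.trans' hd hB (isLowerSet_Iio j) hjd' hl0d h4 h4l (hl0r.anti Iio_subset_Iic_self)
  have hdir : ∀ i ∈ d, j ≤ i → DirAt D i (addE (segC j (res (Iio j) l0) p' ⟨none, E, t⟩) p'') p'' := by
    intro i hi hji
    rcases hji.eq_or_lt with e | h
    · subst e
      refine dirAt_of ?_ subset_union_right ?_
      · change (segC j (res (Iio j) l0) p' ⟨none, E, t⟩ j).s = _
        rw [segC_self, hnone]
      · change (D j).le (segC j (res (Iio j) l0) p' ⟨none, E, t⟩ j).t _ _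
        rw [segC_self, ht j]
        rw [res_res (sub j)] at hlt
        exact tle_mono hd hB hj hl0d h4 (h4l.anti (sub j)) hlt
    · exact dirAt_addE hd hB h3 hp'' hi (by rw [segC_gt h, hs i]) (by rw [segC_gt h, ht i])
        subset_union_right
  refine ⟨_, h4, h4r.anti hcj, fun i hi hic => ?_, ⟨x', hn.mono _ h3 _ h4 h43 x' hdec'⟩,
    fun i hi hji => (hdir i hi hji).1⟩
  rcases lt_or_ge i j with h | h
  · exact LeAt.trans hd hB hi hr h4 (h4r.anti ((sub i).trans (Iio_subset_Iio h.le))) (h4r i h)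
      (hle i hi hic)
  · exact (hdir i hi h).2

/-- Removing all new points of a deciding condition. -/
theorem seg_claim (hc : IsLowerSet c) (hd : IsLowerSet d) (hcd : c ⊆ d) (hB : BasicOn D d)
    {Φ : Cnd J Ω → Prop} {p'' : Cnd J Ω}
    (step : ∀ r ∈ Low D d, (∀ i ∈ d, i ∉ c → LeAt D i r p'') → Φ r → ∀ j ∈ d, j ∉ c →
      (r j).s ≠ (p'' j).s → (∀ i ∈ d, j < i → (r i).s = (p'' i).s) →
      ∃ r' ∈ Low D d, Le D c r' r ∧ (∀ i ∈ d, i ∉ c → LeAt D i r' p'') ∧ Φ r' ∧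
        ∀ i ∈ d, j ≤ i → (r' i).s = (p'' i).s)
    {r : Cnd J Ω} (hr : r ∈ Low D d) (hle : ∀ i ∈ d, i ∉ c → LeAt D i r p'') (hx : Φ r) :
    ∃ r' ∈ Low D d, Le D c r' r ∧ (∀ i ∈ d, i ∉ c → DirAt D i r' p'') ∧ Φ r' := by
  have aux : ∀ r ∈ Low D d, (∀ i ∈ d, i ∉ c → LeAt D i r p'') → Φ r →
      (∃ r' ∈ Low D d, Le D c r' r ∧ (∀ i ∈ d, i ∉ c → DirAt D i r' p'') ∧ Φ r') ∨
      ∃ j ∈ d, (r j).s ≠ (p'' j).s ∧ ∃ r' ∈ Low D d, Le D c r' r ∧
        (∀ i ∈ d, i ∉ c → LeAt D i r' p'') ∧ Φ r' ∧ ∀ i ∈ d, j ≤ i → (r' i).s = (p'' i).s := by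
    intro r hr hle hx
    by_cases hX : {j | j ∈ d ∧ j ∉ c ∧ (r j).s ≠ (p'' j).s}.Nonempty
    · have hfin : {j | j ∈ d ∧ j ∉ c ∧ (r j).s ≠ (p'' j).s}.Finite := by
        refine hr.2.2.subset fun j hj h => ?_
        cases e : (p'' j).s with
        | none => exact hj.2.2 (h.trans e.symm)
        | some b =>
          have := (hle j hj.1 hj.2.1).1 b e
          rw [h] at this
          simp at this
      obtain ⟨j, hj, hmax⟩ := exists_max_image _ id hfin hX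
      refine Or.inr ⟨j, hj.1, hj.2.2, step r hr hle hx j hj.1 hj.2.1 hj.2.2 fun i hi hji => ?_⟩
      by_contra h
      exact absurd (hmax i ⟨hi, fun h' => hj.2.1 (hc hji.le h'), h⟩) (not_le.2 hji)
    · refine Or.inl ⟨r, hr, (Le.refl hd hB hr).anti hcd, fun i hi hic => ⟨?_, hle i hi hic⟩, hx⟩
      by_contra h
      exact hX ⟨i, hi, hic, h⟩
  have main : ∀ j, ∀ r ∈ Low D d, (∀ i ∈ d, i ∉ c → LeAt D i r p'') → Φ r →
      (∀ i ∈ d, j ≤ i → (r i).s = (p'' i).s) →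
      ∃ r' ∈ Low D d, Le D c r' r ∧ (∀ i ∈ d, i ∉ c → DirAt D i r' p'') ∧ Φ r' := by
    intro j
    induction j using WellFoundedLT.induction with
    | _ j ih =>
    intro r hr hle hx hj
    rcases aux r hr hle hx with h | ⟨j', hj', hne, r', hr', h1, h2, h3, h4⟩
    · exact h
    · obtain ⟨r'', hr'', h5, h6⟩ :=
        ih j' (lt_of_not_ge fun h => hne (hj j' hj' h)) r' hr' h2 h3 h4
      exact ⟨r'', hr'', Le.trans' hd hB hc hcd hr' hr'' h5 h1, h6⟩
  rcases aux r hr hle hx with h | ⟨j', -, -, r', hr', h1, h2, h3, h4⟩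
  · exact h
  · obtain ⟨r'', hr'', h5, h6⟩ := main j' r' hr' h2 h3 h4
    exact ⟨r'', hr'', Le.trans' hd hB hc hcd hr' hr'' h5 h1, h6⟩

/-- The Prikry property of a segment whose orders depend only on the coordinates below it. -/
theorem seg_tail (hc : IsLowerSet c) (hd : IsLowerSet d) (hcd : c ⊆ d) (hB : BasicOn D d)
    (hbs : ∀ j ∈ d, j ∉ c → bs j = c) {Z : Type u} [Nonempty Z] (dec : Cnd J Ω → Z → Prop)
    (hn : IsNm (Low D d) (Le D d) dec)
    (h₀ : ∀ j ∈ d, j ∉ c → (D j).Comp #Z)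
    (h₁ : ∀ j ∈ d, j ∉ c → (D j).Comp #(Low D (Iio j)))
    (h₂ : ∀ j ∈ d, j ∉ c → Cl D j
      #{w : J × Cnd J Ω | w.1 ∈ d ∧ w.1 ∉ c ∧ w.1 < j ∧ w.2 ∈ Keys D (Iic w.1)})
    (h₃ : ∀ j ∈ d, j ∉ c → Cl D j #(Low D c))
    {p : Cnd J Ω} (hp : p ∈ Low D d) :
    ∃ p' ∈ Low D d, TExt D c d p' p ∧ ∀ l ∈ Low D c, Le D c l p →
      ∃ l' ∈ Low D c, Le D c l' l ∧ ∃ x, dec (glue c l' p') x := by
  classical
  obtain ⟨p', hp', hext, val, hval⟩ := reduce (c := c) (A := {j : J // j ∈ d ∧ j ∉ c})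
    (ι := PUnit.{u + 1}) hd hB (fun a => Iic a.1) (fun a => isLowerSet_Iic a.1)
    (fun a i hi => le_of_not_gt fun h => a.2.2 (hc h.le hi)) (fun a i hi => hd hi a.2.1)
    (fun _ _ => True) (fun _ => dec) (fun _ => hn) (fun j hj hjc => (h₂ j hj hjc).anti (by
      refine mk_le_of_injective (f := fun w => ⟨(w.1.1.1, w.1.2.1),
        w.1.1.2.1, w.1.1.2.2, not_le.1 w.2.1, w.2.2.1⟩) ?_
      rintro ⟨⟨⟨a, ha⟩, q, i⟩, h⟩ ⟨⟨⟨a', ha'⟩, q', i'⟩, h'⟩ e
      simp only [Subtype.mk.injEq, Prod.mk.injEq] at e ⊢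
      exact ⟨e.1, e.2, trivial⟩)) hp
  let N : J → Set Ω := fun j => if j ∈ d ∧ j ∉ c then
    ⋃ l : {l : Cnd J Ω // l ∈ Low D (Iio j) ∧ (D j).null (segBad D dec p' j l)},
      segBad D dec p' j l.1 else ∅
  have hN : ∀ j ∈ d, N j ⊆ (D j).Pt ∧ (D j).null (N j) := by
    intro j hj
    by_cases hjc : j ∈ c
    · have : N j = ∅ := if_neg fun h => h.2 hjc
      rw [this]
      exact ⟨empty_subset _, (hB j hj).null_empty⟩
    · have : N j = _ := if_pos ⟨hj, hjc⟩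
      rw [this]
      refine ⟨iUnion_subset fun l a ha => ha.1, h₁ j hj hjc _ _ ?_ fun l => l.2.2⟩
      exact mk_le_of_injective (f := fun l => ⟨l.1, l.2.1⟩) fun l l' e =>
        Subtype.ext (Subtype.mk.inj e)
  let p'' : Cnd J Ω := fun j => ⟨(p' j).s, (p' j).E ∪ N j, (p' j).t⟩
  have hN' : ∀ j, ¬ (j ∈ d ∧ j ∉ c) → p'' j = p' j := by
    intro j hj
    have : N j = ∅ := if_neg hj
    simp only [p'', this, union_empty]
  have hp'' : p'' ∈ Low D d := by
    refine ⟨fun j hj => ⟨(hp'.1 j hj).1, union_subset (hp'.1 j hj).2.1 (hN j hj).1,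
      (hB j hj).null_union _ _ (hp'.1 j hj).2.2.1 (hN j hj).2, (hp'.1 j hj).2.2.2⟩,
      fun j hj => ?_, hp'.2.2⟩
    rw [hN' j fun h => hj h.1]
    exact hp'.2.1 j hj
  have hext' : TExt D c d p'' p' :=
    ⟨fun j hj => hN' j fun h => h.2 hj, fun j hj _ => ⟨rfl, subset_union_left,
      (hB j hj).refl _ (t_mem hB hp' hj) _ (ctop_mem (hB.anti (bs_sub hd hj)))⟩⟩
  have hbad : ∀ j ∈ d, j ∉ c → ∀ l ∈ Low D (Iio j), (D j).null (segBad D dec p' j l) →
      segBad D dec p' j l ⊆ (p'' j).E := by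
    intro j hj hjc l hl h a ha
    have : N j = _ := if_pos ⟨hj, hjc⟩
    refine Or.inr ?_
    rw [this]
    exact mem_iUnion.2 ⟨⟨l, hl, h⟩, ha⟩
  obtain ⟨q, hq, hqe, hfin⟩ := full_mix hc hd hcd hB
    (fun j hj hjc => ⟨(hbs j hj hjc).ge, Or.inl (h₃ j hj hjc)⟩) (fun r => ∃ x, dec r x)
    (fun r hr r' hr' h ⟨x, hx⟩ => ⟨x, hn.mono r hr r' hr' h x hx⟩) hp'' p (by
      intro l hl _
      have hg := glue_mem' hl hcd hp''
      obtain ⟨r, hr, hrg, hx⟩ := hn.dense _ hg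
      obtain ⟨r', hr', h1, h2⟩ := seg_claim hc hd hcd hB (Φ := fun r => ∃ x, dec r x) (p'' := p'')
        (fun r hr hle ⟨x, hx⟩ j hj hjc hne hmax => seg_step hc hd hB hn h₀ hp' hp''
          (fun _ => rfl) (fun _ => rfl) (fun _ => subset_union_left) hbad
          (fun j hj hjc x r hr h hx => (hval ⟨j, hj, hjc⟩ PUnit.unit x trivial r hr
            (fun i hi hji => h i hi (not_le.1 hji)) hx).2) hr hle hx hj hjc hne hmax) hr
        (fun i hi hic => (leAt_congr rfl (fun _ _ => rfl) (glue_of_notMem hic)).1 (hrg i hi)) hx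
      exact ⟨r', hr', Le.trans' hd hB hc hcd hr hr' h1
        ((le_glue_right hc Subset.rfl).1 (hrg.anti hcd)), h2⟩)
  exact ⟨q, hq, hqe.trans hd hB (hext'.trans hd hB hext), hfin⟩

end Pool.Agent.MP_a2558b_lc
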