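import Pool.Agent.MP_a2558b_lc.SemUD

namespace Pool.Agent.MP_a2558b_lc

open Pool.Agent.MP_c6cf52_lc Name Set

universe u

variable {P : Type u} [Preorder P] [OrderTop P] {Ω : Type u} [LinearOrder Ω] [WellFoundedLT Ω]

omit [WellFoundedLT Ω] in
theorem triO (a b : Ω) : a < b ∨ a = b ∨ b < a := lt_trichotomy a b

theorem oN_eq (x : Ω) : (oN x : Name P) = sN (Iio x) := ordN_eq wfO x

theorem E_sN {g : Gen P} {s : Set Ω} (h : sN s ∈ g.N) {x : g.M} :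
    g.E x (g.v (sN s)) ↔ ∃ y ∈ s, oN y ∈ g.N ∧ g.v (oN y) = x := Gen.E_setN wfO h

theorem E_oN {g : Gen P} {a : Ω} (h : oN a ∈ g.N) {x : g.M} :
    g.E x (g.v (oN a)) ↔ ∃ y, y < a ∧ oN y ∈ g.N ∧ g.v (oN y) = x := Gen.E_ordN wfO h

theorem oN_inj {g : Gen P} {a b : Ω} (ha : oN a ∈ g.N) (hb : oN b ∈ g.N)
    (h : g.v (oN a) = g.v (oN b)) : a = b := Gen.ord_inj wfO triO ha hb h

theorem oN_lt_iff {g : Gen P} {a b : Ω} (ha : oN a ∈ g.N) (hb : oN b ∈ g.N) :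
    g.E (g.v (oN a)) (g.v (oN b)) ↔ a < b := Gen.ord_lt_iff wfO triO ha hb

theorem oN_mem_sN_iff {g : Gen P} {s : Set Ω} {a : Ω} (ha : oN a ∈ g.N) (hs : sN s ∈ g.N) :
    g.E (g.v (oN a)) (g.v (sN s)) ↔ a ∈ s := Gen.ord_mem_setN_iff wfO triO ha hs

theorem isOrd_sN {g : Gen P} {s : Set Ω} (hs : sN s ∈ g.N) (low : ∀ a b, a < b → b ∈ s → a ∈ s) :
    IsOrd g.E (g.v (sN s)) := Gen.isOrd_setN wfO triO hs low

theorem isOrd_oN {g : Gen P} {a : Ω} (ha : oN a ∈ g.N) : IsOrd g.E (g.v (oN a)) := by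
  rw [oN_eq] at ha ⊢
  exact isOrd_sN ha fun _ _ h h' => lt_trans h h'

/-- A generic filter through a condition whose name set contains a given list. -/
theorem exists_gen_list (p : P) (l : List (Name P)) :
    ∃ g : Gen P, p ∈ g.G ∧ ∀ x ∈ l, x ∈ g.N := by
  obtain ⟨g, hg, h⟩ := exists_gen p {x | x ∈ l} (List.finite_toSet l).countable
  exact ⟨g, hg, fun x hx => h hx⟩

/-- `q` forces that `σ` maps the ordinal `i` to the ordinal `x`. -/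
def FApp (σ : Name P) (q : P) (i x : Ω) : Prop :=
  ∀ g : Gen P, q ∈ g.G → σ ∈ g.N → oN i ∈ g.N → oN x ∈ g.N →
    App g.E (g.v σ) (g.v (oN i)) (g.v (oN x))

theorem FApp.mono {σ : Name P} {p q : P} {i x : Ω} (h : FApp σ p i x) (hq : q ≤ p) :
    FApp σ q i x := fun g hg => h g (g.up hg hq)

theorem fApp_of_app {g : Gen P} {σ : Name P} {i x : Ω} (hσ : σ ∈ g.N) (hi : oN i ∈ g.N)
    (hx : oN x ∈ g.N) (h : App g.E (g.v σ) (g.v (oN i)) (g.v (oN x))) {p : P} (hp : p ∈ g.G) :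
    ∃ r ∈ g.G, r ≤ p ∧ FApp σ r i x := by
  obtain ⟨s, hs, H⟩ := Gen.transfer_app hσ hi hx h
  obtain ⟨r, hr, h₁, h₂⟩ := g.dir hp hs
  exact ⟨r, hr, h₁, fun g' hg' => H g' (g'.up hg' h₂)⟩

/-- `p` forces that `σ` is a function from `A` to `B`. -/
def FFun (σ : Name P) (p : P) (A B : Set Ω) : Prop :=
  ∀ g : Gen P, p ∈ g.G → σ ∈ g.N → sN A ∈ g.N → sN B ∈ g.N →
    IsFun g.E (g.v σ) (g.v (sN A)) (g.v (sN B))

theorem FFun.exists_val {σ : Name P} {p r : P} {A B : Set Ω} (hp : FFun σ p A B) (hr : r ≤ p)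
    {i : Ω} (hi : i ∈ A) : ∃ t ≤ r, ∃ x ∈ B, FApp σ t i x := by
  obtain ⟨g, hg, hl⟩ := exists_gen_list r [σ, sN A, sN B, oN i]
  simp only [List.mem_cons, List.not_mem_nil, or_false, forall_eq_or_imp, forall_eq] at hl
  obtain ⟨hσ, hA, hB, hiN⟩ := hl
  have hf := hp g (g.up hg hr) hσ hA hB
  obtain ⟨b, hb, happ⟩ := Gen.fun_ex hf ((oN_mem_sN_iff hiN hA).2 hi)
  obtain ⟨x, hx, hxN, rfl⟩ := (E_sN hB).1 hb
  obtain ⟨t, -, ht, H⟩ := fApp_of_app hσ hiN hxN happ hg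
  exact ⟨t, ht, x, hx, H⟩

theorem FFun.uniq {σ : Name P} {p r : P} {A B : Set Ω} (hp : FFun σ p A B) (hr : r ≤ p)
    {i x y : Ω} (hx : FApp σ r i x) (hy : FApp σ r i y) : x = y := by
  obtain ⟨g, hg, hl⟩ := exists_gen_list r [σ, sN A, sN B, oN i, oN x, oN y]
  simp only [List.mem_cons, List.not_mem_nil, or_false, forall_eq_or_imp, forall_eq] at hl
  obtain ⟨hσ, hA, hB, hiN, hxN, hyN⟩ := hl
  have hf := hp g (g.up hg hr) hσ hA hB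
  exact oN_inj hxN hyN (Gen.fun_uniq hf (hx g hg hσ hiN hxN) (hy g hg hσ hiN hyN))

/-- The decision relation for the value of `σ` at `i`. -/
def mkNm {σ : Name P} {p : P} {A B : Set Ω} (hp : FFun σ p A B) (x₀ i : Ω) : Nm P Ω where
  dec q x := (i ∈ A ∧ q ≤ p ∧ x ∈ B ∧ FApp σ q i x) ∨ ((i ∉ A ∨ ∀ r ≤ q, ¬ r ≤ p) ∧ x = x₀)
  mono := by
    rintro q q' x hq (⟨h₁, h₂, h₃, h₄⟩ | ⟨h₁, h₂⟩)
    · exact Or.inl ⟨h₁, hq.trans h₂, h₃, h₄.mono hq⟩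
    · exact Or.inr ⟨h₁.imp id fun h r hr => h r (hr.trans hq), h₂⟩
  dense := by
    intro q
    by_cases h : i ∉ A ∨ ∀ r ≤ q, ¬ r ≤ p
    · exact ⟨q, le_rfl, x₀, Or.inr ⟨h, rfl⟩⟩
    · push Not at h
      obtain ⟨hi, r, hr, hrp⟩ := h
      obtain ⟨t, ht, x, hx, H⟩ := hp.exists_val hrp hi
      exact ⟨t, ht.trans hr, x, Or.inl ⟨hi, ht.trans hrp, hx, H⟩⟩
  func := by
    rintro q x y (⟨h₁, h₂, -, h₄⟩ | ⟨h₁, h₂⟩) (⟨k₁, k₂, -, k₄⟩ | ⟨k₁, k₂⟩)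
    · exact hp.uniq h₂ h₄ k₄
    · exact (k₁.elim (fun h => h h₁) fun h => h q le_rfl h₂).elim
    · exact (h₁.elim (fun h => h k₁) fun h => h q le_rfl k₂).elim
    · exact h₂.trans k₂.symm

theorem mkNm_dec {σ : Name P} {p : P} {A B : Set Ω} (hp : FFun σ p A B) (x₀ : Ω) {i x : Ω} {q : P}
    (hi : i ∈ A) (hq : q ≤ p) (hx : x ∈ B) (h : FApp σ q i x) : (mkNm hp x₀ i).dec q x :=
  Or.inl ⟨hi, hq, hx, h⟩

theorem not_cofMap_set {A B : Set Ω} (x₁ : Ω)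
    (H : ∀ h : Ω → Nm P Ω, (∀ i ∈ A, ∀ p x, (h i).dec p x → x ∈ B) →
      ∀ p, ∃ q ≤ p, ∃ b ∈ B, ∀ i ∈ A, ∀ r ≤ q, ∀ x, (h i).dec r x → x < b)
    (g : Gen P) (hA : sN A ∈ g.N) (hB : sN B ∈ g.N) :
    ¬ CofMap g.E (g.v (sN A)) (g.v (sN B)) := by
  rintro ⟨f, hf⟩
  obtain ⟨σ, hσ, rfl⟩ := Gen.exists_v f
  have hU : UDef.{u + 1} (fun _ E w => IsFun E (w 0) (w 1) (w 2) ∧
      ∀ b, E b (w 2) → ∃ i a, App E (w 0) i a ∧ (E b a ∨ b = a)) := by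
    repeat' first
      | exact UDef.mem _ _ | exact UDef.eq _ _ | exact UDef.isFun _ _ _ | exact UDef.app _ _ _
      | apply UDef.and | apply UDef.or | apply UDef.imp | apply UDef.all | apply UDef.ex
  obtain ⟨p, -, hp⟩ := Gen.transfer hU (Gen.l3 hσ hA hB) hf
  have hF : FFun σ p A B := fun g' h₁ h₂ h₃ h₄ => (hp g' h₁ (Gen.l3 h₂ h₃ h₄)).1
  obtain ⟨x₀, hx₀⟩ : ∃ x₀ : Ω, ∀ i ∈ A, x₀ ∈ B := by
    rcases A.eq_empty_or_nonempty with rfl | ⟨i, hi⟩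
    · exact ⟨x₁, by simp⟩
    · obtain ⟨_, -, x, hx, -⟩ := hF.exists_val le_rfl hi
      exact ⟨x, fun _ _ => hx⟩
  obtain ⟨q, hq, b, hb, Hb⟩ := H (mkNm hF x₀) (by
    rintro i hi q x (⟨-, -, h, -⟩ | ⟨-, rfl⟩)
    exacts [h, hx₀ i hi]) p
  obtain ⟨g', hg', hl⟩ := exists_gen_list q [σ, sN A, sN B, oN b]
  simp only [List.mem_cons, List.not_mem_nil, or_false, forall_eq_or_imp, forall_eq] at hl
  obtain ⟨hσ', hA', hB', hbN⟩ := hl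
  obtain ⟨hf', hc⟩ := hp g' (g'.up hg' hq) (Gen.l3 hσ' hA' hB')
  obtain ⟨i, a, happ, hba⟩ := hc (g'.v (oN b)) ((oN_mem_sN_iff hbN hB').2 hb)
  obtain ⟨hi, ha⟩ := Gen.fun_mem hf' happ
  obtain ⟨i', hi', hiN, rfl⟩ := (E_sN hA').1 hi
  obtain ⟨x, hx, hxN, rfl⟩ := (E_sN hB').1 ha
  obtain ⟨r, -, hr, Hr⟩ := fApp_of_app hσ' hiN hxN happ hg'
  have h₁ : x < b := Hb i' hi' r hr x (mkNm_dec hF x₀ hi' (hr.trans hq) hx Hr)
  rcases hba with h | h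
  · exact lt_asymm h₁ ((oN_lt_iff hbN hxN).1 h)
  · exact h₁.ne' (oN_inj hbN hxN h)

theorem not_cofMap {z c : Ω} (h : Bdd P z c) (g : Gen P) (hz : oN z ∈ g.N) (hc : oN c ∈ g.N) :
    ¬ CofMap g.E (g.v (oN z)) (g.v (oN c)) := by
  rw [oN_eq] at hz hc
  rw [oN_eq, oN_eq]
  exact not_cofMap_set z h g hz hc

/-- The name of the function given by a family of decision relations. -/
noncomputable def famN (h : Ω → Nm P Ω) (z : Ω) : Name P :=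
  Gen.relN (ι := {t : Ω × P × Ω // t.1 < z ∧ (h t.1).dec t.2.1 t.2.2})
    (fun t => oN t.1.1) (fun t => oN t.1.2.2) (fun t => t.1.2.1)

theorem app_famN {h : Ω → Nm P Ω} {z : Ω} {g : Gen P} (hN : famN h z ∈ g.N) {s t : g.M} :
    App g.E (g.v (famN h z)) s t ↔ ∃ i < z, ∃ q ∈ g.G, ∃ x, (h i).dec q x ∧ oN i ∈ g.N ∧
      oN x ∈ g.N ∧ s = g.v (oN i) ∧ t = g.v (oN x) := by
  unfold famN at hN ⊢
  rw [Gen.app_relN hN]
  exact ⟨fun ⟨⟨⟨i, q, x⟩, h₁, h₂⟩, h₃, h₄⟩ => ⟨i, h₁, q, h₃, x, h₂, h₄⟩,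
    fun ⟨i, h₁, q, h₃, x, h₂, h₄⟩ => ⟨⟨⟨i, q, x⟩, h₁, h₂⟩, h₃, h₄⟩⟩

theorem isFun_famN {h : Ω → Nm P Ω} {z c : Ω} (hb : ∀ i < z, ∀ p x, (h i).dec p x → x < c)
    {g : Gen P} (hN : famN h z ∈ g.N) (hz : oN z ∈ g.N) (hc : oN c ∈ g.N) :
    IsFun g.E (g.v (famN h z)) (g.v (oN z)) (g.v (oN c)) := by
  refine ⟨fun p hp => ?_, fun a ha => ?_⟩
  · obtain ⟨⟨⟨i, q, x⟩, h₁, h₂⟩, -, h₄, h₅, rfl⟩ := (Gen.E_relN hN).1 hp
    exact ⟨_, _, (oN_lt_iff h₄ hz).2 h₁, (oN_lt_iff h₅ hc).2 (hb _ h₁ _ _ h₂), Gen.isPair_pr _ _⟩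
  · obtain ⟨i, hi, hiN, rfl⟩ := (E_oN hz).1 ha
    have hU : UDef.{u + 1} (fun _ E w => ∃ b, App E (w 0) (w 1) b) := UDef.ex (UDef.app _ _ _)
    obtain ⟨b, hb'⟩ := Gen.dens hU (Gen.l2 hN hiN) fun p _ => by
      obtain ⟨q, hq, x, hx⟩ := (h i).dense p
      refine ⟨q, hq, {oN x}, countable_singleton _, fun g' hq' hC hl => ?_⟩
      have h₁ : famN h z ∈ g'.N := hl _ (by simp)
      have h₂ : oN i ∈ g'.N := hl _ (by simp)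
      exact ⟨g'.v (oN x), (app_famN h₁).2 ⟨i, hi, q, hq', x, hx, h₂, hC rfl, rfl, rfl⟩⟩
    refine ⟨b, hb', fun b' hb'' => ?_⟩
    obtain ⟨i₁, -, q₁, hq₁, x₁, d₁, n₁, -, e₁, rfl⟩ := (app_famN hN).1 hb'
    obtain ⟨i₂, -, q₂, hq₂, x₂, d₂, n₂, -, e₂, rfl⟩ := (app_famN hN).1 hb''
    obtain rfl := oN_inj hiN n₁ e₁
    obtain rfl := oN_inj hiN n₂ e₂
    obtain ⟨r, -, k₁, k₂⟩ := g.dir hq₁ hq₂
    rw [(h i).func ((h i).mono k₂ d₂) ((h i).mono k₁ d₁)]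

theorem cofMap {z c : Ω} (h : CofN P z c) (g : Gen P) (hz : oN z ∈ g.N) (hc : oN c ∈ g.N) :
    CofMap g.E (g.v (oN z)) (g.v (oN c)) := by
  obtain ⟨h, hb, hcof⟩ := h
  refine Gen.dens (UD.cofMap 0 1) (Gen.l2 hz hc) fun p _ => ⟨p, le_rfl, {famN h z},
    countable_singleton _, fun g' _ hC hl => ?_⟩
  have hN : famN h z ∈ g'.N := hC rfl
  have hz' : oN z ∈ g'.N := hl _ (by simp)
  have hc' : oN c ∈ g'.N := hl _ (by simp)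
  refine ⟨g'.v (famN h z), isFun_famN hb hN hz' hc', fun b hb' => ?_⟩
  obtain ⟨b', hlt, hbN, rfl⟩ := (E_oN hc').1 hb'
  have hU : UDef.{u + 1} (fun _ E w => ∃ i a, App E (w 0) i a ∧ (E (w 1) a ∨ w 1 = a)) :=
    UDef.ex (UDef.ex ((UDef.app _ _ _).and ((UDef.mem _ _).or (UDef.eq _ _))))
  refine Gen.dens hU (Gen.l2 hN hbN) fun p _ => ?_
  obtain ⟨q, hq, i, hi, x, hbx, hx⟩ := hcof b' hlt p
  refine ⟨q, hq, {oN i, oN x}, (toFinite _).countable, fun g'' hq' hC hl => ?_⟩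
  have h₁ : famN h z ∈ g''.N := hl _ (by simp)
  have h₂ : oN b' ∈ g''.N := hl _ (by simp)
  have h₃ : oN i ∈ g''.N := hC (by simp)
  have h₄ : oN x ∈ g''.N := hC (by simp)
  refine ⟨g''.v (oN i), g''.v (oN x),
    (app_famN h₁).2 ⟨i, hi, q, hq', x, hx, h₃, h₄, rfl, rfl⟩, ?_⟩
  rcases hbx.lt_or_eq with h' | rfl
  · exact Or.inl ((oN_lt_iff h₂ h₄).2 h')
  · exact Or.inr rfl

theorem not_cofMap_top {z : Ω} (h : BddTop P z) (g : Gen P) (hz : oN z ∈ g.N)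
    (hk : sN (univ : Set Ω) ∈ g.N) : ¬ CofMap g.E (g.v (oN z)) (g.v (sN (univ : Set Ω))) := by
  rw [oN_eq] at hz
  rw [oN_eq]
  refine not_cofMap_set z (fun f _ p => ?_) g hz hk
  obtain ⟨q, hq, b, H⟩ := h f p
  exact ⟨q, hq, b, trivial, H⟩

/-- A function of the model from `k` to `k` has closure points in `S β` below every condition. -/
theorem exists_closure_pt (F : Facts P Ω) {β : Ω} (hβ : β < F.w1) (σ : Name P) (p : P)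
    (hp : ∀ g : Gen P, p ∈ g.G → σ ∈ g.N → sN (univ : Set Ω) ∈ g.N →
      IsFun g.E (g.v σ) (g.v (sN (univ : Set Ω))) (g.v (sN (univ : Set Ω)))) :
    ∃ r ≤ p, ∃ d ∈ F.S β, ∀ g : Gen P, r ∈ g.G → σ ∈ g.N → sN (univ : Set Ω) ∈ g.N →
      oN d ∈ g.N → ∀ a b, g.E a (g.v (oN d)) → App g.E (g.v σ) a b → g.E b (g.v (oN d)) := by
  have hF : FFun σ p (univ : Set Ω) univ := fun g h₁ h₂ h₃ _ => hp g h₁ h₂ h₃
  obtain ⟨r, hr, d, hd, H⟩ := F.stat β hβ (mkNm hF β) p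
  refine ⟨r, hr, d, hd, fun g hg hσ hk hdN a b ha happ => ?_⟩
  obtain ⟨a', ha', haN, rfl⟩ := (E_oN hdN).1 ha
  obtain ⟨x, -, hxN, rfl⟩ := (E_sN hk).1 (Gen.fun_mem (hp g (g.up hg hr) hσ hk) happ).2
  obtain ⟨t, -, ht, Ht⟩ := fApp_of_app hσ haN hxN happ hg
  exact (oN_lt_iff hxN hdN).2
    (H a' ha' t ht x (mkNm_dec hF β trivial (ht.trans hr) trivial Ht))

theorem isCof_S (F : Facts P Ω) {β d : Ω} (hβ : β < F.w1) (hd : d ∈ F.S β) (g : Gen P)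
    (h₁ : oN d ∈ g.N) (h₂ : oN (F.mu β) ∈ g.N) :
    IsCof g.E (g.v (oN d)) (g.v (oN (F.mu β))) := by
  obtain ⟨k₁, k₂⟩ := F.cofS β hβ d hd
  refine ⟨isOrd_oN h₂, cofMap k₁ g h₂ h₁, fun n hn => ?_⟩
  obtain ⟨z, hz, hzN, rfl⟩ := (E_oN h₂).1 hn
  exact not_cofMap (k₂ z hz) g hzN h₁

end Pool.Agent.MP_a2558b_lc
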