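import Pool.Agent.MP_a2558b_lc.Sem2X1

namespace Pool.Agent.MP_a2558b_lc

open Pool.Agent.MP_c6cf52_lc Name Set

universe u v

namespace S2

variable {P : Type u} [Preorder P] [OrderTop P] {Ω : Type u} [LinearOrder Ω] [WellFoundedLT Ω]

open Gen Gen.Cd

/-- The positions whose ordinal names lie in the generic model. -/
def K (g : Gen P) (Ω : Type u) [LinearOrder Ω] [WellFoundedLT Ω] : Type u :=
  {x : Ω // oN x ∈ g.N}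

/-- The value of the name of the set of all positions. -/
noncomputable def kk (g : Gen P) (Ω : Type u) [LinearOrder Ω] [WellFoundedLT Ω] : g.M :=
  g.v (sN (univ : Set Ω))

variable {g : Gen P}

instance : LinearOrder (K g Ω) := inferInstanceAs (LinearOrder {x : Ω // oN x ∈ g.N})

instance : WellFoundedLT (K g Ω) := inferInstanceAs (WellFoundedLT {x : Ω // oN x ∈ g.N})

theorem K_lt {a b : K g Ω} : a < b ↔ a.1 < b.1 := Iff.rfl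

theorem K_le {a b : K g Ω} : a ≤ b ↔ a.1 ≤ b.1 := Iff.rfl

variable [hk : Fact (sN (univ : Set Ω) ∈ g.N)]

noncomputable instance : Cd g (K g Ω) where
  ι := fun x => g.v (oN x.1)
  inj := fun a b h => Subtype.ext (oN_inj a.2 b.2 h)
  rng := PD.congr (D1.memc (kk g Ω)) fun _ => (E_sN hk.out).trans
    ⟨fun ⟨y, _, h, e⟩ => ⟨⟨y, h⟩, e⟩, fun ⟨y, e⟩ => ⟨y.1, trivial, y.2, e⟩⟩

theorem ι_K (a : K g Ω) : (ι a : g.M) = g.v (oN a.1) := rfl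

theorem E_kk {x : g.M} : g.E x (kk g Ω) ↔ ∃ a : K g Ω, ι a = x :=
  (E_sN hk.out).trans ⟨fun ⟨y, _, h, e⟩ => ⟨⟨y, h⟩, e⟩, fun ⟨y, e⟩ => ⟨y.1, trivial, y.2, e⟩⟩

theorem mem_kk (a : K g Ω) : g.E (ι a) (kk g Ω) := E_kk.2 ⟨a, rfl⟩

instance : Bd g (K g Ω) := ⟨⟨kk g Ω, mem_kk⟩⟩

theorem lt_iff {a b : K g Ω} : g.E (ι a) (ι b) ↔ a < b := oN_lt a.2 b.2

theorem E_ι {a : K g Ω} {x : g.M} : g.E x (ι a) ↔ ∃ b < a, ι b = x :=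
  (E_oN a.2).trans ⟨fun ⟨y, h₁, h, e⟩ => ⟨⟨y, h⟩, h₁, e⟩, fun ⟨y, h, e⟩ => ⟨y.1, h, y.2, e⟩⟩

theorem le_iff {a b : K g Ω} : g.E (ι a) (ι b) ∨ (ι a : g.M) = ι b ↔ a ≤ b := by
  rw [lt_iff, inj.eq_iff, le_iff_lt_or_eq]

@[fun_prop] theorem tm_K_lt {Γ : Type*} [Cd g Γ] {f h : Γ → K g Ω} (hf : g.Tm f) (hh : g.Tm h) :
    g.Tm (fun x => f x < h x) := ((tm_E hf.ι hh.ι).df.congr fun _ => lt_iff).tm

@[fun_prop] theorem tm_K_le {Γ : Type*} [Cd g Γ] {f h : Γ → K g Ω} (hf : g.Tm f) (hh : g.Tm h) :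
    g.Tm (fun x => f x ≤ h x) := ((tm_K_lt hh hf).df.not.congr fun _ => not_lt).tm

theorem bdd_gen {z : K g Ω} {d : g.M} (hd : ∀ x, g.E x d → ∃ y : K g Ω, ι y = x)
    (h : ¬ CofMap g.E (ι z) d) {R : K g Ω → K g Ω → Prop}
    (hR : g.Tm (fun p : K g Ω × K g Ω => R p.1 p.2))
    (tot : ∀ i < z, ∃ c, g.E (ι c) d ∧ R i c) :
    ∃ e : K g Ω, g.E (ι e) d ∧ ∀ i < z, ∃ c < e, R i c := by
  obtain ⟨f, hf, H⟩ := tm_choice (Q := fun (i c : K g Ω) => i < z → g.E (ι c) d ∧ R i c)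
    (by fun_prop) fun i => by
      by_cases hi : i < z
      · obtain ⟨c, hc⟩ := tot i hi
        exact ⟨c, fun _ => hc⟩
      · exact ⟨i, fun h => absurd h hi⟩
  obtain ⟨F, hF₁, hF₂⟩ := exists_graph (g := g) (Q := fun i : K g Ω => i < z)
    (Tm.df (by fun_prop)) hf
  by_contra hn
  push Not at hn
  refine h ⟨F, ⟨fun p hp => ?_, fun a ha => ?_⟩, fun b hb => ?_⟩
  · obtain ⟨x, hx, rfl⟩ := hF₁ p hp
    exact ⟨_, _, lt_iff.2 hx, (H x hx).1, isPair_pr _ _⟩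
  · obtain ⟨x, hx, rfl⟩ := E_ι.1 ha
    refine ⟨ι (f x), (hF₂ _ _).2 ⟨x, hx, rfl, rfl⟩, fun b hb => ?_⟩
    obtain ⟨y, -, e, rfl⟩ := (hF₂ _ _).1 hb
    rw [inj e]
  · obtain ⟨e, rfl⟩ := hd b hb
    obtain ⟨i, hi, h'⟩ := hn e hb
    exact ⟨ι i, ι (f i), (hF₂ _ _).2 ⟨i, hi, rfl, rfl⟩,
      le_iff.2 (not_lt.1 fun hlt => h' _ hlt (H i hi).2)⟩

theorem bdd_top {z : K g Ω} (h : ¬ CofMap g.E (ι z) (kk g Ω)) {R : K g Ω → K g Ω → Prop}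
    (hR : g.Tm (fun p : K g Ω × K g Ω => R p.1 p.2)) (tot : ∀ i < z, ∃ c, R i c) :
    ∃ e : K g Ω, ∀ i < z, ∃ c < e, R i c := by
  obtain ⟨e, -, he⟩ := bdd_gen (fun x hx => E_kk.1 hx) h hR fun i hi =>
    (tot i hi).imp fun c hc => ⟨mem_kk c, hc⟩
  exact ⟨e, he⟩

theorem pigeon {t d : K g Ω} (h : ¬ CofMap g.E (ι t) (ι d)) {Q : K g Ω → K g Ω → Prop}
    (hQ : g.Tm (fun p : K g Ω × K g Ω => Q p.1 p.2))
    (tot : ∀ e < d, ∃ x, e ≤ x ∧ ∃ n < t, Q n x) : ∃ n < t, ∀ a < d, ∃ x, a ≤ x ∧ Q n x := by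
  by_contra hn
  push Not at hn
  obtain ⟨e, he, H⟩ := bdd_gen (fun x hx => (E_ι.1 hx).imp fun _ h => h.2) h
    (R := fun n a => ∀ x, a ≤ x → ¬ Q n x) (by fun_prop) fun n hn' =>
      (hn n hn').imp fun a ha => ⟨lt_iff.2 ha.1, ha.2⟩
  obtain ⟨x, hx, n, hn', hq⟩ := tot e (lt_iff.1 he)
  obtain ⟨a, ha, h'⟩ := H n hn'
  exact h' x (ha.le.trans hx) hq

theorem exists_cl {l : K g Ω} {m t a Y C D O : g.M} (hl : ¬ CofMap g.E (ι l) (kk g Ω))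
    (l0 : ∃ i, i < l) (ht : ∀ n, g.E n t → g.E n (ι l))
    (hO : ∀ y, ∃ w, g.E w (ι l) ∧ ∀ i, g.E i m → (g.E i y ↔ App g.E O w i))
    (ha : IsFun g.E a (kk g Ω) Y) (hC : Unb g.E C (kk g Ω)) (b : K g Ω) :
    ∃ e : K g Ω, Cl g.E (kk g Ω) a C D t m (ι b) (ι e) := by
  have nomax : ∀ b : K g Ω, ∃ e, b < e := fun b => by
    obtain ⟨e, he⟩ := bdd_top hl (R := fun _ c => c = b) (by fun_prop) fun _ _ => ⟨b, rfl⟩
    obtain ⟨i, hi⟩ := l0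
    obtain ⟨c, hc, rfl⟩ := he i hi
    exact ⟨e, hc⟩
  obtain ⟨x, -, hx⟩ := fun_ex ha (mem_kk b)
  obtain ⟨b', hb'⟩ := nomax b
  obtain ⟨c, hcC, hc⟩ := hC.2 _ (mem_kk b')
  obtain ⟨c, rfl⟩ := E_kk.1 (hC.1 _ hcC)
  have hbc : b < c := hb'.trans_le (le_iff.1 hc)
  suffices H : ∃ e : K g Ω, (∃ h, IsInj g.E h x m) → ∀ Z n, (∀ z, g.E z Z → g.E z x) →
      g.E n t → (∃ c, g.E c (kk g Ω) ∧ ∀ z, g.E z Z → Tri g.E D n z c) →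
      ∃ c' < e, ∀ z, g.E z Z → Tri g.E D n z (ι c') by
    obtain ⟨e, he⟩ := H
    obtain ⟨e', he'⟩ := nomax (max c e)
    refine ⟨e', ⟨ι c, hcC, lt_iff.2 hbc, lt_iff.2 ((le_max_left _ _).trans_lt he')⟩,
      fun x' hx' hi Z n hZ hn hc => ?_⟩
    obtain rfl := fun_uniq ha hx hx'
    obtain ⟨c', h₁, h₂⟩ := he hi Z n hZ hn hc
    exact ⟨ι c', lt_iff.2 (h₁.trans ((le_max_right _ _).trans_lt he')), h₂⟩
  by_cases hi : ∃ h, IsInj g.E h x m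
  swap
  · exact ⟨b, fun h => absurd h hi⟩
  obtain ⟨h, hh⟩ := hi
  obtain ⟨R, hR, eR⟩ : ∃ R : K g Ω → K g Ω → K g Ω → Prop,
      g.Tm (fun p : K g Ω × K g Ω × K g Ω => R p.1 p.2.1 p.2.2) ∧ ∀ n w c, R n w c ↔
        ∀ z i, g.E z x → App g.E h z i → App g.E O (ι w) i → Tri g.E D (ι n) z (ι c) :=
    ⟨fun n w c => ∀ z i, g.E z x → App g.E h z i → App g.E O (ι w) i → Tri g.E D (ι n) z (ι c),
      by fun_prop, fun _ _ _ => Iff.rfl⟩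
  have stepA : ∀ n, ∃ e, ∀ w < l, ∃ c < e, ((∃ c', R n w c') → R n w c) := fun n =>
    bdd_top hl (R := fun w c => (∃ c', R n w c') → R n w c) (by fun_prop) fun w _ => by
      by_cases h : ∃ c', R n w c'
      · obtain ⟨c', hc'⟩ := h
        exact ⟨c', fun _ => hc'⟩
      · exact ⟨b, fun h' => absurd h' h⟩
  obtain ⟨e, he⟩ := bdd_top hl
    (R := fun n e => ∀ w < l, ∃ c < e, ((∃ c', R n w c') → R n w c)) (by fun_prop)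
    fun n _ => stepA n
  refine ⟨e, fun _ Z n hZ hn ⟨c₀, hc₀, hb⟩ => ?_⟩
  obtain ⟨n, hnl, rfl⟩ := E_ι.1 (ht n hn)
  obtain ⟨c₀, rfl⟩ := E_kk.1 hc₀
  obtain ⟨y, hy⟩ := tm_sep (g := g) (Q := fun i => ∃ z, g.E z Z ∧ App g.E h z i) (by fun_prop) m
  obtain ⟨w, hw, hO'⟩ := hO y
  obtain ⟨w, hwl, rfl⟩ := E_ι.1 hw
  obtain ⟨e', he', H⟩ := he n hnl
  obtain ⟨c', hc', H'⟩ := H w hwl
  have key : ∀ c : K g Ω, R n w c ↔ ∀ z, g.E z Z → Tri g.E D (ι n) z (ι c) := fun c => by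
    rw [eR]
    constructor
    · intro H z hz
      obtain ⟨i, hi, happ⟩ := fun_ex hh.1 (hZ z hz)
      exact H z i (hZ z hz) happ ((hO' i hi).1 ((hy i).2 ⟨hi, z, hz, happ⟩))
    · intro H z i _ happ hOi
      obtain ⟨-, z', hz', happ'⟩ := (hy i).1 ((hO' i (fun_mem hh.1 happ).2).2 hOi)
      exact H z (hh.2 _ _ _ happ' happ ▸ hz')
  exact ⟨c', hc'.trans he', (key c').1 (H' ⟨c₀, (key c₀).2 hb⟩)⟩

theorem exists_good {l : K g Ω} {m t D O S : g.M} (hl : ¬ CofMap g.E (ι l) (kk g Ω))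
    (l0 : ∃ i, i < l) (ht : ∀ n, g.E n t → g.E n (ι l))
    (hO : ∀ y, ∃ w, g.E w (ι l) ∧ ∀ i, g.E i m → (g.E i y ↔ App g.E O w i))
    (h : InI g.E (kk g Ω) S) : ∃ a C f, Good g.E (kk g Ω) S a C f D t m := by
  obtain ⟨-, a, Y, C, ha, -, hC, hS⟩ := h
  obtain ⟨f, hf, H⟩ := tm_choice
    (Q := fun (b e : K g Ω) => Cl g.E (kk g Ω) a C D t m (ι b) (ι e))
    (by unfold Cl; fun_prop) (exists_cl hl l0 ht hO ha hC.1)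
  obtain ⟨F, hF₁, hF₂⟩ := exists_graph (g := g) (Q := fun _ : K g Ω => True) Df.true hf
  refine ⟨a, C, F, ⟨fun p hp => ?_, fun x hx => ?_⟩, hC, hS, fun b e hbe => ?_⟩
  · obtain ⟨x, -, rfl⟩ := hF₁ p hp
    exact ⟨_, _, mem_kk _, mem_kk _, isPair_pr _ _⟩
  · obtain ⟨x, rfl⟩ := E_kk.1 hx
    refine ⟨ι (f x), (hF₂ _ _).2 ⟨x, trivial, rfl, rfl⟩, fun b hb => ?_⟩
    obtain ⟨y, -, e, rfl⟩ := (hF₂ _ _).1 hb
    rw [inj e]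
  · obtain ⟨x, -, rfl, rfl⟩ := (hF₂ _ _).1 hbe
    exact H x

theorem exists_chain {d t : K g Ω} {m S a C f Dm B : g.M} {D : K g Ω → K g Ω → K g Ω → Prop}
    (hD : ∀ n a b, Tri g.E Dm (ι n) (ι a) (ι b) ↔ D n a b)
    (D_trans : ∀ m a b c, D m a b → D m b c → D m a c)
    (D_mono : ∀ m m' a b, m ≤ m' → m' < t → D m a b → D m' a b)
    (D_total : ∀ a b, a < b → ∃ m < t, D m a b)
    (hG : Good g.E (kk g Ω) S a C f Dm (ι t) m) (hdS : g.E (ι d) S) (hcof : IsCof g.E (ι d) m)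
    (htm : g.E (ι t) m) (hcl : ∀ x y, g.E x (ι d) → App g.E f x y → g.E y (ι d))
    (hB₁ : ∀ x, g.E x B → g.E x (ι d)) (hB₂ : ∀ x < d, ∃ b, g.E (ι b) B ∧ x < b) :
    ∃ H, ∃ n < t, Chain g.E H B Dm (ι n) (ι d) := by
  have hT : g.Tm (fun p : K g Ω × K g Ω × K g Ω => D p.1 p.2.1 p.2.2) := by
    simp only [← hD]
    fun_prop
  obtain ⟨hf, hC, hA, hCl⟩ := hG
  have hfd : ∀ b < d, ∃ e < d, App g.E f (ι b) (ι e) := fun b hb => by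
    obtain ⟨e, -, he⟩ := fun_ex hf (mem_kk b)
    obtain ⟨e', h₁, rfl⟩ := E_ι.1 (hcl _ _ (lt_iff.2 hb) he)
    exact ⟨e', h₁, he⟩
  have hdC : g.E (ι d) C := by
    refine hC.2 _ (mem_kk d) ?_ fun x hx => ?_
    · obtain ⟨F, hF, -⟩ := hcof.2.1
      obtain ⟨b, hb, -⟩ := fun_ex hF htm
      exact ⟨b, hb⟩
    · obtain ⟨x, hx', rfl⟩ := E_ι.1 hx
      obtain ⟨e, he, happ⟩ := hfd x hx'
      obtain ⟨c, h₁, h₂, h₃⟩ := (hCl _ _ happ).1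
      obtain ⟨c, h₄, rfl⟩ := E_ι.1 h₃
      exact ⟨_, h₁, h₂, lt_iff.2 (h₄.trans he)⟩
  obtain ⟨-, A, m', hm', hU, ⟨o, ho, hsurj, -⟩, hAp⟩ := hA _ hdS hdC
  obtain rfl := isCof_unique hcof hm'
  have nc : ¬ CofMap g.E (ι t) (ι d) := hcof.2.2 _ htm
  obtain ⟨n₀, hn₀, H₀⟩ := pigeon nc (Q := fun n z => g.E (ι z) A ∧ D n z d) (by fun_prop)
    fun e he => by
      obtain ⟨z, hz, hez⟩ := hU.2 _ (lt_iff.2 he)
      obtain ⟨z, hzd, rfl⟩ := E_ι.1 (hU.1 _ hz)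
      obtain ⟨n, hn, h⟩ := D_total z d hzd
      exact ⟨z, le_iff.1 hez, n, hn, hz, h⟩
  have hAd : ∀ z : K g Ω, g.E (ι z) A → z < d := fun z hz => lt_iff.1 (hU.1 _ hz)
  have hBd : ∀ z : K g Ω, g.E (ι z) B → z < d := fun z hz => lt_iff.1 (hB₁ _ hz)
  haveI : Nonempty (K g Ω) := ⟨d⟩
  obtain ⟨r, hr, hr'⟩ := tm_choice
    (Q := fun (z : K g Ω) (i : g.M) => g.E (ι z) A → App g.E o i (ι z)) (by fun_prop) fun z => by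
      by_cases hz : g.E (ι z) A
      · obtain ⟨i, hi⟩ := hsurj _ hz
        exact ⟨i, fun _ => hi⟩
      · exact ⟨m, fun h => absurd h hz⟩
  have star : ∀ c < d, ∃ u < d, ∀ z, g.E (ι z) A → D n₀ z d → z < c → D n₀ z u := fun c hc => by
    obtain ⟨b, x, hb, hx, hxA⟩ := hAp _ (lt_iff.2 hc)
    obtain ⟨b, hb', rfl⟩ := E_ι.1 hb
    obtain ⟨e, he, happ⟩ := hfd b hb'
    have hx' : ∀ z, g.E z x → App g.E o (r (un (K g Ω) z)) z := fun z hz => by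
      obtain ⟨z', -, rfl⟩ := E_ι.1 ((hxA z).1 hz).2
      rw [un_ι]
      exact hr' z' ((hxA _).1 hz).1
    have hinj : ∃ h, IsInj g.E h x m :=
      exists_isInj (f := fun z => r (un (K g Ω) z)) (by fun_prop)
        (fun z hz => (fun_mem ho (hx' z hz)).1)
        fun z z' hz hz' e => fun_uniq ho (hx' z hz) (by rw [show r _ = r _ from e]; exact hx' z' hz')
    obtain ⟨Z, hZ⟩ := tm_sep (g := g) (Q := fun z => Tri g.E Dm (ι n₀) z (ι d)) (by fun_prop) x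
    obtain ⟨u, hu, H⟩ := (hCl _ _ happ).2 x hx hinj Z (ι n₀) (fun z hz => ((hZ z).1 hz).1)
      (lt_iff.2 hn₀) ⟨ι d, mem_kk d, fun z hz => ((hZ z).1 hz).2⟩
    obtain ⟨u, hu', rfl⟩ := E_ι.1 hu
    exact ⟨u, hu'.trans he, fun z h₁ h₂ h₃ =>
      (hD _ _ _).1 (H _ ((hZ _).2 ⟨(hxA _).2 ⟨h₁, lt_iff.2 h₃⟩, (hD _ _ _).2 h₂⟩))⟩
  obtain ⟨n₁, hn₁, H₁⟩ := pigeon nc (Q := fun n b => g.E (ι b) B ∧ ∃ z, g.E (ι z) A ∧
      D n₀ z d ∧ D n b z ∧ ∀ z', g.E (ι z') A → D n₀ z' d → b < z' → z ≤ z') (by fun_prop)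
    fun e he => by
      obtain ⟨b, hb, heb⟩ := hB₂ e he
      obtain ⟨b', hb', hbb⟩ := hB₂ b (hBd b hb)
      obtain ⟨z, hz, h₁, h₂⟩ := H₀ b' (hBd b' hb')
      obtain ⟨z, ⟨h₃, h₄, h₅⟩, hmin⟩ := wellFounded_lt.has_min
        {z : K g Ω | g.E (ι z) A ∧ D n₀ z d ∧ b < z} ⟨z, h₁, h₂, hbb.trans_le hz⟩
      obtain ⟨n, hn, h⟩ := D_total b z h₅
      exact ⟨b, heb.le, n, hn, hb, z, h₃, h₄, h, fun z' k₁ k₂ k₃ =>
        not_lt.1 (hmin z' ⟨k₁, k₂, k₃⟩)⟩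
  obtain ⟨n₂, hn₂, H₂⟩ := pigeon nc (Q := fun n c => ∃ u c', g.E (ι c') B ∧
      (∀ z, g.E (ι z) A → D n₀ z d → z < c → D n₀ z u) ∧ D n u c') (by fun_prop)
    fun e he => by
      obtain ⟨u, hu, h⟩ := star e he
      obtain ⟨c', hc', huc⟩ := hB₂ u hu
      obtain ⟨n, hn, h'⟩ := D_total u c' huc
      exact ⟨e, le_rfl, n, hn, u, c', hc', h, h'⟩
  obtain ⟨H, hH⟩ := tm_sep (g := g) (Q := fun x => ∃ b : K g Ω, ι b = x ∧ ∃ z, g.E (ι z) A ∧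
      D n₀ z d ∧ D n₁ b z ∧ ∀ z', g.E (ι z') A → D n₀ z' d → b < z' → z ≤ z') (by fun_prop) B
  have hn : max n₀ (max n₁ n₂) < t := max_lt hn₀ (max_lt hn₁ hn₂)
  refine ⟨H, _, hn, fun x hx => ?_, fun x hx => ?_⟩
  · obtain ⟨x, hx', rfl⟩ := E_ι.1 hx
    obtain ⟨b, hxb, hb, h⟩ := H₁ x hx'
    exact ⟨ι b, hb, le_iff.2 hxb, (hH _).2 ⟨hb, b, rfl, h⟩⟩
  · obtain ⟨x, hx', rfl⟩ := E_ι.1 hx
    obtain ⟨z₀, hz₀, h₁, h₂⟩ := H₀ x hx'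
    obtain ⟨c, hc, hzc⟩ := hB₂ z₀ (hAd _ h₁)
    obtain ⟨y, hy, u, c', hc', h₃, h₄⟩ := H₂ c (hBd c hc)
    refine ⟨ι c', hc', fun b _ hbx hbH => ?_⟩
    obtain ⟨-, b, rfl, z, k₁, k₂, k₃, k₄⟩ := (hH _).1 hbH
    have k₅ : z < y := ((k₄ z₀ h₁ h₂ ((lt_iff.1 hbx).trans_le hz₀)).trans_lt hzc).trans_le hy
    refine (hD _ _ _).2 (D_trans _ _ _ _ (D_trans _ _ _ _
      (D_mono _ _ _ _ ((le_max_left _ _).trans (le_max_right _ _)) hn k₃)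
      (D_mono _ _ _ _ (le_max_left _ _) hn (h₃ z k₁ k₂ k₅)))
      (D_mono _ _ _ _ ((le_max_right _ _).trans (le_max_right _ _)) hn h₄))

end S2

end Pool.Agent.MP_a2558b_lc
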