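import Pool.Agent.MP_a2558b_lc.Sem1
import Pool.Agent.MP_a2558b_lc.Sem2X2

namespace Pool.Agent.MP_a2558b_lc

open Pool.Agent.MP_c6cf52_lc Name Set

universe u

variable {P : Type u} [Preorder P] [OrderTop P] {Ω : Type u} [LinearOrder Ω] [WellFoundedLT Ω]

namespace S2

open Gen Gen.Cd

theorem exists_gen_list (p : P) (l : List (Name P)) : ∃ g : Gen P, p ∈ g.G ∧ ∀ x ∈ l, x ∈ g.N :=
  exists_gen p {x | x ∈ l} (List.finite_toSet l).countable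

theorem not_chain (F : Facts P Ω) {B : Set Ω} {d n : Ω}
    (hB : ∀ (H : Ω → Set P) (p : P), (∀ b, IsLowerSet (H b)) →
      (∀ a < d, ∀ q ≤ p, ∃ r ≤ q, ∃ b ∈ B, a ≤ b ∧ r ∈ H b) →
      (∀ a < d, ∀ q ≤ p, ∃ r ≤ q, ∃ c ∈ B, ∀ b ∈ B, b < a → ∀ s ≤ r, s ∈ H b → F.D n b c) → False)
    {g : Gen P} (h₁ : sN B ∈ g.N) (h₂ : Dn F.D ∈ g.N) (h₃ : oN n ∈ g.N) (h₄ : oN d ∈ g.N)
    (H : g.M) : ¬ Chain g.E H (g.v (sN B)) (g.v (Dn F.D)) (g.v (oN n)) (g.v (oN d)) := by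
  intro h
  obtain ⟨σ, hσ, rfl⟩ := exists_v H
  obtain ⟨p, -, hp⟩ := transfer (ud_chain 0 1 2 3 4) (lcons hσ (l4 h₁ h₂ h₃ h₄)) h
  refine hB (fun b => {s | FMem (oN b) σ s}) p (fun b r r' hr h => FMem.mono h hr)
    (fun a ha q hq => ?_) fun a ha q hq => ?_
  · obtain ⟨g', hq', hl⟩ := exists_gen_list q [oN a, σ, sN B, Dn F.D, oN n, oN d]
    have hc := hp g' (g'.up hq' hq) fun x hx => hl x (List.mem_cons_of_mem _ hx)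
    simp only [List.mem_cons, List.not_mem_nil, or_false, forall_eq_or_imp, forall_eq] at hl
    obtain ⟨k₀, k₁, k₂, k₃, k₄, k₅⟩ := hl
    obtain ⟨x, hx, hax, hxσ⟩ := hc.1 (g'.v (oN a)) ((oN_lt k₀ k₅).2 ha)
    obtain ⟨b, hb, hN, rfl⟩ := (E_sN k₂).1 hx
    obtain ⟨s, hs, hf⟩ := (v_mem_iff hN k₁).1 hxσ
    obtain ⟨r, -, e₁, e₂⟩ := g'.dir hq' hs
    refine ⟨r, e₁, b, hb, ?_, hf.mono e₂⟩
    rcases hax with h | h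
    exacts [((oN_lt k₀ hN).1 h).le, (oN_inj k₀ hN h).le]
  · obtain ⟨g', hq', hl⟩ := exists_gen_list q [oN a, σ, sN B, Dn F.D, oN n, oN d]
    have hc := hp g' (g'.up hq' hq) fun x hx => hl x (List.mem_cons_of_mem _ hx)
    simp only [List.mem_cons, List.not_mem_nil, or_false, forall_eq_or_imp, forall_eq] at hl
    obtain ⟨k₀, k₁, k₂, k₃, k₄, k₅⟩ := hl
    obtain ⟨x, hx, ht⟩ := hc.2 (g'.v (oN a)) ((oN_lt k₀ k₅).2 ha)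
    obtain ⟨c, hc, hN, rfl⟩ := (E_sN k₂).1 hx
    obtain ⟨s, hs, ht'⟩ := transfer (ud_top 0 1 2 3 4 5)
      (lcons k₁ (lcons k₂ (l4 k₃ k₄ k₀ hN))) ht
    obtain ⟨r, -, e₁, e₂⟩ := g'.dir hq' hs
    refine ⟨r, e₁, c, hc, fun b hb hba s' hs' hf => ?_⟩
    obtain ⟨g'', hs'', hl⟩ := exists_gen_list s' [oN b, σ, sN B, Dn F.D, oN n, oN a, oN c]
    have ht'' := ht' g'' (g''.up hs'' (hs'.trans e₂)) fun x hx => hl x (List.mem_cons_of_mem _ hx)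
    simp only [List.mem_cons, List.not_mem_nil, or_false, forall_eq_or_imp, forall_eq] at hl
    obtain ⟨j₀, j₁, j₂, j₃, j₄, j₅, j₆⟩ := hl
    exact (tri_Dn j₃ j₄ j₀ j₆).1 (ht'' (g''.v (oN b)) ((oN_mem_sN j₀ j₂).2 hb)
      ((oN_lt j₀ j₅).2 hba) ((v_mem_iff j₀ j₁).2 ⟨s', hs'', hf⟩))

end S2

open S2 Gen Gen.Cd in
theorem not_inI (F : Facts P Ω) {β : Ω} (hβ : β < F.w1) (g : Gen P) (h₁ : oN F.w1 ∈ g.N)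
    (h₂ : oN F.lam ∈ g.N) (h₃ : sN (univ : Set Ω) ∈ g.N) (h₄ : oN (F.mu β) ∈ g.N)
    (h₅ : sN (F.S β) ∈ g.N) :
    ¬ InI g.E (g.v (sN (univ : Set Ω))) (g.v (sN (F.S β))) := by
  intro h
  obtain ⟨O, hO⟩ := F.few β hβ
  obtain ⟨p₀, -, hp₀⟩ := transfer (UD.inI 0 1) (l2 h₃ h₅) h
  obtain ⟨g₁, hg₁, hl⟩ := exists_gen_list p₀ [sN (univ : Set Ω), sN (F.S β), oN F.w1, oN F.lam,
    oN (F.mu β), Dn F.D, On O]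
  simp only [List.mem_cons, List.not_mem_nil, or_false, forall_eq_or_imp, forall_eq] at hl
  obtain ⟨k₁, k₂, k₃, k₄, k₅, k₆, k₇⟩ := hl
  haveI : Fact (sN (univ : Set Ω) ∈ g₁.N) := ⟨k₁⟩
  obtain ⟨a, C, f, hG⟩ := exists_good (g := g₁) (Ω := Ω) (l := ⟨F.lam, k₄⟩)
    (m := g₁.v (oN (F.mu β))) (t := g₁.v (oN F.w1)) (D := g₁.v (Dn F.D)) (O := g₁.v (On O))
    (S := g₁.v (sN (F.S β))) (not_cofMap_top F.bdd_top g₁ k₄ k₁) ⟨⟨F.w1, k₃⟩, F.w1_lt⟩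
    (fun n hn => by
      obtain ⟨x, hx, hN, rfl⟩ := (E_oN k₃).1 hn
      exact (oN_lt hN k₄).2 (hx.trans F.w1_lt))
    (few_On hO k₇ k₄ k₅) (hp₀ g₁ hg₁ (l2 k₁ k₂))
  obtain ⟨a, ha, rfl⟩ := exists_v a
  obtain ⟨C, hC, rfl⟩ := exists_v C
  obtain ⟨f, hf, rfl⟩ := exists_v f
  obtain ⟨p₁, hG₁, hp₁⟩ := transfer (ud_good 0 1 2 3 4 5 6 7)
    (lcons k₁ (lcons k₂ (lcons ha (lcons hC (l4 hf k₆ k₃ k₅))))) hG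
  obtain ⟨p₂, hG₁', hp₂⟩ := transfer (UDef.isFun 0 1 1) (l2 hf k₁) hG.1
  obtain ⟨p, -, e₁, e₂⟩ := g₁.dir hG₁ hG₁'
  obtain ⟨r, hr, d, hd, hcl⟩ := exists_closure_pt F hβ f p fun g' hg' j₁ j₂ =>
    hp₂ g' (g'.up hg' e₂) (l2 j₁ j₂)
  obtain ⟨B, hB₁, hB₂, hB⟩ := F.nochain β hβ d hd
  obtain ⟨g₂, hg₂, hl⟩ := exists_gen_list r [oN d, sN B, sN (univ : Set Ω), sN (F.S β), a, C, f,
    Dn F.D, oN F.w1, oN (F.mu β)]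
  have hG₂ := hp₁ g₂ (g₂.up hg₂ (hr.trans e₁)) fun x hx =>
    hl x (List.mem_cons_of_mem _ (List.mem_cons_of_mem _ hx))
  simp only [List.mem_cons, List.not_mem_nil, or_false, forall_eq_or_imp, forall_eq] at hl
  obtain ⟨j₁, j₂, j₃, j₄, j₅, j₆, j₇, j₈, j₉, j₀⟩ := hl
  haveI : Fact (sN (univ : Set Ω) ∈ g₂.N) := ⟨j₃⟩
  obtain ⟨H, n, hn, hc⟩ := exists_chain (g := g₂) (Ω := Ω) (d := ⟨d, j₁⟩) (t := ⟨F.w1, j₉⟩)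
    (B := g₂.v (sN B)) (D := fun n a b => F.D n.1 a.1 b.1)
    (fun n a b => tri_Dn j₈ n.2 a.2 b.2) (fun _ _ _ _ => F.D_trans _ _ _ _)
    (fun _ _ _ _ => F.D_mono _ _ _ _)
    (fun a b hab => by
      obtain ⟨n, hn, hN, h⟩ := total_D F j₈ j₉ a.2 b.2 hab
      exact ⟨⟨n, hN⟩, hn, h⟩)
    hG₂ ((oN_mem_sN j₁ j₄).2 hd) (isCof_S F hβ hd g₂ j₁ j₀) ((oN_lt j₉ j₀).2 (F.w1_mu β hβ))
    (hcl g₂ hg₂ j₇ j₃ j₁)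
    (fun x hx => by
      obtain ⟨b, hb, hN, rfl⟩ := (E_sN j₂).1 hx
      exact (oN_lt hN j₁).2 (hB₁ hb))
    (fun x hx => by
      obtain ⟨b, hb, hN, h⟩ := unb_B j₂ x.2 (hB₂ x.1 hx)
      exact ⟨⟨b, hN⟩, (oN_mem_sN hN j₂).2 hb, h⟩)
  exact not_chain F (hB n.1 hn) j₂ j₈ n.2 j₁ H hc

end Pool.Agent.MP_a2558b_lc
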