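import Pool.Agent.MP_a2558b_lc.SemUD

namespace Pool.Agent.MP_a2558b_lc

open Pool.Agent.MP_c6cf52_lc Name Set

universe u v

namespace S2

section Defs

variable {M : Type v} (E : M → M → Prop)

/-- The triple `(n, a, b)` belongs to `D`. -/
def Tri (D n a b : M) : Prop := ∃ p, IsPair E p a b ∧ App E D n p

/-- The value `e` is large enough for the argument `b`. -/
def Cl (k a C D t m b e : M) : Prop :=
  (∃ c, E c C ∧ E b c ∧ E c e) ∧ ∀ x, App E a b x → (∃ h, IsInj E h x m) → ∀ Z n,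
    (∀ z, E z Z → E z x) → E n t → (∃ c, E c k ∧ ∀ z, E z Z → Tri E D n z c) →
      ∃ c, E c e ∧ ∀ z, E z Z → Tri E D n z c

/-- The property that is transferred to the second generic model. -/
def Good (k S a C f D t m : M) : Prop :=
  IsFun E f k k ∧ IsClub E C k ∧ (∀ d, E d S → E d C → Appr E a d) ∧
    ∀ b e, App E f b e → Cl E k a C D t m b e

/-- All members of `H ∩ B` below `a` are `n`-related to `c`. -/
def Top (H B D n a c : M) : Prop := ∀ b, E b B → E b a → E b H → Tri E D n b c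

/-- `H` is an unbounded chain. -/
def Chain (H B D n d : M) : Prop :=
  (∀ a, E a d → ∃ b, E b B ∧ (E a b ∨ a = b) ∧ E b H) ∧
    ∀ a, E a d → ∃ c, E c B ∧ Top E H B D n a c

end Defs

theorem ud_tri (i j k l : ℕ) : UDef.{v} (fun _ E w => Tri E (w i) (w j) (w k) (w l)) := by
  unfold Tri
  repeat' first
    | exact UDef.isPair _ _ _ | exact UDef.app _ _ _ | apply UDef.and | apply UDef.ex

theorem ud_cl (i₁ i₂ i₃ i₄ i₅ i₆ i₇ i₈ : ℕ) : UDef.{v} (fun _ E w =>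
    Cl E (w i₁) (w i₂) (w i₃) (w i₄) (w i₅) (w i₆) (w i₇) (w i₈)) := by
  unfold Cl
  repeat' first
    | exact UDef.mem _ _ | exact ud_tri _ _ _ _ | exact UDef.app _ _ _ | exact UDef.isInj _ _ _
    | apply UDef.and | apply UDef.imp | apply UDef.all | apply UDef.ex

theorem ud_good (i₁ i₂ i₃ i₄ i₅ i₆ i₇ i₈ : ℕ) : UDef.{v} (fun _ E w =>
    Good E (w i₁) (w i₂) (w i₃) (w i₄) (w i₅) (w i₆) (w i₇) (w i₈)) := by
  unfold Good
  refine (UDef.isFun _ _ _).and ((UD.isClub _ _).and (UDef.and ?_ ?_))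
  · exact UDef.all ((UDef.mem _ _).imp ((UDef.mem _ _).imp (UD.appr _ _)))
  · exact UDef.all (UDef.all ((UDef.app _ _ _).imp (ud_cl _ _ _ _ _ _ _ _)))

theorem ud_top (i₁ i₂ i₃ i₄ i₅ i₆ : ℕ) : UDef.{v} (fun _ E w =>
    Top E (w i₁) (w i₂) (w i₃) (w i₄) (w i₅) (w i₆)) := by
  unfold Top
  exact UDef.all ((UDef.mem _ _).imp ((UDef.mem _ _).imp ((UDef.mem _ _).imp (ud_tri _ _ _ _))))

theorem ud_chain (i₁ i₂ i₃ i₄ i₅ : ℕ) : UDef.{v} (fun _ E w =>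
    Chain E (w i₁) (w i₂) (w i₃) (w i₄) (w i₅)) := by
  unfold Chain
  refine UDef.and ?_ ?_
  · exact UDef.all ((UDef.mem _ _).imp (UDef.ex ((UDef.mem _ _).and
      (((UDef.mem _ _).or (UDef.eq _ _)).and (UDef.mem _ _)))))
  · exact UDef.all ((UDef.mem _ _).imp (UDef.ex ((UDef.mem _ _).and (ud_top _ _ _ _ _ _))))

variable {P : Type u} [Preorder P] [OrderTop P] {Ω : Type u} [LinearOrder Ω] [WellFoundedLT Ω]
variable {g : Gen P}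

open Gen Gen.Cd

theorem triO (a b : Ω) : a < b ∨ a = b ∨ b < a := lt_trichotomy a b

theorem E_sN {s : Set Ω} (h : sN s ∈ g.N) {x : g.M} :
    g.E x (g.v (sN s)) ↔ ∃ y ∈ s, oN y ∈ g.N ∧ g.v (oN y) = x := E_setN wfO h

theorem E_oN {a : Ω} (h : oN a ∈ g.N) {x : g.M} :
    g.E x (g.v (oN a)) ↔ ∃ y, y < a ∧ oN y ∈ g.N ∧ g.v (oN y) = x := E_ordN wfO h

theorem oN_lt {a b : Ω} (ha : oN a ∈ g.N) (hb : oN b ∈ g.N) :
    g.E (g.v (oN a)) (g.v (oN b)) ↔ a < b := ord_lt_iff wfO triO ha hb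

theorem oN_inj {a b : Ω} (ha : oN a ∈ g.N) (hb : oN b ∈ g.N)
    (h : g.v (oN a) = g.v (oN b)) : a = b := ord_inj wfO triO ha hb h

theorem oN_mem_sN {s : Set Ω} {a : Ω} (ha : oN a ∈ g.N) (hs : sN s ∈ g.N) :
    g.E (g.v (oN a)) (g.v (sN s)) ↔ a ∈ s := ord_mem_setN_iff wfO triO ha hs

theorem ord_tri {a b : g.M} (ha : IsOrd g.E a) (hb : IsOrd g.E b) (h₁ : ¬ g.E a b)
    (h₂ : ¬ g.E b a) : a = b := by
  induction a using E_wf.induction generalizing b with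
  | _ a iha =>
  induction b using E_wf.induction with
  | _ b ihb =>
  refine Gen.ext fun x => ⟨fun hx => ?_, fun hx => ?_⟩
  · by_contra h
    by_cases h' : g.E b x
    · exact h₂ (ha.1 _ _ hx h')
    · exact h₂ (iha x hx (isOrd_of_E ha hx) hb h h' ▸ hx)
  · by_contra h
    by_cases h' : g.E a x
    · exact h₁ (hb.1 _ _ hx h')
    · exact h₁ (ihb x hx (isOrd_of_E hb hx) h' h ▸ hx)

theorem isCof_unique {d m m' : g.M} (h : IsCof g.E d m) (h' : IsCof g.E d m') : m = m' :=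
  ord_tri h.1 h'.1 (fun e => h'.2.2 _ e h.2.1) (fun e => h.2.2 _ e h'.2.1)

theorem tri_iff {D n a b : g.M} : Tri g.E D n a b ↔ App g.E D n (pr a b) := by
  simp only [Tri, isPair_iff]
  exact ⟨fun ⟨_, e, h⟩ => e ▸ h, fun h => ⟨_, rfl, h⟩⟩

@[fun_prop] theorem tm_tri {Γ : Type*} [Cd g Γ] {D n a b : Γ → g.M} (hD : g.Tm D) (hn : g.Tm n)
    (ha : g.Tm a) (hb : g.Tm b) : g.Tm (fun x => Tri g.E (D x) (n x) (a x) (b x)) := by
  simp only [tri_iff]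
  fun_prop

/-- The name of the relation `D`. -/
noncomputable def Dn (D : Ω → Ω → Ω → Prop) : Name P :=
  relN (ι := {x : Ω × Ω × Ω // D x.1 x.2.1 x.2.2}) (fun x => oN x.1.1)
    (fun x => pairN (oN x.1.2.1) (oN x.1.2.2)) (fun _ => ⊤)

theorem tri_Dn {D : Ω → Ω → Ω → Prop} (h : Dn D ∈ g.N) {n a b : Ω} (hn : oN n ∈ g.N)
    (ha : oN a ∈ g.N) (hb : oN b ∈ g.N) :
    Tri g.E (g.v (Dn D)) (g.v (oN n)) (g.v (oN a)) (g.v (oN b)) ↔ D n a b := by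
  rw [tri_iff]
  unfold Dn at h ⊢
  rw [app_relN h]
  constructor
  · rintro ⟨⟨⟨n', a', b'⟩, hD⟩, -, h₁, h₂, e₁, e₂⟩
    obtain ⟨h₃, h₄⟩ := pairN_mem_iff.1 h₂
    rw [v_pairN h₃ h₄, pr_inj] at e₂
    obtain rfl := oN_inj hn h₁ e₁
    obtain rfl := oN_inj ha h₃ e₂.1
    obtain rfl := oN_inj hb h₄ e₂.2
    exact hD
  · intro hD
    exact ⟨⟨(n, a, b), hD⟩, g.top, hn, pairN_mem_iff.2 ⟨ha, hb⟩, rfl, (v_pairN ha hb).symm⟩

/-- The name of the family of subsets given by `O`. -/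
noncomputable def On (O : Ω → Ω → Set P) : Name P :=
  relN (ι := {x : Ω × Ω × P // x.2.2 ∈ O x.1 x.2.1}) (fun x => oN x.1.1)
    (fun x => oN x.1.2.1) (fun x => x.1.2.2)

theorem app_On {O : Ω → Ω → Set P} (h : On O ∈ g.N) {w i : Ω} (hw : oN w ∈ g.N)
    (hi : oN i ∈ g.N) :
    App g.E (g.v (On O)) (g.v (oN w)) (g.v (oN i)) ↔ ∃ s ∈ O w i, s ∈ g.G := by
  unfold On at h ⊢
  rw [app_relN h]
  constructor
  · rintro ⟨⟨⟨w', i', s⟩, hs⟩, hG, h₁, h₂, e₁, e₂⟩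
    obtain rfl := oN_inj hw h₁ e₁
    obtain rfl := oN_inj hi h₂ e₂
    exact ⟨s, hs, hG⟩
  · rintro ⟨s, hs, hG⟩
    exact ⟨⟨(w, i, s), hs⟩, hG, hw, hi, rfl, rfl⟩

theorem total_D (F : Facts P Ω) (hD : Dn F.D ∈ g.N) (ht : oN F.w1 ∈ g.N) {a b : Ω}
    (ha : oN a ∈ g.N) (hb : oN b ∈ g.N) (hab : a < b) :
    ∃ n < F.w1, oN n ∈ g.N ∧ F.D n a b := by
  have hU : UDef.{u + 1} (fun _ E w => ∃ n, E n (w 1) ∧ Tri E (w 0) n (w 2) (w 3)) :=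
    UDef.ex ((UDef.mem _ _).and (ud_tri _ _ _ _))
  have := dens hU (l4 hD ht ha hb) fun p _ => by
    obtain ⟨m, hm, h⟩ := F.D_total a b hab
    refine ⟨p, le_rfl, {oN m}, countable_singleton _, fun g' _ hC hl => ?_⟩
    have hm' : oN m ∈ g'.N := hC rfl
    simp only [List.mem_cons, List.not_mem_nil, or_false, forall_eq_or_imp, forall_eq] at hl
    exact ⟨g'.v (oN m), (oN_lt hm' hl.2.1).2 hm, (tri_Dn hl.1 hm' hl.2.2.1 hl.2.2.2).2 h⟩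
  obtain ⟨n, h₁, h₂⟩ := this
  obtain ⟨m, hm, hN, rfl⟩ := (E_oN ht).1 h₁
  exact ⟨m, hm, hN, (tri_Dn hD hN ha hb).1 h₂⟩

theorem unb_B {B : Set Ω} (hB : sN B ∈ g.N) {a : Ω} (ha : oN a ∈ g.N) (h : ∃ b ∈ B, a < b) :
    ∃ b ∈ B, oN b ∈ g.N ∧ a < b := by
  have hU : UDef.{u + 1} (fun _ E w => ∃ b, E b (w 0) ∧ E (w 1) b) :=
    UDef.ex ((UDef.mem _ _).and (UDef.mem _ _))
  have := dens hU (l2 hB ha) fun p _ => by
    obtain ⟨b, hb, h⟩ := h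
    refine ⟨p, le_rfl, {oN b}, countable_singleton _, fun g' _ hC hl => ?_⟩
    have hb' : oN b ∈ g'.N := hC rfl
    simp only [List.mem_cons, List.not_mem_nil, or_false, forall_eq_or_imp, forall_eq] at hl
    exact ⟨g'.v (oN b), (oN_mem_sN hb' hl.1).2 hb, (oN_lt hl.2 hb').2 h⟩
  obtain ⟨x, h₁, h₂⟩ := this
  obtain ⟨b, hb, hN, rfl⟩ := (E_sN hB).1 h₁
  exact ⟨b, hb, hN, (oN_lt ha hN).1 h₂⟩

theorem few_On {lam mu : Ω} {O : Ω → Ω → Set P}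
    (hO : ∀ (N : Ω → Set P) (p : P), (∀ i, IsLowerSet (N i)) →
      (∀ i r, (∀ r' ≤ r, ∃ r'' ≤ r', r'' ∈ N i) → r ∈ N i) →
      ∃ q ≤ p, ∃ w < lam, ∀ i < mu, ∀ r ≤ q,
        (r ∈ N i ↔ ∀ r' ≤ r, ∃ r'' ≤ r', ∃ s ∈ O w i, r'' ≤ s))
    (h₁ : On O ∈ g.N) (h₂ : oN lam ∈ g.N) (h₃ : oN mu ∈ g.N) (y : g.M) :
    ∃ w, g.E w (g.v (oN lam)) ∧ ∀ i, g.E i (g.v (oN mu)) →
      (g.E i y ↔ App g.E (g.v (On O)) w i) := by
  obtain ⟨σ, hσ, rfl⟩ := exists_v y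
  have hU : UDef.{u + 1} (fun _ E w => ∃ x, E x (w 1) ∧ ∀ i, E i (w 2) →
      (E i (w 3) ↔ App E (w 0) x i)) :=
    UDef.ex ((UDef.mem _ _).and (UDef.all ((UDef.mem _ _).imp
      ((UDef.mem _ _).iff (UDef.app _ _ _)))))
  refine dens hU (l4 h₁ h₂ h₃ hσ) fun p _ => ?_
  obtain ⟨q, hq, w, hw, H⟩ := hO (fun i => {r | FMem (oN i) σ r}) p
    (fun i r r' hr h => FMem.mono h hr) (fun i r h => FMem.reg h)
  refine ⟨q, hq, {oN w}, countable_singleton _, fun g' hq' hC hl => ?_⟩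
  have hw' : oN w ∈ g'.N := hC rfl
  simp only [List.mem_cons, List.not_mem_nil, or_false, forall_eq_or_imp, forall_eq] at hl
  obtain ⟨k₁, k₂, k₃, k₄⟩ := hl
  refine ⟨g'.v (oN w), (oN_lt hw' k₂).2 hw, fun x hx => ?_⟩
  obtain ⟨i, hi, hN, rfl⟩ := (E_oN k₃).1 hx
  change g'.E (g'.v (oN i)) (g'.v σ) ↔ App g'.E (g'.v (On O)) (g'.v (oN w)) (g'.v (oN i))
  rw [v_mem_iff hN k₄]
  constructor
  · rintro ⟨r, hr, h⟩
    refine dens (UDef.app 0 1 2) (l3 k₁ hw' hN) fun p' hp' => ?_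
    obtain ⟨r₁, hr₁, e₁, e₂⟩ := g'.dir hr hq'
    obtain ⟨r₂, -, e₃, e₄⟩ := g'.dir hr₁ hp'
    obtain ⟨r₃, e₅, s, hs, e₆⟩ := (H i hi r₁ e₂).1 (h.mono e₁) r₂ e₃
    refine ⟨r₃, e₅.trans e₄, ∅, countable_empty, fun g'' hr₃ _ hl => ?_⟩
    simp only [List.mem_cons, List.not_mem_nil, or_false, forall_eq_or_imp, forall_eq] at hl
    exact (app_On hl.1 hl.2.1 hl.2.2).2 ⟨s, hs, g''.up hr₃ e₆⟩
  · intro h
    obtain ⟨s, hs, hG⟩ := (app_On k₁ hw' hN).1 h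
    obtain ⟨r, hr, e₁, e₂⟩ := g'.dir hG hq'
    exact ⟨r, hr, (H i hi r e₂).2 fun r' hr' => ⟨r', le_rfl, s, hs, hr'.trans e₁⟩⟩

end S2

end Pool.Agent.MP_a2558b_lc
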