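import Pool.Agent.MP_c6cf52_lc.Omega1
import Pool.Agent.MP_a2558b_lc.Facts

namespace Pool.Agent.MP_a2558b_lc

open Pool.Agent.MP_c6cf52_lc Name Set

universe u

variable {P : Type u} [Preorder P] [OrderTop P] {Ω : Type u} [LinearOrder Ω] [WellFoundedLT Ω]

theorem wfO : WellFounded (fun a b : Ω => a < b) := wellFounded_lt

/-- The name of the ordinal at position `x`. -/
noncomputable def oN (x : Ω) : Name P := ordN wfO x

/-- The name of a set of ordinals. -/
noncomputable def sN (s : Set Ω) : Name P := setN wfO s

end Pool.Agent.MP_a2558b_lc
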