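import Pool.Agent.MP_a2558b_lc.SemDefs

namespace Pool.Agent.MP_a2558b_lc

open Pool.Agent.MP_c6cf52_lc

universe v

namespace UD

theorem isOrd (i : ℕ) : UDef.{v} (fun _ E w => IsOrd E (w i)) := by
  unfold IsOrd
  repeat' first
    | exact UDef.mem _ _ | exact UDef.eq _ _
    | apply UDef.and | apply UDef.or | apply UDef.imp | apply UDef.all

theorem isCard (i : ℕ) : UDef.{v} (fun _ E w => IsCard E (w i)) := by
  unfold IsCard
  repeat' first
    | exact UDef.mem _ _ | exact UDef.eq _ _ | exact isOrd _ | exact UDef.isInj _ _ _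
    | apply UDef.and | apply UDef.not | apply UDef.imp | apply UDef.all | apply UDef.ex

theorem hasOtp (i j : ℕ) : UDef.{v} (fun _ E w => HasOtp E (w i) (w j)) := by
  unfold HasOtp
  repeat' first
    | exact UDef.mem _ _ | exact UDef.eq _ _ | exact UDef.isFun _ _ _ | exact UDef.app _ _ _
    | apply UDef.and | apply UDef.imp | apply UDef.all | apply UDef.ex

theorem isOmega (i : ℕ) : UDef.{v} (fun _ E w => IsOmega E (w i)) := by
  unfold IsOmega
  repeat' first
    | exact UDef.mem _ _ | exact UDef.eq _ _ | exact isOrd _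
    | apply UDef.and | apply UDef.not | apply UDef.imp | apply UDef.all | apply UDef.ex

theorem isSucc (i j : ℕ) : UDef.{v} (fun _ E w => IsSucc E (w i) (w j)) := by
  unfold IsSucc
  repeat' first
    | exact UDef.mem _ _ | exact UDef.eq _ _ | exact isCard _
    | apply UDef.and | apply UDef.not | apply UDef.imp | apply UDef.all

theorem unb (i j : ℕ) : UDef.{v} (fun _ E w => Unb E (w i) (w j)) := by
  unfold Unb
  repeat' first
    | exact UDef.mem _ _ | exact UDef.eq _ _
    | apply UDef.and | apply UDef.or | apply UDef.imp | apply UDef.all | apply UDef.ex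

theorem cofMap (i j : ℕ) : UDef.{v} (fun _ E w => CofMap E (w i) (w j)) := by
  unfold CofMap
  repeat' first
    | exact UDef.mem _ _ | exact UDef.eq _ _ | exact UDef.isFun _ _ _ | exact UDef.app _ _ _
    | apply UDef.and | apply UDef.or | apply UDef.imp | apply UDef.all | apply UDef.ex

theorem isCof (i j : ℕ) : UDef.{v} (fun _ E w => IsCof E (w i) (w j)) := by
  unfold IsCof
  repeat' first
    | exact UDef.mem _ _ | exact UDef.eq _ _ | exact isOrd _ | exact cofMap _ _
    | apply UDef.and | apply UDef.not | apply UDef.imp | apply UDef.all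

theorem isLimit (i : ℕ) : UDef.{v} (fun _ E w => IsLimit E (w i)) := by
  unfold IsLimit
  repeat' first
    | exact UDef.mem _ _ | exact UDef.eq _ _ | exact isOrd _
    | apply UDef.and | apply UDef.imp | apply UDef.all | apply UDef.ex

theorem isClub (i j : ℕ) : UDef.{v} (fun _ E w => IsClub E (w i) (w j)) := by
  unfold IsClub
  repeat' first
    | exact UDef.mem _ _ | exact UDef.eq _ _ | exact unb _ _
    | apply UDef.and | apply UDef.imp | apply UDef.all | apply UDef.ex

theorem isStat (i j : ℕ) : UDef.{v} (fun _ E w => IsStat E (w i) (w j)) := by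
  unfold IsStat
  repeat' first
    | exact UDef.mem _ _ | exact UDef.eq _ _ | exact isClub _ _
    | apply UDef.and | apply UDef.imp | apply UDef.all | apply UDef.ex

theorem appr (i j : ℕ) : UDef.{v} (fun _ E w => Appr E (w i) (w j)) := by
  unfold Appr
  repeat' first
    | exact UDef.mem _ _ | exact UDef.eq _ _ | exact isLimit _ | exact isCof _ _ | exact unb _ _
    | exact hasOtp _ _ | exact UDef.app _ _ _
    | apply UDef.and | apply UDef.iff | apply UDef.imp | apply UDef.all | apply UDef.ex

theorem inI (i j : ℕ) : UDef.{v} (fun _ E w => InI E (w i) (w j)) := by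
  unfold InI
  repeat' first
    | exact UDef.mem _ _ | exact UDef.eq _ _ | exact isClub _ _ | exact appr _ _
    | exact UDef.isFun _ _ _ | exact UDef.app _ _ _
    | apply UDef.and | apply UDef.imp | apply UDef.all | apply UDef.ex

end UD

end Pool.Agent.MP_a2558b_lc
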