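import Pool.Agent.MP_a2558b_lc.Facts

namespace Pool.Agent.MP_a2558b_lc

open Cardinal Set

universe u

/-- One coordinate of an iteration: points `Pt` with an ideal `null`, terms `T` with an order
`le t' t q` (read: `q` forces `t' ≤ t`), and for every point `a` the set `y a` of allowed terms. -/
structure Crd (α τ Q : Type u) where
  Pt : Set α
  T : Set τ
  null : Set α → Prop
  y : α → Set τ
  le : τ → τ → Q → Prop

/-- `M` is an open subset of `(Lo, R)`. -/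
def OpenIn {Q : Type u} (Lo : Set Q) (R : Q → Q → Prop) (M : Set Q) : Prop :=
  M ⊆ Lo ∧ ∀ q ∈ M, ∀ q' ∈ Lo, R q' q → q' ∈ M

/-- Named directed closure inside `S` for families of size at most `c`. -/
def NDCOn {τ Q : Type u} (le : τ → τ → Q → Prop) (Lo : Set Q) (R : Q → Q → Prop) (tp : Q)
    (S : Set τ) (c : Cardinal.{u}) : Prop :=
  ∀ (ι : Type u) (t : ι → τ) (M : ι → Set Q) (t0 : τ), #ι ≤ c → t0 ∈ S → (∀ i, t i ∈ S) →
    (∀ i, OpenIn Lo R (M i)) → (∀ i, ∀ q ∈ M i, le (t i) t0 q) →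
    (∀ i i', ∀ q ∈ M i, q ∈ M i' → ∃ q' ∈ Lo, R q' q ∧ ∃ k, q' ∈ M k ∧ le (t k) (t i) q' ∧
      le (t k) (t i') q') →
    ∃ s ∈ S, le s t0 tp ∧ ∀ i, ∀ q ∈ M i, le s (t i) q

namespace Crd

variable {α τ Q : Type u} (C : Crd α τ Q) (Lo : Set Q) (R : Q → Q → Prop)

/-- The allowed terms in a state. -/
def car : Option α → Set τ
  | none => C.T
  | some a => C.y a

structure Basic (o : τ) : Prop where
  o_mem : o ∈ C.T
  y_sub : ∀ a ∈ C.Pt, C.y a ⊆ C.T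
  refl : ∀ t ∈ C.T, ∀ q ∈ Lo, C.le t t q
  trans : ∀ a b c, ∀ q ∈ Lo, C.le a b q → C.le b c q → C.le a c q
  mono : ∀ a b, ∀ q ∈ Lo, ∀ q' ∈ Lo, R q' q → C.le a b q → C.le a b q'
  top : ∀ t ∈ C.T, ∀ q ∈ Lo, C.le t o q
  null_empty : C.null ∅
  null_mono : ∀ E E', E' ⊆ E → C.null E → C.null E'
  null_union : ∀ E E', C.null E → C.null E' → C.null (E ∪ E')
  null_pt : ∀ E, C.null (E ∩ C.Pt) → C.null E
  ultra : ∀ E, C.null E ∨ C.null (C.Pt \ E)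
  fine : ∀ t ∈ C.T, C.null {a ∈ C.Pt | t ∉ C.y a}
  normal : ∀ (A : Set α) (f : α → τ), A ⊆ C.Pt → ¬ C.null A → (∀ a ∈ A, f a ∈ C.y a) →
    ∃ t, ¬ C.null {a ∈ A | f a = t}

/-- The ideal is closed under unions of at most `c` sets. -/
def Comp (c : Cardinal.{u}) : Prop :=
  ∀ (ι : Type u) (E : ι → Set α), #ι ≤ c → (∀ i, C.null (E i)) → C.null (⋃ i, E i)

def NDC (tp : Q) (c : Cardinal.{u}) : Prop :=
  NDCOn C.le Lo R tp C.T c ∧ ∀ a ∈ C.Pt, NDCOn C.le Lo R tp (C.y a) c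

/-- Full mixing along disjoint open sets. -/
def Mix (tp : Q) : Prop :=
  ∀ (ι : Type u) (t : ι → τ) (M : ι → Set Q) (t0 : τ), t0 ∈ C.T → (∀ i, t i ∈ C.T) →
    (∀ i, OpenIn Lo R (M i)) → (∀ i, ∀ q ∈ M i, C.le (t i) t0 q) →
    (∀ i i', ∀ q ∈ M i, q ∈ M i' → i = i') →
    ∃ s ∈ C.T, C.le s t0 tp ∧ ∀ i, ∀ q ∈ M i, C.le s (t i) q

/-- The ideal is proper and contains the singletons. -/
def Act : Prop := ¬ C.null C.Pt ∧ ∀ a, C.null {a}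

end Crd

/-- A regular decision relation on `(L, R)`. -/
structure IsNm {Q X : Type u} (L : Set Q) (R : Q → Q → Prop) (dec : Q → X → Prop) : Prop where
  mono : ∀ p ∈ L, ∀ q ∈ L, R q p → ∀ x, dec p x → dec q x
  dense : ∀ p ∈ L, ∃ q ∈ L, R q p ∧ ∃ x, dec q x
  func : ∀ p ∈ L, ∀ x y, dec p x → dec p y → x = y
  reg : ∀ p ∈ L, ∀ x, (∀ q ∈ L, R q p → ∃ r ∈ L, R r q ∧ dec r x) → dec p x

/-- The value of a condition at one coordinate: chosen point, excluded points, term. -/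
@[ext] structure Vl (Ω : Type u) where
  s : Option Ω
  E : Set Ω
  t : Ω

abbrev Cnd (J Ω : Type u) : Type u := J → Vl Ω

abbrev Sys (J Ω : Type u) : Type u := J → Crd Ω Ω (Cnd J Ω)

/-- The set of coordinates on which the order of a coordinate depends. -/
class Base (J : Type u) [LinearOrder J] where
  bs : J → Set J
  low : ∀ j, IsLowerSet (bs j)
  sub : ∀ j, bs j ⊆ Iio j

open Base

section

variable {J Ω : Type u} [Inhabited Ω]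

def vtop : Vl Ω := ⟨none, ∅, default⟩

def ctop : Cnd J Ω := fun _ => vtop

open Classical in
noncomputable def glue (c : Set J) (l p : Cnd J Ω) : Cnd J Ω := fun j => if j ∈ c then l j else p j

noncomputable def res (c : Set J) (p : Cnd J Ω) : Cnd J Ω := glue c p ctop

def strip (p : Cnd J Ω) : Cnd J Ω := fun j => ⟨(p j).s, ∅, (p j).t⟩

def addE (q p : Cnd J Ω) : Cnd J Ω := fun j => ⟨(q j).s, (q j).E ∪ (p j).E, (q j).t⟩

variable (D : Sys J Ω)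

def OkAt (j : J) (v : Vl Ω) : Prop :=
  (∀ a, v.s = some a → a ∈ (D j).Pt) ∧ v.E ⊆ (D j).Pt ∧ (D j).null v.E ∧ v.t ∈ (D j).car v.s

/-- The conditions supported on `c`. -/
def Low (c : Set J) : Set (Cnd J Ω) :=
  {p | (∀ j ∈ c, OkAt D j (p j)) ∧ (∀ j, j ∉ c → p j = vtop) ∧ {j | (p j).s ≠ none}.Finite}

def Keys (c : Set J) : Set (Cnd J Ω) := {p | p ∈ Low D c ∧ ∀ j, (p j).E = ∅}

/-- Direct extension at `j`, forced by the trivial condition. -/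
def TDir (j : J) (q p : Cnd J Ω) : Prop :=
  (q j).s = (p j).s ∧ (p j).E ⊆ (q j).E ∧ (D j).le (q j).t (p j).t ctop

variable [LinearOrder J] [Base J]

def LeAt (j : J) (q p : Cnd J Ω) : Prop :=
  (∀ a, (p j).s = some a → (q j).s = some a) ∧
    (∀ a, (p j).s = none → (q j).s = some a → a ∉ (p j).E) ∧ (p j).E ⊆ (q j).E ∧
      (D j).le (q j).t (p j).t (res (bs j) q)

def Le (c : Set J) (q p : Cnd J Ω) : Prop := ∀ j ∈ c, LeAt D j q p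

/-- Direct extension at `j`. -/
def DirAt (j : J) (q p : Cnd J Ω) : Prop := (q j).s = (p j).s ∧ LeAt D j q p

/-- `q` agrees with `p` on `c` and is a trivially forced direct extension of `p` on `d \ c`. -/
def TExt (c d : Set J) (q p : Cnd J Ω) : Prop :=
  (∀ j ∈ c, q j = p j) ∧ ∀ j ∈ d, j ∉ c → TDir D j q p

def BasicOn (d : Set J) : Prop :=
  ∀ j ∈ d, (D j).Basic (Low D (bs j)) (Le D (bs j)) default

def Cl (j : J) (c : Cardinal.{u}) : Prop :=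
  (D j).Comp c ∧ (D j).NDC (Low D (bs j)) (Le D (bs j)) ctop c

def MixCut (c d : Set J) : Prop :=
  ∀ j ∈ d, j ∉ c → c ⊆ bs j ∧ (Cl D j #(Low D c) ∨
    ((D j).Pt = ∅ ∧ (D j).Mix (Low D (bs j)) (Le D (bs j)) ctop))

end

/-! ### Levels -/

abbrev JJ (Θ : Type u) : Type u := Θ ×ₗ WithTop Θ

section

variable {Θ : Type u}

def lev (A : Set Θ) : Set (JJ Θ) := {j | (ofLex j).1 ∈ A}

def pt (β i : Θ) : JJ Θ := toLex (β, (i : WithTop Θ))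

def cc (β : Θ) : JJ Θ := toLex (β, ⊤)

variable [LinearOrder Θ]

def levC (β : Θ) : Set (JJ Θ) := Iio (cc β)

theorem lev_lower {A : Set Θ} (h : IsLowerSet A) : IsLowerSet (lev A) := by
  intro a b hba ha
  exact h (Prod.Lex.monotone_fst_ofLex hba) ha

open Classical in
noncomputable instance : Base (JJ Θ) where
  bs j := if (ofLex j).2 = ⊤ then Iio j else lev (Iio (ofLex j).1)
  low j := by
    split_ifs
    exacts [isLowerSet_Iio j, lev_lower (isLowerSet_Iio _)]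
  sub j := by
    split_ifs
    · exact Subset.rfl
    · intro i hi
      exact Prod.Lex.lt_iff.2 (Or.inl hi)

end

/-- The large cardinals and the bookkeeping of ordinals. -/
structure Ctx (Θ Ω : Type u) [LinearOrder Θ] [LinearOrder Ω] where
  κ : Θ → Cardinal.{u}
  lb : Θ → Cardinal.{u}
  sc : ∀ β, Supercompact (κ β)
  inacc : ∀ β, (κ β).IsInaccessible
  κ_mono : StrictMono κ
  ct : ∀ β : Θ, (Iio β).Countable
  unc : Uncountable Θ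
  mk_Θ : #Θ = ℵ₁
  lb_eq : ∀ β, lb β = ℵ₁ + sum fun γ : Iio β => κ γ
  lb_lt : ∀ β, Order.succ (lb β) < κ β
  w1 : Ω
  lam : Ω
  th : Θ → Ω
  kap : Θ → Ω
  mu : Θ → Ω
  th_mono : StrictMono th
  th_range : range th = Iio w1
  mk_kap : ∀ β, #(Iio (kap β)) = κ β
  kap_init : ∀ β, ∀ x < kap β, #(Iio x) < κ β
  mk_mu : ∀ β, #(Iio (mu β)) = Order.succ (lb β)
  mu_init : ∀ β, ∀ x < mu β, #(Iio x) ≤ lb β
  mu_bdd : ∀ β, ∀ Z ⊆ Iio (mu β), #Z ≤ lb β → ∃ b < mu β, ∀ z ∈ Z, z < b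
  w1_mu : ∀ β, w1 < mu β
  mu_kap : ∀ β, mu β < kap β
  kap_mu : ∀ β γ, β < γ → kap β < mu γ
  kap_lam : ∀ β, kap β < lam
  lam_cof : ∀ x < lam, ∃ β, x < kap β
  mk_lam : #(Iio lam) = sum κ
  small : ∀ x : Ω, #(Iio x) ≤ sum κ
  top_bdd : ∀ Z : Set Ω, #Z ≤ sum κ → ∃ b, ∀ z ∈ Z, z < b
  sing : ∀ x, w1 < x → x < lam → (∃ β, x = mu β) ∨
    (∃ z < x, ∃ f : Ω → Ω, (∀ i < z, f i < x) ∧ ∀ b < x, ∃ i < z, b ≤ f i) ∨
      ∃ β, mu β < x ∧ #(Iio x) ≤ κ β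
  Dr : Θ → Ω → Ω → Prop
  Dr_lt : ∀ m a b, Dr m a b → a < b
  Dr_trans : ∀ m a b c, Dr m a b → Dr m b c → Dr m a c
  Dr_mono : ∀ m m' a b, m ≤ m' → Dr m a b → Dr m' a b
  Dr_total : ∀ a b, a < b → ∃ m, Dr m a b
  Dr_card : ∀ m b, #{a | Dr m a b} ≤ κ m

section

variable {Θ Ω : Type u} [LinearOrder Θ] [LinearOrder Ω] [Inhabited Ω] (X : Ctx Θ Ω)

/-- The amount of closure of the coordinate `(β, i)`. -/
noncomputable def clo (D : Sys (JJ Θ) Ω) (β : Θ) (k : Θ → Cardinal.{u}) (i : Θ) : Cardinal.{u} :=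
  #(Low D (lev (Iio β))) + Order.succ (X.lb β) + sum fun i' : Iio i => k i'

/-- The point coordinates of level `β` are valid. -/
structure NOK (D : Sys (JJ Θ) Ω) (β : Θ) (k : Θ → Cardinal.{u}) : Prop where
  basic : ∀ i, (D (pt β i)).Basic (Low D (lev (Iio β))) (Le D (lev (Iio β))) default
  kmono : Monotone k
  kpow : ∀ i, k i ^ ℵ₀ ≤ k i
  klow : ∀ i, #(Low D (lev (Iio β))) ≤ k i
  kmu : ∀ i, Order.succ (X.lb β) ≤ k i
  klt : ∀ i, k i < X.κ β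
  size : ∀ i, #(D (pt β i)).Pt ≤ k i ∧ #(D (pt β i)).T ≤ k i
  comp : ∀ i, (D (pt β i)).Comp (clo X D β k i)
  ndc : ∀ i, (D (pt β i)).NDC (Low D (lev (Iio β))) (Le D (lev (Iio β))) ctop (clo X D β k i)
  act : ∀ i, β < i → (D (pt β i)).Act

/-- `C` is a collapse coordinate for level `β` over `(L, R)`. -/
structure COK (β : Θ) (C : Crd Ω Ω (Cnd (JJ Θ) Ω)) (L : Set (Cnd (JJ Θ) Ω))
    (R : Cnd (JJ Θ) Ω → Cnd (JJ Θ) Ω → Prop) : Prop where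
  basic : C.Basic L R default
  pt_eq : C.Pt = ∅
  null_all : ∀ E, C.null E
  ndc : C.NDC L R ctop (X.lb β)
  mix : C.Mix L R ctop
  size : #C.T ≤ X.κ β
  col : ∃ val : Ω → Ω → Cnd (JJ Θ) Ω → Ω → Prop,
    (∀ t t' i ξ ξ', ∀ q ∈ L, ∀ q' ∈ L, t ∈ C.T → t' ∈ C.T → R q' q → val t i q ξ → C.le t' t q' →
      val t' i q' ξ' → ξ = ξ') ∧
    (∀ t ∈ C.T, ∀ q ∈ L, ∀ ξ < X.kap β, ∃ q' ∈ L, R q' q ∧ ∃ t' ∈ C.T, ∃ i < X.mu β,
      C.le t' t q' ∧ val t' i q' ξ) ∧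
    ∀ t ∈ C.T, ∀ q ∈ L, ∀ i < X.mu β, ∃ q' ∈ L, R q' q ∧ ∃ t' ∈ C.T, ∃ ξ,
      C.le t' t q' ∧ val t' i q' ξ

def LevelOK (D : Sys (JJ Θ) Ω) (β : Θ) (k : Θ → Cardinal.{u}) : Prop :=
  NOK X D β k ∧ COK X β (D (cc β)) (Low D (levC β)) (Le D (levC β))

def Valid (D : Sys (JJ Θ) Ω) (A : Set Θ) : Prop := ∀ β ∈ A, ∃ k, LevelOK X D β k

/-- `B` witnesses that `d` is a bad point for the cardinals `k`. -/
structure BProp (β : Θ) (k : Θ → Cardinal.{u}) (B : Set Ω) (d : Ω) : Prop where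
  sub : B ⊆ Iio d
  ne : B.Nonempty
  cof : ∀ a < d, ∃ b ∈ B, a < b
  bdd : ∀ Z ⊆ B, #Z ≤ sum k → ∃ b ∈ B, ∀ z ∈ Z, z < b
  pred : ∀ m, ∀ b ∈ B, #{a | a ∈ B ∧ X.Dr m a b} ≤ k m
  size : #B ≤ X.κ β

def SS (D : Sys (JJ Θ) Ω) (β : Θ) : Set Ω := {d | ∃ k B, LevelOK X D β k ∧ BProp X β k B d}

def Stat (D : Sys (JJ Θ) Ω) (β : Θ) : Prop :=
  ∀ ζ : Ω → Cnd (JJ Θ) Ω → Ω → Prop, (∀ a, IsNm (Low D univ) (Le D univ) (ζ a)) →
    ∀ p ∈ Low D univ, ∃ r ∈ Low D univ, Le D univ r p ∧ ∃ d ∈ SS X D β,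
      ∀ a < d, ∀ r' ∈ Low D univ, Le D univ r' r → ∀ x, ζ a r' x → x < d

end

end Pool.Agent.MP_a2558b_lc
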