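import Pool.Agent.MP_a2558b_lc.Seg
import Pool.Agent.MP_a2558b_lc.Arith

namespace Pool.Agent.MP_a2558b_lc

open Cardinal hiding univ
open Set Base

universe u

variable {Θ Ω : Type u} [LinearOrder Θ] [WellFoundedLT Θ] [LinearOrder Ω] [WellFoundedLT Ω]
  [Inhabited Ω] {X : Ctx Θ Ω} {D : Sys (JJ Θ) Ω} {β : Θ} {k : Θ → Cardinal.{u}}

omit [WellFoundedLT Θ] in
theorem tail_pt_of {j : JJ Θ} (hj : j ∈ levC β) (hc : j ∉ lev (Iio β)) : ∃ i, j = pt β i :=
  (mem_levC.1 hj).resolve_left hc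

theorem tail_mk_keys (hV : Valid X D (Iio β)) (hk : NOK X D β k) (i : Θ) :
    #{w : JJ Θ × Cnd (JJ Θ) Ω | w.1 ∈ levC β ∧ w.1 ∉ lev (Iio β) ∧ w.1 < pt β i ∧
      w.2 ∈ Keys D (Iic w.1)} ≤ clo X D β k i := by
  refine le_trans ?_ (le_add_self : (sum fun i' : Iio i => k i') ≤ clo X D β k i)
  refine le_trans ?_ (sum_le_sum _ _ fun i' : Iio i => mk_keys_pt hV hk i'.1)
  rw [← mk_sigma]
  refine le_trans (mk_le_mk_of_subset (t := range fun z : Σ i' : Iio i, Keys D (Iic (pt β i'.1)) =>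
    ((pt β z.1.1, z.2.1) : JJ Θ × Cnd (JJ Θ) Ω)) ?_) mk_range_le
  rintro ⟨j, q⟩ ⟨h₁, h₂, h₃, h₄⟩
  obtain ⟨i', rfl⟩ := tail_pt_of h₁ h₂
  have hi : i' < i := by
    rcases pt_lt_pt.1 h₃ with h | h
    exacts [absurd h (lt_irrefl _), h.2]
  exact ⟨⟨⟨i', hi⟩, q, h₄⟩, rfl⟩

theorem seg_tail_fam (hV : Valid X D (Iio β)) (hk : NOK X D β k) {ι Z : Type u} [Nonempty Z]
    (hZ : #Z ≤ Order.succ (X.lb β)) (hι : #ι ≤ Order.succ (X.lb β))
    (dec : ι → Cnd (JJ Θ) Ω → Z → Prop)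
    (hn : ∀ i, IsNm (Low D (levC β)) (Le D (levC β)) (dec i))
    {p : Cnd (JJ Θ) Ω} (hp : p ∈ Low D (levC β)) :
    ∃ p' ∈ Low D (levC β), TExt D (lev (Iio β)) (levC β) p' p ∧
      ∀ i, ∀ l ∈ Low D (lev (Iio β)), Le D (lev (Iio β)) l p →
        ∃ l' ∈ Low D (lev (Iio β)), Le D (lev (Iio β)) l' l ∧
          ∃ x, dec i (glue (lev (Iio β)) l' p') x := by
  have hB := basicOn_levC hV hk
  refine tail_fam (levIio_lower β) (levC_lower β) (levIio_sub_levC β) hB dec hn ?_ ?_ hp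
  · intro j hj hc
    obtain ⟨i, rfl⟩ := tail_pt_of hj hc
    exact (cl_pt hk i).anti (hι.trans (mu_le_clo i))
  · intro i q hq
    refine seg_tail (levIio_lower β) (levC_lower β) (levIio_sub_levC β) hB ?_ (dec i) (hn i)
      ?_ ?_ ?_ ?_ hq
    all_goals
      intro j hj hc
      obtain ⟨i', rfl⟩ := tail_pt_of hj hc
    · exact bs_pt β i'
    · exact (hk.comp i').anti (hZ.trans (mu_le_clo i'))
    · exact (comp_pt hk i').anti (mk_low_Iio_pt hk i')
    · exact (cl_pt hk i').anti (tail_mk_keys hV hk i')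
    · exact (cl_pt hk i').anti (low_le_clo i')

/-- `l` has an extension which is direct above the cut `e` and decides the value `x`. -/
def TailG (D : Sys (JJ Θ) Ω) {Z : Type u} (dec : Cnd (JJ Θ) Ω → Z → Prop) (p : Cnd (JJ Θ) Ω)
    (e : Set (JJ Θ)) (l : Cnd (JJ Θ) Ω) (x : Z) : Prop :=
  ∃ r ∈ Low D univ, res e r = l ∧ (∀ j, j ∉ e → DirAt D j r p) ∧ dec r x

omit [WellFoundedLT Θ] [LinearOrder Ω] [WellFoundedLT Ω] in
theorem TailG.mono (hB : BasicOn D univ) {Z : Type u} {dec : Cnd (JJ Θ) Ω → Z → Prop}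
    (hn : IsNm (Low D univ) (Le D univ) dec) {p l l' : Cnd (JJ Θ) Ω} {e : Set (JJ Θ)}
    (he : IsLowerSet e) {x : Z} (h : TailG D dec p e l x) (hl' : l' ∈ Low D e)
    (hle : Le D e l' l) : TailG D dec p e l' x := by
  obtain ⟨r, hr, rfl, h₁, h₂⟩ := h
  have hm := glue_mem' hl' (subset_univ e) hr
  have hg : Le D univ (glue e l' r) r :=
    glue_le isLowerSet_univ hB he hm ((le_res_right he Subset.rfl).1 hle)
  refine ⟨glue e l' r, hm, (res_glue Subset.rfl).trans (res_eq_self hl'), fun j hj => ?_,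
    hn.mono _ hr _ hm hg _ h₂⟩
  refine ⟨by rw [glue_of_notMem hj]; exact (h₁ j hj).1, ?_⟩
  exact LeAt.trans isLowerSet_univ hB (mem_univ j) hr hm (hg.anti (subset_univ _))
    (hg j (mem_univ j)) (h₁ j hj).2

/-- One level of the tail argument. -/
theorem tail_level (hV : Valid X D univ) {Z : Type u} (β : Θ) (hZ : #Z ≤ Order.succ (X.lb β))
    {dec : Cnd (JJ Θ) Ω → Z → Prop} (hn : IsNm (Low D univ) (Le D univ) dec)
    {p : Cnd (JJ Θ) Ω} (hp : p ∈ Low D univ) :
    ∃ n ∈ Low D (levC β), (∀ j ∈ levC β, j ∉ lev (Iio β) → TDir D j n p) ∧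
      ∀ l ∈ Low D (levC β), (∀ j ∈ levC β, j ∉ lev (Iio β) → LeAt D j l n) →
        ∀ x, TailG D dec p (levC β) l x →
          ∃ l' ∈ Low D (lev (Iio β)), Le D (lev (Iio β)) l' l ∧
            ∃ x', TailG D dec p (lev (Iio β)) l' x' := by
  obtain ⟨k, hk⟩ := hV β (mem_univ β)
  have hB := basicOn_univ hV
  have hV' : Valid X D (Iio β) := hV.anti (subset_univ _)
  have hC := levC_lower β
  have hE := levIio_lower β
  have hEC := levIio_sub_levC β
  have hBC : BasicOn D (levC β) := hB.anti (subset_univ _)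
  have hBE : BasicOn D (lev (Iio β)) := hB.anti (subset_univ _)
  let Φ : Cnd (JJ Θ) Ω → Option Z → Prop := fun q o =>
    match o with
    | some x => TailG D dec p (levC β) q x
    | none => ∀ q' ∈ Low D (levC β), Le D (levC β) q' q → ∀ x, ¬ TailG D dec p (levC β) q' x
  obtain ⟨dec', hn', H⟩ := exists_nm (refl_on hC hBC) (trans_on hC hBC) Φ
    (by
      rintro q hq q' hq' h (_ | x) hx
      · exact fun s hs h' => hx s hs (Le.trans hC hBC hq' hs h' h)
      · exact TailG.mono hB hn hC hx hq' h) ctop (ctop_mem hBC)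
    (by
      intro q hq _
      by_cases h : ∀ q' ∈ Low D (levC β), Le D (levC β) q' q → ∀ x, ¬ TailG D dec p (levC β) q' x
      · exact ⟨q, hq, Le.refl hC hBC hq, none, h⟩
      · push Not at h
        obtain ⟨q', hq', h, x, hx⟩ := h
        exact ⟨q', hq', h, some x, hx⟩)
  have hinf : ℵ₀ ≤ Order.succ (X.lb β) := (X.aleph0_le_lb β).trans (Order.le_succ _)
  have hO : #(Option Z) ≤ Order.succ (X.lb β) := by
    rw [mk_option]
    exact (add_le_add hZ (one_le_aleph0.trans hinf)).trans (add_eq_self hinf).le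
  have hp0 : glue (lev (Iio β)) ctop (res (levC β) p) ∈ Low D (levC β) :=
    glue_mem (ctop_mem hBC) (res_mem hp (subset_univ _))
  obtain ⟨n, hnm, hT, hdec⟩ := seg_tail_fam hV' hk.1 (ι := PUnit.{u + 1}) hO
    (by rw [mk_punit]; exact one_le_aleph0.trans hinf) (fun _ => dec') (fun _ => hn') hp0
  have hTD : ∀ j ∈ levC β, j ∉ lev (Iio β) → TDir D j n p := fun j hj hc =>
    (tdir_congr rfl ((glue_of_notMem hc).trans (res_of_mem hj))).1 (hT.2 j hj hc)
  refine ⟨n, hnm, hTD, fun l hl hln x hx => ?_⟩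
  have hl1 : res (lev (Iio β)) l ∈ Low D (lev (Iio β)) := res_mem hl hEC
  obtain ⟨l', hl', h₁, o, ho⟩ := hdec PUnit.unit _ hl1
    ((le_glue_right hE Subset.rfl).2 (le_ctop hE hBE hl1))
  have h₁' : Le D (lev (Iio β)) l' l := (le_res_right hE Subset.rfl).1 h₁
  have hq : glue (lev (Iio β)) l' n ∈ Low D (levC β) := glue_mem' hl' hEC hnm
  have H' := H _ hq (le_ctop hC hBC hq) o ho
  refine ⟨l', hl', h₁', ?_⟩
  cases o with
  | none =>
    have hq' : glue (lev (Iio β)) l' l ∈ Low D (levC β) := glue_mem' hl' hEC hl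
    obtain ⟨r, hr, h₂, h₃⟩ := H' _ hq' (glue_le_glue' hC hBC hE hEC hl' hl h₁' hln)
    exact absurd (TailG.mono hB hn hC hx hr
      (Le.trans hC hBC hq' hr h₂ (glue_le hC hBC hE hq' h₁'))) (h₃ r hr (Le.refl hC hBC hr) x)
  | some x' =>
    obtain ⟨p'', hp'', hT', hd⟩ := full_mix hC isLowerSet_univ (subset_univ _) hB
      (mixCut_levC hV β) (fun r => dec r x') (fun r hr r' hr' h h' => hn.mono r hr r' hr' h _ h')
      hp (glue (lev (Iio β)) l' n) (by
        intro l2 hl2 h₂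
        obtain ⟨r', -, h₃, r, hr, rfl, h₄, h₅⟩ := H' l2 hl2 h₂
        exact ⟨r, hr, (le_res_left hC Subset.rfl).1 h₃, fun j _ hj => h₄ j hj, h₅⟩)
    have hr : glue (levC β) (glue (lev (Iio β)) l' n) p'' ∈ Low D univ :=
      glue_mem' hq (subset_univ _) hp''
    refine ⟨x', _, hr, (res_glue hEC).trans ((res_glue Subset.rfl).trans (res_eq_self hl')),
      fun j hj => ?_, hn.reg _ hr _ fun s hs h => ?_⟩
    · refine TDir.dirAt isLowerSet_univ hB (mem_univ j) hr ?_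
      by_cases e : j ∈ levC β
      · exact (tdir_congr ((glue_of_mem e).trans (glue_of_notMem hj)) rfl).2 (hTD j e hj)
      · exact (tdir_congr (glue_of_notMem e) rfl).2 (hT'.2 j (mem_univ j) e)
    · obtain ⟨l3, hl3, h₂, h₃⟩ := hd _ (res_mem hs (subset_univ _))
        ((le_res_left hC Subset.rfl).2 ((le_glue_right hC Subset.rfl).1 (h.anti (subset_univ _))))
      have h₂' : Le D (levC β) l3 s := (le_res_right hC Subset.rfl).1 h₂
      have hs' : glue (levC β) l3 s ∈ Low D univ := glue_mem' hl3 (subset_univ _) hs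
      refine ⟨_, hs', glue_le isLowerSet_univ hB hC hs' h₂', hn.mono _
        (glue_mem' hl3 (subset_univ _) hp'') _ hs' ?_ _ h₃⟩
      exact glue_le_glue' isLowerSet_univ hB hC (subset_univ _) hl3 hs h₂' fun j hj e =>
        (leAt_congr rfl (fun _ _ => rfl) (glue_of_notMem e)).1 (h j hj)

theorem tail_core (hV : Valid X D univ) {A : Set Θ} (hA : IsLowerSet A) {Z : Type u}
    (hZ : ∀ β, β ∉ A → #Z ≤ Order.succ (X.lb β)) {dec : Cnd (JJ Θ) Ω → Z → Prop}
    (hn : IsNm (Low D univ) (Le D univ) dec) {p : Cnd (JJ Θ) Ω} (hp : p ∈ Low D univ)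
    {l0 : Cnd (JJ Θ) Ω} (hl0 : l0 ∈ Low D (lev A)) :
    ∃ r ∈ Low D univ, Le D (lev A) r l0 ∧ (∀ j ∈ univ, j ∉ lev A → DirAt D j r p) ∧
      ∃ x, dec r x := by
  classical
  by_contra hcon
  have hB := basicOn_univ hV
  have hc := lev_lower hA
  have key : ∀ β, ∃ n, β ∉ A → n ∈ Low D (levC β) ∧
      (∀ j ∈ levC β, j ∉ lev (Iio β) → TDir D j n p) ∧
      ∀ l ∈ Low D (levC β), (∀ j ∈ levC β, j ∉ lev (Iio β) → LeAt D j l n) →
        ∀ x, TailG D dec p (levC β) l x →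
          ∃ l' ∈ Low D (lev (Iio β)), Le D (lev (Iio β)) l' l ∧
            ∃ x', TailG D dec p (lev (Iio β)) l' x' := by
    intro β
    by_cases h : β ∈ A
    · exact ⟨p, fun h' => absurd h h'⟩
    · obtain ⟨n, hn', H⟩ := tail_level hV β (hZ β h) hn hp
      exact ⟨n, fun _ => ⟨hn', H⟩⟩
  choose n hN using key
  let u : Cnd (JJ Θ) Ω := fun j => if j ∈ levC (ofLex j).1 then n (ofLex j).1 j else p j
  have u_pt : ∀ β i, u (pt β i) = n β (pt β i) := fun β i => if_pos (pt_mem_levC.2 le_rfl)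
  have u_cc : ∀ β, u (cc β) = p (cc β) := fun β => if_neg fun h => lt_irrefl _ (cc_mem_levC.1 h)
  have hnot : ∀ β i : Θ, pt β i ∉ lev (Iio β) := fun β i h => lt_irrefl β h
  let ps : Cnd (JJ Θ) Ω := glue (lev A) l0 u
  have hTD : ∀ j, j ∉ lev A → TDir D j ps p ∧ OkAt D j (ps j) := by
    intro j hj
    have e : ps j = u j := glue_of_notMem hj
    rcases JJ_cases j with ⟨β, i, rfl⟩ | ⟨β, rfl⟩
    · have h := hN β hj
      refine ⟨(tdir_congr (e.trans (u_pt β i)) rfl).2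
        (h.2.1 _ (pt_mem_levC.2 le_rfl) (hnot β i)), ?_⟩
      rw [e, u_pt]
      exact h.1.1 _ (pt_mem_levC.2 le_rfl)
    · refine ⟨(tdir_congr (e.trans (u_cc β)) rfl).2
        (TDir.refl isLowerSet_univ hB (mem_univ _) hp rfl), ?_⟩
      rw [e, u_cc]
      exact hp.1 _ (mem_univ _)
  have hps : ps ∈ Low D univ := by
    refine ⟨fun j _ => ?_, fun j hj => absurd (mem_univ j) hj,
      (hl0.2.2.union hp.2.2).subset fun j hj => ?_⟩
    · by_cases e : j ∈ lev A
      · rw [show ps j = l0 j from glue_of_mem e]; exact hl0.1 j e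
      · exact (hTD j e).2
    · by_cases e : j ∈ lev A
      · left; rwa [mem_ofPred_eq, show ps j = l0 j from glue_of_mem e] at hj
      · right; rwa [mem_ofPred_eq, (hTD j e).1.1] at hj
  have down : ∀ B : Set Θ, IsLowerSet B → A ⊆ B →
      (∀ γ ∈ B, γ ∉ A → ∀ l ∈ Low D (levC γ), Le D (levC γ) l ps →
        ∀ x, ¬ TailG D dec p (levC γ) l x) →
      ∀ r ∈ Low D univ, Le D (lev B) r ps → (∀ j, j ∉ lev B → DirAt D j r p) →
        ∀ x, ¬ dec r x := by
    intro B hBl hAB ih r hr h₁ h₂ x hx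
    by_cases hBA : B ⊆ A
    · obtain rfl : A = B := hAB.antisymm hBA
      exact hcon ⟨r, hr, (le_glue_right hc Subset.rfl).1 h₁, fun j _ hj => h₂ j hj, x, hx⟩
    obtain ⟨γ0, hγB, hγA⟩ := not_subset.1 hBA
    have hfin : (insert γ0 ((fun j : JJ Θ => (ofLex j).1) ''
        ({j | (r j).s ≠ none} ∩ lev B))).Finite :=
      ((hr.2.2.inter_of_left _).image _).insert γ0
    obtain ⟨γ, hγ, hmax⟩ := hfin.exists_maximal ⟨γ0, mem_insert _ _⟩
    have hmax' : ∀ y ∈ insert γ0 ((fun j : JJ Θ => (ofLex j).1) ''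
        ({j | (r j).s ≠ none} ∩ lev B)), y ≤ γ := fun y hy =>
      (le_total y γ).elim id fun h => hmax hy h
    have hγB' : γ ∈ B := by
      rcases hγ with rfl | ⟨j, hj, rfl⟩
      exacts [hγB, hj.2]
    have hγA' : γ ∉ A := fun h => hγA (hA (hmax' γ0 (mem_insert _ _)) h)
    have hsub : levC γ ⊆ lev B :=
      (levC_sub_levIic γ).trans (lev_mono fun y hy => hBl hy hγB')
    refine ih γ hγB' hγA' _ (res_mem hr (subset_univ _))
      ((le_res_left (levC_lower γ) Subset.rfl).2 (h₁.anti hsub)) x ⟨r, hr, rfl, fun j hj => ?_, hx⟩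
    by_cases e : j ∈ lev B
    swap
    · exact h₂ j e
    have hjA : j ∉ lev A := by
      intro h
      refine hj (levIio_sub_levC γ (lev_mono (fun y hy => ?_) h))
      exact lt_of_not_ge fun h' => hγA' (hA h' hy)
    have hle : LeAt D j r p :=
      (h₁ j e).trans_tdir isLowerSet_univ hB (mem_univ j) hr (hTD j hjA).1
    have hs : (r j).s = none := by
      by_contra hs
      rcases JJ_cases j with ⟨β, i, rfl⟩ | ⟨β, rfl⟩
      · exact hj (pt_mem_levC.2 (hmax' β (mem_insert_of_mem _ ⟨_, ⟨hs, e⟩, rfl⟩)))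
      · obtain ⟨k, hk⟩ := hV β (mem_univ β)
        obtain ⟨a, ha⟩ := Option.ne_none_iff_exists'.1 hs
        have := (hr.1 _ (mem_univ _)).1 a ha
        rw [hk.2.pt_eq] at this
        exact this
    refine ⟨?_, hle⟩
    cases e' : (p j).s with
    | none => exact hs
    | some a => rw [hle.1 a e']
  have hb : ∀ γ, γ ∉ A → ∀ l ∈ Low D (levC γ), Le D (levC γ) l ps →
      ∀ x, ¬ TailG D dec p (levC γ) l x := by
    intro β
    induction β using WellFoundedLT.induction with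
    | _ β ih =>
    intro hβ l hl h x hx
    have hAβ : A ⊆ Iio β := fun y hy => lt_of_not_ge fun h' => hβ (hA h' hy)
    obtain ⟨l', hl', h₁, x', r, hr, rfl, h₂, h₃⟩ := (hN β hβ).2.2 l hl (fun j hj hc' => by
      obtain ⟨i, rfl⟩ := tail_pt_of hj hc'
      exact (leAt_congr rfl (fun _ _ => rfl)
        ((glue_of_notMem (show pt β i ∉ lev A from hβ)).trans (u_pt β i))).1 (h _ hj)) x hx
    refine down (Iio β) (isLowerSet_Iio β) hAβ (fun γ hγ => ih γ hγ) r hr ?_ h₂ x' h₃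
    have hE := levIio_lower β
    have hl1 : res (lev (Iio β)) l ∈ Low D (lev (Iio β)) := res_mem hl (levIio_sub_levC β)
    exact (le_res_left hE Subset.rfl).1 (Le.trans hE (hB.anti (subset_univ _)) hl1 hl'
      ((le_res_right hE Subset.rfl).2 h₁)
      ((le_res_left hE Subset.rfl).2 (h.anti (levIio_sub_levC β))))
  obtain ⟨r, hr, h₁, x, hx⟩ := hn.dense ps hps
  exact down univ isLowerSet_univ (subset_univ A) (fun γ _ => hb γ) r hr h₁
    (fun j hj => absurd (mem_univ j) hj) x hx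

/-- The tail of the iteration adds no new small sequences. -/
theorem tail (hV : Valid X D univ) {A : Set Θ} (hA : IsLowerSet A) {ι Z : Type u} [Nonempty Z]
    (hZ : ∀ β, β ∉ A → #Z ≤ Order.succ (X.lb β)) (hι : ∀ β, β ∉ A → #ι ≤ X.lb β)
    (dec : ι → Cnd (JJ Θ) Ω → Z → Prop) (hn : ∀ i, IsNm (Low D univ) (Le D univ) (dec i))
    {p : Cnd (JJ Θ) Ω} (hp : p ∈ Low D univ) :
    ∃ p' ∈ Low D univ, TExt D (lev A) univ p' p ∧
      ∀ i, ∀ l ∈ Low D (lev A), Le D (lev A) l p →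
        ∃ l' ∈ Low D (lev A), Le D (lev A) l' l ∧ ∃ x, dec i (glue (lev A) l' p') x := by
  have hB := basicOn_univ hV
  have hc := lev_lower hA
  refine tail_fam hc isLowerSet_univ (subset_univ _) hB dec hn
    (fun j _ hj => (cl_lb hV (mem_univ j)).anti (hι _ hj)) (fun i q hq => ?_) hp
  exact full_mix hc isLowerSet_univ (subset_univ _) hB (mixCut_lev hV hA)
    (fun r => ∃ x, dec i r x)
    (fun r hr r' hr' h ⟨x, hx⟩ => ⟨x, (hn i).mono r hr r' hr' h x hx⟩) hq q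
    fun l hl _ => tail_core hV hA hZ (hn i) hq hl

end Pool.Agent.MP_a2558b_lc
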